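import Pool.Agent.H13.PC.Fd
import Pool.Agent.H13.TA.RecB
import Pool.Agent.H13.TA.PtB

/-!
# PC-BR: the recurrence for the number of complete effective divisors

`cpt f e r` = number of the points of the complete curve over the field with `q ^ r` elements. With `A = ∑ an n X ^ n`,
`B = ∑ bn n X ^ n`, `B ∏ (1 - X ^ (e i)) = A` (`bn_an`). `X A' = (∑ npt r X ^ r) A` (`H13.TA.recB`, `H13.TA.pts`). The logarithmic derivative:
`X B' ∏ (1 - X ^ (e i)) = X A' + B ∑_j e j X ^ (e j) ∏_(i ≠ j) (1 - X ^ (e i))`; multiply by `∏ (1 - X ^ (e i))` and use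
`e j X ^ (e j) = (1 - X ^ (e j)) ∑_(r ≥ 1, e j ∣ r) e j X ^ r`: `X B' = (∑ cpt r X ^ r) B`. (Or: complete effective divisors are the finitely supported
functions on the disjoint union of the primes `≠ 0` and `Fin m`, and `H13.TA.recA`, as in `TA/RecB.lean`.)
-/

set_option autoImplicit false

open Polynomial

noncomputable section

namespace H13.PC

/-- number of points of the complete curve -/
def cpt {F : Type} [Field F] {m : ℕ} (f : F[X][X]) (e : Fin m → ℕ) (r : ℕ) : ℕ :=
  H13.TA.npt f r + ∑ i, if e i ∣ r then e i else 0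

variable {F : Type} [Field F] {m : ℕ} {f : F[X][X]}

/-- `X` times the derivative -/
private def dl (G : PowerSeries ℤ) : PowerSeries ℤ := PowerSeries.mk fun n => (n : ℤ) * PowerSeries.coeff n G

private theorem dl_mul (G H : PowerSeries ℤ) : dl (G * H) = dl G * H + G * dl H := by
  ext n
  unfold dl
  rw [map_add, PowerSeries.coeff_mk, PowerSeries.coeff_mul, PowerSeries.coeff_mul, PowerSeries.coeff_mul,
    Finset.mul_sum, ← Finset.sum_add_distrib]
  refine Finset.sum_congr rfl fun ij hij => ?_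
  rw [PowerSeries.coeff_mk, PowerSeries.coeff_mk]
  have h1 : ij.1 + ij.2 = n := Finset.HasAntidiagonal.mem_antidiagonal.1 hij
  rw [← h1]
  push_cast
  ring

/-- a series without constant term -/
private def sr (a : ℕ → ℤ) : PowerSeries ℤ := PowerSeries.mk fun r => if r = 0 then 0 else a r

private theorem sr_mul (a : ℕ → ℤ) (G : PowerSeries ℤ) (n : ℕ) :
    PowerSeries.coeff n (sr a * G) = ∑ r ∈ Finset.Icc 1 n, a r * PowerSeries.coeff (n - r) G := by
  rw [PowerSeries.coeff_mul,
    Finset.Nat.sum_antidiagonal_eq_sum_range_succ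
      (fun i j => PowerSeries.coeff i (sr a) * PowerSeries.coeff j G) n]
  symm
  have h0 : ∑ r ∈ Finset.Icc 1 n, a r * PowerSeries.coeff (n - r) G =
      ∑ r ∈ Finset.Icc 1 n, PowerSeries.coeff r (sr a) * PowerSeries.coeff (n - r) G := by
    refine Finset.sum_congr rfl fun r hr => ?_
    unfold sr
    rw [PowerSeries.coeff_mk, if_neg]
    have := (Finset.mem_Icc.1 hr).1
    omega
  rw [h0]
  refine Finset.sum_subset ?_ ?_
  · intro r hr
    have := (Finset.mem_Icc.1 hr).2
    exact Finset.mem_range.2 (by omega)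
  · intro r hr hr'
    have h1 := Finset.mem_range.1 hr
    have h2 : r = 0 := by
      by_contra h
      exact hr' (Finset.mem_Icc.2 ⟨by omega, by omega⟩)
    subst h2
    unfold sr
    rw [PowerSeries.coeff_mk, if_pos rfl, zero_mul]

private theorem dl_one_sub {e : ℕ} (he : e ≠ 0) :
    dl (1 - PowerSeries.X ^ e) = -(sr (fun r => if e ∣ r then (e : ℤ) else 0)) * (1 - PowerSeries.X ^ e) := by
  ext n
  unfold dl sr
  rw [PowerSeries.coeff_mk, map_sub, PowerSeries.coeff_one, PowerSeries.coeff_X_pow, mul_sub (-_) (1 : PowerSeries ℤ),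
    mul_one (-_), map_sub, map_neg, PowerSeries.coeff_mul_X_pow', PowerSeries.coeff_mk]
  by_cases hn : n = 0
  · subst hn
    rw [if_pos rfl, if_neg (by omega), if_pos rfl, if_neg (by omega)]
    simp
  rw [if_neg hn, if_neg hn]
  rcases lt_trichotomy n e with h | h | h
  · rw [if_neg (show ¬n = e by omega)]
    beta_reduce
    rw [if_neg (fun h' : e ∣ n => absurd (Nat.le_of_dvd (Nat.pos_of_ne_zero hn) h') (by omega)),
      if_neg (show ¬e ≤ n by omega)]
    simp
  · subst h
    rw [if_pos rfl]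
    beta_reduce
    rw [if_pos (dvd_refl n), if_pos le_rfl, Nat.sub_self, map_neg, PowerSeries.coeff_mk, if_pos rfl]
    ring
  · rw [if_neg (by omega), if_pos h.le, map_neg, PowerSeries.coeff_mk, if_neg (by omega)]
    have h2 : e ∣ n - e ↔ e ∣ n := by
      constructor
      · intro h3
        have := Nat.dvd_add h3 (dvd_refl e)
        rwa [Nat.sub_add_cancel h.le] at this
      · intro h3
        exact Nat.dvd_sub h3 (dvd_refl e)
    beta_reduce
    by_cases h3 : e ∣ n
    · rw [if_pos h3, if_pos (h2.2 h3)]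
      ring
    · rw [if_neg h3, if_neg (fun h4 => h3 (h2.1 h4))]
      ring

private theorem dl_prod {m : ℕ} (e : Fin m → ℕ) (he : ∀ i, e i ≠ 0) (s : Finset (Fin m)) :
    dl (∏ i ∈ s, (1 - PowerSeries.X ^ e i)) =
      -(∑ i ∈ s, sr (fun r => if e i ∣ r then (e i : ℤ) else 0)) * ∏ i ∈ s, (1 - PowerSeries.X ^ e i) := by
  classical
  induction s using Finset.induction_on with
  | empty =>
    rw [Finset.prod_empty, Finset.sum_empty, neg_zero, zero_mul]
    ext n
    unfold dl
    rw [PowerSeries.coeff_mk, PowerSeries.coeff_one]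
    by_cases hn : n = 0
    · rw [hn]
      simp
    · rw [if_neg hn]
      simp
  | insert a s ha ih =>
    rw [Finset.prod_insert ha, Finset.sum_insert ha, dl_mul, ih, dl_one_sub (he a)]
    ring

private theorem sr_add (a b : ℕ → ℤ) : sr a + sr b = sr (fun r => a r + b r) := by
  ext n
  unfold sr
  rw [map_add, PowerSeries.coeff_mk, PowerSeries.coeff_mk, PowerSeries.coeff_mk]
  split_ifs
  · rw [add_zero]
  · rfl

private theorem sr_sum {ι : Type} (s : Finset ι) (a : ι → ℕ → ℤ) : ∑ i ∈ s, sr (a i) = sr (fun r => ∑ i ∈ s, a i r) := by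
  classical
  induction s using Finset.induction_on with
  | empty =>
    ext n
    unfold sr
    rw [Finset.sum_empty, PowerSeries.coeff_mk]
    simp
  | insert b s hb ih =>
    rw [Finset.sum_insert hb, ih, sr_add]
    congr 1
    funext r
    rw [Finset.sum_insert hb]

theorem bn_rec [Finite F] (hf : f.Monic) [IsDedekindDomain (AdjoinRoot f)] (e : Fin m → ℕ)
    (he : ∀ i, e i ≠ 0) (n : ℕ) :
    n * bn f e n = ∑ r ∈ Finset.Icc 1 n, cpt f e r * bn f e (n - r) := by
  obtain ⟨A, hA⟩ : ∃ A : PowerSeries ℤ, A = PowerSeries.mk (fun n => (H13.TA.an f n : ℤ)) := ⟨_, rfl⟩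
  obtain ⟨B, hB⟩ : ∃ B : PowerSeries ℤ, B = PowerSeries.mk (fun n => (bn f e n : ℤ)) := ⟨_, rfl⟩
  obtain ⟨E, hE⟩ : ∃ E : PowerSeries ℤ, E = ∏ i, (1 - PowerSeries.X ^ e i) := ⟨_, rfl⟩
  have h1 : B * E = A := by
    rw [hA, hB, hE]
    exact bn_an hf e he
  have h2 : dl A = sr (fun r => (H13.TA.npt f r : ℤ)) * A := by
    ext k
    rw [sr_mul]
    unfold dl
    rw [hA, PowerSeries.coeff_mk, PowerSeries.coeff_mk]
    have h3 := H13.TA.recB hf k
    have h4 : ((k * H13.TA.an f k : ℕ) : ℤ) = ((∑ r ∈ Finset.Icc 1 k,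
        (∑ d ∈ r.divisors, d * H13.TA.pn f d) * H13.TA.an f (k - r) : ℕ) : ℤ) := by rw [h3]
    rw [Nat.cast_mul, Nat.cast_sum] at h4
    rw [h4]
    refine Finset.sum_congr rfl fun r hr => ?_
    have hr0 : r ≠ 0 := by
      have := (Finset.mem_Icc.1 hr).1
      omega
    rw [PowerSeries.coeff_mk, H13.TA.pts hf hr0, Nat.cast_mul]
  have h3 : dl E = -(sr (fun r => ∑ i, if e i ∣ r then (e i : ℤ) else 0)) * E := by
    rw [hE, dl_prod e he, sr_sum]
  have hE0 : E ≠ 0 := by
    intro h0
    have h4 := congrArg PowerSeries.constantCoeff h0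
    rw [hE, map_prod, map_zero] at h4
    have h5 : ∀ i ∈ (Finset.univ : Finset (Fin m)),
        PowerSeries.constantCoeff (1 - PowerSeries.X ^ e i : PowerSeries ℤ) = 1 := by
      intro i _
      rw [map_sub, map_one, map_pow, PowerSeries.constantCoeff_X, zero_pow (he i), sub_zero]
    rw [Finset.prod_congr rfl h5, Finset.prod_const_one] at h4
    exact one_ne_zero h4
  have h4 : dl B = sr (fun r => (cpt f e r : ℤ)) * B := by
    refine mul_right_cancel₀ hE0 ?_
    have h5 : dl B * E + B * dl E = dl A := by rw [← dl_mul, h1]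
    have h6 : sr (fun r => (cpt f e r : ℤ)) =
        sr (fun r => (H13.TA.npt f r : ℤ)) + sr (fun r => ∑ i, if e i ∣ r then (e i : ℤ) else 0) := by
      rw [sr_add]
      congr 1
      funext r
      unfold cpt
      push_cast
      rfl
    rw [h6]
    rw [h3, h2, ← h1] at h5
    linear_combination h5
  have h5 := congrArg (PowerSeries.coeff n) h4
  rw [sr_mul] at h5
  unfold dl at h5
  rw [PowerSeries.coeff_mk, hB, PowerSeries.coeff_mk] at h5
  have h6 : ∀ r ∈ Finset.Icc 1 n, (cpt f e r : ℤ) *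
      PowerSeries.coeff (n - r) (PowerSeries.mk (fun n => (bn f e n : ℤ))) = ((cpt f e r * bn f e (n - r) : ℕ) : ℤ) := by
    intro r _
    rw [PowerSeries.coeff_mk, Nat.cast_mul]
  rw [Finset.sum_congr rfl h6, ← Nat.cast_sum, ← Nat.cast_mul] at h5
  exact_mod_cast h5

end H13.PC
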