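import Pool.Agent.H13.PC.Bz
import Pool.Agent.H3.FS.BSP

/-!
# PC-BT: Bombieri-Stepanov, twisted

Read `Pool/Agent/H3/FS/BSA.lean` and `BSP.lean` first (there `Q = #k`, `τ = id`, `K = k`); copy the proofs (also the private lemmas
`bsaW`, `bsaW_dim`, `bsp_num`).

* `bsaT`: `g_i ∈ Wsp c b` with different orders of the `σ g_i` as there. `τ (g_i) ∈ Lsp c (b + h)` as well: `σ_i (τ x) = σ_j x` (`hτ`). `ker` for the
  elements `τ (g_i)` gives `f_i ∈ Wsp c a`, not all zero, with `∑ f_i ^ (p ^ μ) τ (g_i) = 0`. `G = ∑ f_i g_i ^ R`, `G ≠ 0` as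
  there. `y G = 0`: `(y G) ^ (p ^ μ) = ∑ y(f_i) ^ (p ^ μ) y(g_i) ^ (p ^ μ R) = ∑ y(f_i) ^ (p ^ μ) y(τ g_i) = y (∑ f_i ^ (p ^ μ) τ (g_i)) = 0` (`CharP K p`). `zerT`.
* `bspT`: `Q = p ^ t`, `w = p ^ (t / 2)`, `R = p ^ (t - t / 2)`, as in `bsp`. Trivial bound `#Y ≤ N Q` for `R < 2 (N h + 1)`: `zerT` for
  `G = X ^ Q - X` (norm `(X ^ Q - X) ^ N`, not zero, `Algebra.norm_algebraMap_of_basis`): `y(X) ^ Q = y(τ X) = y(X)` by `hX`.
-/

set_option autoImplicit false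

open Polynomial
open Pool.Agent.H3.FS

namespace H13.PC

/-- the image of `Wsp c b` under a conjugate -/
private def bsaW {k : Type} [Field k] {B : Type} [CommRing B] [Algebra k[X] B] {ι : Type}
    [Fintype ι] {h : ℕ} (c : Conj k B ι h) (i0 : ι) (b : ℕ) : Submodule k (LaurentSeries k) where
  carrier := c.σ i0 '' Wsp c b
  zero_mem' := ⟨0, fun j => by simp, map_zero _⟩
  add_mem' := by
    rintro _ _ ⟨f, hf, rfl⟩ ⟨g, hg, rfl⟩
    refine ⟨f + g, fun j => ?_, map_add _ _ _⟩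
    rw [map_add, Finsupp.add_apply]
    exact (natDegree_add_le _ _).trans (max_le (hf j) (hg j))
  smul_mem' := by
    rintro r _ ⟨f, hf, rfl⟩
    refine ⟨(C r : k[X]) • f, fun j => ?_, ?_⟩
    · rw [map_smul, Finsupp.smul_apply, smul_eq_mul]
      exact (natDegree_C_mul_le _ _).trans (hf j)
    · rw [Algebra.smul_def, map_mul, c.base, lau_C]
      exact HahnSeries.C_mul_eq_smul

private theorem bsaW_dim {k : Type} [Field k] [Finite k] {B : Type} [CommRing B] [Algebra k[X] B]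
    {ι : Type} [Fintype ι] {h : ℕ} (c : Conj k B ι h) (i0 : ι) (b : ℕ) :
    FiniteDimensional k (bsaW c i0 b) ∧
      Module.finrank k (bsaW c i0 b) = Fintype.card ι * (b + 1) := by
  obtain ⟨hf, hc⟩ := wsp_card c b
  have h1 : (c.σ i0 '' Wsp c b).Finite := hf.image _
  have h2 : (c.σ i0 '' Wsp c b).ncard = (Nat.card k) ^ (Fintype.card ι * (b + 1)) := by
    rw [Set.ncard_image_of_injective _ (c.faith i0), hc]
  have h3 : Finite (bsaW c i0 b) := h1
  have h4 : FiniteDimensional k (bsaW c i0 b) := Module.Finite.of_finite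
  have h5 : Nat.card (bsaW c i0 b) = (Nat.card k) ^ (Fintype.card ι * (b + 1)) := h2
  refine ⟨h4, ?_⟩
  have h6 := Module.natCard_eq_pow_finrank (K := k) (V := bsaW c i0 b)
  have hQ : 1 < Nat.card k := Finite.one_lt_card
  exact Nat.pow_right_injective hQ (h6.symm.trans h5)

private theorem bsp_num {N h w R : ℕ} (hN : 1 ≤ N) (hh : 1 ≤ h) (hw : 1 ≤ w) (hwR : w ≤ R)
    (hR : 2 * (N * h + 1) ≤ R) : ∃ a b : ℕ, N * (a + h) < R ∧
      N * ((a + h) * w + (b + h)) + 1 < N * (a + 1) * (N * (b + 1)) ∧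
      N * (a + h) + N * (b + h) * R ≤ w * R + 6 * (N * h) * R := by
  obtain ⟨a, ha1, ha2⟩ : ∃ a : ℕ, N * (a + h) ≤ R - 1 ∧ R - 1 < N * (a + h) + N := by
    obtain ⟨q, hq⟩ : ∃ q, q = (R - 1) / N := ⟨_, rfl⟩
    have h1 : N * q ≤ R - 1 := by
      rw [hq]
      exact Nat.mul_div_le _ _
    have h2 : R - 1 < N * q + N := by
      rw [hq]
      have h3 := Nat.div_add_mod (R - 1) N
      have h4 := Nat.mod_lt (R - 1) (show 0 < N by omega)
      omega
    have h3 : h ≤ q := by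
      rw [hq, Nat.le_div_iff_mul_le (by omega), mul_comm]
      omega
    refine ⟨q - h, ?_, ?_⟩
    · rw [Nat.sub_add_cancel h3]
      exact h1
    · rw [Nat.sub_add_cancel h3]
      exact h2
  obtain ⟨b, hb1, hb2⟩ : ∃ b : ℕ, N * (b + 1) ≤ w + 4 * (N * h) + N ∧
      w + 4 * (N * h) + 1 ≤ N * (b + 1) := by
    obtain ⟨q, hq⟩ : ∃ q, q = (w + 4 * (N * h) + N) / N := ⟨_, rfl⟩
    have h1 : N * q ≤ w + 4 * (N * h) + N := by
      rw [hq]
      exact Nat.mul_div_le _ _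
    have h2 : w + 4 * (N * h) + N < N * q + N := by
      rw [hq]
      have h3 := Nat.div_add_mod (w + 4 * (N * h) + N) N
      have h4 := Nat.mod_lt (w + 4 * (N * h) + N) (show 0 < N by omega)
      omega
    have h3 : 1 ≤ q := by
      rcases Nat.eq_zero_or_pos q with h0 | h0
      · rw [h0, mul_zero] at h2
        omega
      · exact h0
    refine ⟨q - 1, ?_, ?_⟩
    · rw [Nat.sub_add_cancel h3]
      exact h1
    · rw [Nat.sub_add_cancel h3]
      omega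
  refine ⟨a, b, by omega, ?_, ?_⟩
  · zify at *
    have hR0 : (1 : ℤ) ≤ R := by nlinarith
    rw [Nat.cast_sub (by exact_mod_cast hR0)] at ha1 ha2
    push_cast at ha1 ha2
    obtain ⟨α, hα⟩ : ∃ α : ℤ, α = N * (a + h) := ⟨_, rfl⟩
    obtain ⟨β, hβ⟩ : ∃ β : ℤ, β = N * (b + 1) := ⟨_, rfl⟩
    obtain ⟨P, hP⟩ : ∃ P : ℤ, P = N * h := ⟨_, rfl⟩
    have e1 : (N : ℤ) * (a + 1) = α - P + N := by
      rw [hα, hP]
      ring
    have e2 : (N : ℤ) * ((a + h) * w + (b + h)) = α * w + β - N + P := by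
      rw [hα, hβ, hP]
      ring
    rw [e1, e2, ← hβ]
    rw [← hα] at ha1 ha2
    rw [← hβ, ← hP] at hb1 hb2
    rw [← hP] at hR
    have hPN : (N : ℤ) ≤ P := by
      rw [hP]
      nlinarith
    obtain ⟨D, hD⟩ : ∃ D : ℤ, D = β - w := ⟨_, rfl⟩
    obtain ⟨X, hX⟩ : ∃ X : ℤ, X = α - (P - N) - 1 := ⟨_, rfl⟩
    have hD1 : 4 * P + 1 ≤ D := by linarith
    have hX1 : (R : ℤ) ≤ 2 * X := by linarith
    have h5 : (4 * P + 1) * R ≤ D * (2 * X) :=
      mul_le_mul hD1 hX1 (by linarith) (by linarith)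
    have h6 : (4 * P + 1) * (w : ℤ) ≤ (4 * P + 1) * R :=
      mul_le_mul_of_nonneg_left hwR (by linarith)
    have h7 : ((w : ℤ) + 1) * (P - N + 1) ≤ ((w : ℤ) + 1) * P :=
      mul_le_mul_of_nonneg_left (by linarith) (by linarith)
    have h8 : P * 1 ≤ P * (w : ℤ) := mul_le_mul_of_nonneg_left hw (by linarith)
    have e3 : (α - P + N) * β - (α * w + β - N + P + 1) = D * X - ((w : ℤ) + 1) * (P - N + 1) := by
      rw [hD, hX]
      ring
    nlinarith
  · zify at *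
    have hR0 : (1 : ℤ) ≤ R := by nlinarith
    rw [Nat.cast_sub (by exact_mod_cast hR0)] at ha1 ha2
    push_cast at ha1 ha2
    have h1 : (N : ℤ) * (b + h) ≤ w + 5 * (N * h) := by linarith
    have h2 : (N : ℤ) * (b + h) * R ≤ (w + 5 * (N * h)) * R :=
      mul_le_mul_of_nonneg_right h1 (by linarith)
    have h3 : (1 : ℤ) * R ≤ (N * h) * R := by
      refine mul_le_mul_of_nonneg_right ?_ (by linarith)
      nlinarith
    linarith

theorem bsaT {k : Type} [Field k] [Finite k] {K : Type} [Field K] [Algebra k K] {B : Type}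
    [CommRing B] [Algebra k[X] B] {ι : Type} [Fintype ι] [DecidableEq ι] [Nonempty ι] {h : ℕ}
    (c : Conj k B ι h) {p : ℕ} [Fact p.Prime] [CharP k p] [CharP B p] [CharP K p] (τ : B →+* B)
    (hτ : ∀ i, ∃ j, (c.σ i).comp τ = c.σ j) {μ R a b : ℕ}
    (h1 : Fintype.card ι * (a + h) < R)
    (h2 : Fintype.card ι * ((a + h) * p ^ μ + (b + h)) + 1 <
      Fintype.card ι * (a + 1) * (Fintype.card ι * (b + 1)))
    (Y : Finset (B →+* K))
    (hY : ∀ y ∈ Y, ∀ c : k, y (algebraMap k[X] B (C c)) = algebraMap k K c)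
    (hyt : ∀ y ∈ Y, ∀ g : B, y g ^ (p ^ μ * R) = y (τ g)) :
    Y.card ≤ Fintype.card ι * (a + h) + Fintype.card ι * (b + h) * R := by
  have hp : p.Prime := Fact.out
  obtain ⟨i0⟩ : Nonempty ι := inferInstance
  obtain ⟨hfd, hdim⟩ := bsaW_dim c i0 b
  obtain ⟨g', hg', hg0, hgi⟩ := bas (bsaW c i0 b)
  have hch : ∀ i, ∃ g ∈ Wsp c b, c.σ i0 g = g' i := fun i => hg' i
  choose g hgW hgσ using hch
  have hgL : ∀ i, g i ∈ Lsp c (b + h) := fun i => wsp_mem c (hgW i)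
  have hgT : ∀ i, τ (g i) ∈ Lsp c (b + h) := by
    intro i j
    obtain ⟨j', hj'⟩ := hτ j
    have h3 : c.σ j (τ (g i)) = c.σ j' (g i) := by
      rw [← hj']
      rfl
    rw [h3]
    exact hgL i j'
  obtain ⟨f, hfW, ⟨i1, hi1⟩, hsum⟩ := ker c (p := p) (μ := μ) (a := a) (fun i => τ (g i)) hgT (by
    rw [hdim]
    exact h2)
  have hfL : ∀ i, f i ∈ Lsp c (a + h) := fun i => wsp_mem c (hfW i)
  obtain ⟨G, hG⟩ : ∃ G, G = ∑ i, f i * g i ^ R := ⟨_, rfl⟩
  have hσ : ∀ z : B, z ≠ 0 → c.σ i0 z ≠ 0 := fun z hz h0 =>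
    hz (c.faith i0 (h0.trans (map_zero _).symm))
  -- `G` is not zero
  have hG0 : G ≠ 0 := by
    intro h0
    refine gne g' (fun i => c.σ i0 (f i)) hg0 hgi (-((a + h : ℕ) : ℤ)) (R := R) (fun i => ?_)
      ⟨i1, hσ _ hi1⟩ ?_
    · by_cases hi : f i = 0
      · left
        rw [hi, map_zero]
      · right
        refine ⟨(hfL i i0).resolve_left (hσ _ hi), ?_⟩
        have h3 := (ord_norm c (hfL i) hi).2.2 i0
        have h4 : ((Fintype.card ι * (a + h) : ℕ) : ℤ) < R := by exact_mod_cast h1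
        push_cast at h3 h4 ⊢
        linarith
    · have h3 := congrArg (c.σ i0) h0
      rw [hG, map_zero, map_sum] at h3
      rw [← h3]
      refine Finset.sum_congr rfl fun i _ => ?_
      rw [map_mul, map_pow, hgσ]
  -- `G` vanishes at the points
  have hGy : ∀ y ∈ Y, y G = 0 := by
    intro y hy
    have h3 : (y G) ^ (p ^ μ) = 0 := by
      rw [hG, map_sum, sum_pow_char_pow, ← map_zero y, ← hsum, map_sum]
      refine Finset.sum_congr rfl fun i _ => ?_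
      rw [map_mul, map_pow, map_mul, map_pow, mul_pow, ← pow_mul, mul_comm R, hyt y hy]
    exact pow_eq_zero_iff (pow_ne_zero μ hp.ne_zero) |>.1 h3
  have hGL : G ∈ Lsp c ((a + h) + R * (b + h)) := by
    rw [hG]
    exact lsp_sum c _ fun i _ => lsp_mul c (hfL i) (lsp_pow c (hgL i) R)
  obtain ⟨hN0, hdeg, -⟩ := ord_norm c hGL hG0
  have h5 := zerT c.b G hN0 Y hY hGy
  have h6 : (Y.card : ℤ) ≤ Fintype.card ι * ((a + h) + R * (b + h) : ℕ) :=
    le_trans (by exact_mod_cast h5) hdeg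
  have h7 : Y.card ≤ Fintype.card ι * ((a + h) + R * (b + h)) := by exact_mod_cast h6
  calc Y.card ≤ Fintype.card ι * ((a + h) + R * (b + h)) := h7
    _ = Fintype.card ι * (a + h) + Fintype.card ι * (b + h) * R := by ring

private theorem bt_triv {k : Type} [Field k] {K : Type} [Field K] [Algebra k K] {B : Type}
    [CommRing B] [Algebra k[X] B] {ι : Type} [Fintype ι] [DecidableEq ι] (b : Module.Basis ι k[X] B)
    (τ : B →+* B) (hX : τ (algebraMap k[X] B X) = algebraMap k[X] B X) {Q : ℕ} (hQ : 1 < Q)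
    (Y : Finset (B →+* K))
    (hY : ∀ y ∈ Y, ∀ c : k, y (algebraMap k[X] B (C c)) = algebraMap k K c)
    (hyt : ∀ y ∈ Y, ∀ g : B, y g ^ Q = y (τ g)) :
    Y.card ≤ Fintype.card ι * Q := by
  have hd : (X ^ Q - X : k[X]).natDegree = Q := FiniteField.X_pow_card_sub_X_natDegree_eq k hQ
  have hp : (X ^ Q - X : k[X]) ≠ 0 := by
    intro h0
    rw [h0, natDegree_zero] at hd
    omega
  have hn : Algebra.norm k[X] (algebraMap k[X] B (X ^ Q - X)) =
      (X ^ Q - X : k[X]) ^ Fintype.card ι := Algebra.norm_algebraMap_of_basis b _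
  have h1 := zerT b (algebraMap k[X] B (X ^ Q - X)) (by
    rw [hn]
    exact pow_ne_zero _ hp) Y hY (by
      intro y hy
      rw [map_sub, map_pow, map_sub, map_pow, hyt y hy, hX, sub_self])
  rw [hn, natDegree_pow, hd] at h1
  exact h1

theorem bspT {k : Type} [Field k] [Finite k] {K : Type} [Field K] [Algebra k K] {B : Type}
    [CommRing B] [Algebra k[X] B] {ι : Type} [Fintype ι] [DecidableEq ι] [Nonempty ι] {h : ℕ}
    (hh : 1 ≤ h) (c : Conj k B ι h) {p : ℕ} [Fact p.Prime] [CharP k p] [CharP B p] [CharP K p]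
    (τ : B →+* B) (hτ : ∀ i, ∃ j, (c.σ i).comp τ = c.σ j)
    (hX : τ (algebraMap k[X] B X) = algebraMap k[X] B X) {t : ℕ} (ht : t ≠ 0)
    (Y : Finset (B →+* K))
    (hY : ∀ y ∈ Y, ∀ c : k, y (algebraMap k[X] B (C c)) = algebraMap k K c)
    (hyt : ∀ y ∈ Y, ∀ g : B, y g ^ (p ^ t) = y (τ g)) :
    (Y.card : ℝ) ≤ (p : ℝ) ^ t + 6 * (Fintype.card ι : ℝ) ^ 2 * h * p * √((p : ℝ) ^ t) := by
  have hp : p.Prime := Fact.out
  obtain ⟨w, hw⟩ : ∃ w, w = p ^ (t / 2) := ⟨_, rfl⟩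
  obtain ⟨R, hR⟩ : ∃ R, R = p ^ (t - t / 2) := ⟨_, rfl⟩
  have hQ : p ^ t = w * R := by
    rw [hw, hR, ← pow_add]
    congr 1
    omega
  have hQr : (p : ℝ) ^ t = w * R := by exact_mod_cast hQ
  have hw1 : 1 ≤ w := by
    rw [hw]
    exact Nat.one_le_pow _ _ hp.pos
  have hwR : w ≤ R := by
    rw [hw, hR]
    exact Nat.pow_le_pow_right hp.pos (by omega)
  have hRw : R ≤ p * w := by
    rw [hw, hR, ← pow_succ']
    exact Nat.pow_le_pow_right hp.pos (by omega)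
  have hN : 1 ≤ Fintype.card ι := Fintype.card_pos
  obtain ⟨N, hNdef⟩ : ∃ N, N = Fintype.card ι := ⟨_, rfl⟩
  rw [← hNdef] at hN ⊢
  have hp1 : (1 : ℝ) ≤ p := by exact_mod_cast hp.one_le
  have hRr : (R : ℝ) ≤ p * √((p : ℝ) ^ t) := by
    have h1 : (R : ℝ) ^ 2 ≤ (p * √((p : ℝ) ^ t)) ^ 2 := by
      rw [mul_pow, Real.sq_sqrt (by positivity), hQr]
      have h2 : (R : ℝ) ≤ p * w := by exact_mod_cast hRw
      have h3 : (0 : ℝ) ≤ R := by positivity
      have h4 : (0 : ℝ) ≤ w := by positivity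
      calc (R : ℝ) ^ 2 = R * R := by ring
        _ ≤ (p * w) * R := mul_le_mul_of_nonneg_right h2 h3
        _ = p * (w * R) * 1 := by ring
        _ ≤ p * (w * R) * p := mul_le_mul_of_nonneg_left hp1 (by positivity)
        _ = p ^ 2 * (w * R) := by ring
    exact le_of_sq_le_sq h1 (by positivity)
  have hNr : (1 : ℝ) ≤ N := by exact_mod_cast hN
  have hhr : (1 : ℝ) ≤ h := by exact_mod_cast hh
  have hNh : (N : ℝ) * h ≤ (N : ℝ) ^ 2 * h := by
    have h1 : 0 ≤ (N : ℝ) * h * (N - 1) := by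
      have : (0 : ℝ) ≤ N - 1 := by linarith
      positivity
    linarith
  by_cases hc : R < 2 * (N * h + 1)
  · have h1 := bt_triv c.b τ hX (Nat.one_lt_pow ht hp.one_lt) Y hY hyt
    rw [← hNdef] at h1
    have h2 : (Y.card : ℝ) ≤ N * (p : ℝ) ^ t := by exact_mod_cast h1
    have h3 : (R : ℝ) ≤ 3 * (N * h) := by
      have h4 : R ≤ 2 * (N * h) + 1 := by omega
      have h5 : 1 ≤ N * h := Nat.mul_pos hN hh
      have h6 : R ≤ 3 * (N * h) := by omega
      exact_mod_cast h6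
    have h7 : (N : ℝ) * (p : ℝ) ^ t ≤ 3 * ((N : ℝ) ^ 2 * h) * (p * √((p : ℝ) ^ t)) := by
      have h8 : (p : ℝ) ^ t ≤ R * R := by
        rw [hQr]
        have h9 : (w : ℝ) ≤ R := by exact_mod_cast hwR
        exact mul_le_mul_of_nonneg_right h9 (by positivity)
      calc (N : ℝ) * (p : ℝ) ^ t ≤ N * (R * R) := mul_le_mul_of_nonneg_left h8 (by positivity)
        _ ≤ N * ((3 * (N * h)) * (p * √((p : ℝ) ^ t))) :=
          mul_le_mul_of_nonneg_left (mul_le_mul h3 hRr (by positivity) (by positivity))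
            (by positivity)
        _ = 3 * ((N : ℝ) ^ 2 * h) * (p * √((p : ℝ) ^ t)) := by ring
    have h10 : 0 ≤ ((N : ℝ) ^ 2 * h) * (p * √((p : ℝ) ^ t)) := by positivity
    have h11 : (0 : ℝ) ≤ (p : ℝ) ^ t := by positivity
    linarith
  · push Not at hc
    obtain ⟨a, b, h1, h2, h3⟩ := bsp_num hN hh hw1 hwR hc
    rw [hNdef, hw] at h2
    rw [hNdef] at h1
    rw [hQ, hw] at hyt
    have h4 := bsaT c τ hτ h1 h2 Y hY hyt
    rw [← hNdef] at h4
    have h5 : Y.card ≤ w * R + 6 * (N * h) * R := h4.trans h3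
    have h6 : (Y.card : ℝ) ≤ (p : ℝ) ^ t + 6 * (N * h) * R := by
      rw [hQr]
      exact_mod_cast h5
    have h7 : 6 * ((N : ℝ) * h) * R ≤ 6 * ((N : ℝ) ^ 2 * h) * (p * √((p : ℝ) ^ t)) :=
      mul_le_mul (by linarith) hRr (by positivity) (by positivity)
    linarith

end H13.PC
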