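import Pool.Agent.H3.FS.ZER

/-!
# PC-BZ: the number of zeros with coordinates in an extension

As `zer` in `Pool/Agent/H3/FS/ZER.lean` (there `K = k`), read that file first. `K` is an extension field of `k`, `Y` a finite set of ring
homomorphisms `y : B → K` which are the identity on `k`. `u(y) = y X ∈ K`; `y (f • 1) = f(u(y))` (`aeval`).

* `zerT`: for `w ∈ K` let `Y_w` be the `y ∈ Y` with `u(y) = w`; the vectors `(y (b j))_j ∈ K ^ ι` are linearly independent over `K`
  (`linearIndependent_monoidHom`: if `∑ c_y y (b j) = 0` for all `j`, then `∑ c_y y(x) = 0` for all `x = ∑ f_j b_j`). Apply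
  `Pool.Agent.H3.FS.det_dvd` over `K` to `M' = M.map (mapRingHom (algebraMap k K))`, `M = Algebra.leftMulMatrix b G`; `det M'` is the image of
  `N(G)` (`RingHom.map_det`), of the same degree. The powers `(X - w) ^ #Y_w` for the different `w` are coprime.
* `fib_card`: linearly independent vectors in `K ^ ι`.
-/

set_option autoImplicit false

open Polynomial

namespace H13.PC

section

variable {k : Type} [Field k] {K : Type} [Field K] [Algebra k K] {B : Type} [CommRing B]
  [Algebra k[X] B] {ι : Type} [Fintype ι]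

private theorem bz_ev (y : B →+* K) (hy : ∀ c : k, y (algebraMap k[X] B (C c)) = algebraMap k K c)
    (f : k[X]) : y (algebraMap k[X] B f) = aeval (y (algebraMap k[X] B X)) f := by
  have h1 : y.comp (algebraMap k[X] B) =
      (aeval (y (algebraMap k[X] B X)) : k[X] →ₐ[k] K).toRingHom := by
    apply Polynomial.ringHom_ext
    · intro c
      rw [RingHom.comp_apply, hy]
      show _ = aeval _ (C c)
      rw [aeval_C]
    · rw [RingHom.comp_apply]
      show _ = aeval _ X
      rw [aeval_X]
  exact RingHom.congr_fun h1 f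

private theorem bz_sum (b : Module.Basis ι k[X] B) (y : B →+* K)
    (hy : ∀ c : k, y (algebraMap k[X] B (C c)) = algebraMap k K c) (x : B) :
    y x = ∑ j, aeval (y (algebraMap k[X] B X)) (b.repr x j) * y (b j) := by
  conv_lhs => rw [← b.sum_repr x]
  rw [map_sum]
  refine Finset.sum_congr rfl fun j _ => ?_
  rw [Algebra.smul_def, map_mul, bz_ev y hy]

private theorem bz_li (b : Module.Basis ι k[X] B) (w : K) (Y : Finset (B →+* K))
    (hY : ∀ y ∈ Y, ∀ c : k, y (algebraMap k[X] B (C c)) = algebraMap k K c)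
    (hw : ∀ y ∈ Y, y (algebraMap k[X] B X) = w) :
    LinearIndependent K (fun (y : {y // y ∈ Y}) (j : ι) => y.1 (b j)) := by
  have h1 : LinearIndependent K (fun (y : {y // y ∈ Y}) => (fun x : B => y.1 x)) :=
    (linearIndependent_monoidHom B K).comp
      (fun y : {y // y ∈ Y} => ((y.1 : B →+* K) : B →* K)) (by
        intro y y' hyy
        apply Subtype.ext
        ext1 x
        exact DFunLike.congr_fun hyy x)
  rw [Fintype.linearIndependent_iff] at h1 ⊢
  intro g hg
  apply h1 g
  funext x
  rw [Finset.sum_apply]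
  simp only [Pi.smul_apply, smul_eq_mul, Pi.zero_apply]
  have h3 : ∀ y : {y // y ∈ Y}, g y * y.1 x =
      ∑ j, aeval w (b.repr x j) * (g y * y.1 (b j)) := by
    intro y
    rw [bz_sum b y.1 (hY y.1 y.2) x, hw y.1 y.2, Finset.mul_sum]
    refine Finset.sum_congr rfl fun j _ => ?_
    ring
  rw [Finset.sum_congr rfl fun y _ => h3 y, Finset.sum_comm]
  refine Finset.sum_eq_zero fun j _ => ?_
  rw [← Finset.mul_sum]
  have h4 := congrFun hg j
  rw [Finset.sum_apply] at h4
  simp only [Pi.smul_apply, smul_eq_mul, Pi.zero_apply] at h4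
  rw [h4, mul_zero]

end

theorem zerT {k : Type} [Field k] {K : Type} [Field K] [Algebra k K] {B : Type} [CommRing B]
    [Algebra k[X] B] {ι : Type} [Fintype ι] [DecidableEq ι] (b : Module.Basis ι k[X] B) (G : B)
    (hG : Algebra.norm k[X] G ≠ 0) (Y : Finset (B →+* K))
    (hY : ∀ y ∈ Y, ∀ c : k, y (algebraMap k[X] B (C c)) = algebraMap k K c)
    (hz : ∀ y ∈ Y, y G = 0) : Y.card ≤ (Algebra.norm k[X] G).natDegree := by
  classical
  obtain ⟨u, hu⟩ : ∃ u : (B →+* K) → K, u = fun y => y (algebraMap k[X] B X) := ⟨_, rfl⟩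
  obtain ⟨M, hM⟩ : ∃ M : Matrix ι ι k[X], M = Algebra.leftMulMatrix b G := ⟨_, rfl⟩
  have hN : Algebra.norm k[X] G = M.det := by
    rw [hM, Algebra.norm_eq_matrix_det b G]
  obtain ⟨M', hM'⟩ : ∃ M' : Matrix ι ι K[X], M' = M.map (mapRingHom (algebraMap k K)) := ⟨_, rfl⟩
  have hdet : M'.det = M.det.map (algebraMap k K) := by
    have h1 := (mapRingHom (algebraMap k K)).map_det M
    rw [coe_mapRingHom] at h1
    rw [h1, hM']
    rfl
  rw [hN] at hG ⊢
  have hdet0 : M'.det ≠ 0 := by
    rw [hdet]
    exact (Polynomial.map_ne_zero_iff (algebraMap k K).injective).2 hG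
  have hdvd : ∀ w : K, (X - C w) ^ (Y.filter (fun y => u y = w)).card ∣ M'.det := by
    intro w
    have hYw : ∀ y ∈ Y.filter (fun y => u y = w), y ∈ Y ∧ u y = w := fun y hy =>
      Finset.mem_filter.1 hy
    have hli := bz_li b w (Y.filter (fun y => u y = w)) (fun y hy => hY y (hYw y hy).1)
      (fun y hy => by
        have h2 := (hYw y hy).2
        rw [hu] at h2
        exact h2)
    have h1 := Pool.Agent.H3.FS.det_dvd M' w
      (fun (y : {y // y ∈ Y.filter (fun y => u y = w)}) (j : ι) => y.1 (b j)) hli (by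
      intro y
      funext l
      rw [Matrix.vecMul, dotProduct, Pi.zero_apply]
      have h2 := bz_sum b y.1 (hY y.1 (hYw y.1 y.2).1) (G * b l)
      have h5 : y.1 (algebraMap k[X] B X) = w :=
        (congrFun hu y.1).symm.trans (hYw y.1 y.2).2
      rw [map_mul, hz y.1 (hYw y.1 y.2).1, zero_mul, h5] at h2
      rw [h2]
      refine Finset.sum_congr rfl fun j _ => ?_
      rw [Matrix.map_apply, hM', Matrix.map_apply, hM, Algebra.leftMulMatrix_eq_repr_mul, mul_comm,
        coe_mapRingHom, eval_map, aeval_def])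
    rwa [Fintype.card_coe] at h1
  have hprod : ∏ w ∈ Y.image u, (X - C w) ^ (Y.filter (fun y => u y = w)).card ∣ M'.det := by
    apply Finset.prod_dvd_of_coprime
    · intro w _ w' _ hww
      have h1 : Pairwise (Function.onFun IsCoprime fun i : K => X - C i) :=
        pairwise_coprime_X_sub_C Function.injective_id
      exact (h1 hww).pow
    · exact fun w _ => hdvd w
  have hdeg := natDegree_le_of_dvd hprod hdet0
  rw [natDegree_prod_of_monic _ _ (fun w _ => (monic_X_sub_C w).pow _), hdet, natDegree_map] at hdeg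
  refine le_trans (le_of_eq ?_) hdeg
  rw [Finset.card_eq_sum_card_fiberwise (fun y hy => Finset.mem_image_of_mem u hy)]
  refine Finset.sum_congr rfl fun w _ => ?_
  rw [natDegree_pow, natDegree_X_sub_C, mul_one]

theorem fib_card {k : Type} [Field k] {K : Type} [Field K] [Algebra k K] {B : Type} [CommRing B]
    [Algebra k[X] B] {ι : Type} [Fintype ι] (b : Module.Basis ι k[X] B) (w : K)
    (Y : Finset (B →+* K))
    (hY : ∀ y ∈ Y, ∀ c : k, y (algebraMap k[X] B (C c)) = algebraMap k K c)
    (hw : ∀ y ∈ Y, y (algebraMap k[X] B X) = w) : Y.card ≤ Fintype.card ι := by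
  classical
  have h1 := (bz_li b w Y hY hw).fintype_card_le_finrank
  rw [Fintype.card_coe, Module.finrank_fintype_fun_eq_card] at h1
  exact h1

end H13.PC
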