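import Pool.Agent.H13.PC.Lo

/-!
# PC-DM: `O` is a domain

`f` is irreducible in the factorial ring `F[t][x]`, so prime (`F[X][X]` is a UFD), so `AdjoinRoot f` is a domain. `f` is monic of
degree `a M ≥ 1` in `x`, so it is enough (`Polynomial.Monic.irreducible_iff_natDegree'` or the like) to exclude `f = f₁ f₂` with `f₁`, `f₂` monic
of positive degrees `d₁`, `d₂`. Suppose this.

(1) `f`, `f_x = f₁' f₂ + f₁ f₂'` and `f_t` are in the ideal `(f₁, f₂)`, so it is the unit ideal.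
(2) For each `i` the ring homomorphism `φ_i = evy (y i) ∘ Phi` to a field has `φ_i(f₁) φ_i(f₂) = 0`, and not both are zero (1).
`I₁ = {i : φ_i(f₁) = 0}`, `I₂ = {i : φ_i(f₂) = 0}` partition `Fin m`.
(3) `d₁ ≥ a ∑_(i ∈ I₁) e i`: otherwise by `lo` (`I = I₁`) `φ_i(f₁) ≠ 0` for some `i ∈ I₁`. The same for `f₂`; the sum of the right sides is
`a M` (`hI.sum`), the sum of the left sides too, so both are equalities.
(4) Let `n_k` be the degree of `Phi f_k`. `n_k ≥ b d_k` (`phi_mon`), `n₁ + n₂ = a b M = b (d₁ + d₂)` (`phi_f`; `F[y][z]` a domain), so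
`n_k = b d_k`. The leading coefficients `l₁ l₂ = y ^ (b p M) τ`. For `i ∈ I₁`: `l₁(c i) = 0` (otherwise `φ_i(f₁) ≠ 0` by `evy_order`), and
`c i` is a simple root of `y ^ (b p M) τ`, so `l₂(c i) ≠ 0`, and by `evy_order` the order of `φ_i(f₂)` is `-n₂ = -b d₂ < 0` (`b ≥ 1`).
(5) By (1) `f₂ u + f₁ v = 1`, reduce `u` modulo `f₁` (monic): `f₂ r₁ + f₁ v₁ = 1`, `deg_x r₁ < d₁`. `r₁ ≠ 0` since otherwise `f₁`
would be a unit, but it is monic of positive degree. By `lo` with `I = I₁` (3) there is `i ∈ I₁` with `φ_i(r₁)` of order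
`-natDegree (Phi r₁) ≤ 0`. But `φ_i(f₂) φ_i(r₁) = 1`, so the order of `φ_i(r₁)` is `n₂ > 0` by (4), a contradiction
(`HahnSeries.order_mul`).
-/

set_option autoImplicit false

open Polynomial

noncomputable section

namespace H13.PC

variable {F : Type} [Field F] {a b p r M : ℕ} {τ : F[X]} {f : F[X][X]} {m : ℕ} {e : Fin m → ℕ}
  {E : Fin m → Type} [∀ i, Field (E i)] [∀ i, Algebra F (E i)] {c : ∀ i, E i}

private theorem dm_two (h : a * r = b * p + 1) (hf : Qh a b M τ f)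
    (hs : Ideal.span {f, derivative f, H13.TA.dt f} = ⊤) (hI : Inf M τ e c)
    (y : ∀ i, PowerSeries (E i)) (hy : ∀ i, IsY a b p r f (c i) (y i)) (f₁ f₂ : F[X][X])
    (h1 : f₁.Monic) (h2 : f₂.Monic) (h12 : f₁ * f₂ = f) (hd1 : 0 < f₁.natDegree) (hd2 : 0 < f₂.natDegree) : False := by
  classical
  -- (1)
  have hspan : (1 : F[X][X]) ∈ Ideal.span {f₁, f₂} := by
    have e1 : Ideal.span {f, derivative f, H13.TA.dt f} ≤ Ideal.span {f₁, f₂} := by
      have m1 : f₁ ∈ Ideal.span {f₁, f₂} := Ideal.subset_span (Set.mem_insert _ _)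
      have m2 : f₂ ∈ Ideal.span {f₁, f₂} := Ideal.subset_span (Set.mem_insert_of_mem _ rfl)
      rw [Ideal.span_le]
      rintro x (rfl | rfl | rfl)
      · rw [SetLike.mem_coe, ← h12]
        exact Ideal.mul_mem_left _ _ m2
      · rw [SetLike.mem_coe, ← h12, derivative_mul]
        exact Ideal.add_mem _ (Ideal.mul_mem_left _ _ m2) (Ideal.mul_mem_right _ _ m1)
      · rw [SetLike.mem_coe, ← h12, H13.TA.dt_mul]
        exact Ideal.add_mem _ (Ideal.mul_mem_left _ _ m2) (Ideal.mul_mem_right _ _ m1)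
    rw [hs] at e1
    exact e1 trivial
  obtain ⟨u, v, huv⟩ := Ideal.mem_span_pair.1 hspan
  -- (2)
  obtain ⟨φ, hφ⟩ : ∃ φ : ∀ i, F[X][X] →+* LaurentSeries (E i), φ = fun i => (evy (y i)).comp (Phi a b p r) := ⟨_, rfl⟩
  have hφa : ∀ i g, φ i g = evy (y i) (Phi a b p r g) := by
    intro i g
    rw [hφ]
    rfl
  have hz : ∀ i, φ i f₁ * φ i f₂ = 0 := by
    intro i
    rw [← map_mul, h12, hφa]
    exact (hy i).zero
  have ho : ∀ i, φ i u * φ i f₁ + φ i v * φ i f₂ = 1 := by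
    intro i
    rw [← map_mul, ← map_mul, ← map_add, huv, map_one]
  obtain ⟨I, hIdef⟩ : ∃ I : Finset (Fin m), I = Finset.univ.filter fun i => φ i f₁ = 0 := ⟨_, rfl⟩
  have hIm : ∀ i, i ∈ I ↔ φ i f₁ = 0 := by
    intro i
    rw [hIdef, Finset.mem_filter]
    exact ⟨fun h => h.2, fun h => ⟨Finset.mem_univ _, h⟩⟩
  have hIc : ∀ i, i ∉ I → φ i f₂ = 0 := fun i hi =>
    (mul_eq_zero.1 (hz i)).resolve_left fun h => hi ((hIm i).2 h)
  -- (3)
  have hyc : ∀ i, PowerSeries.constantCoeff (y i) = c i := fun i => (hy i).const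
  have g1 : a * ∑ i ∈ I, e i ≤ f₁.natDegree := by
    by_contra hlt
    push Not at hlt
    obtain ⟨i, hi, hne, -⟩ := lo h hI y hyc I f₁ h1.ne_zero hlt
    rw [← hφa] at hne
    exact hne ((hIm i).1 hi)
  have g2 : a * ∑ i ∈ Iᶜ, e i ≤ f₂.natDegree := by
    by_contra hlt
    push Not at hlt
    obtain ⟨i, hi, hne, -⟩ := lo h hI y hyc Iᶜ f₂ h2.ne_zero hlt
    rw [← hφa] at hne
    exact hne (hIc i (Finset.mem_compl.1 hi))
  have hsum : ∑ i ∈ I, e i + ∑ i ∈ Iᶜ, e i = M := by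
    rw [Finset.sum_add_sum_compl]
    exact hI.sum
  have hdeg : f₁.natDegree + f₂.natDegree = a * M := by
    rw [← hf.deg, ← h12, h1.natDegree_mul h2]
  have g3 : a * ∑ i ∈ I, e i + a * ∑ i ∈ Iᶜ, e i = a * M := by
    rw [← mul_add, hsum]
  have g4 : f₁.natDegree = a * ∑ i ∈ I, e i := by omega
  -- (4)
  have p1 := phi_mon h f₁ h1
  have p2 := phi_mon h f₂ h2
  have pne : ∀ g : F[X][X], g ≠ 0 → Phi a b p r g ≠ 0 := fun g hg hc => hg ((phi_zero h g).1 hc)
  obtain ⟨pf1, pf2⟩ := phi_f h hf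
  have p3 : (Phi a b p r f₁).natDegree + (Phi a b p r f₂).natDegree = a * b * M := by
    rw [← natDegree_mul (pne _ h1.ne_zero) (pne _ h2.ne_zero), ← map_mul, h12]
    exact pf1
  have p4 : b * f₁.natDegree + b * f₂.natDegree = a * b * M := by
    rw [← mul_add, hdeg]
    ring
  have p5 : (Phi a b p r f₂).natDegree = b * f₂.natDegree := by omega
  have hlc : (Phi a b p r f₁).leadingCoeff * (Phi a b p r f₂).leadingCoeff = X ^ (b * p * M) * τ := by
    rw [← leadingCoeff_mul, ← map_mul, h12]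
    exact pf2
  have key : ∀ i ∈ I, φ i f₂ ≠ 0 ∧ (φ i f₂).order = -((Phi a b p r f₂).natDegree : ℤ) := by
    intro i hi
    have l1 : aeval (c i) (Phi a b p r f₁).leadingCoeff = 0 := by
      by_contra hne
      have e1 := (evy_order (y i) (Phi a b p r f₁) (by rw [hyc]; exact hne)).1
      rw [← hφa] at e1
      exact e1 ((hIm i).1 hi)
    have l2 : aeval (c i) (Phi a b p r f₂).leadingCoeff ≠ 0 := by
      intro hz2
      have e1 : aeval (c i) (derivative (X ^ (b * p * M) * τ)) = 0 := by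
        rw [← hlc, derivative_mul, map_add, map_mul, map_mul, l1, hz2, mul_zero, zero_mul, add_zero]
      rw [derivative_mul, map_add, map_mul, map_mul, hI.root, mul_zero, zero_add, map_pow, aeval_X] at e1
      rcases mul_eq_zero.1 e1 with e2 | e2
      · exact absurd e2 (pow_ne_zero _ (hI.ne i))
      · exact hI.der i e2
    have e3 := evy_order (y i) (Phi a b p r f₂) (by rw [hyc]; exact l2)
    rw [← hφa] at e3
    exact e3
  -- (5)
  have hf1 : f₁ ≠ 1 := by
    rintro rfl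
    rw [natDegree_one] at hd1
    exact lt_irrefl _ hd1
  obtain ⟨ρ, hρ⟩ : ∃ ρ, ρ = v %ₘ f₁ := ⟨_, rfl⟩
  have hv : ρ + f₁ * (v /ₘ f₁) = v := by
    rw [hρ]
    exact modByMonic_add_div v f₁
  have hr1 : f₂ * ρ + f₁ * (u + f₂ * (v /ₘ f₁)) = 1 := by
    rw [← huv]
    nth_rw 2 [← hv]
    ring
  have hρ0 : ρ ≠ 0 := by
    intro h0
    rw [h0, mul_zero, zero_add] at hr1
    exact hf1 (h1.eq_one_of_isUnit (IsUnit.of_mul_eq_one _ hr1))
  have hρd : ρ.natDegree < a * ∑ i ∈ I, e i := by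
    rw [← g4, hρ]
    exact natDegree_modByMonic_lt v h1 hf1
  obtain ⟨i, hi, hne, hord⟩ := lo h hI y hyc I ρ hρ0 hρd
  rw [← hφa] at hne hord
  obtain ⟨k1, k2⟩ := key i hi
  have k3 : φ i f₂ * φ i ρ = 1 := by
    have e1 := congrArg (φ i) hr1
    rw [map_add, map_mul, map_mul, (hIm i).1 hi, zero_mul, add_zero, map_one] at e1
    exact e1
  have k4 := HahnSeries.order_mul k1 hne
  rw [k3, k2, hord, HahnSeries.order_one, p5] at k4
  have hb : 0 < b * f₂.natDegree := Nat.mul_pos (Nat.pos_of_ne_zero hf.hb) hd2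
  have k5 : (0 : ℤ) < ((b * f₂.natDegree : ℕ) : ℤ) := by exact_mod_cast hb
  have k6 : (0 : ℤ) ≤ ((Phi a b p r ρ).natDegree : ℤ) := Int.natCast_nonneg _
  omega

theorem dom (h : a * r = b * p + 1) (hf : Qh a b M τ f)
    (hs : Ideal.span {f, derivative f, H13.TA.dt f} = ⊤) (hI : Inf M τ e c)
    (y : ∀ i, PowerSeries (E i)) (hy : ∀ i, IsY a b p r f (c i) (y i)) :
    IsDomain (AdjoinRoot f) := by
  have hn : 0 < f.natDegree := by
    rw [hf.deg]
    exact Nat.mul_pos (Nat.pos_of_ne_zero hf.ha) (Nat.pos_of_ne_zero hf.hM)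
  have hirr : Irreducible f := by
    rw [hf.monic.irreducible_iff_natDegree']
    refine ⟨?_, ?_⟩
    · rintro rfl
      rw [natDegree_one] at hn
      exact lt_irrefl _ hn
    · intro f₁ f₂ h1 h2 h12 hmem
      rw [Finset.mem_Ioc] at hmem
      have hdeg : f₁.natDegree + f₂.natDegree = f.natDegree := by
        rw [← h12, h1.natDegree_mul h2]
      exact dm_two h hf hs hI y hy f₁ f₂ h1 h2 h12 (by omega) hmem.1
  exact AdjoinRoot.isDomain_of_prime hirr.prime

end H13.PC
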