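import Pool.Agent.H13.PC.Inf

/-!
# PC-FT: the irreducible factors of the leading form

`Fct τ e`: `τ` is the product of `m` different monic irreducible polynomials of degrees `e i`.

* `fct_ex`: the normalized factors of `τ` (`UniqueFactorizationMonoid.normalizedFactors`, a multiset of monic irreducible
  polynomials with product `τ` (monic)); without repetition since `τ` is squarefree (`Polynomial.Separable.squarefree`).
* `fct_inf`: `E i = AdjoinRoot (h i)` (a field: `Fact (Irreducible (h i))`, finite of degree `e i` over `F`), `c i` the root.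
  `root`: `h i ∣ τ`. `der`: `τ` separable (`A τ + B τ' = 1`). `ne`: if `c i = 0`, then `X` has the root `c i`, so `h i ∣ X` (minimal polynomial),
  `h i = X` and `τ.coeff 0 = 0`. `sep`: `h i ∣ G` for `i ∈ I` (minimal polynomial of `c i`), these are pairwise coprime (different monic
  irreducible polynomials), so their product divides `G ≠ 0`. `sum`: degree of a product of monic polynomials.
-/

set_option autoImplicit false

open Polynomial

noncomputable section

namespace H13.PC

/-- the degrees of the irreducible factors of `τ` -/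
def Fct {F : Type} [Field F] (τ : F[X]) {m : ℕ} (e : Fin m → ℕ) : Prop :=
  ∃ h : Fin m → F[X], (∀ i, Irreducible (h i) ∧ (h i).Monic ∧ (h i).natDegree = e i) ∧
    Function.Injective h ∧ ∏ i, h i = τ

variable {F : Type} [Field F] {τ : F[X]}

theorem fct_ex (hτ : τ.Monic) (hs : τ.Separable) : ∃ (m : ℕ) (e : Fin m → ℕ), Fct τ e := by
  classical
  have h0 : τ ≠ 0 := hτ.ne_zero
  set s := UniqueFactorizationMonoid.normalizedFactors τ with hsdef
  have hnd : s.Nodup :=
    (UniqueFactorizationMonoid.squarefree_iff_nodup_normalizedFactors h0).1 hs.squarefree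
  have hirr : ∀ x ∈ s, Irreducible x := fun x hx =>
    UniqueFactorizationMonoid.irreducible_of_normalized_factor x hx
  have hmon : ∀ x ∈ s, x.Monic := by
    intro x hx
    have h1 := UniqueFactorizationMonoid.normalize_normalized_factor x hx
    rw [← h1]
    exact monic_normalize (hirr x hx).ne_zero
  have hmem : ∀ i : Fin s.toList.length, s.toList.get i ∈ s := by
    intro i
    have := List.get_mem s.toList i
    rwa [Multiset.mem_toList] at this
  refine ⟨s.toList.length, fun i => (s.toList.get i).natDegree, s.toList.get, ?_, ?_, ?_⟩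
  · intro i
    exact ⟨hirr _ (hmem i), hmon _ (hmem i), rfl⟩
  · rw [← List.nodup_iff_injective_get]
    rw [← Multiset.coe_nodup, Multiset.coe_toList]
    exact hnd
  · rw [← List.prod_ofFn, List.ofFn_get, ← Multiset.prod_coe, Multiset.coe_toList, hsdef,
      UniqueFactorizationMonoid.prod_normalizedFactors_eq h0, hτ.normalize_eq_self]

theorem fct_inf (hs : τ.Separable) (h0 : τ.coeff 0 ≠ 0) {m : ℕ} {e : Fin m → ℕ} (h : Fct τ e) :
    ∃ (E : Fin m → Type) (i1 : ∀ i, Field (E i)) (i2 : ∀ i, Algebra F (E i)) (c : ∀ i, E i),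
      Inf τ.natDegree τ e c := by
  classical
  obtain ⟨h, hh, hinj, hprod⟩ := h
  have hdvd : ∀ i, h i ∣ τ := by
    intro i
    rw [← hprod]
    exact Finset.dvd_prod_of_mem h (Finset.mem_univ i)
  have hF : ∀ i, Fact (Irreducible (h i)) := fun i => ⟨(hh i).1⟩
  have hz : ∀ (i : Fin m) (G : F[X]), aeval (AdjoinRoot.root (h i)) G = 0 ↔ h i ∣ G := by
    intro i G
    rw [AdjoinRoot.aeval_eq, AdjoinRoot.mk_eq_zero]
  refine ⟨fun i => AdjoinRoot (h i), fun i => inferInstance, fun i => inferInstance,
    fun i => AdjoinRoot.root (h i), ?_, ?_, ?_, ?_, ?_, ?_, ?_⟩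
  · intro i
    exact (hz i τ).2 (hdvd i)
  · intro i h1
    have h2 := (hz i _).1 h1
    obtain ⟨A, B, hAB⟩ := hs
    have h3 : h i ∣ 1 := by
      rw [← hAB]
      exact dvd_add (Dvd.dvd.mul_left (hdvd i) A) (Dvd.dvd.mul_left h2 B)
    exact (hh i).1.not_isUnit (isUnit_of_dvd_one h3)
  · intro i h1
    have h2 : h i ∣ X := by
      rw [← hz i]
      rw [aeval_X]
      exact h1
    have h3 : (X : F[X]) ∣ h i := (hh i).1.dvd_symm irreducible_X h2
    have h4 : (X : F[X]) ∣ τ := h3.trans (hdvd i)
    exact h0 (X_dvd_iff.1 h4)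
  · intro i
    exact (AdjoinRoot.powerBasis (hh i).1.ne_zero).finite
  · intro i
    change Module.finrank F (AdjoinRoot (h i)) = e i
    rw [(AdjoinRoot.powerBasis (hh i).1.ne_zero).finrank, AdjoinRoot.powerBasis_dim]
    exact (hh i).2.2
  · intro I G hG hI
    have h1 : ∏ i ∈ I, h i ∣ G := by
      apply Finset.prod_dvd_of_coprime
      · intro i _ j _ hij
        change IsCoprime (h i) (h j)
        rw [(hh i).1.coprime_iff_not_dvd]
        intro hd
        have h2 : Associated (h i) (h j) := (hh i).1.associated_of_dvd (hh j).1 hd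
        exact hij (hinj (eq_of_monic_of_associated (hh i).2.1 (hh j).2.1 h2))
      · intro i hi
        exact (hz i G).1 (hI i hi)
    have h2 := natDegree_le_of_dvd h1 hG
    rw [natDegree_prod_of_monic _ _ (fun i _ => (hh i).2.1)] at h2
    calc ∑ i ∈ I, e i = ∑ i ∈ I, (h i).natDegree :=
          Finset.sum_congr rfl (fun i _ => (hh i).2.2.symm)
      _ ≤ G.natDegree := h2
  · rw [← hprod, natDegree_prod_of_monic _ _ (fun i _ => (hh i).2.1)]
    exact Finset.sum_congr rfl (fun i _ => (hh i).2.2.symm)

end H13.PC
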