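import Pool.Agent.H13.PC.Inf

/-!
# PC-OR: orders

`evy y G = ∑_k G_k(y(s)) s ^ (-k)`; `G_k(y(s)) ∈ E[[s]]` has the constant coefficient `G_k(y(0))`. So for `natDegree G ≤ n` the
coefficients at exponents `< -n` are zero and the one at `-n` is `G_n(y(0))` (`Polynomial.eval₂_eq_sum_range`,
`HahnSeries.coeff_single_mul...`, `HahnSeries.ofPowerSeries_apply_coeff`, negative coefficients of a power series are `0`).
`evy_order`: `n = natDegree G`, so the order is exactly `-n` (`HahnSeries.order`; `HahnSeries.order_le_of_coeff_ne_zero`).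
-/

set_option autoImplicit false

open Polynomial

noncomputable section

namespace H13.PC

variable {F : Type} [Field F] {E : Type} [Field E] [Algebra F E]

private theorem sg_pow (k : ℕ) : (HahnSeries.single (-1 : ℤ) (1 : E)) ^ k = HahnSeries.single (-(k : ℤ)) (1 : E) := by
  rw [HahnSeries.single_pow, one_pow]
  congr 1
  simp

private theorem of_neg (u : PowerSeries E) (k : ℤ) (hk : k < 0) : (HahnSeries.ofPowerSeries ℤ E u).coeff k = 0 := by
  rw [HahnSeries.ofPowerSeries_apply]
  refine HahnSeries.embDomain_notin_range ?_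
  rintro ⟨n, hn⟩
  simp at hn
  omega

private theorem of_zero (u : PowerSeries E) : (HahnSeries.ofPowerSeries ℤ E u).coeff 0 = PowerSeries.constantCoeff u := by
  have h1 := HahnSeries.ofPowerSeries_apply_coeff (Γ := ℤ) u 0
  rw [Nat.cast_zero] at h1
  rw [h1, PowerSeries.coeff_zero_eq_constantCoeff_apply]

private theorem cc_aeval (y : PowerSeries E) (g : F[X]) :
    PowerSeries.constantCoeff (aeval y g) = aeval (PowerSeries.constantCoeff y) g := by
  rw [aeval_def, aeval_def, hom_eval₂]
  congr 1

private theorem evy_co (y : PowerSeries E) (G : F[X][X]) (n : ℕ) (hn : G.natDegree ≤ n) (m : ℤ) :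
    (evy y G).coeff m = ∑ k ∈ Finset.range (n + 1),
      (HahnSeries.ofPowerSeries ℤ E (aeval y (G.coeff k))).coeff (m + k) := by
  unfold evy
  rw [coe_eval₂RingHom, eval₂_eq_sum_range' _ (Nat.lt_succ_of_le hn), HahnSeries.coeff_sum]
  refine Finset.sum_congr rfl fun k _ => ?_
  rw [sg_pow]
  have h1 := HahnSeries.coeff_mul_single_add (r := (1 : E))
    (x := HahnSeries.ofPowerSeries ℤ E (aeval y (G.coeff k))) (a := m + k) (b := -(k : ℤ))
  rw [add_neg_cancel_right, mul_one] at h1
  rw [← h1]
  rfl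

theorem evy_coeff (y : PowerSeries E) (G : F[X][X]) (n : ℕ) (hn : G.natDegree ≤ n) :
    (∀ k : ℤ, k < -(n : ℤ) → (evy y G).coeff k = 0) ∧
      (evy y G).coeff (-(n : ℤ)) = aeval (PowerSeries.constantCoeff y) (G.coeff n) := by
  constructor
  · intro k hk
    rw [evy_co y G n hn]
    refine Finset.sum_eq_zero fun j hj => of_neg _ _ ?_
    rw [Finset.mem_range] at hj
    omega
  · rw [evy_co y G n hn, Finset.sum_range_succ, neg_add_cancel, of_zero, cc_aeval, add_eq_right]
    refine Finset.sum_eq_zero fun j hj => of_neg _ _ ?_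
    rw [Finset.mem_range] at hj
    omega

theorem evy_le (y : PowerSeries E) (G : F[X][X]) (n : ℕ) (hn : G.natDegree ≤ n)
    (h0 : evy y G ≠ 0) : -(n : ℤ) ≤ (evy y G).order := by
  by_contra h1
  push Not at h1
  exact h0 (HahnSeries.coeff_order_eq_zero.1 ((evy_coeff y G n hn).1 _ h1))

theorem evy_order (y : PowerSeries E) (G : F[X][X])
    (h : aeval (PowerSeries.constantCoeff y) G.leadingCoeff ≠ 0) :
    evy y G ≠ 0 ∧ (evy y G).order = -(G.natDegree : ℤ) := by
  have h1 := (evy_coeff y G G.natDegree le_rfl).2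
  have h2 : (evy y G).coeff (-(G.natDegree : ℤ)) ≠ 0 := by
    rw [h1]
    exact h
  have h3 : evy y G ≠ 0 := by
    intro h0
    rw [h0] at h2
    exact h2 rfl
  exact ⟨h3, le_antisymm (HahnSeries.order_le_of_coeff_ne_zero h2) (evy_le y G _ le_rfl h3)⟩

/-- constants -/
theorem evy_const (y : PowerSeries E) (c : F) :
    evy y (C (C c) : F[X][X]) = HahnSeries.C (algebraMap F E c) := by
  unfold evy
  rw [coe_eval₂RingHom, eval₂_C, RingHom.comp_apply]
  have h1 : ((aeval y : F[X] →ₐ[F] PowerSeries E) : F[X] →+* PowerSeries E) (C c) =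
      PowerSeries.C (algebraMap F E c) := by
    change aeval y (C c) = _
    rw [aeval_C, PowerSeries.algebraMap_apply]
  rw [h1, HahnSeries.ofPowerSeries_C]

end H13.PC
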