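import Pool.Agent.H13.PC.Ph
import Pool.Agent.H13.PC.Or

/-!
# PC-HN: the places (Hensel's lemma)

* `hensel`: Newton's iteration in `E[[s]]`: a polynomial `G` over `E[[s]]` with `G(c) ∈ (s)`, `G'(c) ∉ (s)` has a zero `y` with
  `y(0) = c`. (Either `E[[s]]` is a henselian local ring: it is complete, `IsAdicComplete`, or construct the coefficients
  recursively.)
* `hens`: let `n = a b M`, `Phi f = ∑_(k ≤ n) f_k(y) z ^ k`, `f_n = y ^ (b p M) τ` (`phi_f`). Apply `hensel` to
  `G(Y) = ∑_k f_k(Y) s ^ (n - k) ∈ E[[s]][Y]`: modulo `s` it is `Y ^ (b p M) τ(Y)`, which has the simple zero `c ≠ 0`. For the zero `y`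
  `evy y (Phi f) = s ^ (-n) G(y) = 0`.
-/

set_option autoImplicit false

open Polynomial

noncomputable section

namespace H13.PC

variable {F : Type} [Field F] {E : Type} [Field E] [Algebra F E] {a b p r : ℕ}

theorem hensel (G : (PowerSeries E)[X]) (c : E)
    (h0 : PowerSeries.constantCoeff (G.eval (PowerSeries.C c)) = 0)
    (h1 : PowerSeries.constantCoeff ((derivative G).eval (PowerSeries.C c)) ≠ 0) :
    ∃ y : PowerSeries E, PowerSeries.constantCoeff y = c ∧ G.eval y = 0 := by
  obtain ⟨e, he⟩ : ∃ e : E, e * PowerSeries.constantCoeff ((derivative G).eval (PowerSeries.C c)) = 1 :=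
    ⟨_, inv_mul_cancel₀ h1⟩
  obtain ⟨Z, hZ0, hZs⟩ : ∃ Z : ℕ → PowerSeries E, Z 0 = PowerSeries.C c ∧
      ∀ k, Z (k + 1) = Z k - PowerSeries.C e * G.eval (Z k) :=
    ⟨fun k => Nat.rec (PowerSeries.C c) (fun _ z => z - PowerSeries.C e * G.eval z) k, rfl,
      fun k => rfl⟩
  have key : ∀ k, (PowerSeries.X ∣ Z k - PowerSeries.C c) ∧ PowerSeries.X ^ (k + 1) ∣ G.eval (Z k) := by
    intro k
    induction k with
    | zero =>
      rw [hZ0, sub_self, zero_add, pow_one]
      exact ⟨dvd_zero _, PowerSeries.X_dvd_iff.2 h0⟩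
    | succ k ih =>
      obtain ⟨i1, i2⟩ := ih
      have j1 : PowerSeries.X ∣ G.eval (Z k) := (dvd_pow_self _ (Nat.succ_ne_zero k)).trans i2
      refine ⟨?_, ?_⟩
      · have e1 : Z (k + 1) - PowerSeries.C c = (Z k - PowerSeries.C c) - PowerSeries.C e * G.eval (Z k) := by
          rw [hZs]
          ring
        rw [e1]
        exact dvd_sub i1 (Dvd.dvd.mul_left j1 _)
      · obtain ⟨z, hz⟩ := Polynomial.binomExpansion G (Z k) (-(PowerSeries.C e * G.eval (Z k)))
        have e1 : G.eval (Z (k + 1)) = G.eval (Z k) * (1 - PowerSeries.C e * (derivative G).eval (Z k)) +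
            z * (PowerSeries.C e * G.eval (Z k)) ^ 2 := by
          rw [hZs, sub_eq_add_neg, hz]
          ring
        have j2 : PowerSeries.X ∣ 1 - PowerSeries.C e * (derivative G).eval (Z k) := by
          have j3 : PowerSeries.X ∣ (derivative G).eval (Z k) - (derivative G).eval (PowerSeries.C c) :=
            i1.trans (sub_dvd_eval_sub _ _ _)
          rw [PowerSeries.X_dvd_iff, map_sub] at j3
          rw [PowerSeries.X_dvd_iff, map_sub, map_one, map_mul, PowerSeries.constantCoeff_C,
            sub_eq_zero.1 j3, he, sub_self]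
        rw [e1]
        refine dvd_add ?_ ?_
        · rw [pow_succ]
          exact mul_dvd_mul i2 j2
        · have j4 : PowerSeries.X ^ (k + 1 + 1) ∣ (PowerSeries.C e * G.eval (Z k)) ^ 2 := by
            rw [mul_pow, sq (G.eval (Z k)), pow_succ]
            exact Dvd.dvd.mul_left (mul_dvd_mul i2 j1) _
          exact Dvd.dvd.mul_left j4 _
  have hst : ∀ k, PowerSeries.X ^ (k + 1) ∣ Z (k + 1) - Z k := by
    intro k
    have e1 : Z (k + 1) - Z k = -(PowerSeries.C e) * G.eval (Z k) := by
      rw [hZs]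
      ring
    rw [e1]
    exact Dvd.dvd.mul_left (key k).2 _
  have hco : ∀ n j, PowerSeries.coeff n (Z (n + j)) = PowerSeries.coeff n (Z n) := by
    intro n j
    induction j with
    | zero => rfl
    | succ j ih =>
      rw [← ih, ← sub_eq_zero, ← map_sub]
      exact PowerSeries.X_pow_dvd_iff.1 (hst (n + j)) n (by omega)
  refine ⟨PowerSeries.mk fun n => PowerSeries.coeff n (Z n), ?_, ?_⟩
  · rw [← PowerSeries.coeff_zero_eq_constantCoeff_apply, PowerSeries.coeff_mk, hZ0,
      PowerSeries.coeff_zero_eq_constantCoeff_apply, PowerSeries.constantCoeff_C]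
  · have hd : ∀ k, PowerSeries.X ^ (k + 1) ∣
        (PowerSeries.mk fun n => PowerSeries.coeff n (Z n)) - Z k := by
      intro k
      rw [PowerSeries.X_pow_dvd_iff]
      intro n hn
      rw [map_sub, PowerSeries.coeff_mk, sub_eq_zero]
      have := hco n (k - n)
      rw [show n + (k - n) = k from by omega] at this
      exact this.symm
    ext k
    rw [map_zero]
    have h3 : PowerSeries.X ^ (k + 1) ∣
        G.eval (PowerSeries.mk fun n => PowerSeries.coeff n (Z n)) := by
      have h4 := (hd k).trans (sub_dvd_eval_sub _ _ G)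
      have h5 := dvd_add h4 (key k).2
      rwa [sub_add_cancel] at h5
    exact PowerSeries.X_pow_dvd_iff.1 h3 k (Nat.lt_succ_self k)

private theorem cc_aeval (c : E) (q : F[X]) :
    PowerSeries.constantCoeff (aeval (PowerSeries.C c) q : PowerSeries E) = aeval c q := by
  rw [aeval_def, hom_eval₂, PowerSeries.constantCoeff_C, aeval_def]
  congr 1

theorem hens (h : a * r = b * p + 1) {M : ℕ} {τ : F[X]} {f : F[X][X]} (hf : Qh a b M τ f) (c : E)
    (hc : c ≠ 0) (h0 : aeval c τ = 0) (h1 : aeval c (derivative τ) ≠ 0) :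
    ∃ y : PowerSeries E, IsY a b p r f c y := by
  obtain ⟨hdeg, hlead⟩ := phi_f h hf
  obtain ⟨P, hP⟩ : ∃ P, P = Phi a b p r f := ⟨_, rfl⟩
  rw [← hP] at hdeg hlead
  obtain ⟨n, hn⟩ : ∃ n, n = a * b * M := ⟨_, rfl⟩
  rw [← hn] at hdeg
  have hcn : P.coeff n = X ^ (b * p * M) * τ := by
    rw [← hlead, leadingCoeff, hdeg]
  obtain ⟨G, hG⟩ : ∃ G : (PowerSeries E)[X], G = ∑ k ∈ Finset.range (n + 1),
      (P.coeff k).map (algebraMap F (PowerSeries E)) * C (PowerSeries.X ^ (n - k)) := ⟨_, rfl⟩
  have hev : ∀ y : PowerSeries E, G.eval y =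
      ∑ k ∈ Finset.range (n + 1), aeval y (P.coeff k) * PowerSeries.X ^ (n - k) := by
    intro y
    rw [hG, eval_finsetSum]
    refine Finset.sum_congr rfl fun k _ => ?_
    rw [eval_mul, eval_C, eval_map, aeval_def]
  have hev' : ∀ y : PowerSeries E, (derivative G).eval y =
      ∑ k ∈ Finset.range (n + 1), aeval y (derivative (P.coeff k)) * PowerSeries.X ^ (n - k) := by
    intro y
    rw [hG, derivative_sum, eval_finsetSum]
    refine Finset.sum_congr rfl fun k _ => ?_
    rw [derivative_mul, derivative_C, mul_zero, add_zero, derivative_map, eval_mul, eval_C, eval_map,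
      aeval_def]
  have hcc : ∀ q : ℕ → F[X], PowerSeries.constantCoeff
      (∑ k ∈ Finset.range (n + 1), aeval (PowerSeries.C c) (q k) * PowerSeries.X ^ (n - k) : PowerSeries E) =
      aeval c (q n) := by
    intro q
    rw [map_sum, Finset.sum_eq_single n]
    · rw [Nat.sub_self, pow_zero, mul_one, cc_aeval]
    · intro k hk hkn
      rw [Finset.mem_range] at hk
      rw [map_mul, map_pow, PowerSeries.constantCoeff_X, zero_pow (by omega), mul_zero]
    · intro h
      exact absurd (Finset.mem_range.2 (Nat.lt_succ_self n)) h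
  obtain ⟨y, hy, hy0⟩ := hensel G c (by rw [hev, hcc, hcn, map_mul, h0, mul_zero]) (by
    rw [hev', hcc (fun k => derivative (P.coeff k))]
    show aeval c (derivative (P.coeff n)) ≠ 0
    rw [hcn, derivative_mul, map_add, map_mul, map_mul, h0, mul_zero, zero_add, map_pow, aeval_X]
    exact mul_ne_zero (pow_ne_zero _ hc) h1)
  refine ⟨y, hy, ?_⟩
  rw [← hP]
  have h3 : evy y P = HahnSeries.single (-(n : ℤ)) 1 * HahnSeries.ofPowerSeries ℤ E (G.eval y) := by
    rw [hev, map_sum, Finset.mul_sum]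
    unfold evy
    rw [coe_eval₂RingHom, eval₂_eq_sum_range, hdeg]
    refine Finset.sum_congr rfl fun k hk => ?_
    rw [Finset.mem_range] at hk
    rw [map_mul, HahnSeries.ofPowerSeries_X_pow, HahnSeries.single_pow, one_pow]
    have e1 : (HahnSeries.single (-(n : ℤ)) (1 : E)) * HahnSeries.single ((n - k : ℕ) : ℤ) 1 =
        HahnSeries.single (k • (-1 : ℤ)) 1 := by
      have e0 : (-(n : ℤ)) + ((n - k : ℕ) : ℤ) = k • (-1 : ℤ) := by
        rw [Nat.cast_sub (by omega), nsmul_eq_mul]
        ring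
      rw [HahnSeries.single_mul_single, mul_one, e0]
    rw [← e1]
    simp only [RingHom.comp_apply, RingHom.coe_coe]
    ring
  rw [h3, hy0, map_zero, mul_zero]

end H13.PC
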