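import Pool.Agent.H13.PC.Inf
import Pool.Agent.H13.TA.Bc0

/-!
# PC-QM: change of the coefficients

* `qh_map`: `f.map` has the coefficients `(f.coeff i).map φ` (`coeff_map`, `coe_mapRingHom`), whose degree can only drop
  (`natDegree_map_le`; if `f.coeff i = 0` the image is `0`); `f`, `τ` are monic (`Monic.natDegree_map`, `S` nontrivial).
* `inf_rat`: `E i = F`. `τ = ∏ (X - c_j)` has the simple roots `c_i` (derivative at `c_i`: `∏_(j ≠ i) (c_i - c_j)`; or
  `Polynomial.separable_prod_X_sub_C_iff`). `sep`: `G ≠ 0` has at most `natDegree G` roots (`card_roots'`; the `c i`, `i ∈ I`, are distinct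
  elements of `G.roots.toFinset`).
-/

set_option autoImplicit false

open Polynomial

noncomputable section

namespace H13.PC

theorem qh_map {R S : Type} [CommRing R] [CommRing S] [Nontrivial S] (φ : R →+* S) {a b M : ℕ}
    {τ : R[X]} {f : R[X][X]} (h : Qh a b M τ f) : Qh a b M (τ.map φ) (f.map (mapRingHom φ)) := by
  have hc : ∀ i, (f.map (mapRingHom φ)).coeff i = (f.coeff i).map φ := fun i => by
    rw [coeff_map, coe_mapRingHom]
  refine ⟨h.ha, h.hb, h.hM, h.cop, h.tmon.map φ, ?_, h.monic.map _, ?_, fun i hi => ?_, fun k hk => ?_⟩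
  · rw [h.tmon.natDegree_map φ, h.tdeg]
  · rw [h.monic.natDegree_map (mapRingHom φ), h.deg]
  · rw [hc] at hi ⊢
    have h1 : f.coeff i ≠ 0 := by
      intro h0
      rw [h0, Polynomial.map_zero] at hi
      exact hi rfl
    have h2 : ((f.coeff i).map φ).natDegree ≤ (f.coeff i).natDegree := natDegree_map_le
    exact (Nat.add_le_add_right (Nat.mul_le_mul_left a h2) _).trans (h.wt i h1)
  · rw [hc, coeff_map, coeff_map, h.top k hk]

theorem inf_rat {F : Type} [Field F] {m : ℕ} (c : Fin m → F) (hc : Function.Injective c)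
    (h0 : ∀ i, c i ≠ 0) : Inf (E := fun _ => F) m (∏ i, (X - C (c i))) (fun _ => 1) c := by
  classical
  have hr : ∀ i, aeval (c i) (∏ i, (X - C (c i))) = 0 := fun i => by
    rw [map_prod]
    refine Finset.prod_eq_zero (Finset.mem_univ i) ?_
    rw [map_sub, aeval_X, aeval_C]
    exact sub_self _
  refine ⟨hr, fun i => ?_, h0, fun _ => inferInstanceAs (Module.Finite F F), fun _ => Module.finrank_self F,
    fun I G hG h => ?_, ?_⟩
  · exact ((separable_prod_X_sub_C_iff).2 hc).aeval_derivative_ne_zero (hr i)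
  · rw [Finset.sum_const, smul_eq_mul, mul_one]
    have h1 : I.image c ⊆ G.roots.toFinset := by
      intro x hx
      obtain ⟨i, hi, rfl⟩ := Finset.mem_image.1 hx
      rw [Multiset.mem_toFinset, mem_roots hG, IsRoot.def]
      exact h i hi
    rw [← Finset.card_image_of_injective I hc]
    exact (Finset.card_le_card h1).trans ((Multiset.toFinset_card_le _).trans (card_roots' G))
  · rw [Finset.sum_const, smul_eq_mul, mul_one, Finset.card_univ, Fintype.card_fin]

end H13.PC
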