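import Pool.Agent.H13.PC.Def

/-!
# PC-LA: the dimensions of the spaces `L J w`

`O = AdjoinRoot f`, all dimensions over `F`.

* `L_mono`: clear from the definition (`Submodule` inclusion).
* `L_fin`: `L h J w ≤ L h ⊤ w`, which is finite dimensional (`hr.fin`).
* `ell_step`: in `V = L ⊤ (w + single i 1)` let `V₀ = L ⊤ w`, `U = L J (w + single i 1)`; `U ∩ V₀ = L J w`. So
  `dim U - dim (U ∩ V₀) = dim (U + V₀) - dim V₀ ≤ dim V - dim V₀ ≤ e i` (`hr.grow`;
  `Submodule.finrank_sup_add_finrank_inf_eq`, all are finite dimensional submodules of `O`).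
* `ell_le`: induction on the sum of the `(w' - w) i ≥ 0`, each step adds `1` to one coordinate (`ell_step`).
* `ell_J`: the map `L J w → O/J'` has kernel `L J' w` and its image is in the kernel of `O/J' → O/J`, which has
  dimension `ideg J' - ideg J` (`O/J' → O/J` is onto; both finite dimensional: `H13.TA.ideg_fin`, `J ≠ ⊥` as `J' ≤ J`).
* `ell_mul`: `x ↦ r x` is an isomorphism from `L J w` to `L (span {r} * J) (w + W r)`: `h.mul`, `O` is a domain
  (`h.dom`), `Ideal.mem_span_singleton_mul`.
-/

set_option autoImplicit false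

open Polynomial

noncomputable section

namespace H13.PC

variable {F : Type} [Field F] {m : ℕ} {f : F[X][X]} {e : Fin m → ℕ} {W : Fin m → AdjoinRoot f → ℤ}

theorem L_mono (h : Pls f e W) {J J' : Ideal (AdjoinRoot f)} (hJ : J' ≤ J) {w w' : Fin m → ℤ}
    (hw : w' ≤ w) : L h J' w' ≤ L h J w := by
  rintro r ⟨h1, h2⟩
  exact ⟨hJ h1, h2.imp_right fun h3 i => (h3 i).trans (hw i)⟩

theorem L_fin (h : Pls f e W) (hr : Rie h) (J : Ideal (AdjoinRoot f)) (w : Fin m → ℤ) :
    Module.Finite F (L h J w) := by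
  have h1 := hr.fin w
  have h2 : L h J w ≤ L h ⊤ w := L_mono h le_top (le_refl w)
  exact Submodule.finiteDimensional_of_le h2

theorem ell_step (h : Pls f e W) (hr : Rie h) (J : Ideal (AdjoinRoot f)) (w : Fin m → ℤ) (i : Fin m) :
    ell h J (w + Pi.single i 1) ≤ ell h J w + e i := by
  have hV := hr.fin (w + Pi.single i 1)
  have hV0 := hr.fin w
  have hU := L_fin h hr J (w + Pi.single i 1)
  have hle : w ≤ w + Pi.single i 1 := by
    intro j
    rw [Pi.add_apply]
    have h1 : (0 : ℤ) ≤ (Pi.single i (1 : ℤ) : Fin m → ℤ) j := by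
      by_cases hj : j = i
      · rw [hj, Pi.single_eq_same]
        norm_num
      · rw [Pi.single_eq_of_ne hj]
    linarith
  have hinf : L h J (w + Pi.single i 1) ⊓ L h ⊤ w = L h J w := by
    apply le_antisymm
    · rintro r ⟨h1, h2⟩
      exact ⟨h1.1, h2.2⟩
    · exact le_inf (L_mono h le_rfl hle) (L_mono h le_top le_rfl)
  have hsup : L h J (w + Pi.single i 1) ⊔ L h ⊤ w ≤ L h ⊤ (w + Pi.single i 1) :=
    sup_le (L_mono h le_top le_rfl) (L_mono h le_rfl hle)
  have h1 := Submodule.finrank_sup_add_finrank_inf_eq (L h J (w + Pi.single i 1)) (L h ⊤ w)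
  rw [hinf] at h1
  have h2 := Submodule.finrank_mono hsup
  have h3 := hr.grow w i
  unfold ell at h3 ⊢
  omega

theorem ell_le (h : Pls f e W) (hr : Rie h) (J : Ideal (AdjoinRoot f)) {w w' : Fin m → ℤ}
    (hw : w ≤ w') : (ell h J w' : ℤ) ≤ ell h J w + dw e (w' - w) := by
  have key : ∀ (N : ℕ) (w' : Fin m → ℤ), w ≤ w' → ∑ i, (w' i - w i) = N →
      (ell h J w' : ℤ) ≤ ell h J w + dw e (w' - w) := by
    intro N
    induction N with
    | zero =>
      intro w' hww hN
      have h1 : w' = w := by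
        funext i
        have h2 := (Finset.sum_eq_zero_iff_of_nonneg (fun j _ => sub_nonneg.2 (hww j))).1
          (by exact_mod_cast hN) i (Finset.mem_univ i)
        linarith
      rw [h1, sub_self]
      unfold dw
      simp
    | succ N ih =>
      intro w' hww hN
      obtain ⟨i, hi⟩ : ∃ i, w i < w' i := by
        by_contra hcon
        push Not at hcon
        have h1 : ∑ i, (w' i - w i) ≤ 0 := Finset.sum_nonpos fun i _ => sub_nonpos.2 (hcon i)
        rw [hN] at h1
        push_cast at h1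
        linarith [Int.natCast_nonneg N]
      obtain ⟨v, hv⟩ : ∃ v : Fin m → ℤ, v = w' - Pi.single i 1 := ⟨_, rfl⟩
      have hv1 : v + Pi.single i 1 = w' := by
        rw [hv, sub_add_cancel]
      have hvw : w ≤ v := by
        intro j
        rw [hv, Pi.sub_apply]
        by_cases hj : j = i
        · rw [hj, Pi.single_eq_same]
          linarith [Int.lt_iff_add_one_le.1 hi]
        · rw [Pi.single_eq_of_ne hj, sub_zero]
          exact hww j
      have hsum : ∑ j, (v j - w j) = N := by
        have h1 : ∑ j, (v j - w j) = ∑ j, (w' j - w j) - ∑ j, (Pi.single i (1 : ℤ) : Fin m → ℤ) j := by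
          rw [← Finset.sum_sub_distrib]
          refine Finset.sum_congr rfl fun j _ => ?_
          rw [hv, Pi.sub_apply]
          ring
        rw [h1, hN, Finset.sum_pi_single' i (1 : ℤ) Finset.univ, if_pos (Finset.mem_univ i)]
        push_cast
        ring
      have h1 := ih v hvw hsum
      have h2 := ell_step h hr J v i
      rw [hv1] at h2
      have h3 : dw e (w' - w) = dw e (v - w) + e i := by
        unfold dw
        have h4 : ∀ j, (e j : ℤ) * (w' - w) j = (e j : ℤ) * (v - w) j +
            (Pi.single i (e i : ℤ) : Fin m → ℤ) j := by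
          intro j
          rw [hv, Pi.sub_apply, Pi.sub_apply, Pi.sub_apply]
          by_cases hj : j = i
          · rw [hj, Pi.single_eq_same, Pi.single_eq_same]
            ring
          · rw [Pi.single_eq_of_ne hj, Pi.single_eq_of_ne hj]
            ring
        rw [Finset.sum_congr rfl fun j _ => h4 j, Finset.sum_add_distrib,
          Finset.sum_pi_single' i (e i : ℤ) Finset.univ, if_pos (Finset.mem_univ i)]
      rw [h3]
      have h5 : (ell h J w' : ℤ) ≤ ell h J v + e i := by exact_mod_cast h2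
      linarith
  have h0 : 0 ≤ ∑ i, (w' i - w i) := Finset.sum_nonneg fun i _ => sub_nonneg.2 (hw i)
  exact key (∑ i, (w' i - w i)).toNat w' hw (by rw [Int.toNat_of_nonneg h0])

theorem ell_J (h : Pls f e W) (hr : Rie h) {J J' : Ideal (AdjoinRoot f)} (hJ' : J' ≠ ⊥)
    (hJ : J' ≤ J) (w : Fin m → ℤ) :
    (ell h J w : ℤ) ≤ ell h J' w + (H13.TA.ideg f J' - H13.TA.ideg f J : ℤ) := by
  have hd := h.dom
  have hJne : J ≠ ⊥ := fun h1 => hJ' (le_bot_iff.1 (h1 ▸ hJ))
  have hf1 := H13.TA.ideg_fin h.monic hJ'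
  have hf2 := H13.TA.ideg_fin h.monic hJne
  have hU := L_fin h hr J w
  let fa : (AdjoinRoot f ⧸ J') →ₗ[F] (AdjoinRoot f ⧸ J) := (Ideal.Quotient.factorₐ F hJ).toLinearMap
  have h1 := LinearMap.finrank_range_add_finrank_ker fa
  have h2 : LinearMap.range fa = ⊤ := LinearMap.range_eq_top.2 (Ideal.Quotient.factor_surjective hJ)
  rw [h2, finrank_top] at h1
  let q : L h J w →ₗ[F] (AdjoinRoot f ⧸ J') :=
    (Ideal.Quotient.mkₐ F J').toLinearMap.domRestrict (L h J w)
  have hq : ∀ x : L h J w, q x = Ideal.Quotient.mk J' x.1 := fun x => rfl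
  have h3 := LinearMap.finrank_range_add_finrank_ker q
  have h4 : LinearMap.range q ≤ LinearMap.ker fa := by
    rintro _ ⟨x, rfl⟩
    rw [LinearMap.mem_ker, hq]
    show (Ideal.Quotient.mk J x.1 : AdjoinRoot f ⧸ J) = 0
    exact Ideal.Quotient.eq_zero_iff_mem.2 x.2.1
  have h5 := Submodule.finrank_mono h4
  have h6 : Submodule.map (L h J w).subtype (LinearMap.ker q) = L h J' w := by
    ext r
    rw [Submodule.mem_map]
    constructor
    · rintro ⟨x, hx, rfl⟩
      rw [LinearMap.mem_ker, hq, Ideal.Quotient.eq_zero_iff_mem] at hx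
      exact ⟨hx, x.2.2⟩
    · rintro ⟨hr1, hr2⟩
      refine ⟨⟨r, hJ hr1, hr2⟩, ?_, rfl⟩
      rw [LinearMap.mem_ker, hq, Ideal.Quotient.eq_zero_iff_mem]
      exact hr1
  have h7 := (Submodule.equivSubtypeMap (L h J w) (LinearMap.ker q)).finrank_eq
  rw [h6] at h7
  unfold ell H13.TA.ideg
  omega

theorem ell_mul (h : Pls f e W) {r : AdjoinRoot f} (hr : r ≠ 0) (J : Ideal (AdjoinRoot f))
    (w : Fin m → ℤ) : ell h (Ideal.span {r} * J) (w + fun i => W i r) = ell h J w := by
  have hd := h.dom
  have h1 : (L h J w).map (LinearMap.mulLeft F r) =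
      L h (Ideal.span {r} * J) (w + fun i => W i r) := by
    ext y
    rw [Submodule.mem_map]
    constructor
    · rintro ⟨x, ⟨hx1, hx2⟩, rfl⟩
      rw [LinearMap.mulLeft_apply]
      refine ⟨Ideal.mem_span_singleton_mul.2 ⟨x, hx1, rfl⟩, ?_⟩
      by_cases hx0 : x = 0
      · left
        rw [hx0, mul_zero]
      · right
        intro i
        rw [h.mul i r x hr hx0, Pi.add_apply]
        linarith [(hx2.resolve_left hx0) i]
    · rintro ⟨hy1, hy2⟩
      obtain ⟨z, hz, rfl⟩ := Ideal.mem_span_singleton_mul.1 hy1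
      refine ⟨z, ⟨hz, ?_⟩, by rw [LinearMap.mulLeft_apply]⟩
      by_cases hz0 : z = 0
      · exact Or.inl hz0
      · right
        intro i
        have h2 := (hy2.resolve_left (mul_ne_zero hr hz0)) i
        rw [h.mul i r z hr hz0, Pi.add_apply] at h2
        linarith
  have hinj : Function.Injective (LinearMap.mulLeft F r : AdjoinRoot f →ₗ[F] AdjoinRoot f) := by
    intro x y hxy
    rw [LinearMap.mulLeft_apply, LinearMap.mulLeft_apply] at hxy
    exact mul_left_cancel₀ hr hxy
  unfold ell
  rw [← h1]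
  exact (Submodule.equivMapOfInjective _ hinj (L h J w)).finrank_eq.symm

end H13.PC
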