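import Pool.Agent.H13.PC.Pw

/-!
# PC-RG: one more pole

`u ∈ L ⊤ (w + single i 1)`, `u = mk g`: the coefficient of `φ_i(u) = evy (y i) (Phi g)` at the exponent `-(w i + 1)` is an `F`-linear
function `λ` of `u` with values in `E i` (`φ_i` is well defined on `O`: `φ_i(f) = 0`, `hy.zero`; `F`-linear by `evy_const` and
`Phi (C (C c)) = C (C c)`). Its kernel is `L ⊤ w`: for `u ≠ 0` in `L ⊤ (w + single i 1)` the order of `φ_i(u) ≠ 0` (`ev_ne`) is
`-W i u ≥ -(w i + 1)` (`wy_mk`), and the coefficient at `-(w i + 1)` is zero iff `W i u ≤ w i` (`HahnSeries.coeff_order_ne_zero`). So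
`dim L ⊤ (w + single i 1) - dim L ⊤ w ≤ dim_F E i = e i` (`hI.deg`, `hI.fin`).
-/

set_option autoImplicit false

open Polynomial

noncomputable section

namespace H13.PC

variable {F : Type} [Field F] {a b p r M : ℕ} {τ : F[X]} {f : F[X][X]} {m : ℕ} {e : Fin m → ℕ}
  {E : Fin m → Type} [∀ i, Field (E i)] [∀ i, Algebra F (E i)] {c : ∀ i, E i}

theorem grow (hf : Qh a b M τ f) (hI : Inf M τ e c) (y : ∀ i, PowerSeries (E i))
    (hy : ∀ i, IsY a b p r f (c i) (y i)) (hP : Pls f e (fun i => Wy a b p r (y i)))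
    (w : Fin m → ℤ) (i : Fin m) (hw : Module.Finite F (L hP ⊤ (w + Pi.single i 1))) :
    ell hP ⊤ (w + Pi.single i 1) ≤ ell hP ⊤ w + e i := by
  classical
  have hd := hP.dom
  have hfinE := hI.fin i
  obtain ⟨ψ, hψ⟩ : ∃ ψ : F[X][X] →+* LaurentSeries (E i), ψ = (evy (y i)).comp (Phi a b p r) :=
    ⟨_, rfl⟩
  have hψg : ∀ g, ψ g = evy (y i) (Phi a b p r g) := fun g => by rw [hψ]; rfl
  have hψf : ψ f = 0 := by rw [hψg]; exact (hy i).zero
  have hker : ∀ g ∈ Ideal.span {f}, ψ g = 0 := by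
    intro g hg
    rw [Ideal.mem_span_singleton] at hg
    obtain ⟨k, rfl⟩ := hg
    rw [map_mul, hψf, zero_mul]
  obtain ⟨φ, hφ'⟩ : ∃ φ : AdjoinRoot f →+* LaurentSeries (E i),
      φ = Ideal.Quotient.lift (Ideal.span {f}) ψ hker := ⟨_, rfl⟩
  have hφ : ∀ g, φ (AdjoinRoot.mk f g) = evy (y i) (Phi a b p r g) := fun g => by
    rw [hφ', ← hψg]
    rfl
  have hφc : ∀ d : F, φ (algebraMap F (AdjoinRoot f) d) = HahnSeries.C (algebraMap F (E i) d) := by
    intro d
    have h1 : algebraMap F (AdjoinRoot f) d = AdjoinRoot.mk f (C (C d)) := rfl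
    have h2 : Phi a b p r (C (C d)) = (C (C d) : F[X][X]) := by simp [Phi]
    rw [h1, hφ, h2, evy_const]
  have hφ0 : ∀ u, φ u = 0 ↔ u = 0 := by
    intro u
    obtain ⟨g, rfl⟩ := AdjoinRoot.mk_surjective u
    rw [hφ]
    exact ev_ne hf (hy i) (hI.ne i) g
  have hW : ∀ u, Wy a b p r (y i) u = -(φ u).order := by
    intro u
    obtain ⟨g, rfl⟩ := AdjoinRoot.mk_surjective u
    rw [hφ]
    exact wy_mk (hy i) g
  let lam : L hP ⊤ (w + Pi.single i 1) →ₗ[F] E i :=
    { toFun := fun u => (φ (u : AdjoinRoot f)).coeff (-(w i + 1))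
      map_add' := fun u v => by
        rw [Submodule.coe_add, map_add, HahnSeries.coeff_add]
      map_smul' := fun d u => by
        rw [Submodule.coe_smul, Algebra.smul_def, map_mul, hφc, HahnSeries.C_mul_eq_smul,
          HahnSeries.coeff_smul, RingHom.id_apply, smul_eq_mul, Algebra.smul_def] }
  have hle : L hP ⊤ w ≤ L hP ⊤ (w + Pi.single i 1) := by
    rintro u ⟨h1, h2⟩
    refine ⟨h1, h2.imp_right fun h3 j => (h3 j).trans ?_⟩
    rw [Pi.add_apply]
    have h4 : (0 : ℤ) ≤ (Pi.single i (1 : ℤ) : Fin m → ℤ) j := by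
      by_cases hj : j = i
      · subst hj
        rw [Pi.single_eq_same]
        exact zero_le_one
      · rw [Pi.single_eq_of_ne hj]
    omega
  have hfw : Module.Finite F (L hP ⊤ w) := Module.Finite.of_injective (Submodule.inclusion hle)
    (Submodule.inclusion_injective _)
  have hmem : ∀ u : LinearMap.ker lam, ((u : L hP ⊤ (w + Pi.single i 1)) : AdjoinRoot f) ∈ L hP ⊤ w := by
    rintro ⟨⟨u, h1, h2⟩, h3⟩
    have h4 : (φ u).coeff (-(w i + 1)) = 0 := h3
    refine ⟨h1, ?_⟩
    by_cases hu : u = 0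
    · exact Or.inl hu
    right
    intro j
    have h5 := (h2.resolve_left hu) j
    rw [Pi.add_apply] at h5
    by_cases hj : j = i
    · subst hj
      rw [Pi.single_eq_same] at h5
      refine Int.lt_add_one_iff.1 (lt_of_le_of_ne h5 fun h6 => ?_)
      have h7 : (φ u).order = -(w j + 1) := by
        rw [← h6]
        show (φ u).order = -(Wy a b p r (y j) u)
        rw [hW u, neg_neg]
      rw [← h7] at h4
      exact (HahnSeries.coeff_order_eq_zero.not.2 fun h => hu ((hφ0 u).1 h)) h4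
    · rw [Pi.single_eq_of_ne hj, add_zero] at h5
      exact h5
  let inc : LinearMap.ker lam →ₗ[F] L hP ⊤ w :=
    { toFun := fun u => ⟨((u : L hP ⊤ (w + Pi.single i 1)) : AdjoinRoot f), hmem u⟩
      map_add' := fun u v => rfl
      map_smul' := fun d u => rfl }
  have hinc : Function.Injective inc := by
    intro u v huv
    apply Subtype.ext
    apply Subtype.ext
    exact congrArg (fun z : L hP ⊤ w => (z : AdjoinRoot f)) huv
  have h1 := LinearMap.finrank_range_add_finrank_ker lam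
  have h2 : Module.finrank F (LinearMap.range lam) ≤ Module.finrank F (E i) :=
    Submodule.finrank_le _
  have h3 : Module.finrank F (LinearMap.ker lam) ≤ Module.finrank F (L hP ⊤ w) :=
    LinearMap.finrank_le_finrank_of_injective hinc
  rw [hI.deg i] at h2
  unfold ell
  omega

end H13.PC
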