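import Pool.Agent.H13.PC.Rf
import Pool.Agent.H13.PC.Rg
import Pool.Agent.H13.PC.Hn
import Pool.Agent.H13.PC.La

/-!
# PC-RI: a curve with a quasi-homogeneous leading form
-/

set_option autoImplicit false

open Polynomial

noncomputable section

namespace H13.PC

variable {F : Type} [Field F] {a b p r M : ℕ} {τ : F[X]} {f : F[X][X]} {m : ℕ} {e : Fin m → ℕ}
  {E : Fin m → Type} [∀ i, Field (E i)] [∀ i, Algebra F (E i)] {c : ∀ i, E i}

theorem rie (h : a * r = b * p + 1) (hf : Qh a b M τ f) (hI : Inf M τ e c)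
    (y : ∀ i, PowerSeries (E i)) (hy : ∀ i, IsY a b p r f (c i) (y i))
    (hP : Pls f e (fun i => Wy a b p r (y i))) : Rie hP := by
  have hfin : ∀ w : Fin m → ℤ, Module.Finite F (L hP ⊤ w) := by
    intro w
    obtain ⟨n, hn⟩ : ∃ n : ℕ, ∀ i, w i ≤ n := by
      refine ⟨Finset.univ.sup fun i => (w i).toNat, fun i => ?_⟩
      have h1 : (w i).toNat ≤ Finset.univ.sup fun i => (w i).toNat :=
        Finset.le_sup (f := fun i => (w i).toNat) (Finset.mem_univ i)
      have h2 := Int.self_le_toNat (w i)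
      exact h2.trans (by exact_mod_cast h1)
    have h1 := (fin_n h hf hI y hy hP n).1
    exact Module.Finite.of_injective (Submodule.inclusion (L_mono hP le_rfl (w' := w) hn))
      (Submodule.inclusion_injective _)
  refine ⟨hfin, fun w i => grow hf hI y hy hP w i (hfin _), ⟨((a * b * M : ℕ) : ℤ), fun n hn => ?_⟩⟩
  obtain ⟨k, rfl⟩ : ∃ k : ℕ, n = k := ⟨n.toNat, by omega⟩
  have h1 := (fin_n h hf hI y hy hP k).2
  have h2 := (fin_n h hf hI y hy hP (k + 1)).2
  push_cast at h2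
  rw [h1, h2, cnt_n hf.ha hf.hb hf.cop M k (by exact_mod_cast hn), hI.sum]

theorem exr {a b : ℕ} (ha : a ≠ 0) (hb : b ≠ 0) (hc : a.Coprime b) :
    ∃ p r : ℕ, a * r = b * p + 1 := by
  rcases Nat.lt_or_ge 1 b with h1 | h1
  · obtain ⟨r, -, hr⟩ := Nat.exists_mul_mod_eq_one_of_coprime hc h1
    exact ⟨a * r / b, r, by rw [← hr, Nat.div_add_mod]⟩
  · have h2 : b = 1 := by omega
    exact ⟨a - 1, 1, by rw [h2]; omega⟩

theorem exPls (hf : Qh a b M τ f) (hs : Ideal.span {f, derivative f, H13.TA.dt f} = ⊤)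
    (hI : Inf M τ e c) : ∃ (W : Fin m → AdjoinRoot f → ℤ) (hP : Pls f e W), Rie hP := by
  obtain ⟨p, r, hpr⟩ := exr hf.ha hf.hb hf.cop
  have h1 : ∀ i, ∃ y : PowerSeries (E i), IsY a b p r f (c i) y := fun i =>
    hens hpr hf (c i) (hI.ne i) (hI.root i) (hI.der i)
  choose y hy using h1
  exact ⟨_, pls hpr hf hs hI y hy, rie hpr hf hI y hy _⟩

end H13.PC
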