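import Pool.Agent.H13.PC.Wf
import Pool.Agent.H13.PC.Ft
import Pool.Agent.H13.PC.Dm
import Pool.Agent.H13.PC.Hn
import Pool.Agent.H13.PC.Ri
import Pool.Agent.H13.PC.Qm
import Pool.Agent.H13.TA.Bc0

/-!
# PC-CB: a large field of constants

* `bc_irr`: let `F'` be any field extension. `τ` over `F'` is separable with `τ(0) ≠ 0`, `fct_ex`, `fct_inf`, `exr`, `hens`, `dom` for `bc F' f`
  (`qh_map`, `H13.TA.bc_smooth`): `AdjoinRoot (bc F' f)` is a domain, so `bc F' f` is prime (it is not `0`), so irreducible.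
* `cb1`: `g` is irreducible, monic in `x` of positive degree, `g' = derivative g ≠ 0` has smaller degree in `x`, so `g ∤ g'`, and `g`, `g'` are coprime over the
  field of fractions of `F[t]` (`g` stays irreducible there: Gauss): `A g + B g' = d` with `A, B ∈ F[t][x]`, `0 ≠ d ∈ F[t]`. Choose `t₀ ∈ F̄` with
  `d(t₀) ≠ 0` (`F̄` infinite) and let `k ⊂ F̄` be generated over `F` by `t₀`, the roots of `g(t₀, x)` and the roots of `T`
  (`IntermediateField.adjoin` of a finite set: finite extension). `g(t₀, x)` is separable and splits in `k`: `wf` for `bc k g`.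
* `cb2`: if `derivative f ≠ 0`: `cb1` with `bc_irr`. Otherwise the ideal generated by `f` and `dt f` is `⊤`, so `dt f ≠ 0` (`f` is monic of
  degree `a M ≥ 1`). Exchange the variables: `g = C (C τ₀⁻¹) * swap f`, `swap = Polynomial.Bivariate.swap`, `τ₀ = τ.coeff 0 ≠ 0`. All
  monomials `t ^ j x ^ i` of `f` have `a j + b i ≤ a b M`, so `j ≤ b M`, with equality only for `i = 0`, coefficient `τ₀` (`hf.top 0`). So
  `g` is monic of degree `b M` in the new main variable. It is irreducible over all extensions (`swap` is a ring isomorphism which commutes with the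
  change of the field; `bc_irr`), `derivative g` is `swap (dt f)` times a constant, not zero. `npt g r = npt f r`: exchange the
  coordinates. Apply `cb1` to `g`.
-/

set_option autoImplicit false

open Polynomial

noncomputable section

namespace H13.PC

theorem bc_irr {F : Type} [Field F] {a b M : ℕ} {τ : F[X]} {f : F[X][X]} (hf : Qh a b M τ f)
    (hs : Ideal.span {f, derivative f, H13.TA.dt f} = ⊤) (hτ : τ.Separable) (h0 : τ.coeff 0 ≠ 0)
    (F' : Type) [Field F'] [Algebra F F'] : Irreducible (H13.TA.bc F' f) := by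
  have hq : Qh a b M (τ.map (algebraMap F F')) (H13.TA.bc F' f) := qh_map (algebraMap F F') hf
  have hs' := H13.TA.bc_smooth (F' := F') hs
  have hτ' : (τ.map (algebraMap F F')).Separable := hτ.map
  have h0' : (τ.map (algebraMap F F')).coeff 0 ≠ 0 := by
    rw [coeff_map]
    exact (_root_.map_ne_zero _).2 h0
  obtain ⟨m, e, hfc⟩ := fct_ex hq.tmon hτ'
  obtain ⟨E, i1, i2, c, hI⟩ := fct_inf hτ' h0' hfc
  rw [hq.tdeg] at hI
  obtain ⟨p, r, hpr⟩ := exr hq.ha hq.hb hq.cop
  have h1 : ∀ i, ∃ y : PowerSeries (E i), IsY a b p r (H13.TA.bc F' f) (c i) y := fun i =>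
    hens hpr hq (c i) (hI.ne i) (hI.root i) (hI.der i)
  choose y hy using h1
  have hd : IsDomain (AdjoinRoot (H13.TA.bc F' f)) := dom hpr hq hs' hI y hy
  have hp : (Ideal.span {H13.TA.bc F' f}).IsPrime :=
    (Ideal.Quotient.isDomain_iff_prime _).1 hd
  exact ((Ideal.span_singleton_prime hq.monic.ne_zero).1 hp).irreducible

/-- the discriminant is not zero -/
private theorem cb_disc {F : Type} [Field F] {g : F[X][X]} (hg : g.Monic) (hirr : Irreducible g)
    (hd : derivative g ≠ 0) : ∃ (A B : F[X][X]) (d : F[X]), d ≠ 0 ∧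
      A * g + B * derivative g = C d := by
  have hp : (Ideal.span {g}).IsPrime := (Ideal.span_singleton_prime hg.ne_zero).2 hirr.prime
  have hdom : IsDomain (AdjoinRoot g) := Ideal.Quotient.isDomain (Ideal.span {g})
  have hx : AdjoinRoot.mk g (derivative g) ≠ 0 := by
    intro h0
    rw [AdjoinRoot.mk_eq_zero] at h0
    exact hd (eq_zero_of_dvd_of_degree_lt h0 (degree_derivative_lt hg.ne_zero))
  have hint : Algebra.IsIntegral F[X] (AdjoinRoot g) := by
    have := hg.finite_adjoinRoot
    exact Algebra.IsIntegral.of_finite _ _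
  have h1 := Ideal.comap_ne_bot_of_integral_mem hx
    (Ideal.subset_span (Set.mem_singleton _) : _ ∈ Ideal.span {AdjoinRoot.mk g (derivative g)})
    (hint.isIntegral _)
  obtain ⟨d, hd1, hd2⟩ := Submodule.exists_mem_ne_zero_of_ne_bot h1
  rw [Ideal.mem_comap, Ideal.mem_span_singleton'] at hd1
  obtain ⟨x, hx⟩ := hd1
  obtain ⟨B, rfl⟩ := AdjoinRoot.mk_surjective x
  rw [AdjoinRoot.algebraMap_eq, AdjoinRoot.of, RingHom.comp_apply, ← map_mul, ← sub_eq_zero,
    ← map_sub, AdjoinRoot.mk_eq_zero] at hx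
  obtain ⟨A, hA⟩ := hx
  refine ⟨-A, B, d, hd2, ?_⟩
  linear_combination hA

theorem cb1 {F : Type} [Field F] [Finite F] {g : F[X][X]} (hg : g.Monic)
    (hirr : ∀ (F' : Type) [Field F'] [Algebra F F'], Irreducible (H13.TA.bc F' g))
    (hd : derivative g ≠ 0) (T : F[X]) (hT : T ≠ 0) :
    ∃ (k : Type) (_ : Field k) (_ : Finite k) (_ : Algebra F k),
      (T.map (algebraMap F k)).Splits ∧
      ∃ C : ℝ, ∀ r : ℕ, r ≠ 0 → |(H13.TA.npt (H13.TA.bc k g) r : ℝ) - (Nat.card k : ℝ) ^ r| ≤
        C * √((Nat.card k : ℝ) ^ r) := by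
  classical
  have hirr0 : Irreducible g := by
    have h1 := hirr F
    have h2 : H13.TA.bc F g = g := by
      unfold H13.TA.bc
      rw [Algebra.algebraMap_self, mapRingHom_id, Polynomial.map_id]
    rwa [h2] at h1
  obtain ⟨A, B, d, hd0, hAB⟩ := cb_disc hg hirr0 hd
  obtain ⟨t, ht⟩ : ∃ t : AlgebraicClosure F, aeval t d ≠ 0 := by
    by_contra hno
    push Not at hno
    have h1 : d.map (algebraMap F (AlgebraicClosure F)) = 0 := by
      refine Polynomial.funext fun t => ?_
      rw [eval_map_algebraMap, hno t, eval_zero]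
    exact hd0 ((Polynomial.map_eq_zero _).1 h1)
  obtain ⟨φ, hφ⟩ : ∃ φ : F[X] →+* AlgebraicClosure F,
      φ = ((aeval t : F[X] →ₐ[F] AlgebraicClosure F) : F[X] →+* AlgebraicClosure F) := ⟨_, rfl⟩
  obtain ⟨G, hG⟩ : ∃ G, G = g.map φ := ⟨_, rfl⟩
  have hGsep : G.Separable := by
    have h1 := congrArg (Polynomial.map φ) hAB
    rw [Polynomial.map_add, Polynomial.map_mul, Polynomial.map_mul, map_C, ← derivative_map,
      ← hG] at h1
    have h2 : φ d ≠ 0 := by
      rw [hφ]
      exact ht
    refine ⟨C (φ d)⁻¹ * A.map φ, C (φ d)⁻¹ * B.map φ, ?_⟩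
    rw [mul_assoc, mul_assoc, ← mul_add, h1, ← C_mul, inv_mul_cancel₀ h2, C_1]
  obtain ⟨S, hS⟩ : ∃ S : Finset (AlgebraicClosure F), S = {t} ∪ (G.roots.toFinset ∪
      (T.map (algebraMap F (AlgebraicClosure F))).roots.toFinset) := ⟨_, rfl⟩
  obtain ⟨k, hk⟩ : ∃ k : IntermediateField F (AlgebraicClosure F),
      k = IntermediateField.adjoin F (S : Set (AlgebraicClosure F)) := ⟨_, rfl⟩
  have hfd : FiniteDimensional F k := by
    rw [hk]
    exact IntermediateField.finiteDimensional_adjoin fun x _ => Algebra.IsIntegral.isIntegral x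
  have hfin : Finite k := Module.finite_of_finite F
  have hSk : ∀ x ∈ S, x ∈ k := by
    intro x hx
    rw [hk]
    exact IntermediateField.subset_adjoin F _ hx
  have htk : t ∈ k := hSk t (by rw [hS]; exact Finset.mem_union_left _ (Finset.mem_singleton_self t))
  refine ⟨k, inferInstance, hfin, inferInstance, ?_, ?_⟩
  · refine Splits.of_splits_map (algebraMap k (AlgebraicClosure F)) (IsAlgClosed.splits _) ?_
    intro x hx
    rw [Polynomial.map_map, ← IsScalarTower.algebraMap_eq] at hx
    have h1 : x ∈ k := hSk x (by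
      rw [hS]
      exact Finset.mem_union_right _ (Finset.mem_union_right _ (Multiset.mem_toFinset.2 hx)))
    exact ⟨⟨x, h1⟩, rfl⟩
  · obtain ⟨G₁, hG₁⟩ : ∃ G₁, G₁ = (H13.TA.bc k g).map (evalRingHom (⟨t, htk⟩ : k)) := ⟨_, rfl⟩
    have hmap : G₁.map (algebraMap k (AlgebraicClosure F)) = G := by
      rw [hG₁, hG]
      unfold H13.TA.bc
      rw [Polynomial.map_map, Polynomial.map_map]
      congr 1
      refine Polynomial.ringHom_ext (fun x => ?_) ?_
      · rw [hφ]
        simp
      · rw [hφ]
        simp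
    have hmon : G₁.Monic := by
      rw [hG₁]
      exact (H13.TA.bc_monic hg).map _
    have hspl : G₁.Splits := by
      refine Splits.of_splits_map (algebraMap k (AlgebraicClosure F)) (IsAlgClosed.splits _) ?_
      intro x hx
      rw [hmap] at hx
      have h1 : x ∈ k := hSk x (by
        rw [hS]
        exact Finset.mem_union_right _ (Finset.mem_union_left _ (Multiset.mem_toFinset.2 hx)))
      exact ⟨⟨x, h1⟩, rfl⟩
    have hsep : G₁.Separable := by
      rw [← separable_map (algebraMap k (AlgebraicClosure F)), hmap]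
      exact hGsep
    have hnd : G₁.roots.Nodup := nodup_roots hsep
    have hN : G₁.roots.toList.length ≠ 0 := by
      rw [Multiset.length_toList, ← hspl.natDegree_eq_card_roots, hG₁,
        (H13.TA.bc_monic hg).natDegree_map, H13.TA.bc_deg hg]
      intro h0
      rw [hg.natDegree_eq_zero.1 h0, derivative_one] at hd
      exact hd rfl
    refine wf (H13.TA.bc_monic hg) (hirr k) ⟨t, htk⟩ hN (fun i => G₁.roots.toList.get i) ?_ ?_
    · have h1 : G₁.roots.toList.Nodup := by
        rw [← Multiset.coe_nodup, Multiset.coe_toList]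
        exact hnd
      exact List.nodup_iff_injective_get.1 h1
    · rw [← hG₁]
      have h1 := hspl.eq_prod_roots_of_monic hmon
      have h2 : ∏ i, (X - C (G₁.roots.toList.get i)) = (G₁.roots.toList.map fun x => X - C x).prod := by
        have h3 : (fun i => X - C (G₁.roots.toList.get i)) =
            (fun x => X - C x) ∘ G₁.roots.toList.get := rfl
        rw [← List.prod_ofFn, h3, ← List.map_ofFn, List.ofFn_get]
      rw [h2, ← Multiset.prod_coe, ← Multiset.map_coe, Multiset.coe_toList]
      exact h1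

private theorem biv_ind {R : Type*} [CommRing R] {P : R[X][X] → Prop}
    (h1 : ∀ p q, P p → P q → P (p + q)) (h2 : ∀ (n m : ℕ) (r : R), P (monomial n (monomial m r)))
    (p : R[X][X]) : P p := by
  induction p using Polynomial.induction_on' with
  | add p q hp hq => exact h1 _ _ hp hq
  | monomial n a =>
    induction a using Polynomial.induction_on' with
    | add p q hp hq =>
      rw [map_add]
      exact h1 _ _ hp hq
    | monomial m r => exact h2 n m r

private theorem coeff_sw {R : Type*} [CommRing R] (p : R[X][X]) (i j : ℕ) :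
    ((Bivariate.swap p).coeff j).coeff i = (p.coeff i).coeff j := by
  induction p using biv_ind with
  | h1 p q hp hq => rw [map_add, coeff_add, coeff_add, coeff_add, coeff_add, hp, hq]
  | h2 n m r =>
    rw [Bivariate.swap_monomial_monomial, coeff_monomial, coeff_monomial]
    by_cases h1 : m = j <;> by_cases h2 : n = i <;> simp [h1, h2, coeff_monomial]

private theorem coeff_dt {R : Type*} [CommRing R] (g : R[X][X]) (n : ℕ) :
    (H13.TA.dt g).coeff n = derivative (g.coeff n) := by
  unfold H13.TA.dt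
  rw [sum_def, finsetSum_coeff]
  simp only [coeff_monomial]
  rw [Finset.sum_ite_eq' _ n]
  split_ifs with hn
  · rfl
  · rw [notMem_support_iff.1 hn, derivative_zero]

private theorem der_sw {R : Type*} [CommRing R] (p : R[X][X]) :
    derivative (Bivariate.swap p) = Bivariate.swap (H13.TA.dt p) := by
  ext j i
  rw [coeff_sw, coeff_dt, coeff_derivative, coeff_derivative, ← coeff_sw]
  have h1 : ((j : R[X]) + 1) = C ((j : R) + 1) := by simp
  rw [h1, coeff_mul_C]

private theorem bc_sw {F : Type} [Field F] (F' : Type) [Field F'] [Algebra F F'] (p : F[X][X]) :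
    H13.TA.bc F' (Bivariate.swap p) = Bivariate.swap (H13.TA.bc F' p) := by
  ext j i
  unfold H13.TA.bc
  rw [coeff_sw, coeff_map, coeff_map, coe_mapRingHom, coeff_map, coeff_map, coeff_sw]

private theorem ev_sw {F : Type} [Field F] {E : Type} [Field E] [Algebra F E] (p : F[X][X])
    (x y : E) : H13.TA.ev (Bivariate.swap p) (x, y) = H13.TA.ev p (y, x) := by
  unfold H13.TA.ev
  induction p using biv_ind with
  | h1 p q hp hq => rw [map_add, eval₂_add, eval₂_add, hp, hq]
  | h2 n m r =>
    rw [Bivariate.swap_monomial_monomial, eval₂_monomial, eval₂_monomial]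
    simp only [RingHom.coe_coe, aeval_monomial]
    ring

private theorem npt_sw {F : Type} [Field F] (p : F[X][X]) (u : F) (hu : u ≠ 0) (r : ℕ) :
    H13.TA.npt (C (C u) * Bivariate.swap p) r = H13.TA.npt p r := by
  unfold H13.TA.npt
  refine Nat.card_congr ((Equiv.prodComm _ _).subtypeEquiv fun q => ?_)
  obtain ⟨x, y⟩ := q
  have h1 : H13.TA.ev (C (C u) * Bivariate.swap p) (x, y) =
      algebraMap F (AlgebraicClosure F) u * H13.TA.ev p (y, x) := by
    rw [← ev_sw p x y]
    unfold H13.TA.ev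
    rw [eval₂_mul, eval₂_C]
    simp
  have h2 : algebraMap F (AlgebraicClosure F) u ≠ 0 := (_root_.map_ne_zero _).2 hu
  simp only [Equiv.prodComm_apply, Prod.swap_prod_mk]
  rw [h1, mul_eq_zero_iff_left h2]
  tauto

theorem cb2 {F : Type} [Field F] [Finite F] {a b M : ℕ} {τ : F[X]} {f : F[X][X]}
    (hf : Qh a b M τ f) (hs : Ideal.span {f, derivative f, H13.TA.dt f} = ⊤) (hτ : τ.Separable)
    (h0 : τ.coeff 0 ≠ 0) :
    ∃ (k : Type) (_ : Field k) (_ : Finite k) (_ : Algebra F k),
      (τ.map (algebraMap F k)).Splits ∧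
      ∃ C : ℝ, ∀ r : ℕ, r ≠ 0 → |(H13.TA.npt (H13.TA.bc k f) r : ℝ) - (Nat.card k : ℝ) ^ r| ≤
        C * √((Nat.card k : ℝ) ^ r) := by
  by_cases hd : derivative f = 0
  swap
  · exact cb1 hf.monic (fun F' _ _ => bc_irr hf hs hτ h0 F') hd τ hf.tmon.ne_zero
  have hdeg : f.natDegree ≠ 0 := by
    rw [hf.deg]
    exact mul_ne_zero hf.ha hf.hM
  have hdt : H13.TA.dt f ≠ 0 := by
    intro h1
    have h2 : IsUnit f := by
      rw [← Ideal.span_singleton_eq_top, ← hs, hd, h1]
      refine le_antisymm (Ideal.span_mono (Set.singleton_subset_iff.2 (Set.mem_insert _ _))) ?_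
      rw [Ideal.span_le]
      rintro x (rfl | rfl | rfl)
      · exact Ideal.subset_span (Set.mem_singleton _)
      · exact Ideal.zero_mem _
      · exact Ideal.zero_mem _
    rw [hf.monic.isUnit_iff] at h2
    rw [h2, natDegree_one] at hdeg
    exact hdeg rfl
  obtain ⟨u, hu⟩ : ∃ u, u = (τ.coeff 0)⁻¹ := ⟨_, rfl⟩
  have hu0 : u ≠ 0 := by
    rw [hu]
    exact inv_ne_zero h0
  obtain ⟨g, hg⟩ : ∃ g : F[X][X], g = C (C u) * Bivariate.swap f := ⟨_, rfl⟩
  have hcg : ∀ i j, (g.coeff j).coeff i = u * (f.coeff i).coeff j := by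
    intro i j
    rw [hg, coeff_C_mul, coeff_C_mul, coeff_sw]
  have hsm : ∀ i j, b * M < j → (f.coeff i).coeff j = 0 := by
    intro i j hj
    by_cases hc : f.coeff i = 0
    · rw [hc, coeff_zero]
    · have h1 := hf.wt i hc
      refine coeff_eq_zero_of_natDegree_lt ?_
      have h2 : a * (f.coeff i).natDegree ≤ a * (b * M) := by
        rw [← mul_assoc]
        omega
      have h3 := Nat.le_of_mul_le_mul_left h2 (Nat.pos_of_ne_zero hf.ha)
      omega
  have htop : ∀ i, i ≠ 0 → (f.coeff i).coeff (b * M) = 0 := by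
    intro i hi
    by_cases hc : f.coeff i = 0
    · rw [hc, coeff_zero]
    · have h1 := hf.wt i hc
      refine coeff_eq_zero_of_natDegree_lt ?_
      have h4 : 0 < b * i := Nat.mul_pos (Nat.pos_of_ne_zero hf.hb) (Nat.pos_of_ne_zero hi)
      have h2 : a * (f.coeff i).natDegree < a * (b * M) := by
        rw [← mul_assoc]
        omega
      exact Nat.lt_of_mul_lt_mul_left h2
  have h00 : (f.coeff 0).coeff (b * M) = τ.coeff 0 := by
    have h1 := hf.top 0 (Nat.zero_le _)
    rwa [mul_zero, Nat.sub_zero] at h1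
  have hgtop : g.coeff (b * M) = 1 := by
    ext i
    rw [hcg]
    by_cases hi : i = 0
    · rw [hi, h00, hu, inv_mul_cancel₀ h0, coeff_one_zero]
    · rw [htop i hi, mul_zero, coeff_one, if_neg hi]
  have hgmon : g.Monic := by
    refine monic_of_natDegree_le_of_coeff_eq_one (b * M) ?_ hgtop
    rw [natDegree_le_iff_coeff_eq_zero]
    intro j hj
    ext i
    rw [hcg, hsm i j hj, mul_zero, coeff_zero]
  have hgd : derivative g ≠ 0 := by
    rw [hg, derivative_C_mul, der_sw]
    refine mul_ne_zero ?_ ?_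
    · rw [Ne, C_eq_zero, C_eq_zero]
      exact hu0
    · intro h1
      exact hdt ((map_eq_zero_iff _ Bivariate.swap.injective).1 h1)
  have hbg : ∀ (F' : Type) [Field F'] [Algebra F F'], H13.TA.bc F' g =
      C (C (algebraMap F F' u)) * Bivariate.swap (H13.TA.bc F' f) := by
    intro F' _ _
    rw [← bc_sw, hg]
    unfold H13.TA.bc
    rw [Polynomial.map_mul, map_C, coe_mapRingHom, map_C]
  have hgirr : ∀ (F' : Type) [Field F'] [Algebra F F'], Irreducible (H13.TA.bc F' g) := by
    intro F' _ _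
    rw [hbg]
    have h1 : IsUnit (C (C (algebraMap F F' u)) : F'[X][X]) := by
      rw [isUnit_C, isUnit_C, isUnit_iff_ne_zero]
      exact (_root_.map_ne_zero _).2 hu0
    rw [irreducible_isUnit_mul h1]
    exact (MulEquiv.irreducible_iff (Bivariate.swap (R := F'))).2 (bc_irr hf hs hτ h0 F')
  obtain ⟨k, ik, hk, ia, hT, K, hK⟩ := cb1 hgmon hgirr hgd τ hf.tmon.ne_zero
  refine ⟨k, ik, hk, ia, hT, K, fun r hr => ?_⟩
  have h1 := hK r hr
  rw [hbg, npt_sw _ _ ((_root_.map_ne_zero _).2 hu0)] at h1
  exact h1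

end H13.PC
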