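import Pool.Agent.H13.PC.Prf

/-!
# PC-RR: Riemann's theorem

For `J ≠ ⊥` put `δ(J, w) = dw w - ideg J - ell J w`. By `ell_le` and `ell_J` it is monotone: `w ≤ w'` implies
`δ(J, w) ≤ δ(J, w')`, and `⊥ ≠ J' ≤ J` implies `δ(J', w) ≤ δ(J, w)`. By `ell_mul`, `prf` and `H13.TA.ideg_mul` (Dedekind)
`δ(span {r} * J, w + W r) = δ(J, w)` for `r ≠ 0`. By `ell_big` (`n0`) `δ(⊤, w) = g - 1` if all `w i ≥ n0`
(`ideg ⊤ = 0`).

* `rr_ge`: `δ(J, w) ≤ δ(⊤, max w n0) = g - 1`.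
* `rr_eq`: `N1 = g + n0 E`, `E = ∑ e i`. Let `dw w - ideg J ≥ N1`. By `rr_ge` `ell J (w - n0) ≥ dw w - n0 E - ideg J + 1 - g ≥ 1`, so
  there is `r ≠ 0` in `L J (w - n0)`: `r ∈ J`, `W i r + n0 ≤ w i`. So
  `δ(J, w) ≥ δ(span {r}, n0 + W r) = δ(⊤, n0) = g - 1` (`span {r} ≤ J`), and `≤` is `rr_ge`.
-/

set_option autoImplicit false

open Polynomial

noncomputable section

namespace H13.PC

variable {F : Type} [Field F] {m : ℕ} {f : F[X][X]} {e : Fin m → ℕ} {W : Fin m → AdjoinRoot f → ℤ}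

private theorem rr_dwadd (w w' : Fin m → ℤ) : dw e (w + w') = dw e w + dw e w' := by
  unfold dw
  rw [← Finset.sum_add_distrib]
  refine Finset.sum_congr rfl fun i _ => ?_
  rw [Pi.add_apply]
  ring

private theorem rr_dwsub (w w' : Fin m → ℤ) : dw e (w - w') = dw e w - dw e w' := by
  unfold dw
  rw [← Finset.sum_sub_distrib]
  refine Finset.sum_congr rfl fun i _ => ?_
  rw [Pi.sub_apply]
  ring

private theorem rr_top (h : Pls f e W) : (H13.TA.ideg f (⊤ : Ideal (AdjoinRoot f)) : ℤ) = 0 := by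
  have := h.dom
  have h1 : (⊤ : Ideal (AdjoinRoot f)) ≠ ⊥ := by
    rw [← Ideal.one_eq_top]
    exact one_ne_zero
  exact_mod_cast (H13.TA.ideg_zero h.monic h1).2 rfl

theorem rr_ge [IsDedekindDomain (AdjoinRoot f)] (h : Pls f e W) (hr : Rie h) {g : ℤ}
    (hg : IsGen h g) {J : Ideal (AdjoinRoot f)} (hJ : J ≠ ⊥) (w : Fin m → ℤ) :
    dw e w - (H13.TA.ideg f J : ℤ) + 1 - g ≤ ell h J w := by
  obtain ⟨n0, hn0⟩ := ell_big h hr hg
  have h1 : w ≤ w ⊔ fun _ => n0 := le_sup_left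
  have h2 : ∀ i, n0 ≤ (w ⊔ fun _ => n0) i := fun i => le_sup_right (a := w i)
  have h3 := ell_le h hr J h1
  have h4 := ell_J h hr hJ (le_top : J ≤ ⊤) (w ⊔ fun _ => n0)
  have h5 := hn0 _ h2
  rw [rr_dwsub] at h3
  rw [rr_top h] at h4
  linarith

theorem rr_eq [IsDedekindDomain (AdjoinRoot f)] (h : Pls f e W) (hr : Rie h) {g : ℤ}
    (hg : IsGen h g) : ∃ N1 : ℤ, ∀ J : Ideal (AdjoinRoot f), J ≠ ⊥ → ∀ w : Fin m → ℤ,
      N1 ≤ dw e w - (H13.TA.ideg f J : ℤ) →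
      (ell h J w : ℤ) = dw e w - (H13.TA.ideg f J : ℤ) + 1 - g := by
  obtain ⟨n0, hn0⟩ := ell_big h hr hg
  refine ⟨g + dw e fun _ => n0, fun J hJ w hw => ?_⟩
  have hd := h.dom
  refine le_antisymm ?_ (rr_ge h hr hg hJ w)
  have h1 := rr_ge h hr hg hJ (w - fun _ => n0)
  rw [rr_dwsub] at h1
  have h2 : 0 < ell h J (w - fun _ => n0) := by
    have h3 : (0 : ℤ) < ell h J (w - fun _ => n0) := by linarith
    exact_mod_cast h3
  have h4 : Nontrivial (L h J (w - fun _ => n0)) := Module.nontrivial_of_finrank_pos h2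
  obtain ⟨⟨r, hrL⟩, hr0⟩ := exists_ne (0 : L h J (w - fun _ => n0))
  have hr0' : r ≠ 0 := by
    intro h0
    exact hr0 (Subtype.ext h0)
  have hrJ : r ∈ J := hrL.1
  have hrW : ∀ i, W i r ≤ w i - n0 := hrL.2.resolve_left hr0'
  have hsp : Ideal.span {r} ≠ ⊥ := by
    rw [Ne, Ideal.span_singleton_eq_bot]
    exact hr0'
  have hspJ : Ideal.span {r} ≤ J := (Ideal.span_singleton_le_iff_mem J).2 hrJ
  have h5 := ell_J h hr hsp hspJ w
  have h6 : ((fun _ => n0) + fun i => W i r) ≤ w := by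
    intro i
    show n0 + W i r ≤ w i
    linarith [hrW i]
  have h7 := ell_le h hr (Ideal.span {r}) h6
  have h8 := ell_mul h hr0' ⊤ (fun _ => n0)
  rw [Ideal.mul_top] at h8
  have h9 := prf h hr hr0'
  have h10 := hn0 (fun _ => n0) fun _ => le_rfl
  rw [rr_dwsub, rr_dwadd, h8] at h7
  linarith

end H13.PC
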