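import Pool.Agent.H13.PC.Cs
import Pool.Agent.H13.PC.Rr

/-!
# PC-CN: the class number

`cn W e N` is the number of classes of effective divisors of degree `N`.

* `bn_cn`: let `N1` be that of `rr_eq` and `N0 ≥ N1, N0 ≥ g`, `N ≥ N0`. Each class has `c` elements with
  `(q - 1) c + 1 = q ^ (N + 1 - g)` (`cls_size`, `rr_eq`; all divisors of the class have degree `N`: `edeg_eqv`); sum over the
  classes (`{D // edeg D = N}` is the disjoint union of the fibres of the map to the quotient; by `eqv_refl`, `eqv_symm`,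
  `eqv_trans` `Quot.mk D = Quot.mk D'` iff `Eqv D D'`; finite: `ed_fin`).
* `cn_add`: let `C = (I_C, n_C)` be of degree `c`. `D ↦ D + C = (I I_C, n + n_C)` is well defined on classes and injective
  (cancellation of ideals `≠ ⊥`), it maps degree `N` to degree `N + c` (`H13.TA.ideg_mul`). It is onto for `N ≥ g`: let
  `D' = (I', n')` have degree `N + c`. Choose `s ≠ 0` in `I'` and `J` with `I' J = (s)`, and put `w = n' - n_C + W s`. The degree
  `dw w - ideg (J I_C)` is `N`. By `rr_ge` `ell (J I_C) w ≥ N + 1 - g ≥ 1`, so there is `z ≠ 0` in `L (J I_C) w`. Let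
  `I J I_C = (z)`, `n = w - W z ≥ 0`, `D = (I, n)`. Then `Eqv (D + C) D'` with `x = s`, `y = z`: `(s) I I_C = (z) I'` after
  multiplication with `J`; `n + n_C - W s = n' - W z`.
* `cn_const`: `cn_add` for `C = (⊤, single i 1)`, `c = 1`; `cn N ≥ 1` because `(⊤, single i N)` has degree `N`.
-/

set_option autoImplicit false

open Polynomial

noncomputable section

namespace H13.PC

variable {F : Type} [Field F] {m : ℕ} {f : F[X][X]} {e : Fin m → ℕ} {W : Fin m → AdjoinRoot f → ℤ}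

/-- number of classes of effective divisors of degree `N` -/
def cn {F : Type} [Field F] {m : ℕ} {f : F[X][X]} (e : Fin m → ℕ) (W : Fin m → AdjoinRoot f → ℤ)
    (N : ℕ) : ℕ :=
  Nat.card (Quot fun D D' : {D : Ed f m // edeg e D = N} => Eqv W D.1 D'.1)

private theorem cn_equiv (h : Pls f e W) (N : ℕ) :
    Equivalence (fun D D' : {D : Ed f m // edeg e D = N} => Eqv W D.1 D'.1) :=
  ⟨fun D => eqv_refl h D.1, fun h1 => eqv_symm h h1, fun h1 h2 => eqv_trans h h1 h2⟩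

/-- the sum of divisors -/
private def cnAdd [IsDedekindDomain (AdjoinRoot f)] (D C : Ed f m) : Ed f m :=
  (⟨D.1.1 * C.1.1, mul_ne_zero D.1.2 C.1.2⟩, fun i => D.2 i + C.2 i)

private theorem cn_edeg_add [IsDedekindDomain (AdjoinRoot f)] (h : Pls f e W) (D C : Ed f m) :
    edeg e (cnAdd D C) = edeg e D + edeg e C := by
  unfold edeg cnAdd
  have h1 := H13.TA.ideg_mul h.monic D.1.2 C.1.2
  have h2 : ∑ i, e i * (D.2 i + C.2 i) = ∑ i, e i * D.2 i + ∑ i, e i * C.2 i := by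
    rw [← Finset.sum_add_distrib]
    exact Finset.sum_congr rfl fun i _ => mul_add _ _ _
  simp only
  rw [h1, h2]
  ring

private theorem cn_eqv_add [IsDedekindDomain (AdjoinRoot f)] {D D' : Ed f m} (C : Ed f m) :
    Eqv W (cnAdd D C) (cnAdd D' C) ↔ Eqv W D D' := by
  unfold Eqv cnAdd
  simp only
  refine exists_congr fun x => exists_congr fun y => and_congr_right fun _ =>
    and_congr_right fun _ => and_congr ?_ (forall_congr' fun i => ?_)
  · rw [← mul_assoc, ← mul_assoc]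
    exact ⟨fun h1 => mul_right_cancel₀ C.1.2 h1, fun h1 => by rw [h1]⟩
  · push_cast
    constructor <;> intro h1 <;> linarith

private theorem cn_onto [IsDedekindDomain (AdjoinRoot f)] (h : Pls f e W) (hr : Rie h) {g : ℤ}
    (hg : IsGen h g) (C : Ed f m) (N : ℕ) (hN : g ≤ N) (D' : Ed f m)
    (hD' : edeg e D' = N + edeg e C) : ∃ D : Ed f m, edeg e D = N ∧ Eqv W (cnAdd D C) D' := by
  obtain ⟨s, hs, hs0⟩ := (Submodule.ne_bot_iff _).1 D'.1.2
  have hsb : Ideal.span {s} ≠ (⊥ : Ideal (AdjoinRoot f)) := fun h0 =>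
    hs0 (Ideal.span_singleton_eq_bot.1 h0)
  obtain ⟨J, hJ⟩ := Ideal.dvd_iff_le.2 ((Ideal.span_singleton_le_iff_mem _).2 hs)
  have hJ0 : J ≠ ⊥ := by
    rintro rfl
    rw [Ideal.mul_bot] at hJ
    exact hsb hJ
  obtain ⟨w, hw⟩ : ∃ w : Fin m → ℤ, w = fun i => (D'.2 i : ℤ) - C.2 i + W i s := ⟨_, rfl⟩
  have h1 : (H13.TA.ideg f (Ideal.span {s}) : ℤ) = dw e (fun i => W i s) := prf h hr hs0
  have h2 : H13.TA.ideg f (Ideal.span {s}) = H13.TA.ideg f D'.1.1 + H13.TA.ideg f J := by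
    rw [hJ]
    exact H13.TA.ideg_mul h.monic D'.1.2 hJ0
  have h3 : H13.TA.ideg f (J * C.1.1) = H13.TA.ideg f J + H13.TA.ideg f C.1.1 :=
    H13.TA.ideg_mul h.monic hJ0 C.1.2
  have h4 : dw e w = ∑ i, (e i : ℤ) * D'.2 i - ∑ i, (e i : ℤ) * C.2 i + dw e (fun i => W i s) := by
    unfold dw
    rw [← Finset.sum_sub_distrib, ← Finset.sum_add_distrib, hw]
    refine Finset.sum_congr rfl fun i _ => ?_
    ring
  have h5 : dw e w - (H13.TA.ideg f (J * C.1.1) : ℤ) = N := by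
    unfold edeg at hD'
    have h6 : ((H13.TA.ideg f D'.1.1 + ∑ i, e i * D'.2 i : ℕ) : ℤ) =
        ((N + (H13.TA.ideg f C.1.1 + ∑ i, e i * C.2 i) : ℕ) : ℤ) := by rw [hD']
    push_cast at h6
    rw [h4, ← h1, h2, h3]
    push_cast
    linarith
  have hJC : J * C.1.1 ≠ ⊥ := mul_ne_zero hJ0 C.1.2
  have h6 := rr_ge h hr hg hJC w
  rw [h5] at h6
  have h7 : L h (J * C.1.1) w ≠ ⊥ := by
    intro h0
    unfold ell at h6
    rw [h0, finrank_bot] at h6
    push_cast at h6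
    linarith
  obtain ⟨z, hz, hz0⟩ := (Submodule.ne_bot_iff _).1 h7
  have hz1 : z ∈ J * C.1.1 := hz.1
  have hz2 : ∀ i, W i z ≤ w i := hz.2.resolve_left hz0
  have hzb : Ideal.span {z} ≠ (⊥ : Ideal (AdjoinRoot f)) := fun h0 =>
    hz0 (Ideal.span_singleton_eq_bot.1 h0)
  obtain ⟨I, hI⟩ := Ideal.dvd_iff_le.2 ((Ideal.span_singleton_le_iff_mem _).2 hz1)
  have hI0 : I ≠ ⊥ := by
    rintro rfl
    rw [Ideal.mul_bot] at hI
    exact hzb hI
  have hE : Eqv W (cnAdd (⟨I, hI0⟩, fun i => (w i - W i z).toNat) C) D' := by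
    refine ⟨s, z, hs0, hz0, ?_, fun i => ?_⟩
    · change Ideal.span {s} * (I * C.1.1) = Ideal.span {z} * D'.1.1
      refine mul_left_cancel₀ hJ0 ?_
      calc J * (Ideal.span {s} * (I * C.1.1)) = Ideal.span {s} * (J * C.1.1 * I) := by ring
        _ = Ideal.span {s} * Ideal.span {z} := by rw [hI]
        _ = Ideal.span {z} * (D'.1.1 * J) := by rw [← hJ, mul_comm]
        _ = J * (Ideal.span {z} * D'.1.1) := by ring
    · change (((w i - W i z).toNat + C.2 i : ℕ) : ℤ) - W i s = (D'.2 i : ℤ) - W i z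
      have h8 := hz2 i
      rw [Nat.cast_add, Int.toNat_of_nonneg (by linarith)]
      have h9 : w i = (D'.2 i : ℤ) - C.2 i + W i s := by rw [hw]
      rw [h9]
      ring
  refine ⟨(⟨I, hI0⟩, fun i => (w i - W i z).toNat), ?_, hE⟩
  have h8 := edeg_eqv h hr hE
  rw [cn_edeg_add h, hD'] at h8
  omega

private theorem cn_top [IsDedekindDomain (AdjoinRoot f)] (h : Pls f e W) :
    H13.TA.ideg f (⊤ : Ideal (AdjoinRoot f)) = 0 := by
  have hne : (⊤ : Ideal (AdjoinRoot f)) ≠ ⊥ := top_ne_bot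
  exact (H13.TA.ideg_zero h.monic hne).2 rfl

private theorem cn_edeg_single [IsDedekindDomain (AdjoinRoot f)] (h : Pls f e W) {i : Fin m}
    (hi : e i = 1) (N : ℕ) :
    edeg e ((⟨⊤, top_ne_bot⟩, Pi.single i N) : Ed f m) = N := by
  unfold edeg
  simp only
  rw [cn_top h, zero_add, Finset.sum_eq_single i]
  · rw [hi, Pi.single_eq_same, one_mul]
  · intro j _ hj
    rw [Pi.single_eq_of_ne hj, mul_zero]
  · intro h0
    exact absurd (Finset.mem_univ i) h0

theorem bn_cn [Finite F] [IsDedekindDomain (AdjoinRoot f)] (h : Pls f e W) (hr : Rie h) {g : ℤ}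
    (hg : IsGen h g) : ∃ N0 : ℕ, ∀ N ≥ N0, g ≤ N ∧ ((Nat.card F : ℤ) - 1) * bn f e N =
      cn e W N * ((Nat.card F : ℤ) ^ ((N : ℤ) + 1 - g).toNat - 1) := by
  obtain ⟨N1, hN1⟩ := rr_eq h hr hg
  refine ⟨N1.toNat + g.toNat, fun N hN => ?_⟩
  have hgN : g ≤ N := by omega
  refine ⟨hgN, ?_⟩
  have hfin := ed_fin (e := e) h N
  have heq := cn_equiv (e := e) h N
  have hq : 1 ≤ Nat.card F := Nat.card_pos
  have hfib : ∀ x : Quot (fun D D' : {D : Ed f m // edeg e D = N} => Eqv W D.1 D'.1),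
      ((Nat.card F : ℤ) - 1) * (Nat.card {D : {D : Ed f m // edeg e D = N} //
        Quot.mk (fun D D' : {D : Ed f m // edeg e D = N} => Eqv W D.1 D'.1) D = x} : ℤ) =
      (Nat.card F : ℤ) ^ ((N : ℤ) + 1 - g).toNat - 1 := by
    intro x
    obtain ⟨D₀, rfl⟩ := Quot.exists_rep x
    obtain ⟨J, w, hJ, h1, h2⟩ := cls_size h hr D₀.1
    have h3 : Nat.card {D : {D : Ed f m // edeg e D = N} //
        Quot.mk (fun D D' : {D : Ed f m // edeg e D = N} => Eqv W D.1 D'.1) D = Quot.mk _ D₀} =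
        Nat.card {D : Ed f m // Eqv W D D₀.1} := by
      refine Nat.card_congr ⟨fun D => ⟨D.1.1, ?_⟩, fun D => ⟨⟨D.1, ?_⟩, ?_⟩, ?_, ?_⟩
      · exact (heq.quot_mk_eq_iff D.1 D₀).1 D.2
      · rw [edeg_eqv h hr D.2]
        exact D₀.2
      · exact (heq.quot_mk_eq_iff _ D₀).2 D.2
      · intro D
        rfl
      · intro D
        rfl
    have h4 : (ell h J w : ℤ) = (N : ℤ) + 1 - g := by
      rw [hN1 J hJ w (by rw [h1, D₀.2]; omega), h1, D₀.2]
    have h5 : ((N : ℤ) + 1 - g).toNat = ell h J w := by omega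
    rw [h3, h5]
    have h6 : (((Nat.card F - 1) * Nat.card {D : Ed f m // Eqv W D D₀.1} + 1 : ℕ) : ℤ) =
        ((Nat.card F ^ ell h J w : ℕ) : ℤ) := by rw [h2]
    rw [Nat.cast_add, Nat.cast_mul, Nat.cast_sub hq, Nat.cast_pow] at h6
    push_cast at h6
    linarith
  have hbn : (bn f e N : ℤ) =
      ∑ᶠ x : Quot (fun D D' : {D : Ed f m // edeg e D = N} => Eqv W D.1 D'.1),
      (Nat.card {D : {D : Ed f m // edeg e D = N} //
        Quot.mk (fun D D' : {D : Ed f m // edeg e D = N} => Eqv W D.1 D'.1) D = x} : ℤ) := by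
    have hfq : Fintype (Quot (fun D D' : {D : Ed f m // edeg e D = N} => Eqv W D.1 D'.1)) :=
      Fintype.ofFinite _
    rw [finsum_eq_sum_of_fintype]
    unfold bn
    rw [← Nat.card_congr (Equiv.sigmaFiberEquiv
      (Quot.mk (fun D D' : {D : Ed f m // edeg e D = N} => Eqv W D.1 D'.1))), Nat.card_sigma]
    push_cast
    rfl
  have hfq : Fintype (Quot (fun D D' : {D : Ed f m // edeg e D = N} => Eqv W D.1 D'.1)) :=
    Fintype.ofFinite _
  rw [hbn, finsum_eq_sum_of_fintype, Finset.mul_sum, Finset.sum_congr rfl fun x _ => hfib x,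
    Finset.sum_const, Finset.card_univ, ← Nat.card_eq_fintype_card, nsmul_eq_mul]
  rfl

theorem cn_add [Finite F] [IsDedekindDomain (AdjoinRoot f)] (h : Pls f e W) (hr : Rie h)
    (C : Ed f m) : ∃ N0 : ℕ, ∀ N ≥ N0, cn e W (N + edeg e C) = cn e W N := by
  obtain ⟨g, hg⟩ := gen_ex h hr
  refine ⟨g.toNat, fun N hN => ?_⟩
  have heq := cn_equiv (e := e) h N
  have heq' := cn_equiv (e := e) h (N + edeg e C)
  let φ : Quot (fun D D' : {D : Ed f m // edeg e D = N} => Eqv W D.1 D'.1) →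
      Quot (fun D D' : {D : Ed f m // edeg e D = N + edeg e C} => Eqv W D.1 D'.1) :=
    Quot.lift (fun D => Quot.mk _ ⟨cnAdd D.1 C, by rw [cn_edeg_add h, D.2]⟩)
      (fun D D' h1 => Quot.sound ((cn_eqv_add C).2 h1))
  have hφ : Function.Bijective φ := by
    constructor
    · intro x y hxy
      obtain ⟨D, rfl⟩ := Quot.exists_rep x
      obtain ⟨D', rfl⟩ := Quot.exists_rep y
      have h1 : Quot.mk (fun D D' : {D : Ed f m // edeg e D = N + edeg e C} => Eqv W D.1 D'.1)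
          ⟨cnAdd D.1 C, by rw [cn_edeg_add h, D.2]⟩ =
          Quot.mk _ ⟨cnAdd D'.1 C, by rw [cn_edeg_add h, D'.2]⟩ := hxy
      rw [heq'.quot_mk_eq_iff] at h1
      rw [heq.quot_mk_eq_iff]
      exact (cn_eqv_add C).1 h1
    · intro y
      obtain ⟨D', rfl⟩ := Quot.exists_rep y
      obtain ⟨D, hD, h1⟩ := cn_onto h hr hg C N (by omega) D'.1 D'.2
      refine ⟨Quot.mk _ ⟨D, hD⟩, ?_⟩
      exact Quot.sound h1
  exact (Nat.card_eq_of_bijective φ hφ).symm

theorem cn_const [Finite F] [IsDedekindDomain (AdjoinRoot f)] (h : Pls f e W) (hr : Rie h)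
    (h1 : ∃ i, e i = 1) : ∃ c : ℕ, c ≠ 0 ∧ ∃ N0 : ℕ, ∀ N ≥ N0, cn e W N = c := by
  obtain ⟨i, hi⟩ := h1
  obtain ⟨N0, hN0⟩ := cn_add h hr ((⟨⊤, top_ne_bot⟩, Pi.single i 1) : Ed f m)
  rw [cn_edeg_single h hi 1] at hN0
  refine ⟨cn e W N0, ?_, N0, fun N hN => ?_⟩
  · have hfin := ed_fin (e := e) h N0
    have hne : Nonempty (Quot fun D D' : {D : Ed f m // edeg e D = N0} => Eqv W D.1 D'.1) :=
      ⟨Quot.mk _ ⟨(⟨⊤, top_ne_bot⟩, Pi.single i N0), cn_edeg_single h hi N0⟩⟩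
    exact Nat.card_pos.ne'
  · induction N, hN using Nat.le_induction with
    | base => rfl
    | succ N hN ih => rw [hN0 N hN, ih]

end H13.PC
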