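import Mathlib

/-!
# PC-SG: semigroups of natural numbers

`δ` = the gcd of `S` (`Nat.setGcd` or the generator of the subgroup of `ℤ` generated by `S`). All sufficiently large multiples of
`δ` are in `S` (known in Mathlib for `AddSubmonoid.closure` (Frobenius numbers, `Nat.exists_mem_closure_of_ge` or the like);
or directly: there are `u, v ∈ S` with `u = v + δ` (write `δ` as an integer combination of elements of `S`), `v = δ v'`; for `N ≥ v' ^ 2` write
`N = v' k + r`, `r < v'`, `k ≥ r`: `δ N = (k - r) v + r u` if `v' ≠ 0`).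
-/

set_option autoImplicit false

namespace H13.PC

theorem sgp (S : Set ℕ) (h0 : 0 ∈ S) (hadd : ∀ a ∈ S, ∀ b ∈ S, a + b ∈ S)
    (hpos : ∃ a ∈ S, a ≠ 0) :
    ∃ δ : ℕ, δ ≠ 0 ∧ (∀ a ∈ S, δ ∣ a) ∧ ∃ N0 : ℕ, ∀ N ≥ N0, δ * N ∈ S := by
  obtain ⟨a, ha, ha0⟩ := hpos
  have hcl : ∀ x ∈ AddSubmonoid.closure S, x ∈ S := by
    intro x hx
    induction hx using AddSubmonoid.closure_induction with
    | mem x hx => exact hx
    | zero => exact h0
    | add x y _ _ hx hy => exact hadd x hx y hy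
  have hd : ∀ b ∈ S, Nat.setGcd S ∣ b := fun b hb => Nat.setGcd_dvd_of_mem hb
  have hδ : Nat.setGcd S ≠ 0 := by
    intro h
    have h1 := hd a ha
    rw [h, zero_dvd_iff] at h1
    exact ha0 h1
  obtain ⟨n, hn⟩ := Nat.exists_mem_closure_of_ge S
  refine ⟨Nat.setGcd S, hδ, hd, n, fun N hN => hcl _ (hn _ ?_ (Dvd.intro _ rfl))⟩
  calc n ≤ N := hN
    _ ≤ Nat.setGcd S * N := Nat.le_mul_of_pos_left _ (Nat.pos_of_ne_zero hδ)

end H13.PC
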