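import Pool.Agent.H13.PC.Cn
import Pool.Agent.H13.PC.Sg

/-!
# PC-CO: the class number, sharp version

* `ed_add`: `(I, n) + (I', n') = (I I', n + n')`, `H13.TA.ideg_mul`.
* `cn_add'`: the proof of `cn_add` in `PC/Cn.lean` (copy it): surjectivity only needs `N ≥ g`.
* `ed_deg`: the set of the degrees of complete effective divisors is a semigroup (`ed_add`), contains `0` (`(⊤, 0)`) and
  `e i > 0` (`(⊤, single i 1)`; `h.ne`, `h.pos`); `sgp`.
* `cn_gcd`: `δ = 1` in `ed_deg` by `hd`, so there are `C_N` of degree `N` for all `N ≥ N0`. For `N, N' ≥ g`: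
  `cn N = cn (N + (N0 + N')) = cn (N' + (N0 + N)) = cn N'` by `cn_add'` with divisors `C` of degree `N0 + N'` and `N0 + N`. Some `cn N` with
  `N ≥ g`, `N ≥ N0` is not zero (there is a divisor; finitely many: `ed_fin`).
-/

set_option autoImplicit false

open Polynomial

noncomputable section

namespace H13.PC

variable {F : Type} [Field F] {m : ℕ} {f : F[X][X]} {e : Fin m → ℕ} {W : Fin m → AdjoinRoot f → ℤ}

private theorem co_equiv (h : Pls f e W) (N : ℕ) :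
    Equivalence (fun D D' : {D : Ed f m // edeg e D = N} => Eqv W D.1 D'.1) :=
  ⟨fun D => eqv_refl h D.1, fun h1 => eqv_symm h h1, fun h1 h2 => eqv_trans h h1 h2⟩

/-- the sum of divisors -/
private def coAdd [IsDedekindDomain (AdjoinRoot f)] (D C : Ed f m) : Ed f m :=
  (⟨D.1.1 * C.1.1, mul_ne_zero D.1.2 C.1.2⟩, fun i => D.2 i + C.2 i)

private theorem co_edeg_add [IsDedekindDomain (AdjoinRoot f)] (h : Pls f e W) (D C : Ed f m) :
    edeg e (coAdd D C) = edeg e D + edeg e C := by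
  unfold edeg coAdd
  have h1 := H13.TA.ideg_mul h.monic D.1.2 C.1.2
  have h2 : ∑ i, e i * (D.2 i + C.2 i) = ∑ i, e i * D.2 i + ∑ i, e i * C.2 i := by
    rw [← Finset.sum_add_distrib]
    exact Finset.sum_congr rfl fun i _ => mul_add _ _ _
  simp only
  rw [h1, h2]
  ring

private theorem co_eqv_add [IsDedekindDomain (AdjoinRoot f)] {D D' : Ed f m} (C : Ed f m) :
    Eqv W (coAdd D C) (coAdd D' C) ↔ Eqv W D D' := by
  unfold Eqv coAdd
  simp only
  refine exists_congr fun x => exists_congr fun y => and_congr_right fun _ =>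
    and_congr_right fun _ => and_congr ?_ (forall_congr' fun i => ?_)
  · rw [← mul_assoc, ← mul_assoc]
    exact ⟨fun h1 => mul_right_cancel₀ C.1.2 h1, fun h1 => by rw [h1]⟩
  · push_cast
    constructor <;> intro h1 <;> linarith

private theorem co_onto [IsDedekindDomain (AdjoinRoot f)] (h : Pls f e W) (hr : Rie h) {g : ℤ}
    (hg : IsGen h g) (C : Ed f m) (N : ℕ) (hN : g ≤ N) (D' : Ed f m)
    (hD' : edeg e D' = N + edeg e C) : ∃ D : Ed f m, edeg e D = N ∧ Eqv W (coAdd D C) D' := by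
  obtain ⟨s, hs, hs0⟩ := (Submodule.ne_bot_iff _).1 D'.1.2
  have hsb : Ideal.span {s} ≠ (⊥ : Ideal (AdjoinRoot f)) := fun h0 =>
    hs0 (Ideal.span_singleton_eq_bot.1 h0)
  obtain ⟨J, hJ⟩ := Ideal.dvd_iff_le.2 ((Ideal.span_singleton_le_iff_mem _).2 hs)
  have hJ0 : J ≠ ⊥ := by
    rintro rfl
    rw [Ideal.mul_bot] at hJ
    exact hsb hJ
  obtain ⟨w, hw⟩ : ∃ w : Fin m → ℤ, w = fun i => (D'.2 i : ℤ) - C.2 i + W i s := ⟨_, rfl⟩
  have h1 : (H13.TA.ideg f (Ideal.span {s}) : ℤ) = dw e (fun i => W i s) := prf h hr hs0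
  have h2 : H13.TA.ideg f (Ideal.span {s}) = H13.TA.ideg f D'.1.1 + H13.TA.ideg f J := by
    rw [hJ]
    exact H13.TA.ideg_mul h.monic D'.1.2 hJ0
  have h3 : H13.TA.ideg f (J * C.1.1) = H13.TA.ideg f J + H13.TA.ideg f C.1.1 :=
    H13.TA.ideg_mul h.monic hJ0 C.1.2
  have h4 : dw e w = ∑ i, (e i : ℤ) * D'.2 i - ∑ i, (e i : ℤ) * C.2 i + dw e (fun i => W i s) := by
    unfold dw
    rw [← Finset.sum_sub_distrib, ← Finset.sum_add_distrib, hw]
    refine Finset.sum_congr rfl fun i _ => ?_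
    ring
  have h5 : dw e w - (H13.TA.ideg f (J * C.1.1) : ℤ) = N := by
    unfold edeg at hD'
    have h6 : ((H13.TA.ideg f D'.1.1 + ∑ i, e i * D'.2 i : ℕ) : ℤ) =
        ((N + (H13.TA.ideg f C.1.1 + ∑ i, e i * C.2 i) : ℕ) : ℤ) := by rw [hD']
    push_cast at h6
    rw [h4, ← h1, h2, h3]
    push_cast
    linarith
  have hJC : J * C.1.1 ≠ ⊥ := mul_ne_zero hJ0 C.1.2
  have h6 := rr_ge h hr hg hJC w
  rw [h5] at h6
  have h7 : L h (J * C.1.1) w ≠ ⊥ := by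
    intro h0
    unfold ell at h6
    rw [h0, finrank_bot] at h6
    push_cast at h6
    linarith
  obtain ⟨z, hz, hz0⟩ := (Submodule.ne_bot_iff _).1 h7
  have hz1 : z ∈ J * C.1.1 := hz.1
  have hz2 : ∀ i, W i z ≤ w i := hz.2.resolve_left hz0
  have hzb : Ideal.span {z} ≠ (⊥ : Ideal (AdjoinRoot f)) := fun h0 =>
    hz0 (Ideal.span_singleton_eq_bot.1 h0)
  obtain ⟨I, hI⟩ := Ideal.dvd_iff_le.2 ((Ideal.span_singleton_le_iff_mem _).2 hz1)
  have hI0 : I ≠ ⊥ := by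
    rintro rfl
    rw [Ideal.mul_bot] at hI
    exact hzb hI
  have hE : Eqv W (coAdd (⟨I, hI0⟩, fun i => (w i - W i z).toNat) C) D' := by
    refine ⟨s, z, hs0, hz0, ?_, fun i => ?_⟩
    · change Ideal.span {s} * (I * C.1.1) = Ideal.span {z} * D'.1.1
      refine mul_left_cancel₀ hJ0 ?_
      calc J * (Ideal.span {s} * (I * C.1.1)) = Ideal.span {s} * (J * C.1.1 * I) := by ring
        _ = Ideal.span {s} * Ideal.span {z} := by rw [hI]
        _ = Ideal.span {z} * (D'.1.1 * J) := by rw [← hJ, mul_comm]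
        _ = J * (Ideal.span {z} * D'.1.1) := by ring
    · change (((w i - W i z).toNat + C.2 i : ℕ) : ℤ) - W i s = (D'.2 i : ℤ) - W i z
      have h8 := hz2 i
      rw [Nat.cast_add, Int.toNat_of_nonneg (by linarith)]
      have h9 : w i = (D'.2 i : ℤ) - C.2 i + W i s := by rw [hw]
      rw [h9]
      ring
  refine ⟨(⟨I, hI0⟩, fun i => (w i - W i z).toNat), ?_, hE⟩
  have h8 := edeg_eqv h hr hE
  rw [co_edeg_add h, hD'] at h8
  omega

private theorem co_top [IsDedekindDomain (AdjoinRoot f)] (h : Pls f e W) :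
    H13.TA.ideg f (⊤ : Ideal (AdjoinRoot f)) = 0 := by
  have hne : (⊤ : Ideal (AdjoinRoot f)) ≠ ⊥ := top_ne_bot
  exact (H13.TA.ideg_zero h.monic hne).2 rfl

private theorem co_edeg_single [IsDedekindDomain (AdjoinRoot f)] (h : Pls f e W) (i : Fin m) (N : ℕ) :
    edeg e ((⟨⊤, top_ne_bot⟩, Pi.single i N) : Ed f m) = e i * N := by
  unfold edeg
  simp only
  rw [co_top h, zero_add, Finset.sum_eq_single i]
  · rw [Pi.single_eq_same]
  · intro j _ hj
    rw [Pi.single_eq_of_ne hj, mul_zero]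
  · intro h0
    exact absurd (Finset.mem_univ i) h0

theorem ed_add (hf : f.Monic) [IsDedekindDomain (AdjoinRoot f)] (e : Fin m → ℕ) (D D' : Ed f m) :
    ∃ D'' : Ed f m, edeg e D'' = edeg e D + edeg e D' := by
  refine ⟨coAdd D D', ?_⟩
  unfold edeg coAdd
  have h1 := H13.TA.ideg_mul hf D.1.2 D'.1.2
  have h2 : ∑ i, e i * (D.2 i + D'.2 i) = ∑ i, e i * D.2 i + ∑ i, e i * D'.2 i := by
    rw [← Finset.sum_add_distrib]
    exact Finset.sum_congr rfl fun i _ => mul_add _ _ _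
  simp only
  rw [h1, h2]
  ring

theorem cn_add' [Finite F] [IsDedekindDomain (AdjoinRoot f)] (h : Pls f e W) (hr : Rie h) {g : ℤ}
    (hg : IsGen h g) (C : Ed f m) (N : ℕ) (hN : g ≤ N) :
    cn e W (N + edeg e C) = cn e W N := by
  have heq := co_equiv (e := e) h N
  have heq' := co_equiv (e := e) h (N + edeg e C)
  let φ : Quot (fun D D' : {D : Ed f m // edeg e D = N} => Eqv W D.1 D'.1) →
      Quot (fun D D' : {D : Ed f m // edeg e D = N + edeg e C} => Eqv W D.1 D'.1) :=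
    Quot.lift (fun D => Quot.mk _ ⟨coAdd D.1 C, by rw [co_edeg_add h, D.2]⟩)
      (fun D D' h1 => Quot.sound ((co_eqv_add C).2 h1))
  have hφ : Function.Bijective φ := by
    constructor
    · intro x y hxy
      obtain ⟨D, rfl⟩ := Quot.exists_rep x
      obtain ⟨D', rfl⟩ := Quot.exists_rep y
      have h1 : Quot.mk (fun D D' : {D : Ed f m // edeg e D = N + edeg e C} => Eqv W D.1 D'.1)
          ⟨coAdd D.1 C, by rw [co_edeg_add h, D.2]⟩ =
          Quot.mk _ ⟨coAdd D'.1 C, by rw [co_edeg_add h, D'.2]⟩ := hxy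
      rw [heq'.quot_mk_eq_iff] at h1
      rw [heq.quot_mk_eq_iff]
      exact (co_eqv_add C).1 h1
    · intro y
      obtain ⟨D', rfl⟩ := Quot.exists_rep y
      obtain ⟨D, hD, h1⟩ := co_onto h hr hg C N hN D'.1 D'.2
      refine ⟨Quot.mk _ ⟨D, hD⟩, ?_⟩
      exact Quot.sound h1
  exact (Nat.card_eq_of_bijective φ hφ).symm

theorem ed_deg [IsDedekindDomain (AdjoinRoot f)] (h : Pls f e W) :
    ∃ δ : ℕ, δ ≠ 0 ∧ (∀ D : Ed f m, δ ∣ edeg e D) ∧
      ∃ N0 : ℕ, ∀ N ≥ N0, ∃ D : Ed f m, edeg e D = δ * N := by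
  have i0 : Fin m := ⟨0, Nat.pos_of_ne_zero h.ne⟩
  obtain ⟨δ, h1, h2, N0, h3⟩ := sgp (Set.range (edeg (f := f) e))
    ⟨(⟨⊤, top_ne_bot⟩, Pi.single i0 0), by rw [co_edeg_single h i0 0, mul_zero]⟩
    (by
      rintro _ ⟨D, rfl⟩ _ ⟨D', rfl⟩
      obtain ⟨D'', hD''⟩ := ed_add h.monic e D D'
      exact ⟨D'', hD''⟩)
    ⟨e i0, ⟨(⟨⊤, top_ne_bot⟩, Pi.single i0 1), by rw [co_edeg_single h i0 1, mul_one]⟩, h.pos i0⟩
  exact ⟨δ, h1, fun D => h2 _ ⟨D, rfl⟩, N0, h3⟩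

theorem cn_gcd [Finite F] [IsDedekindDomain (AdjoinRoot f)] (h : Pls f e W) (hr : Rie h) {g : ℤ}
    (hg : IsGen h g) (hd : ∀ d : ℕ, (∀ D : Ed f m, d ∣ edeg e D) → d = 1) :
    ∃ c : ℕ, c ≠ 0 ∧ ∀ N : ℕ, g ≤ N → cn e W N = c := by
  obtain ⟨δ, -, h2, N0, h3⟩ := ed_deg h
  have h1 := hd δ h2
  subst h1
  have h4 : ∀ N ≥ N0, ∃ D : Ed f m, edeg e D = N := fun N hN => by
    obtain ⟨D, hD⟩ := h3 N hN
    exact ⟨D, by rw [hD, one_mul]⟩
  obtain ⟨N2, hN2⟩ : ∃ N2 : ℕ, N2 = N0 + g.toNat := ⟨_, rfl⟩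
  have hgN2 : g ≤ N2 := by omega
  refine ⟨cn e W N2, ?_, fun N hN => ?_⟩
  · have hfin := ed_fin (e := e) h N2
    obtain ⟨D, hD⟩ := h4 N2 (by omega)
    have hne : Nonempty (Quot fun D D' : {D : Ed f m // edeg e D = N2} => Eqv W D.1 D'.1) :=
      ⟨Quot.mk _ ⟨D, hD⟩⟩
    exact Nat.card_pos.ne'
  · obtain ⟨C, hC⟩ := h4 (N0 + N2) (by omega)
    obtain ⟨C', hC'⟩ := h4 (N0 + N) (by omega)
    have e1 := cn_add' h hr hg C N hN
    have e2 := cn_add' h hr hg C' N2 hgN2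
    rw [hC] at e1
    rw [hC'] at e2
    rw [← e1, ← e2]
    congr 1
    omega

end H13.PC
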