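import Pool.Agent.H13.PC.Eq

/-!
# PC-CS: the number of effective divisors in a class

Let `D₀ = (I₀, n₀)`. Choose `s ≠ 0` in `I₀`; `I₀ ∣ (s)` (`Ideal.dvd_iff_le`), so `I₀ J = (s)` with an ideal `J ≠ ⊥`. Let
`w = n₀ + W s`. Degree: `dw w - ideg J = ∑ e i n₀ i + ideg (s) - ideg J = edeg D₀` (`prf`, `H13.TA.ideg_mul`).

To `z ≠ 0` in `L J w` we attach `D = (I, n)`: `I J = (z)` (exists as `J ∣ (z)`, unique: cancellation of `J`), `n i = w i - W i z ≥ 0`
(`Int.toNat`). `Eqv D D₀` with `x = s`, `y = z`: `(s) I = (z) I₀` after multiplication with `J` (`(s)(z) = (z)(s)`), and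
`n - W s = n₀ - W z`. Conversely let `(x) I = (y) I₀`, `n - W x = n₀ - W y`. Times `J`: `(x) I J = (y s)`, so `y s = x z` with `z ∈ O`
and `I J = (z)` (cancel `(x)`), so `z ∈ J`, `z ≠ 0`, `W z = W y + W s - W x`, `n = n₀ + W x - W y = w - W z`, so `z ∈ L J w`. Two
`z, z'` give the same `D` iff `(z) = (z')` and `W z = W z'`, iff `z' = c z` with `c ∈ F`, `c ≠ 0` (`z' = u z`, `W i u = 0`, so `u` is
constant by `h.glob`; `h.cst`). So `(q - 1) #{D ~ D₀} = #(L J w ∖ 0) = q ^ ell - 1`
(`Module.card_eq_pow_finrank`/`Module.natCard_eq_pow_finrank`; `L_fin`).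
-/

set_option autoImplicit false

open Polynomial

noncomputable section

namespace H13.PC

variable {F : Type} [Field F] {m : ℕ} {f : F[X][X]} {e : Fin m → ℕ} {W : Fin m → AdjoinRoot f → ℤ}

theorem cls_size [Finite F] [IsDedekindDomain (AdjoinRoot f)] (h : Pls f e W) (hr : Rie h)
    (D₀ : Ed f m) : ∃ (J : Ideal (AdjoinRoot f)) (w : Fin m → ℤ), J ≠ ⊥ ∧
      dw e w - (H13.TA.ideg f J : ℤ) = edeg e D₀ ∧
      (Nat.card F - 1) * Nat.card {D : Ed f m // Eqv W D D₀} + 1 = Nat.card F ^ ell h J w := by
  classical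
  obtain ⟨⟨I₀, hI₀⟩, n₀⟩ := D₀
  obtain ⟨s, hsI, hs0⟩ : ∃ s ∈ I₀, s ≠ 0 := Submodule.exists_mem_ne_zero_of_ne_bot hI₀
  have hdvd : I₀ ∣ Ideal.span {s} := by
    rw [Ideal.dvd_span_singleton]
    exact hsI
  obtain ⟨J, hJ⟩ := hdvd
  have hspan0 : ∀ z : AdjoinRoot f, z ≠ 0 → Ideal.span {z} ≠ ⊥ := fun z hz h0 =>
    hz (Ideal.span_singleton_eq_bot.1 h0)
  have hJ0 : J ≠ ⊥ := by
    intro h0
    rw [h0, Ideal.mul_bot] at hJ
    exact hspan0 s hs0 hJ
  obtain ⟨w, hw⟩ : ∃ w : Fin m → ℤ, w = fun i => (n₀ i : ℤ) + W i s := ⟨_, rfl⟩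
  refine ⟨J, w, hJ0, ?_, ?_⟩
  · have h1 := prf h hr hs0
    rw [hJ, H13.TA.ideg_mul h.monic hI₀ hJ0] at h1
    unfold edeg
    simp only
    have h2 : dw e w = ∑ i, (e i : ℤ) * (n₀ i : ℤ) + dw e (fun i => W i s) := by
      unfold dw
      rw [← Finset.sum_add_distrib, hw]
      exact Finset.sum_congr rfl fun i _ => by ring
    rw [h2, ← h1]
    push_cast
    ring
  · set S := {D : Ed f m // Eqv W D (⟨I₀, hI₀⟩, n₀)} with hS
    have hgen : ∀ D : S, ∃ z : AdjoinRoot f, z ≠ 0 ∧ D.1.1.1 * J = Ideal.span {z} ∧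
        ∀ i, W i z = w i - D.1.2 i := by
      rintro ⟨⟨⟨I, hI⟩, n⟩, x, y, hx, hy, hxy, hW⟩
      simp only at hxy hW ⊢
      have h1 : Ideal.span {x} * (I * J) = Ideal.span {y * s} := by
        rw [← mul_assoc, hxy, mul_assoc, ← hJ, Ideal.span_singleton_mul_span_singleton]
      have h2 : y * s ∈ Ideal.span {x} := by
        have h3 : Ideal.span {y * s} ≤ Ideal.span {x} := by
          rw [← h1]
          exact Ideal.mul_le_left
        exact h3 (Ideal.mem_span_singleton_self _)
      obtain ⟨z, hz⟩ := Ideal.mem_span_singleton.1 h2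
      have hz0 : z ≠ 0 := by
        rintro rfl
        rw [mul_zero] at hz
        exact (mul_ne_zero hy hs0) hz
      refine ⟨z, hz0, ?_, ?_⟩
      · rw [hz, ← Ideal.span_singleton_mul_span_singleton] at h1
        exact mul_left_cancel₀ (hspan0 x hx) h1
      · intro i
        have h3 : W i (y * s) = W i (x * z) := by rw [hz]
        rw [h.mul i y s hy hs0, h.mul i x z hx hz0] at h3
        have h4 := hW i
        rw [hw]
        simp only
        linarith
    choose z hz0 hz hzW using hgen
    have hzJ : ∀ D : S, z D ∈ J := by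
      intro D
      have h1 : Ideal.span {z D} ≤ J := by
        rw [← hz D]
        exact Ideal.mul_le_right
      exact h1 (Ideal.mem_span_singleton_self _)
    have hcm : ∀ c : Fˣ, IsUnit (algebraMap F (AdjoinRoot f) c) := fun c => c.isUnit.map _
    have hcW : ∀ (c : Fˣ) (D : S) (i : Fin m), W i (algebraMap F (AdjoinRoot f) c * z D) = w i - D.1.2 i := by
      intro c D i
      rw [h.mul i _ _ (hcm c).ne_zero (hz0 D), h.cst i _ c.ne_zero, zero_add, hzW]
    let Φ : Option (Fˣ × S) → L h J w := fun o =>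
      match o with
      | none => 0
      | some (c, D) => ⟨algebraMap F (AdjoinRoot f) c * z D, J.mul_mem_left _ (hzJ D), Or.inr fun i => by
          rw [hcW]
          have : (0 : ℤ) ≤ D.1.2 i := Int.natCast_nonneg _
          linarith⟩
    have hinj : Function.Injective Φ := by
      rintro (_ | ⟨c, D⟩) (_ | ⟨c', D'⟩) heq
      · rfl
      · exfalso
        have h1 : (0 : AdjoinRoot f) = algebraMap F (AdjoinRoot f) c' * z D' := congrArg Subtype.val heq
        rcases mul_eq_zero.1 h1.symm with h2 | h2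
        · exact (hcm c').ne_zero h2
        · exact hz0 _ h2
      · exfalso
        have h1 : algebraMap F (AdjoinRoot f) c * z D = 0 := congrArg Subtype.val heq
        rcases mul_eq_zero.1 h1 with h2 | h2
        · exact (hcm c).ne_zero h2
        · exact hz0 _ h2
      · have h1 : algebraMap F (AdjoinRoot f) c * z D = algebraMap F (AdjoinRoot f) c' * z D' :=
          congrArg Subtype.val heq
        have h2 : Ideal.span {z D} = Ideal.span {z D'} := by
          rw [← Ideal.span_singleton_mul_left_unit (hcm c) (z D),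
            ← Ideal.span_singleton_mul_left_unit (hcm c') (z D'), h1]
        have h3 : D.1.1.1 * J = D'.1.1.1 * J := by rw [hz D, hz D', h2]
        have h4 : D.1.1.1 = D'.1.1.1 := mul_right_cancel₀ hJ0 h3
        have h4' : D.1.2 = D'.1.2 := by
          funext i
          have h5 := hcW c D i
          rw [h1, hcW] at h5
          have h6 : (D.1.2 i : ℤ) = D'.1.2 i := by linarith
          exact_mod_cast h6
        have h5 : D = D' := Subtype.ext (Prod.ext (Subtype.ext h4) h4')
        subst h5
        have h6 := mul_right_cancel₀ (hz0 D) h1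
        have h7 : (c : F) = c' := (algebraMap F (AdjoinRoot f)).injective h6
        rw [Units.ext h7]
    have hsurj : Function.Surjective Φ := by
      rintro ⟨a, haJ, had⟩
      by_cases ha : a = 0
      · exact ⟨none, Subtype.ext ha.symm⟩
      have had' := had.resolve_left ha
      have hdvd : J ∣ Ideal.span {a} := by
        rw [Ideal.dvd_span_singleton]
        exact haJ
      obtain ⟨I, hI⟩ := hdvd
      have hI' : I * J = Ideal.span {a} := by rw [hI, mul_comm]
      have hI0 : I ≠ ⊥ := by
        intro h0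
        rw [h0, Ideal.bot_mul] at hI'
        exact hspan0 a ha hI'.symm
      have hn : ∀ i, (((w i - W i a).toNat : ℕ) : ℤ) = w i - W i a := fun i =>
        Int.toNat_of_nonneg (by linarith [had' i])
      let D : S := ⟨(⟨I, hI0⟩, fun i => (w i - W i a).toNat), s, a, hs0, ha, by
          simp only
          apply mul_right_cancel₀ hJ0
          rw [mul_assoc, mul_assoc, hI', ← hJ, mul_comm], by
          intro i
          simp only
          rw [hn, hw]
          simp only
          ring⟩
      have hDI : D.1.1.1 = I := rfl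
      have hDn : ∀ i, (D.1.2 i : ℤ) = w i - W i a := fun i => hn i
      have hs : Ideal.span {a} = Ideal.span {z D} := by
        rw [← hI', ← hz D, hDI]
      rw [Ideal.span_singleton_eq_span_singleton] at hs
      obtain ⟨u, hu⟩ := hs.symm
      have hu0 : (u : AdjoinRoot f) ≠ 0 := u.ne_zero
      have huW : ∀ i, W i (u : AdjoinRoot f) ≤ 0 := by
        intro i
        have h1 : W i (z D * u) = W i a := by rw [hu]
        rw [h.mul i _ _ (hz0 D) hu0, hzW, hDn] at h1
        linarith
      obtain ⟨c, hc⟩ := h.glob _ hu0 huW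
      have hc0 : c ≠ 0 := by
        rintro rfl
        rw [map_zero] at hc
        exact hu0 hc
      refine ⟨some (Units.mk0 c hc0, D), Subtype.ext ?_⟩
      show algebraMap F (AdjoinRoot f) c * z D = a
      rw [← hc, mul_comm]
      exact hu
    have hfinM := L_fin h hr J w
    have hfinL : Finite (L h J w) := Module.finite_of_finite F
    have hfinO : Finite (Option (Fˣ × S)) := Finite.of_injective Φ hinj
    have hfinP : Finite (Fˣ × S) := Finite.of_injective (fun x => (some x : Option (Fˣ × S)))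
      (Option.some_injective _)
    have h1 : Nat.card (L h J w) = Nat.card F ^ ell h J w := Module.natCard_eq_pow_finrank
    have h2 : Nat.card Fˣ = Nat.card F - 1 := Nat.card_units F
    rw [← h1, ← Nat.card_congr (Equiv.ofBijective Φ ⟨hinj, hsurj⟩), Finite.card_option, Nat.card_prod, h2]

end H13.PC
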