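import Pool.Agent.H13.CB.Defs
import Pool.Agent.H13.TA.SmB
import Pool.Agent.H13.TA.IdM
import Pool.Agent.H13.TA.IdF

/-!
# PC: affine curves with several places at infinity (MP_1bad5e_ag), definitions

`F` is a field, `f ∈ F[t][x]` monic in `x`, `O = F[t][x]/(f) = AdjoinRoot f`, `q` the number of elements of `F`.

* `Pls f e W`: `W i r` (`i : Fin m`) is the pole order of `r ∈ O`, `r ≠ 0`, at the `i`-th place at infinity, of degree `e i`
  (algebraic properties only);
* `L h J w`: the `r ∈ J` with pole orders `W i r ≤ w i` (and `0`), a subspace; `ell h J w` its dimension;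
* `dw e w = ∑ e i * w i`;
* `Rie h`: these spaces are finite dimensional, one more pole adds at most `e i` to the dimension, and exactly
  `∑ e i` if all the pole orders allowed are raised by one from a large common value;
* `IsGen h g`: `ell ⊤ (n, .., n) = n ∑ e i + 1 - g` for large `n` (`g` is the genus);
* `Ed f m`: complete effective divisors `(I, n)`: `I ≠ 0` an ideal, `n i ≥ 0` multiplicity at the `i`-th place; `edeg` the degree;
  `Eqv W`: linear equivalence; `bn e N`: their number in degree `N`;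
* `IsP f e P h`: `P` is the numerator of the zeta function of the complete curve, `P(1) = h` the class number.
* `Qh a b M τ f`: `f` has the quasi-homogeneous leading form `∑ τ_k x ^ (a k) t ^ (b (M - k))`.
-/

set_option autoImplicit false

open Polynomial

noncomputable section

namespace H13.PC

/-- pole orders at the places at infinity -/
structure Pls {F : Type} [Field F] {m : ℕ} (f : F[X][X]) (e : Fin m → ℕ)
    (W : Fin m → AdjoinRoot f → ℤ) : Prop where
  monic : f.Monic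
  ne : m ≠ 0
  pos : ∀ i, e i ≠ 0
  dom : IsDomain (AdjoinRoot f)
  mul : ∀ i r s, r ≠ 0 → s ≠ 0 → W i (r * s) = W i r + W i s
  add : ∀ i r s, r ≠ 0 → s ≠ 0 → r + s ≠ 0 → W i (r + s) ≤ max (W i r) (W i s)
  cst : ∀ (i) (c : F), c ≠ 0 → W i (algebraMap F (AdjoinRoot f) c) = 0
  glob : ∀ r, r ≠ 0 → (∀ i, W i r ≤ 0) → ∃ c : F, r = algebraMap F (AdjoinRoot f) c

variable {F : Type} [Field F] {m : ℕ} {f : F[X][X]} {e : Fin m → ℕ} {W : Fin m → AdjoinRoot f → ℤ}

/-- the elements of the ideal `J` with pole orders at most `w i` -/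
def L (h : Pls f e W) (J : Ideal (AdjoinRoot f)) (w : Fin m → ℤ) : Submodule F (AdjoinRoot f) where
  carrier := {r | r ∈ J ∧ (r = 0 ∨ ∀ i, W i r ≤ w i)}
  add_mem' := by
    rintro r s ⟨h1, h2⟩ ⟨h3, h4⟩
    refine ⟨J.add_mem h1 h3, ?_⟩
    by_cases hr : r = 0
    · rw [hr, zero_add]
      exact h4
    by_cases hs : s = 0
    · rw [hs, add_zero]
      exact h2
    by_cases hrs : r + s = 0
    · exact Or.inl hrs
    right
    intro i
    refine (h.add i r s hr hs hrs).trans (max_le ?_ ?_)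
    · exact (h2.resolve_left hr) i
    · exact (h4.resolve_left hs) i
  zero_mem' := ⟨J.zero_mem, Or.inl rfl⟩
  smul_mem' := by
    rintro c r ⟨h1, h2⟩
    have h3 : c • r = algebraMap F (AdjoinRoot f) c * r := Algebra.smul_def c r
    refine ⟨by rw [h3]; exact J.mul_mem_left _ h1, ?_⟩
    by_cases hc : c = 0
    · left
      rw [hc, zero_smul]
    by_cases hr : r = 0
    · left
      rw [hr, smul_zero]
    right
    intro i
    have hd := h.dom
    have hc' : algebraMap F (AdjoinRoot f) c ≠ 0 := by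
      intro h0
      exact hc ((map_eq_zero_iff _ (algebraMap F (AdjoinRoot f)).injective).1 h0)
    rw [h3, h.mul i _ _ hc' hr, h.cst i c hc, zero_add]
    exact (h2.resolve_left hr) i

/-- its dimension -/
def ell (h : Pls f e W) (J : Ideal (AdjoinRoot f)) (w : Fin m → ℤ) : ℕ :=
  Module.finrank F (L h J w)

/-- the degree of a divisor at infinity -/
def dw {m : ℕ} (e : Fin m → ℕ) (w : Fin m → ℤ) : ℤ := ∑ i, (e i : ℤ) * w i

/-- growth of the dimensions -/
structure Rie (h : Pls f e W) : Prop where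
  fin : ∀ w, Module.Finite F (L h ⊤ w)
  grow : ∀ w i, ell h ⊤ (w + Pi.single i 1) ≤ ell h ⊤ w + e i
  hinf : ∃ n0 : ℤ, ∀ n ≥ n0, ell h ⊤ (fun _ => n + 1) = ell h ⊤ (fun _ => n) + ∑ i, e i

/-- `g` is the genus -/
def IsGen (h : Pls f e W) (g : ℤ) : Prop :=
  ∃ n0 : ℤ, ∀ n ≥ n0, (ell h ⊤ (fun _ => n) : ℤ) = n * ∑ i, (e i : ℤ) + 1 - g

/-- complete effective divisors -/
abbrev Ed {F : Type} [Field F] (f : F[X][X]) (m : ℕ) : Type :=
  {I : Ideal (AdjoinRoot f) // I ≠ ⊥} × (Fin m → ℕ)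

/-- the degree -/
def edeg {F : Type} [Field F] {m : ℕ} {f : F[X][X]} (e : Fin m → ℕ) (D : Ed f m) : ℕ :=
  H13.TA.ideg f D.1.1 + ∑ i, e i * D.2 i

/-- linear equivalence -/
def Eqv {F : Type} [Field F] {m : ℕ} {f : F[X][X]} (W : Fin m → AdjoinRoot f → ℤ) (D D' : Ed f m) : Prop :=
  ∃ x y : AdjoinRoot f, x ≠ 0 ∧ y ≠ 0 ∧ Ideal.span {x} * D.1.1 = Ideal.span {y} * D'.1.1 ∧
    ∀ i, (D.2 i : ℤ) - W i x = (D'.2 i : ℤ) - W i y

/-- number of complete effective divisors of degree `N` -/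
def bn {F : Type} [Field F] {m : ℕ} (f : F[X][X]) (e : Fin m → ℕ) (N : ℕ) : ℕ :=
  Nat.card {D : Ed f m // edeg e D = N}

/-- the numerator of the zeta function of the complete curve -/
structure IsP {F : Type} [Field F] {m : ℕ} (f : F[X][X]) (e : Fin m → ℕ) (P : ℤ[X]) (h : ℕ) : Prop where
  monic : P.Monic
  zero : P.eval 0 ≠ 0
  one : P.eval 1 = h
  pos : h ≠ 0
  real : ∀ x : ℝ, (Nat.card F : ℝ) ≤ x → aeval x P ≠ 0
  npt : ∀ r : ℕ, r ≠ 0 → (H13.TA.npt f r : ℂ) =
    (Nat.card F : ℂ) ^ r + 1 - (∑ i, if e i ∣ r then (e i : ℂ) else 0) - ((P.aroots ℂ).map fun ρ => ρ ^ r).sum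

/-- `f` has the quasi-homogeneous leading form `∑ τ_k x ^ (a k) t ^ (b (M - k))` -/
structure Qh {R : Type} [CommRing R] (a b M : ℕ) (τ : R[X]) (f : R[X][X]) : Prop where
  ha : a ≠ 0
  hb : b ≠ 0
  hM : M ≠ 0
  cop : a.Coprime b
  tmon : τ.Monic
  tdeg : τ.natDegree = M
  monic : f.Monic
  deg : f.natDegree = a * M
  wt : ∀ i, f.coeff i ≠ 0 → a * (f.coeff i).natDegree + b * i ≤ a * b * M
  top : ∀ k ≤ M, (f.coeff (a * k)).coeff (b * (M - k)) = τ.coeff k

end H13.PC
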