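import Pool.Agent.H13.PC.Ft
import Pool.Agent.H13.PC.Ps
import Pool.Agent.H13.TA.PtA

/-!
# PC-FU: the factors of the leading form over an extension

`rts τ r` = number of the roots `c` of `τ` in an algebraic closure of `F` with `c ^ (q ^ r) = c`.

* `fct_cnt`: each root of `τ` is a root of exactly one `h i` (different monic irreducible polynomials are coprime); the roots `c` of
  `h i` correspond to the `F`-homomorphisms `AdjoinRoot (h i) → F̄` (`AdjoinRoot.liftAlgHom`, `AdjoinRoot.algHom_ext`), and
  `c ^ (q ^ r) = c` iff `φ x ^ (q ^ r) = φ x` for all `x` (Frobenius powers are additive, `AdjoinRoot (h i)` is generated by the root; `x ↦ x ^ (q ^ r)` fixes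
  `F`), so `H13.TA.homs` with `k = AdjoinRoot (h i)`, `Module.finrank F k = e i`.
* `rts_bc`: `d = [F' : F]`, `|F'| = q ^ d`; an algebraic closure of `F'` is one of `F` (`AlgebraicClosure F → AlgebraicClosure F'`, an isomorphism
  over `F`; compare `Pool/Agent/H13/TA/BcP.lean`).
* `fct_ext`: `fct_cnt` for both and `rts_bc`.
* `fct_inert`: `h i` over `F'`: let `c` be a root in an algebraic closure of `F'`; `e i = [F(c) : F]` divides
  `[F'(c) : F] = [F'(c) : F'] d`, so it divides `[F'(c) : F'] ≤ e i`, so the image of `h i` is the minimal polynomial of `c` over `F'`.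
  `map` is injective.
-/

set_option autoImplicit false

open Polynomial

noncomputable section

namespace H13.PC

/-- number of the roots of `τ` in the field with `q ^ r` elements -/
def rts {F : Type} [Field F] (τ : F[X]) (r : ℕ) : ℕ :=
  Nat.card {c : AlgebraicClosure F // aeval c τ = 0 ∧ c ^ Nat.card F ^ r = c}

variable {F : Type} [Field F] {τ : F[X]} {m : ℕ} {e : Fin m → ℕ} {F' : Type} [Field F']
  [Algebra F F']

/-- one irreducible factor -/
private theorem fu_one [Finite F] (p : F[X]) (hp : Irreducible p) (r : ℕ) :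
    Nat.card {c : AlgebraicClosure F // aeval c p = 0 ∧ c ^ Nat.card F ^ r = c} =
      if p.natDegree ∣ r then p.natDegree else 0 := by
  have hfact : Fact (Irreducible p) := ⟨hp⟩
  have := Fintype.ofFinite F
  have hfd : Module.Finite F (AdjoinRoot p) := (AdjoinRoot.powerBasis hp.ne_zero).finite
  have hrank : Module.finrank F (AdjoinRoot p) = p.natDegree := by
    rw [(AdjoinRoot.powerBasis hp.ne_zero).finrank, AdjoinRoot.powerBasis_dim]
  rw [← hrank, ← H13.TA.homs F (AdjoinRoot p) r]
  have hfix : ∀ φ : AdjoinRoot p →ₐ[F] AlgebraicClosure F,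
      φ (AdjoinRoot.root p) ^ Nat.card F ^ r = φ (AdjoinRoot.root p) →
        ∀ x, φ x ^ Nat.card F ^ r = φ x := by
    intro φ hφ x
    have e1 : ∀ y : AlgebraicClosure F,
        (FiniteField.frobeniusAlgHom F (AlgebraicClosure F) ^ r) y = y ^ (Nat.card F ^ r) := by
      intro y
      rw [AlgHom.coe_pow, FiniteField.coe_frobeniusAlgHom, pow_iterate, Nat.card_eq_fintype_card]
    have e2 : (FiniteField.frobeniusAlgHom F (AlgebraicClosure F) ^ r).comp φ = φ := by
      refine AdjoinRoot.algHom_ext ?_
      rw [AlgHom.comp_apply, e1, hφ]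
    rw [← e1, ← AlgHom.comp_apply, e2]
  refine Nat.card_congr
    { toFun := fun c => ⟨AdjoinRoot.liftAlgHom p (Algebra.ofId F (AlgebraicClosure F)) c.1 c.2.1,
        hfix _ (by rw [AdjoinRoot.liftAlgHom_root]; exact c.2.2)⟩
      invFun := fun φ => ⟨φ.1 (AdjoinRoot.root p), AdjoinRoot.aeval_algHom_eq_zero p φ.1, φ.2 _⟩
      left_inv := fun c => by
        apply Subtype.ext
        show AdjoinRoot.liftAlgHom p (Algebra.ofId F (AlgebraicClosure F)) c.1 c.2.1
          (AdjoinRoot.root p) = c.1
        rw [AdjoinRoot.liftAlgHom_root]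
      right_inv := fun φ => by
        apply Subtype.ext
        exact AdjoinRoot.liftAlgHom_eq_algHom p φ.1 }

theorem fct_cnt [Finite F] (h : Fct τ e) (hs : τ.Separable) (r : ℕ) (hr : r ≠ 0) :
    (∑ i, if e i ∣ r then e i else 0) = rts τ r := by
  obtain ⟨p, hp, hinj, hprod⟩ := h
  have hfin : ∀ i, Finite {c : AlgebraicClosure F // aeval c (p i) = 0 ∧ c ^ Nat.card F ^ r = c} := by
    intro i
    have h1 : ((p i).rootSet (AlgebraicClosure F)).Finite := Polynomial.rootSet_finite _ _
    have h2 := h1.to_subtype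
    refine Finite.of_injective (β := (p i).rootSet (AlgebraicClosure F))
      (fun c => ⟨c.1, (Polynomial.mem_rootSet).2 ⟨(hp i).1.ne_zero, c.2.1⟩⟩) ?_
    intro c c' hcc
    apply Subtype.ext
    exact congrArg (fun x : (p i).rootSet (AlgebraicClosure F) => x.1) hcc
  have h1 : ∀ i, (if e i ∣ r then e i else 0) =
      Nat.card {c : AlgebraicClosure F // aeval c (p i) = 0 ∧ c ^ Nat.card F ^ r = c} := by
    intro i
    rw [fu_one (p i) (hp i).1 r, (hp i).2.2]
  rw [Finset.sum_congr rfl fun i _ => h1 i, ← Nat.card_sigma]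
  unfold rts
  refine Nat.card_congr (Equiv.ofBijective
    (fun x : (Σ i : Fin m, {c : AlgebraicClosure F // aeval c (p i) = 0 ∧ c ^ Nat.card F ^ r = c}) =>
      (⟨x.2.1, by
        rw [← hprod, map_prod]
        exact Finset.prod_eq_zero (Finset.mem_univ x.1) x.2.2.1, x.2.2.2⟩ :
        {c : AlgebraicClosure F // aeval c τ = 0 ∧ c ^ Nat.card F ^ r = c})) ⟨?_, ?_⟩)
  · rintro ⟨i, c, hc⟩ ⟨j, c', hc'⟩ hcc
    have h2 : c = c' := congrArg Subtype.val hcc
    subst h2
    have h3 := minpoly.eq_of_irreducible_of_monic (hp i).1 hc.1 (hp i).2.1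
    have h4 := minpoly.eq_of_irreducible_of_monic (hp j).1 hc'.1 (hp j).2.1
    have h5 : i = j := hinj (h3.trans h4.symm)
    subst h5
    rfl
  · rintro ⟨c, hc1, hc2⟩
    rw [← hprod, map_prod, Finset.prod_eq_zero_iff] at hc1
    obtain ⟨i, -, hi⟩ := hc1
    exact ⟨⟨i, c, hi, hc2⟩, rfl⟩

theorem rts_bc [Finite F] [Finite F'] (τ : F[X]) (r : ℕ) :
    rts (τ.map (algebraMap F F')) r = rts τ (Module.finrank F F' * r) := by
  have hfin : Module.Finite F F' := Module.Finite.of_finite
  have halg : Algebra.IsAlgebraic F F' := Algebra.IsAlgebraic.of_finite F F'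
  have halg2 : Algebra.IsAlgebraic F (AlgebraicClosure F') := Algebra.IsAlgebraic.trans F F' _
  have hcl : IsAlgClosure F (AlgebraicClosure F') := ⟨inferInstance, halg2⟩
  let e : AlgebraicClosure F' ≃ₐ[F] AlgebraicClosure F := IsAlgClosure.equiv F _ _
  have hQ : Nat.card F' = Nat.card F ^ Module.finrank F F' := Module.natCard_eq_pow_finrank
  have hQ2 : Nat.card F' ^ r = Nat.card F ^ (Module.finrank F F' * r) := by
    rw [hQ, ← pow_mul]
  unfold rts
  refine Nat.card_congr (Equiv.subtypeEquiv e.toEquiv ?_)
  intro y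
  have h1 : y ^ Nat.card F' ^ r = y ↔ (e y) ^ Nat.card F ^ (Module.finrank F F' * r) = e y := by
    rw [hQ2, ← map_pow, e.injective.eq_iff]
  have h2 : aeval y (τ.map (algebraMap F F')) = 0 ↔ aeval (e y) τ = 0 := by
    have h3 : aeval (e y) τ = e (aeval y τ) :=
      Polynomial.aeval_algHom_apply (e : AlgebraicClosure F' →ₐ[F] AlgebraicClosure F) y τ
    rw [Polynomial.aeval_map_algebraMap, h3]
    exact (map_eq_zero_iff e e.injective).symm
  rw [h1, h2]
  rfl

theorem fct_ext [Finite F] [Finite F'] {m' : ℕ} {e' : Fin m' → ℕ} (h : Fct τ e)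
    (hs : τ.Separable) (h' : Fct (τ.map (algebraMap F F')) e') :
    Ext (Module.finrank F F') e e' := by
  have hfin : Module.Finite F F' := Module.Finite.of_finite
  intro r hr
  have hd0 : Module.finrank F F' ≠ 0 := Module.finrank_pos.ne'
  rw [fct_cnt h hs _ (mul_ne_zero hd0 hr), fct_cnt h' hs.map r hr, rts_bc]

/-- an irreducible polynomial stays irreducible over an extension of coprime degree -/
private theorem fu_irr [Finite F'] (p : F[X]) (hp : Irreducible p) (hm : p.Monic)
    (hc : (Module.finrank F F').Coprime p.natDegree) : Irreducible (p.map (algebraMap F F')) := by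
  have hfin : Module.Finite F F' := Module.Finite.of_finite
  have hdeg : (p.map (algebraMap F F')).degree ≠ 0 := by
    rw [degree_map]
    exact hp.degree_pos.ne'
  obtain ⟨c, hc0⟩ := IsAlgClosed.exists_aeval_eq_zero (AlgebraicClosure F') (p.map (algebraMap F F')) hdeg
  have hint : IsIntegral F' c := Algebra.IsIntegral.isIntegral c
  have hmin : p = minpoly F c := by
    refine minpoly.eq_of_irreducible_of_monic hp ?_ hm
    rwa [Polynomial.aeval_map_algebraMap] at hc0
  have hfd : FiniteDimensional F' (IntermediateField.adjoin F' {c}) :=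
    IntermediateField.adjoin.finiteDimensional hint
  have hn : Module.finrank F' (IntermediateField.adjoin F' {c}) = (minpoly F' c).natDegree :=
    IntermediateField.adjoin.finrank hint
  have h2 : Module.finrank F F' * Module.finrank F' (IntermediateField.adjoin F' {c}) =
      Module.finrank F (IntermediateField.adjoin F' {c}) := Module.finrank_mul_finrank F F' _
  have hfd2 : FiniteDimensional F (IntermediateField.adjoin F' {c}) :=
    FiniteDimensional.trans F F' _
  have h3 : p.natDegree ∣ Module.finrank F (IntermediateField.adjoin F' {c}) := by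
    have htow : IsScalarTower F (IntermediateField.adjoin F' {c}) (AlgebraicClosure F') :=
      IsScalarTower.of_algebraMap_eq fun x => rfl
    have h4 := minpoly.degree_dvd (K := F) (x := IntermediateField.AdjoinSimple.gen F' c)
      (Algebra.IsIntegral.isIntegral _)
    have h5 : minpoly F (IntermediateField.AdjoinSimple.gen F' c) = minpoly F c := by
      have hinj : Function.Injective
          (algebraMap (IntermediateField.adjoin F' {c}) (AlgebraicClosure F')) :=
        FaithfulSMul.algebraMap_injective _ _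
      rw [← minpoly.algebraMap_eq (B' := AlgebraicClosure F') hinj,
        IntermediateField.AdjoinSimple.algebraMap_gen]
    rw [h5, ← hmin] at h4
    exact h4
  rw [← h2, hn] at h3
  have h6 : p.natDegree ∣ (minpoly F' c).natDegree := hc.symm.dvd_of_dvd_mul_left h3
  have hmm : (p.map (algebraMap F F')).Monic := hm.map _
  have h7 : minpoly F' c ∣ p.map (algebraMap F F') := minpoly.dvd F' c hc0
  have h8 : (p.map (algebraMap F F')).natDegree ≤ (minpoly F' c).natDegree := by
    rw [natDegree_map]
    exact Nat.le_of_dvd (minpoly.natDegree_pos hint) h6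
  have h9 : p.map (algebraMap F F') = minpoly F' c :=
    (Polynomial.eq_of_monic_of_dvd_of_natDegree_le (minpoly.monic hint) hmm h7 h8)
  rw [h9]
  exact minpoly.irreducible hint

theorem fct_inert [Finite F'] (h : Fct τ e) (hc : ∀ i, (Module.finrank F F').Coprime (e i)) :
    Fct (τ.map (algebraMap F F')) e := by
  obtain ⟨p, hp, hinj, hprod⟩ := h
  refine ⟨fun i => (p i).map (algebraMap F F'), fun i => ⟨?_, (hp i).2.1.map _, ?_⟩, ?_, ?_⟩
  · refine fu_irr (p i) (hp i).1 (hp i).2.1 ?_
    rw [(hp i).2.2]
    exact hc i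
  · rw [natDegree_map]
    exact (hp i).2.2
  · exact (Polynomial.map_injective _ (algebraMap F F').injective).comp hinj
  · rw [← hprod, Polynomial.map_prod]

theorem fct_pos (h : Fct τ e) (i : Fin m) : e i ≠ 0 := by
  obtain ⟨p, h1, -, -⟩ := h
  rw [← (h1 i).2.2]
  exact (h1 i).1.natDegree_pos.ne'

end H13.PC
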