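import Mathlib

/-!
# PC-SU: F. K. Schmidt's theorem, the series

Let `c n = b (δ n)`. By `h1`, `h3` (terms with `ν r = 0` drop out; `b j = 0` for `δ ∤ j` is not needed as only `j = δ n - δ r'` occur)
`δ n c n = ∑_(r' = 1)^n ν (δ r') c (n - r')`, so by `h4` with `C = ∑ c n X ^ n`: `δ X C' = (∑ ν' r X ^ r) C`. So `C ^ δ` satisfies
`X (C ^ δ)' = (∑ ν' r X ^ r) C ^ δ`, the recurrence `h2` of `b'`, with constant term `1`; the solution of the recurrence is unique (over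
`ℚ` or as natural numbers: `n b n` determines `b n`), so `b' n` is the coefficient of `X ^ n` in `C ^ δ`. If `δ ≥ 2` it is at least the one in
`C ^ 2` (nonnegative coefficients, constant term `1`), so `b' n ≥ ∑_(i + j = n) c i c j`, and by `h5`
`K ^ 2 b' n ≥ (n - 2 N0 + 1) Q ^ n` for `n ≥ 2 N0`, against `h6` for large `n`.
-/

set_option autoImplicit false

namespace H13.PC

open PowerSeries

private theorem su_anti (n : ℕ) (f g : ℕ → ℚ) (h0 : f 0 = 0) :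
    ∑ x ∈ Finset.HasAntidiagonal.antidiagonal n, f x.1 * g x.2 = ∑ r ∈ Finset.Icc 1 n, f r * g (n - r) := by
  rw [Finset.Nat.sum_antidiagonal_eq_sum_range_succ_mk]
  symm
  refine Finset.sum_subset (fun r hr => ?_) fun r hr hr' => ?_
  · rw [Finset.mem_Icc] at hr
    rw [Finset.mem_range]
    omega
  · rw [Finset.mem_range] at hr
    rw [Finset.mem_Icc] at hr'
    have : r = 0 := by omega
    rw [this, h0, zero_mul]

private theorem su_xd (F : ℚ⟦X⟧) (n : ℕ) : coeff n (X * derivative ℚ F) = n * coeff n F := by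
  cases n with
  | zero => simp
  | succ n =>
    rw [coeff_succ_X_mul, coeff_derivative]
    push_cast
    ring

private theorem su_uniq (N F G : ℚ⟦X⟧) (hN : coeff 0 N = 0) (hF : coeff 0 F = 1) (hG : coeff 0 G = 1)
    (h1 : X * derivative ℚ F = N * F) (h2 : X * derivative ℚ G = N * G) : F = G := by
  have e : ∀ H : ℚ⟦X⟧, X * derivative ℚ H = N * H → ∀ n : ℕ,
      (n : ℚ) * coeff n H = ∑ r ∈ Finset.Icc 1 n, coeff r N * coeff (n - r) H := by
    intro H h n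
    have h3 := congrArg (coeff n) h
    rw [su_xd, coeff_mul, su_anti n (fun r => coeff r N) (fun r => coeff r H) hN] at h3
    exact h3
  ext n
  induction n using Nat.strong_induction_on with
  | _ n ih =>
    rcases Nat.eq_zero_or_pos n with rfl | hn
    · rw [hF, hG]
    · have h3 := e F h1 n
      have h4 := e G h2 n
      have h5 : ∑ r ∈ Finset.Icc 1 n, coeff r N * coeff (n - r) F =
          ∑ r ∈ Finset.Icc 1 n, coeff r N * coeff (n - r) G := by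
        refine Finset.sum_congr rfl fun r hr => ?_
        rw [Finset.mem_Icc] at hr
        rw [ih (n - r) (by omega)]
      rw [h5, ← h4] at h3
      have hn0 : (n : ℚ) ≠ 0 := by exact_mod_cast hn.ne'
      exact mul_left_cancel₀ hn0 h3

private theorem su_eq (N : ℚ⟦X⟧) (c : ℕ → ℚ) (ν : ℕ → ℚ) (δ : ℚ) (hN : ∀ r, coeff r N = if r = 0 then 0 else ν r)
    (h : ∀ n : ℕ, δ * (n * c n) = ∑ r ∈ Finset.Icc 1 n, ν r * c (n - r)) :
    C δ * (X * derivative ℚ (mk c)) = N * mk c := by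
  ext n
  rw [coeff_C_mul, su_xd, coeff_mk, h, coeff_mul,
    su_anti n (fun r => coeff r N) (fun r => coeff r (mk c)) (by rw [hN, if_pos rfl])]
  refine Finset.sum_congr rfl fun r hr => ?_
  rw [Finset.mem_Icc] at hr
  rw [hN, if_neg (by omega), coeff_mk]

private theorem su_nn (F G : ℚ⟦X⟧) (hF : ∀ n, 0 ≤ coeff n F) (hG : ∀ n, 0 ≤ coeff n G) (n : ℕ) :
    0 ≤ coeff n (F * G) := by
  rw [coeff_mul]
  exact Finset.sum_nonneg fun x _ => mul_nonneg (hF _) (hG _)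

private theorem su_pow (F : ℚ⟦X⟧) (hF : ∀ n, 0 ≤ coeff n F) (h0 : coeff 0 F = 1) (k : ℕ) :
    (∀ n, 0 ≤ coeff n (F ^ k)) ∧ coeff 0 (F ^ k) = 1 := by
  induction k with
  | zero =>
    refine ⟨fun n => ?_, ?_⟩
    · rw [pow_zero, coeff_one]
      split_ifs <;> norm_num
    · rw [pow_zero, coeff_one, if_pos rfl]
  | succ k ih =>
    refine ⟨fun n => ?_, ?_⟩
    · rw [pow_succ]
      exact su_nn _ _ ih.1 hF n
    · rw [pow_succ, coeff_mul]
      simp [ih.2, h0]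

theorem sch_pure (δ Q : ℕ) (hδ : δ ≠ 0) (hQ : 2 ≤ Q) (b b' ν ν' : ℕ → ℕ) (hb0 : b 0 = 1)
    (hb0' : b' 0 = 1) (h1 : ∀ n, n * b n = ∑ r ∈ Finset.Icc 1 n, ν r * b (n - r))
    (h2 : ∀ n, n * b' n = ∑ r ∈ Finset.Icc 1 n, ν' r * b' (n - r))
    (h3 : ∀ r, r ≠ 0 → ν r ≠ 0 → δ ∣ r) (h4 : ∀ r, r ≠ 0 → ν' r = ν (δ * r))
    (h5 : ∃ K N0 : ℕ, ∀ N ≥ N0, Q ^ N ≤ K * b (δ * N))
    (h6 : ∃ C N0 : ℕ, ∀ N ≥ N0, b' N ≤ C * Q ^ N) : δ = 1 := by
  obtain ⟨K, N0, hK⟩ := h5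
  obtain ⟨C0, N1, hC0⟩ := h6
  by_contra hne
  have hδ2 : 2 ≤ δ := by omega
  -- the recurrence of c
  have hc : ∀ n : ℕ, (δ : ℚ) * (n * (b (δ * n) : ℚ)) =
      ∑ r ∈ Finset.Icc 1 n, (ν' r : ℚ) * (b (δ * (n - r)) : ℚ) := by
    intro n
    have e1 := h1 (δ * n)
    have e2 : ∑ r ∈ Finset.Icc 1 (δ * n), ν r * b (δ * n - r) =
        ∑ r ∈ (Finset.Icc 1 n).image (fun r => δ * r), ν r * b (δ * n - r) := by
      symm
      refine Finset.sum_subset (fun r hr => ?_) fun r hr hr' => ?_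
      · obtain ⟨s, hs, rfl⟩ := Finset.mem_image.1 hr
        rw [Finset.mem_Icc] at hs ⊢
        exact ⟨Nat.mul_pos (Nat.pos_of_ne_zero hδ) hs.1, Nat.mul_le_mul_left _ hs.2⟩
      · by_cases hν : ν r = 0
        · rw [hν, zero_mul]
        · exfalso
          rw [Finset.mem_Icc] at hr
          obtain ⟨s, rfl⟩ := h3 r (by omega) hν
          refine hr' (Finset.mem_image.2 ⟨s, ?_, rfl⟩)
          rw [Finset.mem_Icc]
          refine ⟨?_, Nat.le_of_mul_le_mul_left hr.2 (Nat.pos_of_ne_zero hδ)⟩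
          rcases Nat.eq_zero_or_pos s with h | h
          · rw [h, mul_zero] at hr
            omega
          · exact h
    rw [e2, Finset.sum_image (fun x _ y _ h => Nat.eq_of_mul_eq_mul_left (Nat.pos_of_ne_zero hδ) h)] at e1
    have e3 : ∑ r ∈ Finset.Icc 1 n, ν (δ * r) * b (δ * n - δ * r) =
        ∑ r ∈ Finset.Icc 1 n, ν' r * b (δ * (n - r)) := by
      refine Finset.sum_congr rfl fun r hr => ?_
      rw [Finset.mem_Icc] at hr
      rw [h4 r (by omega), Nat.mul_sub]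
    rw [e3] at e1
    have e4 : ((δ * n * b (δ * n) : ℕ) : ℚ) = ((∑ r ∈ Finset.Icc 1 n, ν' r * b (δ * (n - r)) : ℕ) : ℚ) := by
      rw [e1]
    push_cast at e4
    rw [← e4]
    ring
  have hb' : ∀ n : ℕ, (1 : ℚ) * (n * (b' n : ℚ)) = ∑ r ∈ Finset.Icc 1 n, (ν' r : ℚ) * (b' (n - r) : ℚ) := by
    intro n
    rw [one_mul]
    have e1 := h2 n
    have e4 : ((n * b' n : ℕ) : ℚ) = ((∑ r ∈ Finset.Icc 1 n, ν' r * b' (n - r) : ℕ) : ℚ) := by
      rw [e1]
    push_cast at e4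
    exact e4
  obtain ⟨N, hN⟩ : ∃ N : ℚ⟦X⟧, ∀ r, coeff r N = if r = 0 then 0 else (ν' r : ℚ) :=
    ⟨mk fun r => if r = 0 then 0 else (ν' r : ℚ), fun r => coeff_mk _ _⟩
  have hN0 : coeff 0 N = 0 := by rw [hN, if_pos rfl]
  obtain ⟨F, hF⟩ : ∃ F : ℚ⟦X⟧, F = mk fun n => (b (δ * n) : ℚ) := ⟨_, rfl⟩
  obtain ⟨G, hG⟩ : ∃ G : ℚ⟦X⟧, G = mk fun n => (b' n : ℚ) := ⟨_, rfl⟩
  have hFe : C (δ : ℚ) * (X * derivative ℚ F) = N * F := by
    rw [hF]
    exact su_eq N _ (fun r => (ν' r : ℚ)) δ hN hc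
  have hGe : X * derivative ℚ G = N * G := by
    have := su_eq N (fun n => (b' n : ℚ)) (fun r => (ν' r : ℚ)) 1 hN hb'
    rw [map_one, one_mul, ← hG] at this
    exact this
  have hF0 : coeff 0 F = 1 := by rw [hF, coeff_mk, mul_zero, hb0, Nat.cast_one]
  have hG0 : coeff 0 G = 1 := by rw [hG, coeff_mk, hb0', Nat.cast_one]
  have hFn : ∀ n, 0 ≤ coeff n F := fun n => by rw [hF, coeff_mk]; exact Nat.cast_nonneg _
  have hFd : X * derivative ℚ (F ^ δ) = N * F ^ δ := by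
    have e1 : (C (δ : ℚ) : ℚ⟦X⟧) = (δ : ℚ⟦X⟧) := by rw [map_natCast]
    have e2 : F ^ δ = F ^ (δ - 1) * F := by rw [← pow_succ, Nat.sub_add_cancel (by omega)]
    rw [derivative_pow]
    calc X * ((δ : ℚ⟦X⟧) * F ^ (δ - 1) * derivative ℚ F)
        = F ^ (δ - 1) * ((δ : ℚ⟦X⟧) * (X * derivative ℚ F)) := by ring
      _ = F ^ (δ - 1) * (N * F) := by rw [← e1, hFe]
      _ = N * F ^ δ := by rw [e2]; ring
  have hFG : F ^ δ = G := su_uniq N _ _ hN0 (su_pow F hFn hF0 δ).2 hG0 hFd hGe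
  -- lower bound
  have hlow : ∀ n : ℕ, ∑ x ∈ Finset.HasAntidiagonal.antidiagonal n, (b (δ * x.1) : ℚ) * (b (δ * x.2) : ℚ) ≤ (b' n : ℚ) := by
    intro n
    have e1 : (b' n : ℚ) = coeff n (F ^ 2 * F ^ (δ - 2)) := by
      rw [← pow_add, show 2 + (δ - 2) = δ by omega, hFG, hG, coeff_mk]
    have e2 : ∑ x ∈ Finset.HasAntidiagonal.antidiagonal n, (b (δ * x.1) : ℚ) * (b (δ * x.2) : ℚ) = coeff n (F ^ 2) := by
      rw [pow_two, coeff_mul]
      exact Finset.sum_congr rfl fun x _ => by rw [hF, coeff_mk, coeff_mk]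
    rw [e1, e2, coeff_mul]
    have e3 := Finset.single_le_sum (f := fun x : ℕ × ℕ => coeff x.1 (F ^ 2) * coeff x.2 (F ^ (δ - 2)))
      (s := Finset.HasAntidiagonal.antidiagonal n) (fun x _ => mul_nonneg ((su_pow F hFn hF0 2).1 _) ((su_pow F hFn hF0 (δ - 2)).1 _))
      (a := (n, 0)) (by simp)
    simp only at e3
    rw [(su_pow F hFn hF0 (δ - 2)).2, mul_one] at e3
    exact e3
  -- the end
  have hlowN : ∀ n : ℕ, ∑ x ∈ Finset.HasAntidiagonal.antidiagonal n, b (δ * x.1) * b (δ * x.2) ≤ b' n := by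
    intro n
    have := hlow n
    exact_mod_cast this
  have hbig : ∀ n : ℕ, 2 * N0 ≤ n → (n - 2 * N0 + 1) * Q ^ n ≤ K ^ 2 * b' n := by
    intro n hn
    have e1 : ∑ x ∈ (Finset.Icc N0 (n - N0)).image (fun i => (i, n - i)), Q ^ n ≤
        K ^ 2 * ∑ x ∈ Finset.HasAntidiagonal.antidiagonal n, b (δ * x.1) * b (δ * x.2) := by
      rw [Finset.mul_sum]
      refine (Finset.sum_le_sum fun x hx => ?_).trans (Finset.sum_le_sum_of_subset
        (f := fun x : ℕ × ℕ => K ^ 2 * (b (δ * x.1) * b (δ * x.2))) fun x hx => ?_)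
      · obtain ⟨i, hi, rfl⟩ := Finset.mem_image.1 hx
        rw [Finset.mem_Icc] at hi
        have e2 := hK i hi.1
        have e3 := hK (n - i) (by omega)
        calc Q ^ n = Q ^ i * Q ^ (n - i) := by rw [← pow_add]; congr 1; omega
          _ ≤ (K * b (δ * i)) * (K * b (δ * (n - i))) := Nat.mul_le_mul e2 e3
          _ = K ^ 2 * (b (δ * i) * b (δ * (n - i))) := by ring
      · obtain ⟨i, hi, rfl⟩ := Finset.mem_image.1 hx
        rw [Finset.mem_Icc] at hi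
        rw [Finset.HasAntidiagonal.mem_antidiagonal]
        omega
    rw [Finset.sum_const, Finset.card_image_of_injective _ (fun i j h => (Prod.ext_iff.1 h).1), Nat.card_Icc,
      smul_eq_mul] at e1
    have e4 : n - N0 + 1 - N0 = n - 2 * N0 + 1 := by omega
    rw [e4] at e1
    exact e1.trans (Nat.mul_le_mul_left _ (hlowN n))
  obtain ⟨n, hn⟩ : ∃ n, n = 2 * N0 + N1 + K ^ 2 * C0 := ⟨_, rfl⟩
  have e1 := hbig n (by omega)
  have e2 := hC0 n (by omega)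
  have hQn : 0 < Q ^ n := Nat.pow_pos (by omega)
  have e3 : (n - 2 * N0 + 1) * Q ^ n ≤ (K ^ 2 * C0) * Q ^ n := by
    refine e1.trans ?_
    calc K ^ 2 * b' n ≤ K ^ 2 * (C0 * Q ^ n) := Nat.mul_le_mul_left _ e2
      _ = (K ^ 2 * C0) * Q ^ n := by ring
  have e4 := Nat.le_of_mul_le_mul_right e3 hQn
  omega

end H13.PC
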