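import Pool.Agent.H13.PC.Co
import Pool.Agent.H13.PC.Br
import Pool.Agent.H13.PC.Su
import Pool.Agent.H13.PC.Ps

/-!
# PC-SC: F. K. Schmidt's theorem

`δ`, `N0` of `ed_deg`. `hall δ` gives `F'` of degree `δ`. Apply `sch_pure` with `Q = q ^ δ = |F'|`, `b = bn f e`, `b' = bn f' e'`, `ν = cpt f e`,
`ν' = cpt f' e'` (`f' = bc F' f`), `h1`, `h2` from `bn_rec`, `b 0 = 1` (`bn_zero`). `h3`: let `cpt f e r ≠ 0`. If
`e i ∣ r` for some `i`: `δ ∣ e i` as `(⊤, single i 1)` has degree `e i`. Otherwise `npt f r ≠ 0`, by `H13.TA.pts` there is `d ∣ r` with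
`pn f d ≠ 0`, a prime `P ≠ ⊥` with `ideg P = d`, so `δ ∣ d` (`(P, 0)`). `h4`: `H13.TA.bcp` and `Ext`. `h5`: by `bn_cn` for large `n = δ N`
`(q - 1) bn n = cn n (q ^ (n + 1 - g) - 1) ≥ q ^ (n + 1 - g) - 1`, since there is a divisor of degree `n` (`ed_deg`, `ed_fin`) so `cn n ≥ 1`; so
`Q ^ N = q ^ n ≤ K bn n` with a constant `K` (for example `K = 2 q ^ (|g| + 2)`). `h6`: `cn' n` is bounded: `cn_add` for `C = (⊤, single i 1)`, so periodic from
some point on with period `e' i ≥ 1`; and `bn_cn`. So `δ = 1`; if `d` divides all degrees, then it divides `N0 + 1` and `N0 + 2`, so `d = 1`.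
-/

set_option autoImplicit false

open Polynomial

noncomputable section

namespace H13.PC

variable {F : Type} [Field F] {m : ℕ} {f : F[X][X]} {e : Fin m → ℕ} {W : Fin m → AdjoinRoot f → ℤ}

private theorem sc_top [IsDedekindDomain (AdjoinRoot f)] (h : Pls f e W) :
    H13.TA.ideg f (⊤ : Ideal (AdjoinRoot f)) = 0 := by
  have hne : (⊤ : Ideal (AdjoinRoot f)) ≠ ⊥ := top_ne_bot
  exact (H13.TA.ideg_zero h.monic hne).2 rfl

private theorem sc_edeg_single [IsDedekindDomain (AdjoinRoot f)] (h : Pls f e W) (i : Fin m) (N : ℕ) :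
    edeg e ((⟨⊤, top_ne_bot⟩, Pi.single i N) : Ed f m) = e i * N := by
  unfold edeg
  simp only
  rw [sc_top h, zero_add, Finset.sum_eq_single i]
  · rw [Pi.single_eq_same]
  · intro j _ hj
    rw [Pi.single_eq_of_ne hj, mul_zero]
  · intro h0
    exact absurd (Finset.mem_univ i) h0

/-- the degrees of the points -/
private theorem sc_dvd [Finite F] [IsDedekindDomain (AdjoinRoot f)] (h : Pls f e W) (δ : ℕ)
    (hδ : ∀ D : Ed f m, δ ∣ edeg e D) (r : ℕ) (hr : r ≠ 0) (hc : cpt f e r ≠ 0) : δ ∣ r := by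
  unfold cpt at hc
  by_cases h1 : H13.TA.npt f r = 0
  · rw [h1, zero_add] at hc
    obtain ⟨i, -, hi⟩ := Finset.exists_ne_zero_of_sum_ne_zero hc
    by_cases h2 : e i ∣ r
    · have h3 := hδ (⟨⊤, top_ne_bot⟩, Pi.single i 1)
      rw [sc_edeg_single h i 1, mul_one] at h3
      exact h3.trans h2
    · rw [if_neg h2] at hi
      exact absurd rfl hi
  · rw [H13.TA.pts h.monic hr] at h1
    obtain ⟨d, hd, h2⟩ := Finset.exists_ne_zero_of_sum_ne_zero h1
    have h3 : H13.TA.pn f d ≠ 0 := fun h0 => h2 (by rw [h0, mul_zero])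
    unfold H13.TA.pn at h3
    have h4 : Nonempty {P : Ideal (AdjoinRoot f) // (P ≠ ⊥ ∧ P.IsPrime) ∧ H13.TA.ideg f P = d} := by
      by_contra h5
      rw [not_nonempty_iff] at h5
      exact h3 Nat.card_of_isEmpty
    obtain ⟨P, ⟨hP, -⟩, hPd⟩ := h4
    have h5 := hδ (⟨P, hP⟩, fun _ => 0)
    unfold edeg at h5
    simp only [mul_zero, Finset.sum_const_zero, add_zero] at h5
    rw [hPd] at h5
    exact h5.trans (Nat.dvd_of_mem_divisors hd)

private theorem sc_low [Finite F] [IsDedekindDomain (AdjoinRoot f)] (h : Pls f e W) (hr : Rie h) (δ : ℕ)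
    (hδ0 : δ ≠ 0) (N0 : ℕ) (hN0 : ∀ N ≥ N0, ∃ D : Ed f m, edeg e D = δ * N) :
    ∃ K N1 : ℕ, ∀ N ≥ N1, (Nat.card F ^ δ) ^ N ≤ K * bn f e (δ * N) := by
  obtain ⟨g, hg⟩ := gen_ex h hr
  obtain ⟨N1, hN1⟩ := bn_cn h hr hg
  have hq : 2 ≤ Nat.card F := Finite.one_lt_card
  refine ⟨Nat.card F ^ g.toNat * 2 * (Nat.card F - 1), N0 + N1, fun N hN => ?_⟩
  have hδN : N ≤ δ * N := Nat.le_mul_of_pos_left _ (Nat.pos_of_ne_zero hδ0)
  obtain ⟨hgN, h1⟩ := hN1 (δ * N) (by omega)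
  obtain ⟨D, hD⟩ := hN0 N (by omega)
  have hfin := ed_fin (e := e) h (δ * N)
  have hne : Nonempty (Quot fun D D' : {D : Ed f m // edeg e D = δ * N} => Eqv W D.1 D'.1) :=
    ⟨Quot.mk _ ⟨D, hD⟩⟩
  have h2 : 1 ≤ cn e W (δ * N) := Nat.card_pos
  obtain ⟨k, hk⟩ : ∃ k : ℕ, k = (((δ * N : ℕ) : ℤ) + 1 - g).toNat := ⟨_, rfl⟩
  rw [← hk] at h1
  have hk1 : 1 ≤ k := by omega
  have hk2 : δ * N ≤ k + g.toNat := by omega
  obtain ⟨c, hc⟩ : ∃ c : ℕ, cn e W (δ * N) = c + 1 := ⟨cn e W (δ * N) - 1, by omega⟩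
  obtain ⟨t, ht⟩ : ∃ t : ℕ, Nat.card F = t + 1 := ⟨Nat.card F - 1, by omega⟩
  obtain ⟨x, hx⟩ : ∃ x : ℕ, Nat.card F ^ k = x + 2 := by
    have h3 : 2 ≤ Nat.card F ^ k := by
      calc 2 ≤ Nat.card F := hq
        _ = Nat.card F ^ 1 := (pow_one _).symm
        _ ≤ Nat.card F ^ k := Nat.pow_le_pow_right (by omega) hk1
    exact ⟨Nat.card F ^ k - 2, by omega⟩
  have h4 : t * bn f e (δ * N) = (c + 1) * (x + 1) := by
    have h5 : ((Nat.card F : ℤ) ^ k) = ((x + 2 : ℕ) : ℤ) := by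
      rw [← hx]
      push_cast
      rfl
    rw [h5, hc] at h1
    have h6 : ((Nat.card F : ℤ) - 1) = (t : ℤ) := by
      rw [ht]
      push_cast
      ring
    rw [h6] at h1
    have h7 : (((x + 2 : ℕ) : ℤ) - 1) = ((x + 1 : ℕ) : ℤ) := by
      push_cast
      ring
    rw [h7] at h1
    exact_mod_cast h1
  calc (Nat.card F ^ δ) ^ N = Nat.card F ^ (δ * N) := (pow_mul _ _ _).symm
    _ ≤ Nat.card F ^ (k + g.toNat) := Nat.pow_le_pow_right (by omega) hk2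
    _ = Nat.card F ^ g.toNat * (x + 2) := by rw [pow_add, hx, mul_comm]
    _ ≤ Nat.card F ^ g.toNat * (2 * (t * bn f e (δ * N))) := by
        refine Nat.mul_le_mul_left _ ?_
        rw [h4]
        nlinarith [Nat.zero_le (c * x)]
    _ = Nat.card F ^ g.toNat * 2 * (Nat.card F - 1) * bn f e (δ * N) := by
        have h8 : Nat.card F - 1 = t := by omega
        rw [h8]
        ring

private theorem sc_up [Finite F] [IsDedekindDomain (AdjoinRoot f)] (h : Pls f e W) (hr : Rie h) :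
    ∃ C N0 : ℕ, ∀ N ≥ N0, bn f e N ≤ C * Nat.card F ^ N := by
  obtain ⟨g, hg⟩ := gen_ex h hr
  obtain ⟨N1, hN1⟩ := bn_cn h hr hg
  have hq : 2 ≤ Nat.card F := Finite.one_lt_card
  have i0 : Fin m := ⟨0, Nat.pos_of_ne_zero h.ne⟩
  obtain ⟨N2, hN2⟩ := cn_add h hr ((⟨⊤, top_ne_bot⟩, Pi.single i0 1) : Ed f m)
  rw [sc_edeg_single h i0 1, mul_one] at hN2
  obtain ⟨M, hM⟩ : ∃ M : ℕ, M = ∑ k ∈ Finset.range (N2 + e i0), cn e W k := ⟨_, rfl⟩
  have hb : ∀ N : ℕ, cn e W N ≤ M := by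
    intro N
    induction N using Nat.strong_induction_on with
    | _ N ih =>
      rcases lt_or_ge N (N2 + e i0) with h1 | h1
      · rw [hM]
        exact Finset.single_le_sum (f := fun k => cn e W k) (fun _ _ => Nat.zero_le _) (Finset.mem_range.2 h1)
      · have h2 := hN2 (N - e i0) (by omega)
        have h3 : N - e i0 + e i0 = N := by omega
        rw [h3] at h2
        rw [h2]
        have h4 := h.pos i0
        exact ih _ (by omega)
  refine ⟨M * Nat.card F ^ (1 + (-g).toNat), N1, fun N hN => ?_⟩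
  obtain ⟨hgN, h1⟩ := hN1 N hN
  obtain ⟨k, hk⟩ : ∃ k : ℕ, k = ((N : ℤ) + 1 - g).toNat := ⟨_, rfl⟩
  rw [← hk] at h1
  have hk2 : k ≤ N + (1 + (-g).toNat) := by omega
  obtain ⟨t, ht⟩ : ∃ t : ℕ, Nat.card F = t + 1 := ⟨Nat.card F - 1, by omega⟩
  have ht1 : 1 ≤ t := by omega
  have h4 : t * bn f e N ≤ cn e W N * Nat.card F ^ k := by
    have h6 : ((Nat.card F : ℤ) - 1) = (t : ℤ) := by
      rw [ht]
      push_cast
      ring
    rw [h6] at h1
    have h7 : (t : ℤ) * bn f e N ≤ cn e W N * (Nat.card F : ℤ) ^ k := by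
      rw [h1]
      have h8 : (0 : ℤ) ≤ cn e W N := Int.natCast_nonneg _
      nlinarith
    exact_mod_cast h7
  calc bn f e N ≤ t * bn f e N := Nat.le_mul_of_pos_left _ ht1
    _ ≤ cn e W N * Nat.card F ^ k := h4
    _ ≤ M * Nat.card F ^ (N + (1 + (-g).toNat)) := Nat.mul_le_mul (hb N) (Nat.pow_le_pow_right (by omega) hk2)
    _ = M * Nat.card F ^ (1 + (-g).toNat) * Nat.card F ^ N := by
        rw [pow_add]
        ring

theorem schmidt [Finite F] [IsDedekindDomain (AdjoinRoot f)] (h : Pls f e W) (hr : Rie h)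
    (hall : ∀ d : ℕ, d ≠ 0 → ∃ (F' : Type) (_ : Field F') (_ : Finite F') (_ : Algebra F F')
      (m' : ℕ) (e' : Fin m' → ℕ) (W' : Fin m' → AdjoinRoot (H13.TA.bc F' f) → ℤ)
      (h' : Pls (H13.TA.bc F' f) e' W'), Rie h' ∧
        IsDedekindDomain (AdjoinRoot (H13.TA.bc F' f)) ∧ Module.finrank F F' = d ∧ Ext d e e')
    (d : ℕ) (hd : ∀ D : Ed f m, d ∣ edeg e D) : d = 1 := by
  obtain ⟨δ, hδ0, hδ, N0, hN0⟩ := ed_deg h
  have hd1 := h.dom
  have hδ1 : δ = 1 := by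
    obtain ⟨F', _, _, _, m', e', W', h', hr', hDed, hfin, hExt⟩ := hall δ hδ0
    have hF : Module.Finite F F' := Module.Finite.of_finite
    have hQ : Nat.card F' = Nat.card F ^ δ := by
      rw [← hfin]
      exact Module.natCard_eq_pow_finrank
    have hd2 := h'.dom
    have hq : 2 ≤ Nat.card F' := Finite.one_lt_card
    refine sch_pure δ (Nat.card F') hδ0 hq (bn f e) (bn (H13.TA.bc F' f) e') (cpt f e) (cpt (H13.TA.bc F' f) e')
      (bn_zero h.monic e h.pos) (bn_zero h'.monic e' h'.pos) (bn_rec h.monic e h.pos)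
      (bn_rec h'.monic e' h'.pos) (sc_dvd h δ hδ) (fun r hr0 => ?_) ?_ (sc_up h' hr')
    · unfold cpt
      rw [H13.TA.bcp r, hfin, hExt r hr0]
    · rw [hQ]
      exact sc_low h hr δ hδ0 N0 hN0
  subst hδ1
  obtain ⟨D, hD⟩ := hN0 N0 le_rfl
  obtain ⟨D', hD'⟩ := hN0 (N0 + 1) (Nat.le_succ _)
  have h1 := hd D
  have h2 := hd D'
  rw [hD, one_mul] at h1
  rw [hD', one_mul] at h2
  exact Nat.dvd_one.1 ((Nat.dvd_add_right h1).1 h2)

end H13.PC
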