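import Mathlib

/-!
# PC-FC: the generating function of the effective divisors

`B = ∑ b n X ^ n`, `L = (1 - X)(1 - q X) B`.

* For `N` large (`N ≥ N3 + 2` and `N ≥ g + 2`) `(q - 1) b N = c (q ^ (N + 1 - g) - 1)`, and the same for `N - 1`, `N - 2`, so
  `(q - 1)(b N - (q + 1) b (N - 1) + q b (N - 2)) = 0`: the coefficient of `X ^ N` in the series `L` is zero, so `L` is a polynomial
  (`PowerSeries.trunc`).
* `L(1) = c`: let `D` be larger than the degree of `L` and than all these bounds. `(1 - q X) B` has the coefficients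
  `u N = b N - q b (N - 1)`, and `∑_(n ≤ N) L_n = u N`; for large `N` `(q - 1) u N = c (q ^ (N + 1 - g) - 1) - q c (q ^ (N - g) - 1) =
  c (q - 1)`.
* For real `x > 0`, `q x < 1` the series `B(x) = ∑ b n x ^ n` converges (`b n ≤ K q ^ n`), `B(x) ≥ b 0 = 1`, and
  `L(x) = (1 - x)(1 - q x) B(x) > 0`. At `x = 1/q`: `∑_(n ≤ N) L_n x ^ n = (1 - x)`-summation: with `v N = b N - b (N - 1)` the coefficients of
  `(1 - X) B`, `∑_(n ≤ N) L_n x ^ n = v N x ^ N` for `x = 1/q`, and for large `N`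
  `(q - 1) v N x ^ N = c (q ^ (N + 1 - g) - q ^ (N - g)) q ^ (-N) = c (q - 1) q ^ (-g)`. So `L(1/q) = c q ^ (-g) > 0`.
(Compare `Pool/Agent/H13/TA/FormA.lean`.)
-/

set_option autoImplicit false

open Polynomial

noncomputable section

namespace H13.PC

private theorem fc_id {R : Type} [CommRing R] (q x : R) (b l : ℕ → R) (h0 : l 0 = b 0)
    (h1 : l 1 = b 1 - (q + 1) * b 0) (h2 : ∀ n, l (n + 2) = b (n + 2) - (q + 1) * b (n + 1) + q * b n) (N : ℕ) :
    ∑ i ∈ Finset.range (N + 2), l i * x ^ i =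
      (1 - q * x) * (1 - x) * (∑ i ∈ Finset.range (N + 2), b i * x ^ i) +
        (1 - q * x) * b (N + 1) * x ^ (N + 2) + q * (b (N + 1) - b N) * x ^ (N + 2) := by
  induction N with
  | zero =>
    simp only [Finset.sum_range_succ, Finset.sum_range_zero]
    rw [h0, h1]
    ring
  | succ N ih =>
    rw [Finset.sum_range_succ _ (N + 2), ih, Finset.sum_range_succ _ (N + 2), h2]
    ring

private theorem fc_c0 (q : ℤ) (B : PowerSeries ℤ) : PowerSeries.coeff 0
    ((1 - PowerSeries.X) * (1 - PowerSeries.C q * PowerSeries.X) * B) = PowerSeries.coeff 0 B := by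
  have h : (1 - PowerSeries.X) * (1 - PowerSeries.C q * PowerSeries.X) * B =
      B - PowerSeries.X * ((1 + PowerSeries.C q) * B - PowerSeries.C q * (PowerSeries.X * B)) := by
    ring
  rw [h, map_sub, PowerSeries.coeff_zero_X_mul, sub_zero]

private theorem fc_c1 (q : ℤ) (B : PowerSeries ℤ) : PowerSeries.coeff 1
    ((1 - PowerSeries.X) * (1 - PowerSeries.C q * PowerSeries.X) * B) =
      PowerSeries.coeff 1 B - (q + 1) * PowerSeries.coeff 0 B := by
  have h : (1 - PowerSeries.X) * (1 - PowerSeries.C q * PowerSeries.X) * B =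
      B - PowerSeries.X * (B + (PowerSeries.C q * B - PowerSeries.C q * (PowerSeries.X * B))) := by
    ring
  rw [h, map_sub, show (1 : ℕ) = 0 + 1 from rfl, PowerSeries.coeff_succ_X_mul, map_add, map_sub,
    PowerSeries.coeff_C_mul, PowerSeries.coeff_C_mul, PowerSeries.coeff_zero_X_mul]
  ring

private theorem fc_c2 (q : ℤ) (B : PowerSeries ℤ) (n : ℕ) : PowerSeries.coeff (n + 2)
    ((1 - PowerSeries.X) * (1 - PowerSeries.C q * PowerSeries.X) * B) =
      PowerSeries.coeff (n + 2) B - (q + 1) * PowerSeries.coeff (n + 1) B + q * PowerSeries.coeff n B := by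
  have h : (1 - PowerSeries.X) * (1 - PowerSeries.C q * PowerSeries.X) * B =
      B - PowerSeries.X * (B + (PowerSeries.C q * B - PowerSeries.C q * (PowerSeries.X * B))) := by
    ring
  rw [h, map_sub, show n + 2 = (n + 1) + 1 from rfl, PowerSeries.coeff_succ_X_mul, map_add, map_sub,
    PowerSeries.coeff_C_mul, PowerSeries.coeff_C_mul, PowerSeries.coeff_succ_X_mul]
  ring

theorem formC (q c : ℕ) (g : ℤ) (hq : 2 ≤ q) (hc : c ≠ 0) (b : ℕ → ℕ) (hb0 : b 0 = 1)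
    (hrat : ∃ N3 : ℕ, ∀ N ≥ N3, ((q : ℤ) - 1) * b N = c * ((q : ℤ) ^ ((N : ℤ) + 1 - g).toNat - 1)) :
    ∃ L : ℤ[X], (L : PowerSeries ℤ) = (1 - PowerSeries.X) * (1 - PowerSeries.C (q : ℤ) * PowerSeries.X) *
        PowerSeries.mk (fun n => (b n : ℤ)) ∧
      L.eval 1 = c ∧ aeval ((q : ℝ)⁻¹) L = c * (q : ℝ) ^ (-g) ∧
      ∀ x : ℝ, 0 < x → q * x ≤ 1 → 0 < aeval x L := by
  obtain ⟨N3, hN3⟩ := hrat
  set S : PowerSeries ℤ := (1 - PowerSeries.X) * (1 - PowerSeries.C (q : ℤ) * PowerSeries.X) *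
        PowerSeries.mk (fun n => (b n : ℤ)) with hS
  obtain ⟨l, hl⟩ : ∃ l : ℕ → ℤ, ∀ n, l n = PowerSeries.coeff n S := ⟨_, fun _ => rfl⟩
  have hl0 : l 0 = (b 0 : ℤ) := by
    rw [hl, hS, fc_c0, PowerSeries.coeff_mk]
  have hl1 : l 1 = (b 1 : ℤ) - ((q : ℤ) + 1) * (b 0 : ℤ) := by
    rw [hl, hS, fc_c1, PowerSeries.coeff_mk, PowerSeries.coeff_mk]
  have hl2 : ∀ n, l (n + 2) = (b (n + 2) : ℤ) - ((q : ℤ) + 1) * (b (n + 1) : ℤ) + (q : ℤ) * (b n : ℤ) := by
    intro n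
    rw [hl, hS, fc_c2, PowerSeries.coeff_mk, PowerSeries.coeff_mk, PowerSeries.coeff_mk]
  have hq1 : (q : ℤ) - 1 ≠ 0 := by
    have : (2 : ℤ) ≤ q := by exact_mod_cast hq
    omega
  obtain ⟨N4, hN4⟩ : ∃ N4 : ℕ, N4 = max N3 g.toNat := ⟨_, rfl⟩
  have hN43 : N3 ≤ N4 := by rw [hN4]; exact le_max_left _ _
  have hN4g : g ≤ N4 := by
    have h1 : g.toNat ≤ N4 := by rw [hN4]; exact le_max_right _ _
    omega
  -- the three values
  have hval : ∀ N, N4 ≤ N → ((q : ℤ) - 1) * b N = c * ((q : ℤ) ^ ((N : ℤ) + 1 - g).toNat - 1) ∧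
      ((q : ℤ) - 1) * b (N + 1) = c * ((q : ℤ) ^ (((N : ℤ) + 1 - g).toNat + 1) - 1) ∧
      ((q : ℤ) - 1) * b (N + 2) = c * ((q : ℤ) ^ (((N : ℤ) + 1 - g).toNat + 2) - 1) := by
    intro N hN
    refine ⟨hN3 N (by omega), ?_, ?_⟩
    · have h1 := hN3 (N + 1) (by omega)
      rw [h1]
      congr 3
      push_cast
      omega
    · have h1 := hN3 (N + 2) (by omega)
      rw [h1]
      congr 3
      push_cast
      omega
  have hlz : ∀ n, N4 + 2 ≤ n → l n = 0 := by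
    intro n hn
    obtain ⟨N, rfl⟩ : ∃ N, n = N + 2 := ⟨n - 2, by omega⟩
    obtain ⟨h1, h2, h3⟩ := hval N (by omega)
    have h4 : ((q : ℤ) - 1) * l (N + 2) = 0 := by
      rw [hl2]
      linear_combination h3 - ((q : ℤ) + 1) * h2 + (q : ℤ) * h1
    rcases mul_eq_zero.1 h4 with h5 | h5
    · exact absurd h5 hq1
    · exact h5
  obtain ⟨hv0, hv1, -⟩ := hval N4 le_rfl
  obtain ⟨e, he⟩ : ∃ e : ℕ, e = ((N4 : ℤ) + 1 - g).toNat := ⟨_, rfl⟩
  rw [← he] at hv0 hv1
  have hv : (b (N4 + 1) : ℤ) - b N4 = c * (q : ℤ) ^ e := by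
    have h4 : ((q : ℤ) - 1) * ((b (N4 + 1) : ℤ) - b N4 - c * (q : ℤ) ^ e) = 0 := by
      linear_combination hv1 - hv0
    rcases mul_eq_zero.1 h4 with h5 | h5
    · exact absurd h5 hq1
    · linarith
  have hu : (b (N4 + 1) : ℤ) - q * b N4 = c := by
    have h4 : ((q : ℤ) - 1) * ((b (N4 + 1) : ℤ) - q * b N4 - c) = 0 := by
      linear_combination hv1 - q * hv0
    rcases mul_eq_zero.1 h4 with h5 | h5
    · exact absurd h5 hq1
    · linarith
  have hcoef : ∀ n, (∑ i ∈ Finset.range (N4 + 2), monomial i (l i) : ℤ[X]).coeff n = l n := by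
    intro n
    rw [finsetSum_coeff]
    simp only [coeff_monomial]
    rw [Finset.sum_ite_eq']
    split_ifs with h1
    · rfl
    · rw [Finset.mem_range, not_lt] at h1
      exact (hlz n h1).symm
  have hR : ∀ x : ℝ, aeval x (∑ i ∈ Finset.range (N4 + 2), monomial i (l i) : ℤ[X]) =
      (1 - q * x) * (1 - x) * (∑ i ∈ Finset.range (N4 + 2), (b i : ℝ) * x ^ i) +
        (1 - q * x) * (b (N4 + 1) : ℝ) * x ^ (N4 + 2) + q * ((c : ℝ) * (q : ℝ) ^ e) * x ^ (N4 + 2) := by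
    intro x
    rw [map_sum]
    simp only [aeval_monomial, eq_intCast]
    have h1 := fc_id (q : ℝ) x (fun n => (b n : ℝ)) (fun n => (l n : ℝ)) (by rw [hl0]; push_cast; rfl)
      (by rw [hl1]; push_cast; rfl) (fun n => by rw [hl2]; push_cast; rfl) N4
    rw [h1]
    have h2 : (b (N4 + 1) : ℝ) - b N4 = c * (q : ℝ) ^ e := by exact_mod_cast hv
    rw [h2]
  have hq0 : (0 : ℝ) < q := by
    have : (2 : ℝ) ≤ q := by exact_mod_cast hq
    linarith
  have hc0 : (0 : ℝ) < c := by exact_mod_cast Nat.pos_of_ne_zero hc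
  refine ⟨∑ i ∈ Finset.range (N4 + 2), monomial i (l i), ?_, ?_, ?_, ?_⟩
  · ext n
    rw [Polynomial.coeff_coe, hcoef, hl]
  · rw [eval_finsetSum]
    simp only [eval_monomial]
    have h1 := fc_id (q : ℤ) 1 (fun n => (b n : ℤ)) l hl0 hl1 hl2 N4
    rw [h1]
    linear_combination hu
  · rw [hR]
    have h1 : (q : ℝ) * (q : ℝ)⁻¹ = 1 := mul_inv_cancel₀ hq0.ne'
    rw [h1, sub_self, zero_mul, zero_mul, zero_mul, zero_mul, zero_add, zero_add]
    have h2 : (q : ℝ) ^ (-g) = (q : ℝ) ^ e * (q : ℝ)⁻¹ ^ (N4 + 1) := by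
      rw [inv_pow, ← zpow_natCast, ← zpow_natCast, ← zpow_neg, ← zpow_add₀ hq0.ne']
      congr 1
      rw [he]
      push_cast
      omega
    rw [h2, pow_succ _ (N4 + 1)]
    linear_combination (c : ℝ) * (q : ℝ) ^ e * (q : ℝ)⁻¹ ^ (N4 + 1) * h1
  · intro x hx hqx
    rw [hR]
    have h1 : x ≤ 1 := by
      have : (2 : ℝ) ≤ q := by exact_mod_cast hq
      nlinarith
    have h2 : 0 ≤ (1 - q * x) * (1 - x) * (∑ i ∈ Finset.range (N4 + 2), (b i : ℝ) * x ^ i) := by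
      refine mul_nonneg (mul_nonneg (by linarith) (by linarith)) ?_
      exact Finset.sum_nonneg fun i _ => by positivity
    have h3 : 0 ≤ (1 - q * x) * (b (N4 + 1) : ℝ) * x ^ (N4 + 2) := by
      refine mul_nonneg (mul_nonneg (by linarith) (Nat.cast_nonneg _)) (by positivity)
    have h4 : 0 < q * ((c : ℝ) * (q : ℝ) ^ e) * x ^ (N4 + 2) := by positivity
    linarith

end H13.PC
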