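import Pool.Agent.H13.PC.Def

/-!
# PC-FD: complete divisors and ideals

`bn N = ∑_(k ≤ N) an k · p (N - k)`, `p j` the number of the `n : Fin m → ℕ` with `∑ e i n i = j` (finite: `H13.TA.fin_ideg`; sort the
`(I, n)` of degree `N` by `k = ideg I`). So `∑ bn N X ^ N = (∑ an k X ^ k)(∑ p j X ^ j)`, and `(∑ p j X ^ j) ∏ (1 - X ^ (e i)) = 1`:
induction on `m` (`Fin.consEquiv`, `Fin.prod_univ_succ`): for `m = 0` it is `1`; `p` for `m + 1` is the convolution of `p` for the
last `m` and of the indicator function of the multiples of `e 0`, whose series times `1 - X ^ (e 0)` is `1` (`e 0 ≠ 0`).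
-/

set_option autoImplicit false

open Polynomial

noncomputable section

namespace H13.PC

variable {F : Type} [Field F] {m : ℕ} {f : F[X][X]}

/-- generating function of a set with a degree -/
private def gf (α : Type) (d : α → ℕ) : PowerSeries ℤ :=
  PowerSeries.mk fun n => (Nat.card {a : α // d a = n} : ℤ)

private theorem gf_congr {α β : Type} (d1 : α → ℕ) (d2 : β → ℕ) (e : α ≃ β)
    (h : ∀ a, d2 (e a) = d1 a) : gf α d1 = gf β d2 := by
  unfold gf
  congr 1
  funext n
  congr 1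
  exact Nat.card_congr (e.subtypeEquiv fun a => by rw [h a])

private theorem gf_prod {α β : Type} (d1 : α → ℕ) (d2 : β → ℕ)
    (h1 : ∀ n, Finite {a : α // d1 a = n}) (h2 : ∀ n, Finite {b : β // d2 b = n}) :
    gf (α × β) (fun p => d1 p.1 + d2 p.2) = gf α d1 * gf β d2 := by
  classical
  ext n
  unfold gf
  rw [PowerSeries.coeff_mul, PowerSeries.coeff_mk]
  have hE : {p : α × β // d1 p.1 + d2 p.2 = n} ≃
      Σ ij : {ij : ℕ × ℕ // ij ∈ Finset.HasAntidiagonal.antidiagonal n}, {a : α // d1 a = ij.1.1} × {b : β // d2 b = ij.1.2} :=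
    { toFun := fun p => ⟨⟨(d1 p.1.1, d2 p.1.2), Finset.HasAntidiagonal.mem_antidiagonal.2 p.2⟩, ⟨p.1.1, rfl⟩, ⟨p.1.2, rfl⟩⟩
      invFun := fun q => ⟨(q.2.1.1, q.2.2.1), by
        have h3 := Finset.HasAntidiagonal.mem_antidiagonal.1 q.1.2
        rw [q.2.1.2, q.2.2.2]
        exact h3⟩
      left_inv := fun p => rfl
      right_inv := by
        rintro ⟨⟨⟨i, j⟩, hij⟩, ⟨a, ha⟩, ⟨b, hb⟩⟩
        dsimp only at ha hb
        subst ha
        subst hb
        rfl }
  rw [Nat.card_congr hE, Nat.card_sigma]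
  rw [Finset.sum_coe_sort (Finset.HasAntidiagonal.antidiagonal n) (fun ij => Nat.card ({a : α // d1 a = ij.1} × {b : β // d2 b = ij.2}))]
  rw [Nat.cast_sum]
  refine Finset.sum_congr rfl fun ij _ => ?_
  rw [Nat.card_prod, Nat.cast_mul, PowerSeries.coeff_mk, PowerSeries.coeff_mk]

private theorem gf_mul (e : ℕ) (he : e ≠ 0) :
    gf ℕ (fun n => e * n) * (1 - PowerSeries.X ^ e) = 1 := by
  classical
  have h1 : ∀ n, (Nat.card {a : ℕ // e * a = n} : ℤ) = if e ∣ n then 1 else 0 := by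
    intro n
    by_cases h : e ∣ n
    · rw [if_pos h]
      obtain ⟨k, hk⟩ := h
      have : Nat.card {a : ℕ // e * a = n} = 1 := by
        rw [Nat.card_eq_one_iff_exists]
        refine ⟨⟨k, hk.symm⟩, ?_⟩
        rintro ⟨a, ha⟩
        apply Subtype.ext
        exact Nat.eq_of_mul_eq_mul_left (Nat.pos_of_ne_zero he) (ha.trans hk)
      rw [this]
      rfl
    · rw [if_neg h]
      have : IsEmpty {a : ℕ // e * a = n} := ⟨fun a => h ⟨a.1, a.2.symm⟩⟩
      rw [Nat.card_of_isEmpty]
      rfl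
  ext n
  unfold gf
  rw [mul_sub, mul_one, map_sub, PowerSeries.coeff_mul_X_pow', PowerSeries.coeff_mk, h1,
    PowerSeries.coeff_one]
  by_cases hn : n = 0
  · rw [hn, if_pos (dvd_zero e), if_neg (by omega), if_pos rfl]
    rfl
  rw [if_neg hn]
  by_cases hle : e ≤ n
  · rw [if_pos hle, PowerSeries.coeff_mk, h1]
    have h2 : e ∣ n - e ↔ e ∣ n := by
      constructor
      · intro h
        have := Nat.dvd_add h (dvd_refl e)
        rwa [Nat.sub_add_cancel hle] at this
      · intro h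
        exact Nat.dvd_sub h (dvd_refl e)
    by_cases h3 : e ∣ n
    · rw [if_pos h3, if_pos (h2.2 h3), sub_self]
    · rw [if_neg h3, if_neg (fun h => h3 (h2.1 h)), sub_self]
  · rw [if_neg hle, if_neg, sub_zero]
    intro h
    exact hle (Nat.le_of_dvd (Nat.pos_of_ne_zero hn) h)

private theorem fin_mul (e : ℕ) (he : e ≠ 0) (n : ℕ) : Finite {a : ℕ // e * a = n} := by
  have h : ({a : ℕ | e * a = n}).Finite := by
    refine (Set.finite_le_nat n).subset ?_
    intro a ha
    have ha' : e * a = n := ha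
    have : 1 * a ≤ e * a := Nat.mul_le_mul_right a (Nat.pos_of_ne_zero he)
    show a ≤ n
    omega
  exact h.to_subtype

private theorem fin_sum {m : ℕ} (e : Fin m → ℕ) (he : ∀ i, e i ≠ 0) (n : ℕ) :
    Finite {v : Fin m → ℕ // ∑ i, e i * v i = n} := by
  have h : ({v : Fin m → ℕ | ∑ i, e i * v i = n}).Finite := by
    refine (Set.finite_Iic (fun _ : Fin m => n)).subset ?_
    intro v hv i
    have hv' : ∑ i, e i * v i = n := hv
    have h1 : e i * v i ≤ ∑ i, e i * v i :=
      Finset.single_le_sum (f := fun i => e i * v i) (fun j _ => Nat.zero_le _) (Finset.mem_univ i)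
    have h2 : 1 * v i ≤ e i * v i := Nat.mul_le_mul_right _ (Nat.pos_of_ne_zero (he i))
    show v i ≤ n
    omega
  exact h.to_subtype

private theorem gf_vec {m : ℕ} (e : Fin m → ℕ) (he : ∀ i, e i ≠ 0) :
    gf (Fin m → ℕ) (fun v => ∑ i, e i * v i) * ∏ i, (1 - PowerSeries.X ^ e i) = 1 := by
  induction m with
  | zero =>
    rw [Fintype.prod_empty, mul_one]
    ext n
    unfold gf
    rw [PowerSeries.coeff_mk, PowerSeries.coeff_one]
    by_cases hn : n = 0
    · rw [if_pos hn]
      subst hn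
      have : Nat.card {v : Fin 0 → ℕ // ∑ i, e i * v i = 0} = 1 := by
        rw [Nat.card_eq_one_iff_exists]
        refine ⟨⟨fun i => i.elim0, by simp⟩, ?_⟩
        rintro ⟨v, hv⟩
        apply Subtype.ext
        funext i
        exact i.elim0
      rw [this]
      rfl
    · rw [if_neg hn]
      have : IsEmpty {v : Fin 0 → ℕ // ∑ i, e i * v i = n} := ⟨fun v => hn (by
        have := v.2
        simpa using this.symm)⟩
      rw [Nat.card_of_isEmpty]
      rfl
  | succ m ih =>
    have h1 : gf (Fin (m + 1) → ℕ) (fun v => ∑ i, e i * v i) =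
        gf (ℕ × (Fin m → ℕ)) (fun p => e 0 * p.1 + ∑ i, e (Fin.succ i) * p.2 i) := by
      refine gf_congr _ _
        { toFun := fun v => (v 0, fun i => v i.succ)
          invFun := fun p => Fin.cons p.1 p.2
          left_inv := fun v => by
            funext i
            refine Fin.cases ?_ (fun j => ?_) i
            · rfl
            · rfl
          right_inv := fun p => rfl } ?_
      intro v
      show e 0 * v 0 + ∑ i : Fin m, e (Fin.succ i) * v i.succ = ∑ i, e i * v i
      rw [Fin.sum_univ_succ]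
    rw [h1, gf_prod (fun a : ℕ => e 0 * a) (fun v : Fin m → ℕ => ∑ i, e (Fin.succ i) * v i)
      (fin_mul (e 0) (he 0)) (fin_sum (fun i => e (Fin.succ i)) fun i => he _), Fin.prod_univ_succ]
    have h2 := ih (fun i => e (Fin.succ i)) fun i => he _
    have h3 := gf_mul (e 0) (he 0)
    calc _ = (gf ℕ (fun a => e 0 * a) * (1 - PowerSeries.X ^ e 0)) *
        (gf (Fin m → ℕ) (fun v => ∑ i, e (Fin.succ i) * v i) *
          ∏ i : Fin m, (1 - PowerSeries.X ^ e (Fin.succ i))) := by ring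
      _ = 1 := by rw [h3, h2, one_mul]

theorem bn_an [Finite F] (hf : f.Monic) [IsDomain (AdjoinRoot f)] (e : Fin m → ℕ)
    (he : ∀ i, e i ≠ 0) :
    PowerSeries.mk (fun n => (bn f e n : ℤ)) * ∏ i, (1 - PowerSeries.X ^ e i) =
      PowerSeries.mk (fun n => (H13.TA.an f n : ℤ)) := by
  have h1 : PowerSeries.mk (fun n => (bn f e n : ℤ)) =
      gf {I : Ideal (AdjoinRoot f) // I ≠ ⊥} (fun I => H13.TA.ideg f I.1) *
        gf (Fin m → ℕ) (fun v => ∑ i, e i * v i) := by
    rw [← gf_prod]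
    · rfl
    · intro n
      have h := (H13.TA.fin_ideg hf n)
      have h2 : Finite {I : Ideal (AdjoinRoot f) // I ≠ ⊥ ∧ H13.TA.ideg f I ≤ n} := h.to_subtype
      refine Finite.of_injective
        (fun I : {I : {I : Ideal (AdjoinRoot f) // I ≠ ⊥} // H13.TA.ideg f I.1 = n} =>
          (⟨I.1.1, I.1.2, I.2.le⟩ : {I : Ideal (AdjoinRoot f) // I ≠ ⊥ ∧ H13.TA.ideg f I ≤ n})) ?_
      intro I J hIJ
      apply Subtype.ext
      apply Subtype.ext
      have h3 : (⟨I.1.1, I.1.2, I.2.le⟩ : {I : Ideal (AdjoinRoot f) // I ≠ ⊥ ∧ H13.TA.ideg f I ≤ n}) =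
        ⟨J.1.1, J.1.2, J.2.le⟩ := hIJ
      exact congrArg (fun t => t.1) h3
    · exact fin_sum e he
  have h2 : PowerSeries.mk (fun n => (H13.TA.an f n : ℤ)) =
      gf {I : Ideal (AdjoinRoot f) // I ≠ ⊥} (fun I => H13.TA.ideg f I.1) := by
    unfold gf
    congr 1
    funext n
    congr 1
    unfold H13.TA.an
    exact Nat.card_congr (Equiv.subtypeSubtypeEquivSubtypeInter
      (fun I : Ideal (AdjoinRoot f) => I ≠ ⊥) (fun I => H13.TA.ideg f I = n)).symm
  rw [h1, h2, mul_assoc, gf_vec e he, mul_one]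

theorem bn_zero [Finite F] (hf : f.Monic) [IsDomain (AdjoinRoot f)] (e : Fin m → ℕ)
    (he : ∀ i, e i ≠ 0) : bn f e 0 = 1 := by
  have h := congrArg (PowerSeries.coeff (R := ℤ) 0) (bn_an hf e he)
  rw [PowerSeries.coeff_zero_eq_constantCoeff_apply, PowerSeries.coeff_mk, map_mul, map_prod,
    ← PowerSeries.coeff_zero_eq_constantCoeff_apply, PowerSeries.coeff_mk] at h
  have h1 : ∏ i, (PowerSeries.constantCoeff (R := ℤ)) (1 - PowerSeries.X ^ e i) = 1 := by
    refine Finset.prod_eq_one fun i _ => ?_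
    rw [map_sub, map_one, map_pow, PowerSeries.constantCoeff_X, zero_pow (he i), sub_zero]
  rw [h1, mul_one] at h
  have h2 : H13.TA.an f 0 = 1 := by
    unfold H13.TA.an
    rw [Nat.card_eq_one_iff_exists]
    refine ⟨⟨⊤, top_ne_bot, (H13.TA.ideg_zero hf top_ne_bot).mpr rfl⟩, ?_⟩
    rintro ⟨I, hI, hI0⟩
    exact Subtype.ext ((H13.TA.ideg_zero hf hI).mp hI0)
  rw [h2] at h
  exact_mod_cast h

end H13.PC
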