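import Pool.Agent.H13.TA.FormB

/-!
# PC-FE: from the series to the number of points

`m ≥ 1`. Let `Φ = ∏_(i ≠ i₀) (1 - X ^ (e i)) · (1 + X + .. + X ^ (e i₀ - 1)) ∈ ℤ[X]`, so `(1 - X) Φ = ∏ (1 - X ^ (e i))`, and let `W = L Φ`.
As power series `W = (1 - q X) ∑ a n X ^ n` (cancel `1 - X` in `(1 - X) W = L ∏ (1 - X ^ (e i)) = (1 - X)(1 - q X) B ∏ (1 - X ^ (e i))`),
that is `W.coeff n = a n - [1 ≤ n] q a (n - 1)`, so `H13.TA.formB` with `m = 1` gives
`ν r = q ^ r - ∑ ρ ^ r`, `ρ` the roots of `W.reverse = L.reverse Φ.reverse` (`Polynomial.reverse_mul_of_domain`). `W(0) = 1`, `L(0) = 1`, so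
`L.reverse` is monic. The reverse of `1 - X ^ k` is `X ^ k - 1` up to sign, its roots are the `k`-th roots of unity, and the sum of their
`r`-th powers is `k` if `k ∣ r` and `0` otherwise; so the roots of `Φ.reverse` contribute
`∑ [e i ∣ r] e i - 1`.
`L.reverse` at `0` is the leading coefficient of `L ≠ 0`; at `1` it is `L(1)`; at a real `x ≥ q`: `L.reverse(x) = x ^ deg L(1/x) > 0`
(`Polynomial.eval₂_reverse_mul_pow`).
-/

set_option autoImplicit false

open Polynomial

noncomputable section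

namespace H13.PC

private def FbL (f g : PowerSeries ℂ) : Prop := PowerSeries.X * PowerSeries.derivative ℂ f = f * g

private lemma fb_mul {f g f' g' : PowerSeries ℂ} (h : FbL f g) (h' : FbL f' g') : FbL (f * f') (g + g') := by
  unfold FbL at *
  rw [Derivation.leibniz, smul_eq_mul, smul_eq_mul]
  linear_combination f' * h + f * h'

private lemma fb_coeff (f : PowerSeries ℂ) (n : ℕ) :
    PowerSeries.coeff n (PowerSeries.X * PowerSeries.derivative ℂ f) = n * PowerSeries.coeff n f := by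
  cases n with
  | zero => simp
  | succ n =>
    rw [PowerSeries.coeff_succ_X_mul, PowerSeries.coeff_derivative]
    push_cast
    ring

private lemma fb_base (c : ℂ) (k : ℕ) (hk : k ≠ 0) : FbL (1 - PowerSeries.C c * PowerSeries.X ^ k)
    (PowerSeries.mk fun r => if r ≠ 0 ∧ k ∣ r then -((k : ℂ) * c ^ (r / k)) else 0) := by
  unfold FbL
  ext n
  rw [fb_coeff, sub_mul, one_mul, map_sub, map_sub, mul_assoc, PowerSeries.coeff_C_mul, PowerSeries.coeff_C_mul,
    PowerSeries.coeff_X_pow_mul', PowerSeries.coeff_X_pow, PowerSeries.coeff_one, PowerSeries.coeff_mk]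
  rcases lt_trichotomy n k with h | h | h
  · rw [if_neg (by omega : ¬ k ≤ n), if_neg (by omega : ¬ n = k)]
    have h1 : ¬ (n ≠ 0 ∧ k ∣ n) := fun h2 => absurd (Nat.le_of_dvd (Nat.pos_of_ne_zero h2.1) h2.2) (by omega)
    rw [if_neg h1]
    rcases Nat.eq_zero_or_pos n with h0 | h0
    · subst h0
      simp
    · rw [if_neg (by omega : ¬ n = 0)]
      simp
  · subst h
    rw [if_neg hk, if_pos rfl, if_pos ⟨hk, dvd_rfl⟩, if_pos le_rfl, Nat.sub_self, PowerSeries.coeff_mk, if_neg (by simp),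
      Nat.div_self (Nat.pos_of_ne_zero hk)]
    ring
  · rw [if_neg (by omega : ¬ n = 0), if_neg (by omega : ¬ n = k), if_pos (by omega : k ≤ n), PowerSeries.coeff_mk]
    by_cases hd : k ∣ n
    · rw [if_pos ⟨by omega, hd⟩, if_pos ⟨by omega, (Nat.dvd_sub hd dvd_rfl)⟩]
      have h2 : n / k = (n - k) / k + 1 := by
        have := Nat.add_div_right (n - k) (Nat.pos_of_ne_zero hk)
        rw [Nat.sub_add_cancel h.le] at this
        exact this
      rw [h2, pow_succ]
      ring
    · rw [if_neg (fun h2 => hd h2.2), if_neg (fun h2 => hd ((Nat.dvd_sub_iff_left h.le dvd_rfl).1 h2.2))]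
      ring

private lemma fb_multi (R : Multiset ℂ) : FbL ((R.map fun ρ => 1 - PowerSeries.C ρ * PowerSeries.X).prod)
    (PowerSeries.mk fun r => if r ≠ 0 then -(R.map fun ρ => ρ ^ r).sum else 0) := by
  induction R using Multiset.induction_on with
  | empty =>
    unfold FbL
    ext n
    rw [fb_coeff]
    simp only [Multiset.map_zero, Multiset.prod_zero, Multiset.sum_zero, neg_zero, ite_self, one_mul,
      PowerSeries.coeff_mk, PowerSeries.coeff_one]
    rcases Nat.eq_zero_or_pos n with h0 | h0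
    · subst h0
      simp
    · rw [if_neg (by omega : ¬ n = 0), mul_zero]
  | cons ρ R ih =>
    have h1 := fb_base ρ 1 one_ne_zero
    rw [pow_one] at h1
    have h2 := fb_mul h1 ih
    rw [Multiset.map_cons, Multiset.prod_cons]
    have h3 : (PowerSeries.mk fun r => if r ≠ 0 then -((ρ ::ₘ R).map fun ρ => ρ ^ r).sum else 0 : PowerSeries ℂ) =
        (PowerSeries.mk fun r => if r ≠ 0 ∧ 1 ∣ r then -(((1 : ℕ) : ℂ) * ρ ^ (r / 1)) else 0) +
        (PowerSeries.mk fun r => if r ≠ 0 then -(R.map fun ρ => ρ ^ r).sum else 0) := by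
      ext n
      rw [map_add, PowerSeries.coeff_mk, PowerSeries.coeff_mk, PowerSeries.coeff_mk]
      rcases Nat.eq_zero_or_pos n with h0 | h0
      · subst h0
        simp
      · rw [if_pos (by omega : n ≠ 0), if_pos ⟨(by omega : n ≠ 0), one_dvd _⟩, if_pos (by omega : n ≠ 0)]
        rw [Multiset.map_cons, Multiset.sum_cons, Nat.div_one]
        push_cast
        ring
    rw [h3]
    exact h2

private lemma fb_rev (R : Multiset ℂ) :
    ((R.map fun ρ => (X - C ρ : ℂ[X])).prod).reverse = (R.map fun ρ => (1 - C ρ * X : ℂ[X])).prod := by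
  induction R using Multiset.induction_on with
  | empty =>
    rw [Multiset.map_zero, Multiset.prod_zero, Multiset.map_zero, Multiset.prod_zero]
    have := reverse_C (1 : ℂ)
    rw [C_1] at this
    exact this
  | cons ρ R ih =>
    rw [Multiset.map_cons, Multiset.prod_cons, Multiset.map_cons, Multiset.prod_cons, reverse_mul_of_domain, ih]
    congr 1
    have h1 : (X - C ρ : ℂ[X]) = X + C (-ρ) := by rw [C_neg, sub_eq_add_neg]
    rw [h1, reverse_add_C, natDegree_X, pow_one]
    have h2 : (X : ℂ[X]).reverse = 1 := by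
      have h3 := reverse_mul_X (1 : ℂ[X])
      rw [one_mul] at h3
      rw [h3]
      have := reverse_C (1 : ℂ)
      rw [C_1] at this
      exact this
    rw [h2, C_neg]
    ring

theorem formE (q m : ℕ) (hq : 2 ≤ q) (hm : m ≠ 0) (e : Fin m → ℕ) (he : ∀ i, e i ≠ 0)
    (a b ν : ℕ → ℕ) (ha0 : a 0 = 1) (hb0 : b 0 = 1)
    (hab : PowerSeries.mk (fun n => (b n : ℤ)) * ∏ i, (1 - PowerSeries.X ^ e i) =
      PowerSeries.mk (fun n => (a n : ℤ)))
    (hrec : ∀ n, n * a n = ∑ r ∈ Finset.Icc 1 n, ν r * a (n - r)) (c : ℕ) (L : ℤ[X])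
    (hL : (L : PowerSeries ℤ) = (1 - PowerSeries.X) * (1 - PowerSeries.C (q : ℤ) * PowerSeries.X) *
        PowerSeries.mk (fun n => (b n : ℤ)))
    (hL1 : L.eval 1 = c) (hpos : ∀ x : ℝ, 0 < x → q * x ≤ 1 → 0 < aeval x L) :
    L.reverse.Monic ∧ L.reverse.eval 0 ≠ 0 ∧ L.reverse.eval 1 = c ∧
      (∀ x : ℝ, (q : ℝ) ≤ x → aeval x L.reverse ≠ 0) ∧
      ∀ r : ℕ, r ≠ 0 → (ν r : ℂ) = (q : ℂ) ^ r + 1 - (∑ i, if e i ∣ r then (e i : ℂ) else 0) -
        ((L.reverse.aroots ℂ).map fun ρ => ρ ^ r).sum := by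
  set R := L.reverse.aroots ℂ with hR
  have hc0 : L.coeff 0 = 1 := by
    have h1 := congrArg (PowerSeries.coeff 0) hL
    rw [Polynomial.coeff_coe] at h1
    rw [h1]
    simp [hb0]
  have hLne : L ≠ 0 := by
    rintro rfl
    simp at hc0
  have htd : L.natTrailingDegree = 0 := by
    rw [natTrailingDegree_eq_zero]
    right
    rw [hc0]
    exact one_ne_zero
  have hmon : L.reverse.Monic := by
    rw [Monic, reverse_leadingCoeff, trailingCoeff, htd, hc0]
  have hrr : L.reverse.reverse = L := by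
    have h1 : L.reverse.natDegree = L.natDegree := by
      rw [reverse_natDegree, htd, Nat.sub_zero]
    rw [reverse, h1, reverse, reflect_reflect]
  have hinj : Function.Injective (algebraMap ℤ ℂ) := (algebraMap ℤ ℂ).injective_int
  have hmap : L.map (algebraMap ℤ ℂ) = (R.map fun ρ => (1 - C ρ * X : ℂ[X])).prod := by
    rw [← fb_rev]
    have h1 : L.reverse.map (algebraMap ℤ ℂ) = (R.map fun ρ => (X - C ρ : ℂ[X])).prod := by
      have := (IsAlgClosed.splits (L.reverse.map (algebraMap ℤ ℂ))).eq_prod_roots_of_monic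
        (hmon.map (algebraMap ℤ ℂ))
      exact this
    have h2 : ∀ p : ℤ[X], p.reverse.map (algebraMap ℤ ℂ) = (p.map (algebraMap ℤ ℂ)).reverse := by
      intro p
      unfold reverse
      rw [reflect_map, natDegree_map_eq_of_injective hinj]
    rw [← h1, ← h2, hrr]
  refine ⟨hmon, ?_, ?_, ?_, ?_⟩
  · rw [← coeff_zero_eq_eval_zero, coeff_zero_reverse]
    exact leadingCoeff_ne_zero.2 hLne
  · let i1 : Invertible (1 : ℤ) := invertibleOne
    have h1 := eval₂_reverse_mul_pow (RingHom.id ℤ) (1 : ℤ) L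
    rw [invOf_one, one_pow, mul_one] at h1
    rw [← hL1, eval, eval]
    exact h1
  · intro x hx
    have hq' : (2 : ℝ) ≤ q := by exact_mod_cast hq
    have hx0 : 0 < x := by linarith
    have hy0 : 0 < x⁻¹ := inv_pos.2 hx0
    have hy1 : (q : ℝ) * x⁻¹ ≤ 1 := by
      rw [← div_eq_mul_inv, div_le_one hx0]
      exact hx
    have h1 := hpos x⁻¹ hy0 hy1
    let i1 : Invertible (x⁻¹) := invertibleOfNonzero hy0.ne'
    have h2 := eval₂_reverse_mul_pow (algebraMap ℤ ℝ) x⁻¹ L
    rw [invOf_eq_inv, inv_inv] at h2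
    rw [aeval_def] at h1 ⊢
    intro h3
    rw [h3, zero_mul] at h2
    linarith
  intro r hr
  set Lp : PowerSeries ℂ := ((L.map (algebraMap ℤ ℂ) : ℂ[X]) : PowerSeries ℂ) with hLp
  have hLp2 : Lp = (R.map fun ρ => 1 - PowerSeries.C ρ * PowerSeries.X).prod := by
    rw [hLp, hmap]
    have h1 := map_multiset_prod (Polynomial.coeToPowerSeries.ringHom (R := ℂ))
      (R.map fun ρ => (1 - C ρ * X : ℂ[X]))
    rw [Multiset.map_map] at h1
    have h2 : ((R.map fun ρ => (1 - C ρ * X : ℂ[X])).prod : PowerSeries ℂ) =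
        Polynomial.coeToPowerSeries.ringHom (R := ℂ) (R.map fun ρ => (1 - C ρ * X : ℂ[X])).prod := rfl
    rw [h2, h1]
    congr 1
    refine Multiset.map_congr rfl fun ρ _ => ?_
    simp
  set A : PowerSeries ℂ := PowerSeries.mk fun n => (a n : ℂ) with hA
  set E : PowerSeries ℂ := ∏ i, (1 - PowerSeries.C 1 * PowerSeries.X ^ e i) with hE
  have hkey : Lp * E = (1 - PowerSeries.C 1 * PowerSeries.X ^ 1) *
      ((1 - PowerSeries.C (q : ℂ) * PowerSeries.X ^ 1) * A) := by
    have h1 : (L : PowerSeries ℤ) * ∏ i, (1 - PowerSeries.X ^ e i) =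
        (1 - PowerSeries.X) * ((1 - PowerSeries.C (q : ℤ) * PowerSeries.X) *
        PowerSeries.mk (fun n => (a n : ℤ))) := by
      rw [hL, ← hab]
      ring
    have h2 := congrArg (PowerSeries.map (algebraMap ℤ ℂ)) h1
    rw [map_mul, map_mul, map_mul, map_prod] at h2
    have h3 : PowerSeries.map (algebraMap ℤ ℂ) (L : PowerSeries ℤ) = Lp := by
      rw [hLp]
      ext n
      rw [PowerSeries.coeff_map, Polynomial.coeff_coe, Polynomial.coeff_coe, Polynomial.coeff_map]
    have h4 : PowerSeries.map (algebraMap ℤ ℂ) (PowerSeries.mk (fun n => (a n : ℤ))) = A := by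
      rw [hA]
      ext n
      rw [PowerSeries.coeff_map, PowerSeries.coeff_mk, PowerSeries.coeff_mk]
      simp
    rw [h3, h4] at h2
    rw [hE]
    simp only [map_sub, map_one, map_pow, map_mul, PowerSeries.map_X, PowerSeries.map_C, one_mul,
      pow_one] at h2 ⊢
    rw [h2]
    simp
  have hLA : FbL A (PowerSeries.mk fun n => if n ≠ 0 then (ν n : ℂ) else 0) := by
    unfold FbL
    ext n
    rw [fb_coeff, hA, PowerSeries.coeff_mk, mul_comm (PowerSeries.mk _), PowerSeries.coeff_mul]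
    have h1 : (n : ℂ) * (a n : ℂ) = ∑ r ∈ Finset.Icc 1 n, (ν r : ℂ) * (a (n - r) : ℂ) := by
      exact_mod_cast hrec n
    rw [h1]
    rw [Finset.Nat.sum_antidiagonal_eq_sum_range_succ_mk]
    simp only [PowerSeries.coeff_mk]
    rw [Finset.sum_range_succ']
    simp only [ne_eq, not_true_eq_false, if_false, zero_mul, add_zero]
    have h2 : Finset.Icc 1 n = Finset.Ico (0 + 1) (n + 1) := by
      ext i
      simp only [Finset.mem_Icc, Finset.mem_Ico]
      omega
    rw [h2, ← Finset.sum_Ico_add', ← Finset.range_eq_Ico]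
    refine Finset.sum_congr rfl fun i _ => ?_
    rw [if_pos (by omega : ¬ i + 1 = 0)]
  have hLE : ∀ s : Finset (Fin m), FbL (∏ i ∈ s, (1 - PowerSeries.C (1 : ℂ) * PowerSeries.X ^ e i))
      (∑ i ∈ s, PowerSeries.mk fun r => if r ≠ 0 ∧ e i ∣ r then -((e i : ℂ) * 1 ^ (r / e i)) else 0) := by
    intro s
    induction s using Finset.induction_on with
    | empty =>
      rw [Finset.prod_empty, Finset.sum_empty]
      unfold FbL
      rw [mul_zero]
      have h1 := fb_coeff 1
      ext n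
      rw [h1, PowerSeries.coeff_one, map_zero]
      split_ifs with h2
      · rw [h2]
        simp
      · rw [mul_zero]
    | insert i s hi ih =>
      rw [Finset.prod_insert hi, Finset.sum_insert hi]
      exact fb_mul (fb_base 1 (e i) (he i)) ih
  have hR1 := fb_mul (fb_base 1 1 one_ne_zero) (fb_mul (fb_base (q : ℂ) 1 one_ne_zero) hLA)
  rw [← hkey] at hR1
  have hL2 := fb_multi R
  rw [← hLp2] at hL2
  have hL3 := fb_mul hL2 (hLE Finset.univ)
  rw [← hE] at hL3
  have hne : Lp * E ≠ 0 := by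
    intro h0
    have h1 := congrArg (PowerSeries.constantCoeff) h0
    rw [map_mul, hE, map_prod, map_zero] at h1
    have h2 : PowerSeries.constantCoeff Lp = 1 := by
      rw [← PowerSeries.coeff_zero_eq_constantCoeff_apply, hLp, Polynomial.coeff_coe, coeff_map, hc0]
      simp
    rw [h2, one_mul] at h1
    have h3 : ∀ i : Fin m, PowerSeries.constantCoeff (1 - PowerSeries.C (1 : ℂ) * PowerSeries.X ^ e i) = 1 := by
      intro i
      simp [he i]
    rw [Finset.prod_congr rfl fun i _ => h3 i, Finset.prod_const_one] at h1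
    exact one_ne_zero h1
  have h3 := mul_left_cancel₀ hne (hR1.symm.trans hL3)
  have h4 := congrArg (PowerSeries.coeff r) h3
  rw [map_add, map_add, map_add, map_sum] at h4
  simp only [PowerSeries.coeff_mk, one_dvd, and_true, if_pos hr, Nat.div_one, Nat.cast_one, one_mul,
    one_pow, mul_one] at h4
  have h5 : ∑ x : Fin m, (if r ≠ 0 ∧ e x ∣ r then -(e x : ℂ) else 0) =
      - ∑ i, if e i ∣ r then (e i : ℂ) else 0 := by
    rw [← Finset.sum_neg_distrib]
    refine Finset.sum_congr rfl fun i _ => ?_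
    by_cases hd : e i ∣ r
    · rw [if_pos ⟨hr, hd⟩, if_pos hd]
    · rw [if_neg (fun h => hd h.2), if_neg hd, neg_zero]
  rw [h5] at h4
  linear_combination h4

end H13.PC
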