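import Pool.Agent.H13.PC.Cn
import Pool.Agent.H13.PC.Fc
import Pool.Agent.H13.PC.Fd
import Pool.Agent.H13.PC.Fe
import Pool.Agent.H13.TA.RecB
import Pool.Agent.H13.TA.PtB
import Pool.Agent.H13.TA.SmB

/-!
# PC-ZP: the zeta function of the complete curve
-/

set_option autoImplicit false

open Polynomial

noncomputable section

namespace H13.PC

variable {F : Type} [Field F] {m : ℕ} {f : F[X][X]} {e : Fin m → ℕ} {W : Fin m → AdjoinRoot f → ℤ}

theorem an_zero [Finite F] (hf : f.Monic) [IsDomain (AdjoinRoot f)] : H13.TA.an f 0 = 1 := by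
  unfold H13.TA.an
  rw [Nat.card_eq_one_iff_unique]
  refine ⟨⟨fun I J => ?_⟩, ⟨⟨⊤, top_ne_bot, ?_⟩⟩⟩
  · apply Subtype.ext
    rw [(H13.TA.ideg_zero hf I.2.1).1 I.2.2, (H13.TA.ideg_zero hf J.2.1).1 J.2.2]
  · exact (H13.TA.ideg_zero hf top_ne_bot).2 rfl

/-- the zeta function, if the number of classes of effective divisors of large degree is constant -/
theorem exP' [Finite F] [IsDedekindDomain (AdjoinRoot f)] (h : Pls f e W) (hr : Rie h) {g : ℤ}
    (hg : IsGen h g) (c : ℕ) (hc : c ≠ 0) (hcn : ∃ N0 : ℕ, ∀ N ≥ N0, cn e W N = c) :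
    ∃ P : ℤ[X], IsP f e P c ∧ aeval ((Nat.card F : ℝ)⁻¹) P.reverse = c * (Nat.card F : ℝ) ^ (-g) := by
  have hq : 2 ≤ Nat.card F := Finite.one_lt_card
  obtain ⟨N0, h0⟩ := hcn
  obtain ⟨N1, h1⟩ := bn_cn h hr hg
  obtain ⟨L, hL, hL1, hLq, hpos⟩ := formC (Nat.card F) c g hq hc (bn f e) (bn_zero h.monic e h.pos)
    ⟨max N0 N1, fun N hN => by
      rw [(h1 N ((le_max_right _ _).trans hN)).2, h0 N ((le_max_left _ _).trans hN)]⟩
  obtain ⟨a1, a2, a3, a4, a5⟩ := formE (Nat.card F) m hq h.ne e h.pos (H13.TA.an f) (bn f e)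
    (H13.TA.npt f) (an_zero h.monic) (bn_zero h.monic e h.pos) (bn_an h.monic e h.pos) (by
      intro n
      rw [H13.TA.recB h.monic n]
      refine Finset.sum_congr rfl fun r hr => ?_
      rw [H13.TA.pts h.monic (by have := (Finset.mem_Icc.1 hr).1; omega)]) c L hL hL1 hpos
  refine ⟨L.reverse, ⟨a1, a2, a3, hc, a4, a5⟩, ?_⟩
  have h3 : L.coeff 0 ≠ 0 := by
    have h4 := congrArg (PowerSeries.coeff 0) hL
    rw [Polynomial.coeff_coe] at h4
    rw [h4]
    simp [bn_zero h.monic e h.pos]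
  have h5 : L.reverse.natDegree = L.natDegree := by
    rw [Polynomial.reverse_natDegree, Polynomial.natTrailingDegree_eq_zero.2 (Or.inr h3), Nat.sub_zero]
  have h6 : L.reverse.reverse = L := by
    show Polynomial.reflect L.reverse.natDegree (Polynomial.reflect L.natDegree L) = L
    rw [h5, Polynomial.reflect_reflect]
  rw [h6]
  exact hLq

theorem exP [Finite F] [IsDedekindDomain (AdjoinRoot f)] (h : Pls f e W) (hr : Rie h)
    (h1 : ∃ i, e i = 1) : ∃ (P : ℤ[X]) (c : ℕ), IsP f e P c := by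
  obtain ⟨g, hg⟩ := gen_ex h hr
  obtain ⟨c, hc, hcn⟩ := cn_const h hr h1
  obtain ⟨P, hP, -⟩ := exP' h hr hg c hc hcn
  exact ⟨P, c, hP⟩

end H13.PC
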