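import Pool.Agent.H13.PC.Gq
import Pool.Agent.H13.PC.Fu
import Pool.Agent.H13.PC.Sc
import Pool.Agent.H13.PC.Zp
import Pool.Agent.H13.CB.Rt

/-!
# PC-EG: the zeta function of every curve with a separable leading form
-/

set_option autoImplicit false

open Polynomial

noncomputable section

namespace H13.PC

theorem exG {F : Type} [Field F] [Finite F] {a b M : ℕ} {τ : F[X]} {f : F[X][X]}
    (hf : Qh a b M τ f) (hs : Ideal.span {f, derivative f, H13.TA.dt f} = ⊤) (hτ : τ.Separable)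
    (h0 : τ.coeff 0 ≠ 0) {m : ℕ} {e : Fin m → ℕ} (he : Fct τ e) :
    ∃ (P : ℤ[X]) (c : ℕ), IsP f e P c ∧
      aeval ((Nat.card F : ℝ)⁻¹) P.reverse = c * (Nat.card F : ℝ) ^ (-gq a b M) := by
  obtain ⟨E, i1, i2, c, hI⟩ := fct_inf hτ h0 he
  rw [hf.tdeg] at hI
  obtain ⟨W, hP, hR, hG⟩ := exPls' hf hs hI
  have hdom := hP.dom
  have hded : IsDedekindDomain (AdjoinRoot f) := H13.TA.sm_ded hf.monic hs
  have hd := schmidt hP hR (fun d hd => by
    obtain ⟨F', k1, k2, k3, hF'⟩ := H13.CB.ext F d hd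
    have hf' := qh_map (algebraMap F F') hf
    have hτ' : (τ.map (algebraMap F F')).Separable := hτ.map
    have h0' : (τ.map (algebraMap F F')).coeff 0 ≠ 0 := by
      rw [coeff_map, Ne, map_eq_zero]
      exact h0
    obtain ⟨m', e', he'⟩ := fct_ex (hf.tmon.map (algebraMap F F')) hτ'
    obtain ⟨E', j1, j2, c', hI'⟩ := fct_inf hτ' h0' he'
    rw [hf'.tdeg] at hI'
    obtain ⟨W', hP', hR', -⟩ := exPls' hf' (H13.TA.bc_smooth hs) hI'
    have hdom' : IsDomain (AdjoinRoot (H13.TA.bc F' f)) := hP'.dom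
    refine ⟨F', k1, k2, k3, m', e', W', hP', hR', ?_, hF', ?_⟩
    · exact H13.TA.sm_ded hf'.monic (H13.TA.bc_smooth hs)
    · rw [← hF']
      exact fct_ext he hτ he')
  obtain ⟨k, hk, hcn⟩ := cn_gcd hP hR hG hd
  obtain ⟨P, hP1, hP2⟩ := exP' hP hR hG k hk ⟨(gq a b M).toNat, fun N hN => hcn N (by omega)⟩
  exact ⟨P, k, hP1, hP2⟩

end H13.PC
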