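import Pool.Agent.H13.PC.Prf

/-!
# PC-EQ: linear equivalence

`D = (I, n)`. `Eqv D D'`: `x, y ≠ 0`, `(x) I = (y) I'`, `n - W x = n' - W y`.

* `eqv_refl` (`x = y = 1`), `eqv_symm` are clear; `eqv_trans`: `(x) I = (y) I'`, `(x') I' = (y') I''` give
  `(x x') I = (y y') I''` (`Ideal.span_singleton_mul_span_singleton`), and `W (x x') = W x + W x'` (`h.mul`; `O` a domain).
* `edeg_eqv`: `ideg` of `(x) I = (y) I'` with `H13.TA.ideg_mul`: `ideg (x) + ideg I = ideg (y) + ideg I'`; with `prf`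
  `ideg (x) = ∑ e i W i x`, and `∑ e i (n i - W i x) = ∑ e i (n' i - W i y)`.
* `ed_fin`: `ideg I ≤ N` for finitely many `I ≠ ⊥` only (`H13.TA.fin_ideg`), and `n i ≤ N` as `e i ≥ 1` (`h.pos`).
-/

set_option autoImplicit false

open Polynomial

noncomputable section

namespace H13.PC

variable {F : Type} [Field F] {m : ℕ} {f : F[X][X]} {e : Fin m → ℕ} {W : Fin m → AdjoinRoot f → ℤ}

theorem eqv_refl (h : Pls f e W) (D : Ed f m) : Eqv W D D := by
  have hd := h.dom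
  exact ⟨1, 1, one_ne_zero, one_ne_zero, rfl, fun _ => rfl⟩

theorem eqv_symm (h : Pls f e W) {D D' : Ed f m} (h1 : Eqv W D D') : Eqv W D' D := by
  obtain ⟨x, y, hx, hy, h2, h3⟩ := h1
  exact ⟨y, x, hy, hx, h2.symm, fun i => (h3 i).symm⟩

theorem eqv_trans (h : Pls f e W) {D D' D'' : Ed f m} (h1 : Eqv W D D') (h2 : Eqv W D' D'') :
    Eqv W D D'' := by
  have hd := h.dom
  obtain ⟨x, y, hx, hy, h3, h4⟩ := h1
  obtain ⟨x', y', hx', hy', h5, h6⟩ := h2
  refine ⟨x * x', y * y', mul_ne_zero hx hx', mul_ne_zero hy hy', ?_, fun i => ?_⟩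
  · rw [← Ideal.span_singleton_mul_span_singleton, ← Ideal.span_singleton_mul_span_singleton]
    calc Ideal.span {x} * Ideal.span {x'} * D.1.1 = Ideal.span {x'} * (Ideal.span {x} * D.1.1) := by
          rw [mul_comm (Ideal.span {x}) (Ideal.span {x'}), mul_assoc]
      _ = Ideal.span {x'} * (Ideal.span {y} * D'.1.1) := by rw [h3]
      _ = Ideal.span {y} * (Ideal.span {x'} * D'.1.1) := by
          rw [← mul_assoc, mul_comm (Ideal.span {x'}) (Ideal.span {y}), mul_assoc]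
      _ = Ideal.span {y} * (Ideal.span {y'} * D''.1.1) := by rw [h5]
      _ = Ideal.span {y} * Ideal.span {y'} * D''.1.1 := by rw [mul_assoc]
  · rw [h.mul i x x' hx hx', h.mul i y y' hy hy']
    have h7 := h4 i
    have h8 := h6 i
    linarith

theorem edeg_eqv [IsDedekindDomain (AdjoinRoot f)] (h : Pls f e W) (hr : Rie h) {D D' : Ed f m}
    (h1 : Eqv W D D') : edeg e D = edeg e D' := by
  obtain ⟨x, y, hx, hy, h3, h4⟩ := h1
  have hx' : Ideal.span {x} ≠ ⊥ := by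
    rw [Ne, Ideal.span_singleton_eq_bot]
    exact hx
  have hy' : Ideal.span {y} ≠ ⊥ := by
    rw [Ne, Ideal.span_singleton_eq_bot]
    exact hy
  have h5 : H13.TA.ideg f (Ideal.span {x}) + H13.TA.ideg f D.1.1 =
      H13.TA.ideg f (Ideal.span {y}) + H13.TA.ideg f D'.1.1 := by
    rw [← H13.TA.ideg_mul h.monic hx' D.1.2, ← H13.TA.ideg_mul h.monic hy' D'.1.2, h3]
  have h6 := prf h hr hx
  have h7 := prf h hr hy
  unfold dw at h6 h7
  have h8 : ∑ i, (e i : ℤ) * (D.2 i : ℤ) - ∑ i, (e i : ℤ) * W i x =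
      ∑ i, (e i : ℤ) * (D'.2 i : ℤ) - ∑ i, (e i : ℤ) * W i y := by
    rw [← Finset.sum_sub_distrib, ← Finset.sum_sub_distrib]
    refine Finset.sum_congr rfl fun i _ => ?_
    rw [← mul_sub, ← mul_sub, h4 i]
  have h9 : ((edeg e D : ℕ) : ℤ) = ((edeg e D' : ℕ) : ℤ) := by
    unfold edeg
    push_cast
    have h5' : (H13.TA.ideg f (Ideal.span {x}) : ℤ) + (H13.TA.ideg f D.1.1 : ℤ) =
        (H13.TA.ideg f (Ideal.span {y}) : ℤ) + (H13.TA.ideg f D'.1.1 : ℤ) := by exact_mod_cast h5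
    linarith
  exact_mod_cast h9

theorem ed_fin [Finite F] (h : Pls f e W) (N : ℕ) : Finite {D : Ed f m // edeg e D = N} := by
  have hd := h.dom
  have h1 : Finite {I : Ideal (AdjoinRoot f) // I ≠ ⊥ ∧ H13.TA.ideg f I ≤ N} :=
    (H13.TA.fin_ideg h.monic N).to_subtype
  have hb : ∀ D : Ed f m, edeg e D = N → ∀ i, D.2 i ≤ N := by
    intro D hD i
    have h2 : e i * D.2 i ≤ ∑ j, e j * D.2 j :=
      Finset.single_le_sum (f := fun j => e j * D.2 j) (fun j _ => Nat.zero_le _) (Finset.mem_univ i)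
    have h3 : D.2 i ≤ e i * D.2 i := Nat.le_mul_of_pos_left _ (Nat.pos_of_ne_zero (h.pos i))
    unfold edeg at hD
    omega
  have hc : ∀ D : Ed f m, edeg e D = N → H13.TA.ideg f D.1.1 ≤ N := by
    intro D hD
    unfold edeg at hD
    omega
  let φ : {D : Ed f m // edeg e D = N} →
      {I : Ideal (AdjoinRoot f) // I ≠ ⊥ ∧ H13.TA.ideg f I ≤ N} × (Fin m → Fin (N + 1)) :=
    fun D => (⟨D.1.1.1, D.1.1.2, hc D.1 D.2⟩, fun i => ⟨D.1.2 i, Nat.lt_succ_of_le (hb D.1 D.2 i)⟩)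
  refine Finite.of_injective φ ?_
  intro D D' hDD
  have h4 := congrArg (fun z => (z.1.1 : Ideal (AdjoinRoot f))) hDD
  have h5 := congrArg Prod.snd hDD
  apply Subtype.ext
  refine Prod.ext (Subtype.ext h4) ?_
  funext i
  have h6 := congrArg Fin.val (congrFun h5 i)
  exact h6

end H13.PC
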