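import Pool.Agent.H13.PC.Zp
import Pool.Agent.H13.PC.Ri
import Pool.Agent.H13.PC.Qm

/-!
# PC-EX: the zeta function of a curve with rational points at infinity
-/

set_option autoImplicit false

open Polynomial

noncomputable section

namespace H13.PC

theorem exQ {F : Type} [Field F] [Finite F] {a b M : ℕ} {τ : F[X]} {f : F[X][X]} {m : ℕ}
    {e : Fin m → ℕ} {E : Fin m → Type} [∀ i, Field (E i)] [∀ i, Algebra F (E i)] {c : ∀ i, E i}
    (hf : Qh a b M τ f) (hs : Ideal.span {f, derivative f, H13.TA.dt f} = ⊤) (hI : Inf M τ e c)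
    (h1 : ∃ i, e i = 1) : ∃ (P : ℤ[X]) (h : ℕ), IsP f e P h := by
  obtain ⟨W, hP, hR⟩ := exPls hf hs hI
  have hdom := hP.dom
  have hded : IsDedekindDomain (AdjoinRoot f) := H13.TA.sm_ded hf.monic hs
  exact exP hP hR h1

theorem exF {F : Type} [Field F] {a b m : ℕ} (hm : m ≠ 0) (c : Fin m → F)
    (hc : Function.Injective c) (h0 : ∀ i, c i ≠ 0) {f : F[X][X]}
    (hf : Qh a b m (∏ i, (X - C (c i))) f) (hs : Ideal.span {f, derivative f, H13.TA.dt f} = ⊤)
    (F' : Type) [Field F'] [Finite F'] [Algebra F F'] :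
    ∃ (P : ℤ[X]) (h : ℕ), IsP (H13.TA.bc F' f) (fun _ : Fin m => 1) P h := by
  have h1 := qh_map (algebraMap F F') hf
  rw [Polynomial.map_prod] at h1
  simp only [Polynomial.map_sub, map_X, map_C] at h1
  have h2 := inf_rat (fun i => algebraMap F F' (c i)) ((algebraMap F F').injective.comp hc)
    (fun i => by rw [Ne, map_eq_zero]; exact h0 i)
  exact exQ h1 (H13.TA.bc_smooth hs) h2 ⟨⟨0, Nat.pos_of_ne_zero hm⟩, rfl⟩

theorem ext_one (d m : ℕ) : ∀ r : ℕ, r ≠ 0 →
    (∑ i : Fin m, if (1 : ℕ) ∣ d * r then (1 : ℕ) else 0) = ∑ i : Fin m, if (1 : ℕ) ∣ r then 1 else 0 := by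
  intro r _
  simp

end H13.PC
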