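import Pool.Agent.H3.FS.BSP

/-!
# PC-GD: the Galois closure

Let `K₀ = FractionRing k[X]`, `S` the splitting field of the image of `g` over `K₀`, `G = Gal(S/K₀)` (`S ≃ₐ[K₀] S`), `B = integralClosure k[X] S`.
`lau k : k[X] → k((z))` is injective (`lau_inj`), so it extends to `K₀ → k((z))`; over `k((z))` `g` is the product of the different
factors `X - η i`, so `g` is separable over `K₀`, `S/K₀` is Galois, and there is an embedding `ψ : S → k((z))` extending it
(`Polynomial.SplittingField.lift`/`IsAlgClosed`-free: `IsSplittingField.lift` with the algebra structure of `k((z))` over `K₀` given by the extension, `g` splits).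
`B` is a finitely generated (`IsIntegralClosure.isNoetherian`/`IsIntegralClosure.finite`: separable) torsion free module over the principal ideal
domain `k[X]`, so free, of rank `[S : K₀] = #G` (`IsIntegralClosure.rank`, `IsGalois.card_aut_eq_finrank`); choose a basis indexed by `G`.
`act`: the restriction of the automorphisms to `B` (`galRestrict k[X] K₀ S B`). `c.σ τ = ψ ∘ τ` on `B`: different for different `τ` (`S` is the field of
fractions of `B`), injective, `lau` on `k[X]`. `h` = a bound `≥ 1` for the pole orders of the finitely many `ψ (τ (b j))`.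
`conj`: `ψ ∘ τ' ∘ τ`. `x i`: the roots of `g` in `S` are in `B` (`g` is monic), numbered by `Fin N` (`ψ (x i) = η i`; each `η i` is the image of a root since `g`
splits in `S`). `perm`: `τ (x i)` is a root. `free`: `S` is generated by the roots. `trans`: `g` is irreducible in `k[X][X]` and monic, so
irreducible over `K₀` (`Polynomial.Monic.irreducible_iff_irreducible_map_fraction_map`), and the Galois group acts transitively on the roots of an irreducible
polynomial (`minpoly.eq_of_irreducible_of_monic`, `Normal` / `IsConjRoot`).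
-/

set_option autoImplicit false

open Polynomial
open Pool.Agent.H3.FS

namespace H13.PC

/-- the Galois closure of `g = 0` over `k[X]`, totally split at infinity -/
structure GD (k : Type) [Field k] (g : k[X][X]) (N : ℕ) where
  B : Type
  [cr : CommRing B]
  [alg : Algebra k[X] B]
  G : Type
  [grp : Group G]
  [fin : Fintype G]
  act : G →* (B ≃ₐ[k[X]] B)
  h : ℕ
  hh : 1 ≤ h
  c : Conj k B G h
  conj : ∀ τ i : G, ∃ j : G, (c.σ i).comp ((act τ : B →ₐ[k[X]] B) : B →+* B) = c.σ j
  int : Algebra.IsIntegral k[X] B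
  inj : Function.Injective (algebraMap k[X] B)
  x : Fin N → B
  root : g.map (algebraMap k[X] B) = ∏ i, (X - C (x i))
  xinj : Function.Injective x
  perm : ∀ (τ : G) (i : Fin N), ∃ j, act τ (x i) = x j
  free : ∀ τ : G, (∀ i, act τ (x i) = x i) → τ = 1
  trans : ∀ i j : Fin N, ∃ τ : G, act τ (x i) = x j

attribute [instance] GD.cr GD.alg GD.grp GD.fin

private theorem gd_psi {K L : Type} [Field K] [Field L] (ι : K →+* L) (f : K[X])
    (hf : (f.map ι).Splits) :
    ∃ ψ : f.SplittingField →+* L, ψ.comp (algebraMap K f.SplittingField) = ι := by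
  letI := ι.toAlgebra
  exact ⟨((SplittingField.lift f hf : f.SplittingField →ₐ[K] L) : f.SplittingField →+* L),
    RingHom.ext fun x => AlgHom.commutes _ x⟩

private theorem gd_main {k : Type} [Field k] (g : k[X][X]) (N : ℕ) (hg : g.Monic)
    (hirr : Irreducible g) (η : Fin N → LaurentSeries k) (hη : Function.Injective η)
    (hs : g.map (lau k) = ∏ i, (X - C (η i)))
    {K S B : Type} [Field K] [Field S] [CommRing B] [IsDomain B] [Algebra k[X] K]
    [IsFractionRing k[X] K] [Algebra K S] [Algebra k[X] S] [IsScalarTower k[X] K S]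
    [Algebra k[X] B] [Algebra B S] [IsScalarTower k[X] B S] [IsIntegralClosure B k[X] S]
    [FiniteDimensional K S] [IsGalois K S] [IsSplittingField K S (g.map (algebraMap k[X] K))]
    (ψ : S →+* LaurentSeries k) (hψ : ∀ f, ψ (algebraMap k[X] S f) = lau k f) :
    Nonempty (GD k g N) := by
  classical
  have hBS : Function.Injective (algebraMap B S) := IsIntegralClosure.algebraMap_injective B k[X] S
  have hkS : Function.Injective (algebraMap k[X] S) := by
    rw [IsScalarTower.algebraMap_eq k[X] K S]
    exact (algebraMap K S).injective.comp (IsFractionRing.injective k[X] K)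
  haveI htS : Module.IsTorsionFree k[X] S := by
    rw [Module.isTorsionFree_iff_algebraMap_injective]
    exact hkS
  haveI hfree : Module.Free k[X] B := IsIntegralClosure.module_free k[X] K S B
  haveI hfin : Module.Finite k[X] B := IsIntegralClosure.finite k[X] K S B
  have hrank : Module.finrank k[X] B = Module.finrank K S := IsIntegralClosure.rank k[X] K S B
  haveI : Fintype (S ≃ₐ[K] S) := Fintype.ofFinite _
  have hcard : Fintype.card (S ≃ₐ[K] S) = Fintype.card (Fin (Module.finrank k[X] B)) := by
    rw [Fintype.card_fin, hrank, ← IsGalois.card_aut_eq_finrank K S, Nat.card_eq_fintype_card]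
  obtain ⟨b⟩ : Nonempty (Module.Basis (S ≃ₐ[K] S) k[X] B) :=
    ⟨(Module.finBasis k[X] B).reindex (Fintype.equivOfCardEq hcard).symm⟩
  -- the conjugates
  obtain ⟨σ, hσ⟩ : ∃ σ : (S ≃ₐ[K] S) → B →+* LaurentSeries k, ∀ τ x, σ τ x = ψ (τ (algebraMap B S x)) :=
    ⟨fun τ => ψ.comp (((τ : S →ₐ[K] S) : S →+* S).comp (algebraMap B S)), fun _ _ => rfl⟩
  have hbase : ∀ τ f, σ τ (algebraMap k[X] B f) = lau k f := by
    intro τ f
    rw [hσ, ← IsScalarTower.algebraMap_apply k[X] B S, IsScalarTower.algebraMap_apply k[X] K S,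
      AlgEquiv.commutes, ← IsScalarTower.algebraMap_apply k[X] K S, hψ]
  have hfaith : ∀ τ, Function.Injective (σ τ) := by
    intro τ x y h
    rw [hσ, hσ] at h
    exact hBS (τ.injective (ψ.injective h))
  obtain ⟨act, hact⟩ : ∃ act : (S ≃ₐ[K] S) →* (B ≃ₐ[k[X]] B), ∀ τ x,
      algebraMap B S (act τ x) = τ (algebraMap B S x) :=
    ⟨(galRestrict k[X] K S B).toMonoidHom, fun τ x => algebraMap_galRestrict_apply k[X] τ x⟩
  have hainj : ∀ τ τ' : S ≃ₐ[K] S, (∀ x : B, τ (algebraMap B S x) = τ' (algebraMap B S x)) →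
      τ = τ' := by
    intro τ τ' h
    apply (galRestrict k[X] K S B).injective
    apply AlgEquiv.ext
    intro x
    apply hBS
    rw [algebraMap_galRestrict_apply, algebraMap_galRestrict_apply, h]
  have hinj : Function.Injective σ := by
    intro τ τ' h
    refine hainj τ τ' fun x => ψ.injective ?_
    rw [← hσ, ← hσ, h]
  obtain ⟨h, hh, hpole⟩ : ∃ h : ℕ, 1 ≤ h ∧ ∀ i j, -(h : ℤ) ≤ (σ i (b j)).order := by
    refine ⟨1 + ∑ i, ∑ j, (σ i (b j)).order.natAbs, by omega, fun i j => ?_⟩
    have h1 : (σ i (b j)).order.natAbs ≤ ∑ i, ∑ j, (σ i (b j)).order.natAbs :=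
      (Finset.single_le_sum (f := fun j => (σ i (b j)).order.natAbs) (fun _ _ => Nat.zero_le _)
        (Finset.mem_univ j)).trans
      (Finset.single_le_sum (f := fun i => ∑ j, (σ i (b j)).order.natAbs)
        (fun _ _ => Nat.zero_le _) (Finset.mem_univ i))
    omega
  -- the roots
  obtain ⟨gK, hgK⟩ : ∃ gK, gK = g.map (algebraMap k[X] K) := ⟨_, rfl⟩
  have hgS : gK.map (algebraMap K S) = g.map (algebraMap k[X] S) := by
    rw [hgK, Polynomial.map_map, ← IsScalarTower.algebraMap_eq k[X] K S]
  have hψl : ψ.comp (algebraMap k[X] S) = lau k := RingHom.ext hψ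
  have hsplit : (g.map (algebraMap k[X] S)).Splits := by
    rw [← hgS, hgK]
    exact IsSplittingField.splits S (g.map (algebraMap k[X] K))
  have hgSm : (g.map (algebraMap k[X] S)).Monic := hg.map _
  have hroots := hsplit.eq_prod_roots_of_monic hgSm
  have hex : ∀ i, ∃ x : B, σ 1 x = η i := by
    intro i
    have h1 : (g.map (lau k)).eval (η i) = 0 := by
      rw [hs, eval_prod]
      refine Finset.prod_eq_zero (Finset.mem_univ i) ?_
      rw [eval_sub, eval_X, eval_C, sub_self]
    rw [← hψl, ← Polynomial.map_map, hroots, Polynomial.map_multiset_prod, Multiset.map_map,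
      eval_multiset_prod, Multiset.map_map, Multiset.prod_eq_zero_iff, Multiset.mem_map] at h1
    obtain ⟨s, hs1, hs2⟩ := h1
    simp only [Function.comp_apply, Polynomial.map_sub, map_X, map_C, eval_sub, eval_X, eval_C] at hs2
    have hs3 : IsIntegral k[X] s := by
      refine ⟨g, hg, ?_⟩
      have h4 := (mem_roots hgSm.ne_zero).1 hs1
      rw [IsRoot, eval_map] at h4
      exact h4
    obtain ⟨x, hx⟩ := (IsIntegralClosure.isIntegral_iff (A := B)).1 hs3
    refine ⟨x, ?_⟩
    rw [hσ, hx, AlgEquiv.one_apply]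
    exact (sub_eq_zero.1 hs2).symm
  choose x hx using hex
  have hroot : g.map (algebraMap k[X] B) = ∏ i, (X - C (x i)) := by
    apply Polynomial.map_injective (σ 1) (hfaith 1)
    have h1 : (σ 1).comp (algebraMap k[X] B) = lau k := RingHom.ext (hbase 1)
    rw [Polynomial.map_map, h1, hs, Polynomial.map_prod]
    refine Finset.prod_congr rfl fun i _ => ?_
    rw [Polynomial.map_sub, map_X, map_C, hx]
  have hxinj : Function.Injective x := by
    intro i j hij
    apply hη
    rw [← hx, ← hx, hij]
  have haev : ∀ i, aeval (x i) g = 0 := by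
    intro i
    rw [aeval_def, ← eval_map, hroot, eval_prod]
    refine Finset.prod_eq_zero (Finset.mem_univ i) ?_
    rw [eval_sub, eval_X, eval_C, sub_self]
  have hzero : ∀ y : B, aeval y g = 0 → ∃ j, y = x j := by
    intro y hy
    rw [aeval_def, ← eval_map, hroot, eval_prod, Finset.prod_eq_zero_iff] at hy
    obtain ⟨j, -, hj⟩ := hy
    rw [eval_sub, eval_X, eval_C, sub_eq_zero] at hj
    exact ⟨j, hj⟩
  have hgKm : gK.Monic := by
    rw [hgK]
    exact hg.map _
  have haevS : ∀ i, aeval (algebraMap B S (x i)) gK = 0 := by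
    intro i
    have h1 : aeval (algebraMap B S (x i)) g = 0 := by
      rw [aeval_algebraMap_apply, haev, map_zero]
    rw [hgK, aeval_map_algebraMap]
    exact h1
  have hzeroS : ∀ s : S, aeval s gK = 0 → ∃ j, s = algebraMap B S (x j) := by
    intro s hs0
    have h1 : aeval s g = 0 := by
      rw [hgK, aeval_map_algebraMap] at hs0
      exact hs0
    obtain ⟨y, hy⟩ := (IsIntegralClosure.isIntegral_iff (A := B)).1
      (⟨g, hg, by rw [← aeval_def]; exact h1⟩ : IsIntegral k[X] s)
    have h2 : aeval y g = 0 := by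
      apply hBS
      rw [map_zero, ← aeval_algebraMap_apply, hy]
      exact h1
    obtain ⟨j, hj⟩ := hzero y h2
    exact ⟨j, by rw [← hj, hy]⟩
  have hKirr : Irreducible gK := by
    rw [hgK]
    exact (hg.irreducible_iff_irreducible_map_fraction_map).1 hirr
  refine ⟨{
    B := B
    G := S ≃ₐ[K] S
    act := act
    h := h
    hh := hh
    c := ⟨b, σ, hinj, hbase, hfaith, hpole⟩
    conj := ?_
    int := ?_
    inj := ?_
    x := x
    root := hroot
    xinj := hxinj
    perm := ?_
    free := ?_
    trans := ?_ }⟩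
  · intro τ i
    refine ⟨i * τ, RingHom.ext fun y => ?_⟩
    change σ i (act τ y) = σ (i * τ) y
    rw [hσ, hσ, hact, AlgEquiv.mul_apply]
  · exact IsIntegralClosure.isIntegral_algebra k[X] S
  · intro f f' hff
    apply lau_inj
    rw [← hbase 1, ← hbase 1, hff]
  · intro τ i
    apply hzero
    rw [aeval_algHom_apply (act τ) (x i) g, haev, map_zero]
  · intro τ hτ
    have hsf : IsSplittingField K S gK := by
      rw [hgK]
      assumption
    have h1 : (τ : S →ₐ[K] S) = ((1 : S ≃ₐ[K] S) : S →ₐ[K] S) := by
      refine AlgHom.ext_of_adjoin_eq_top (IsSplittingField.adjoin_rootSet S gK) ?_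
      intro s hs1
      obtain ⟨j, hj⟩ := hzeroS s (mem_rootSet.1 hs1).2
      change τ s = s
      rw [hj, ← hact, hτ]
    apply AlgEquiv.ext
    intro s
    exact DFunLike.congr_fun h1 s
  · intro i j
    have h1 : IsConjRoot K (algebraMap B S (x j)) (algebraMap B S (x i)) := by
      unfold IsConjRoot
      rw [← minpoly.eq_of_irreducible_of_monic hKirr (haevS j) hgKm,
        ← minpoly.eq_of_irreducible_of_monic hKirr (haevS i) hgKm]
    obtain ⟨τ, hτ⟩ := isConjRoot_iff_exists_algEquiv.1 h1
    refine ⟨τ, hBS ?_⟩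
    rw [hact, hτ]

theorem gd_ex {k : Type} [Field k] (g : k[X][X]) (N : ℕ) (hg : g.Monic) (hN : g.natDegree = N)
    (hirr : Irreducible g) (η : Fin N → LaurentSeries k) (hη : Function.Injective η)
    (hs : g.map (lau k) = ∏ i, (X - C (η i))) : Nonempty (GD k g N) := by
  obtain ⟨ι, hι⟩ : ∃ ι : FractionRing k[X] →+* LaurentSeries k, ∀ f,
      ι (algebraMap k[X] (FractionRing k[X]) f) = lau k f :=
    ⟨IsFractionRing.lift (g := lau k) lau_inj, fun f => IsFractionRing.lift_algebraMap _ f⟩
  have hι' : ι.comp (algebraMap k[X] (FractionRing k[X])) = lau k := RingHom.ext hι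
  obtain ⟨gK, hgK⟩ : ∃ gK, gK = g.map (algebraMap k[X] (FractionRing k[X])) := ⟨_, rfl⟩
  have h1 : gK.map ι = ∏ i, (X - C (η i)) := by
    rw [hgK, Polynomial.map_map, hι', hs]
  have hsp : (gK.map ι).Splits := by
    rw [h1]
    exact Splits.prod fun i _ => Splits.X_sub_C _
  have hsep : gK.Separable := by
    rw [← Polynomial.separable_map ι, h1]
    exact separable_prod_X_sub_C_iff.2 hη
  obtain ⟨ψ, hψ⟩ := gd_psi ι gK hsp
  subst hgK
  haveI : IsGalois (FractionRing k[X])
      (g.map (algebraMap k[X] (FractionRing k[X]))).SplittingField :=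
    IsGalois.of_separable_splitting_field hsep
  refine gd_main g N hg hirr η hη hs (K := FractionRing k[X])
    (S := (g.map (algebraMap k[X] (FractionRing k[X]))).SplittingField)
    (B := integralClosure k[X] (g.map (algebraMap k[X] (FractionRing k[X]))).SplittingField) ψ ?_
  intro f
  rw [IsScalarTower.algebraMap_apply k[X] (FractionRing k[X]), ← hι f, ← hψ]
  rfl

end H13.PC
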