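import Pool.Agent.H13.PC.Ri
import Pool.Agent.H13.PC.Qm

/-!
# PC-GQ: the genus and the expansions at a rational place

* `genq`: `n0 = a b M`; by `fin_n`, `cnt_n` and induction `ell ⊤ n = #{.. ≤ a b M} + (n - a b M) M` for `n ≥ a b M`; `∑ e i = M` (`hI.sum`).
* `tail`: the homomorphism `φ` induced on `O = AdjoinRoot f` by `evy y ∘ Phi` (`hy.zero`; `AdjoinRoot.lift` or `Ideal.Quotient.lift`);
  constants: `Phi (C (C c)) = C (C c)`, `evy_const`; `φ u ≠ 0`: `ev_ne`; order: `wy_mk`.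
-/

set_option autoImplicit false

open Polynomial

noncomputable section

namespace H13.PC

/-- the genus -/
def gq (a b M : ℕ) : ℤ :=
  (a * b * M * M : ℤ) + 1 - Nat.card {v : ℕ × ℕ // v.1 < a * M ∧ a * v.2 + b * v.1 ≤ a * b * M}

theorem genq {F : Type} [Field F] {a b p r M : ℕ} {τ : F[X]} {f : F[X][X]} {m : ℕ} {e : Fin m → ℕ}
    {E : Fin m → Type} [∀ i, Field (E i)] [∀ i, Algebra F (E i)] {c : ∀ i, E i}
    (h : a * r = b * p + 1) (hf : Qh a b M τ f) (hI : Inf M τ e c) (y : ∀ i, PowerSeries (E i))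
    (hy : ∀ i, IsY a b p r f (c i) (y i)) (hP : Pls f e (fun i => Wy a b p r (y i))) :
    IsGen hP (gq a b M) := by
  have hc : ∀ k : ℕ, Nat.card {v : ℕ × ℕ // v.1 < a * M ∧ a * v.2 + b * v.1 ≤ a * b * M + k} =
      Nat.card {v : ℕ × ℕ // v.1 < a * M ∧ a * v.2 + b * v.1 ≤ a * b * M} + k * M := by
    intro k
    induction k with
    | zero => rw [add_zero, zero_mul, add_zero]
    | succ k ih =>
      rw [← add_assoc, cnt_n hf.ha hf.hb hf.cop M (a * b * M + k) (Nat.le_add_right _ _), ih]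
      ring
  have hs : ∑ i, (e i : ℤ) = M := by
    rw [← hI.sum]
    push_cast
    rfl
  refine ⟨((a * b * M : ℕ) : ℤ), fun n hn => ?_⟩
  obtain ⟨k, rfl⟩ : ∃ k : ℕ, n = ((a * b * M + k : ℕ) : ℤ) := ⟨(n - ((a * b * M : ℕ) : ℤ)).toNat, by
    push_cast at hn ⊢
    omega⟩
  have h1 := (fin_n h hf hI y hy hP (a * b * M + k)).2
  rw [h1, hc k, hs]
  unfold gq
  push_cast
  ring

/-- the expansion at a rational place -/
def Tail {F : Type} [Field F] {f : F[X][X]} (w : AdjoinRoot f → ℤ)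
    (φ : AdjoinRoot f →+* LaurentSeries F) : Prop :=
  (∀ c : F, φ (algebraMap F (AdjoinRoot f) c) = HahnSeries.C c) ∧
    ∀ u : AdjoinRoot f, u ≠ 0 → φ u ≠ 0 ∧ (φ u).order = -w u

theorem tail {F : Type} [Field F] {a b p r M : ℕ} {τ : F[X]} {f : F[X][X]}
    (hf : Qh a b M τ f) [IsDomain (AdjoinRoot f)] {c : F} (hc : c ≠ 0) {y : PowerSeries F}
    (hy : IsY a b p r f c y) :
    ∃ φ : AdjoinRoot f →+* LaurentSeries F, Tail (Wy a b p r y) φ := by
  obtain ⟨ψ, hψ⟩ : ∃ ψ : F[X][X] →+* LaurentSeries F, ψ = (evy y).comp (Phi a b p r) :=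
    ⟨_, rfl⟩
  have hψg : ∀ g, ψ g = evy y (Phi a b p r g) := fun g => by rw [hψ]; rfl
  have hψf : ψ f = 0 := by rw [hψg]; exact hy.zero
  have hker : ∀ g ∈ Ideal.span {f}, ψ g = 0 := by
    intro g hg
    rw [Ideal.mem_span_singleton] at hg
    obtain ⟨k, rfl⟩ := hg
    rw [map_mul, hψf, zero_mul]
  obtain ⟨φ, hφ'⟩ : ∃ φ : AdjoinRoot f →+* LaurentSeries F,
      φ = Ideal.Quotient.lift (Ideal.span {f}) ψ hker := ⟨_, rfl⟩
  have hφ : ∀ g, φ (AdjoinRoot.mk f g) = evy y (Phi a b p r g) := fun g => by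
    rw [hφ', ← hψg]
    rfl
  refine ⟨φ, ?_, ?_⟩
  · intro d
    have h1 : algebraMap F (AdjoinRoot f) d = AdjoinRoot.mk f (C (C d)) := rfl
    have h2 : Phi a b p r (C (C d)) = (C (C d) : F[X][X]) := by simp [Phi]
    rw [h1, hφ, h2, evy_const]
    rfl
  · intro u hu
    obtain ⟨g, rfl⟩ := AdjoinRoot.mk_surjective u
    refine ⟨?_, ?_⟩
    · rw [hφ]
      exact fun h0 => hu ((ev_ne hf hy hc g).1 h0)
    · rw [hφ, wy_mk hy g, neg_neg]

variable {F : Type} [Field F] {a b M : ℕ} {τ : F[X]} {f : F[X][X]} {m : ℕ}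

theorem exPls' {e : Fin m → ℕ} {E : Fin m → Type} [∀ i, Field (E i)] [∀ i, Algebra F (E i)]
    {c : ∀ i, E i} (hf : Qh a b M τ f) (hs : Ideal.span {f, derivative f, H13.TA.dt f} = ⊤)
    (hI : Inf M τ e c) :
    ∃ (W : Fin m → AdjoinRoot f → ℤ) (hP : Pls f e W), Rie hP ∧ IsGen hP (gq a b M) := by
  obtain ⟨p, r, hpr⟩ := exr hf.ha hf.hb hf.cop
  have h1 : ∀ i, ∃ y : PowerSeries (E i), IsY a b p r f (c i) y := fun i =>
    hens hpr hf (c i) (hI.ne i) (hI.root i) (hI.der i)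
  choose y hy using h1
  exact ⟨_, pls hpr hf hs hI y hy, rie hpr hf hI y hy _, genq hpr hf hI y hy _⟩

theorem exT {c : Fin m → F} (hf : Qh a b m (∏ i, (X - C (c i))) f)
    (hs : Ideal.span {f, derivative f, H13.TA.dt f} = ⊤) (hc : Function.Injective c)
    (h0 : ∀ i, c i ≠ 0) :
    ∃ (W : Fin m → AdjoinRoot f → ℤ) (hP : Pls f (fun _ => 1) W), Rie hP ∧ IsGen hP (gq a b m) ∧
      ∀ i, ∃ φ : AdjoinRoot f →+* LaurentSeries F, Tail (W i) φ := by
  obtain ⟨p, r, hpr⟩ := exr hf.ha hf.hb hf.cop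
  have hI := inf_rat c hc h0
  have h1 : ∀ i, ∃ y : PowerSeries F, IsY a b p r f (c i) y := fun i =>
    hens hpr hf (c i) (hI.ne i) (hI.root i) (hI.der i)
  choose y hy using h1
  have hP := pls (E := fun _ => F) hpr hf hs hI y hy
  have hdom := hP.dom
  exact ⟨_, hP, rie (E := fun _ => F) hpr hf hI y hy hP, genq (E := fun _ => F) hpr hf hI y hy hP,
    fun i => tail hf (h0 i) (hy i)⟩

end H13.PC
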