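import Pool.Agent.H13.PC.Ps

/-!
# PC-HD: the identity for the products over all extensions

* `rev_prod`: `P` monic, `P = ∏ (X - ρ)` over `ℂ`, so `P.reverse = ∏ (1 - ρ X)` (compare the private lemmas `rev_prod`, `rev_aroots` in
  `Pool/Agent/H13/CZ/Asm.lean`); evaluate at `1 / x` (`x` real, `≠ 0`).
* `hid`: let `F'` be of degree `r`, `V'`, `c'` as in `hall`, `Q = q ^ r = |F'|`. `ps_prod` with `x = 1`: `∏ (1 - ρ ^ r) = ∏ (1 - ρ') = V'(1) = c'`;
  with `x = Q`: `∏ (1 - ρ ^ r / Q) = ∏ (1 - ρ' / Q) = V'.reverse(1 / Q) = c' Q ^ (-g)`.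
-/

set_option autoImplicit false

open Polynomial

noncomputable section

namespace H13.PC

variable {F : Type} [Field F] {f : F[X][X]} {m : ℕ} {e : Fin m → ℕ}

private theorem hd_rev (s : Multiset ℂ) : ((s.map fun ρ => X - C ρ).prod : ℂ[X]).reverse =
    (s.map fun ρ => 1 - C ρ * X).prod := by
  induction s using Multiset.induction_on with
  | empty => simp [Polynomial.reverse]
  | cons a s ih =>
    rw [Multiset.map_cons, Multiset.prod_cons, Multiset.map_cons, Multiset.prod_cons,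
      Polynomial.reverse_mul_of_domain, ih]
    congr 1
    simp [Polynomial.reverse]

private theorem hd_aroots {V : ℤ[X]} (hV : V.Monic) :
    V.reverse.map (Int.castRingHom ℂ) = ((V.aroots ℂ).map fun ρ => 1 - C ρ * X).prod := by
  have h1 : V.map (Int.castRingHom ℂ) = ((V.aroots ℂ).map fun ρ => X - C ρ).prod :=
    (IsAlgClosed.splits (V.map (Int.castRingHom ℂ))).eq_prod_roots_of_monic (hV.map _)
  rw [← hd_rev, ← h1]
  unfold Polynomial.reverse
  rw [Polynomial.reflect_map, Polynomial.natDegree_map_eq_of_injective (Int.castRingHom ℂ).injective_int]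

private theorem hd_one {V : ℤ[X]} (hV : V.Monic) :
    ((V.eval 1 : ℤ) : ℂ) = ((V.aroots ℂ).map fun ρ => 1 - ρ).prod := by
  have e1 : (V.map (algebraMap ℤ ℂ)).eval 1 = ((V.aroots ℂ).map fun ρ => 1 - ρ).prod :=
    (IsAlgClosed.splits (V.map (algebraMap ℤ ℂ))).eval_eq_prod_roots_of_monic (hV.map _) 1
  rw [← e1]
  have e2 : ((V.eval 1 : ℤ) : ℂ) = (V.map (Int.castRingHom ℂ)).eval ((1 : ℤ) : ℂ) := by
    rw [Polynomial.eval_intCast_map, eq_intCast, Int.cast_id]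
  rw [e2, Int.cast_one]
  rfl

theorem rev_prod {P : ℤ[X]} (hP : P.Monic) (x : ℝ) (hx : x ≠ 0) :
    ((aeval x⁻¹ P.reverse : ℝ) : ℂ) = ((P.aroots ℂ).map fun ρ => 1 - ρ / (x : ℂ)).prod := by
  have h1 : ((aeval x⁻¹ P.reverse : ℝ) : ℂ) =
      (P.reverse.map (Int.castRingHom ℂ)).eval ((x : ℂ)⁻¹) := by
    rw [Polynomial.eval_map]
    have h2 : ((aeval x⁻¹ P.reverse : ℝ) : ℂ) = aeval ((x : ℂ)⁻¹) P.reverse := by
      have h3 := (Polynomial.aeval_algebraMap_apply ℂ x⁻¹ P.reverse).symm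
      have h4 : algebraMap ℝ ℂ x⁻¹ = (x : ℂ)⁻¹ := by
        rw [Complex.coe_algebraMap, Complex.ofReal_inv]
      rw [h4] at h3
      exact h3
    rw [h2]
    rfl
  rw [h1, hd_aroots hP, Polynomial.eval_multiset_prod, Multiset.map_map]
  congr 1
  refine Multiset.map_congr rfl fun ρ _ => ?_
  rw [Function.comp_apply, eval_sub, eval_one, eval_mul, eval_C, eval_X, div_eq_mul_inv]

theorem hid [Finite F] {V : ℤ[X]} {c : ℕ} (hV : IsP f e V c) (g : ℕ)
    (hall : ∀ r : ℕ, r ≠ 0 → ∃ (F' : Type) (_ : Field F') (_ : Finite F') (_ : Algebra F F')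
      (m' : ℕ) (e' : Fin m' → ℕ) (V' : ℤ[X]) (c' : ℕ), Module.finrank F F' = r ∧
        Ext (Module.finrank F F') e e' ∧ IsP (H13.TA.bc F' f) e' V' c' ∧
        aeval ((Nat.card F' : ℝ)⁻¹) V'.reverse = c' * (Nat.card F' : ℝ) ^ (-(g : ℤ)))
    (r : ℕ) (hr : r ≠ 0) :
    ((V.aroots ℂ).map fun ρ => 1 - ρ ^ r / (Nat.card F : ℂ) ^ r).prod * (Nat.card F : ℂ) ^ (g * r) =
      ((V.aroots ℂ).map fun ρ => 1 - ρ ^ r).prod := by
  obtain ⟨F', i1, i2, i3, m', e', V', c', hfr, hext, hV', hrev⟩ := hall r hr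
  have hfin : Module.Finite F F' := Module.Finite.of_finite
  have hQ : Nat.card F' = Nat.card F ^ Module.finrank F F' := Module.natCard_eq_pow_finrank
  have hq0 : (Nat.card F : ℂ) ≠ 0 := by exact_mod_cast Nat.card_pos.ne'
  have hQ0 : (Nat.card F' : ℝ) ≠ 0 := by exact_mod_cast Nat.card_pos.ne'
  have hQC : (Nat.card F' : ℂ) = (Nat.card F : ℂ) ^ r := by
    rw [hQ, hfr, Nat.cast_pow]
  have h1 := ps_prod hext hV hV' 1 one_ne_zero
  simp only [div_one] at h1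
  have h2 := ps_prod hext hV hV' ((Nat.card F : ℂ) ^ r) (pow_ne_zero _ hq0)
  rw [hfr] at h1 h2
  have h3 := hd_one hV'.monic
  rw [hV'.one, h1] at h3
  have h4 := rev_prod hV'.monic (Nat.card F' : ℝ) hQ0
  have h5 : (((Nat.card F' : ℝ)) : ℂ) = (Nat.card F : ℂ) ^ r := by
    rw [Complex.ofReal_natCast, hQC]
  rw [hrev, h5, h2] at h4
  rw [← h4, ← h3]
  push_cast
  rw [hQC]
  rw [zpow_neg, zpow_natCast, ← pow_mul, mul_comm r g, mul_assoc,
    inv_mul_cancel₀ (pow_ne_zero _ hq0), mul_one]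

end H13.PC
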