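import Pool.Agent.H13.PC.Def

/-!
# PC: the places at infinity of a curve with a quasi-homogeneous leading form, definitions

* `Phi a b p r : F[t][x] → F[y][z]`, `t ↦ y ^ p z ^ a`, `x ↦ y ^ r z ^ b`; always with `a r = b p + 1` (so that monomials go to
  different monomials). The degree in `z` is the weight (`t` of weight `a`, `x` of weight `b`).
* `evy y : F[y][z] → E((s))`, `y ↦ y(s)`, `z ↦ s⁻¹`, for `y(s) ∈ E[[s]]`, `E` an extension of `F`.
* `IsY a b p r f c y`: `y(0) = c` and the point `t = y ^ p s ^ (-a)`, `x = y ^ r s ^ (-b)` is on `f = 0`.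
* `Wy a b p r y u`: the pole order of `u ∈ O = F[t][x]/(f)` at this place.
* `Inf M τ e c`: the `c i ∈ E i` are simple roots `≠ 0` of `τ`, `E i` has degree `e i` over `F`, a polynomial `G ≠ 0` with zeros in the
  `c i`, `i ∈ I`, has at least the degree `∑_(i ∈ I) e i`, and `∑ e i = M`.
-/

set_option autoImplicit false

open Polynomial

noncomputable section

namespace H13.PC

/-- `t ↦ y ^ p z ^ a`, `x ↦ y ^ r z ^ b` -/
def Phi {F : Type} [Field F] (a b p r : ℕ) : F[X][X] →+* F[X][X] :=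
  eval₂RingHom (eval₂RingHom ((C : F[X] →+* F[X][X]).comp (C : F →+* F[X])) (C (X ^ p) * X ^ a))
    (C (X ^ r) * X ^ b)

/-- `y ↦ y(s)`, `z ↦ s⁻¹` -/
def evy {F : Type} [Field F] {E : Type} [Field E] [Algebra F E] (y : PowerSeries E) :
    F[X][X] →+* LaurentSeries E :=
  eval₂RingHom ((HahnSeries.ofPowerSeries ℤ E).comp
    ((aeval y : F[X] →ₐ[F] PowerSeries E) : F[X] →+* PowerSeries E)) (HahnSeries.single (-1) 1)

/-- `y` is a point of `f = 0` over `E((s))` -/
structure IsY {F : Type} [Field F] {E : Type} [Field E] [Algebra F E] (a b p r : ℕ) (f : F[X][X])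
    (c : E) (y : PowerSeries E) : Prop where
  const : PowerSeries.constantCoeff y = c
  zero : evy y (Phi a b p r f) = 0

/-- the pole order -/
def Wy {F : Type} [Field F] {E : Type} [Field E] [Algebra F E] (a b p r : ℕ) {f : F[X][X]}
    (y : PowerSeries E) (u : AdjoinRoot f) : ℤ :=
  -(evy (F := F) y (Phi a b p r (Function.surjInv (AdjoinRoot.mk_surjective (g := f)) u))).order

/-- the points at infinity -/
structure Inf {F : Type} [Field F] (M : ℕ) (τ : F[X]) {m : ℕ} (e : Fin m → ℕ) {E : Fin m → Type}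
    [∀ i, Field (E i)] [∀ i, Algebra F (E i)] (c : ∀ i, E i) : Prop where
  root : ∀ i, aeval (c i) τ = 0
  der : ∀ i, aeval (c i) (derivative τ) ≠ 0
  ne : ∀ i, c i ≠ 0
  fin : ∀ i, Module.Finite F (E i)
  deg : ∀ i, Module.finrank F (E i) = e i
  sep : ∀ (I : Finset (Fin m)) (G : F[X]), G ≠ 0 → (∀ i ∈ I, aeval (c i) G = 0) →
    ∑ i ∈ I, e i ≤ G.natDegree
  sum : ∑ i, e i = M

end H13.PC
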