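import Pool.Agent.H13.KU.Fld

/-!
# PC-KA: a Galois extension of the rational numbers

`M` = the splitting field of `V` over `ℚ` (a number field), `Γ` = the finite set of the roots `γ ∈ 𝓞 M` of `V` with `γ ≠ 0` and
`γ ^ A = q ^ B → A = 0`. `H13.KU.fld` for `M`, `q`, `Γ`, `S`, `E`, `D` gives `r`, `N`, a number field `K` over `M` and `ζ`, `ρ`. With `R = r ∏ s ^ (N + E)` the
polynomial `T = V (X ^ R - 1)(X ^ r - q)` splits over `K` (`V` over `M`; powers of `ζ`; `ρ` times powers of `ζ ^ (R / r)`). `Ω` = splitting field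
of `T` over `ℚ`, Galois; embedding `ψ : Ω → K` (`Polynomial.SplittingField.lift`). All roots of `T` in `K` are images of roots in `Ω`, in particular `ζ = ψ ζ'`,
`ρ = ψ ρ'`. If `γ ∈ Ω` is a root of `V`, `γ ≠ 0`, independent of `q`, then `ψ γ` is the image of a root in `M`, which is in `Γ` (relations are preserved by
the injective maps), so it is no `r`-th power in `K`. The last property: apply `ψ`.
-/

set_option autoImplicit false

open Polynomial NumberField

namespace H13.PC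

private theorem spl0 (T : ℚ[X]) (Ω : Type) [Field Ω] [a : Algebra ℚ Ω] [FiniteDimensional ℚ Ω]
    [IsSplittingField ℚ Ω T] : ∃ (Ω : Type) (_ : Field Ω) (_ : NumberField Ω),
      IsGalois ℚ Ω ∧ IsSplittingField ℚ Ω T := by
  have hc : CharZero Ω := charZero_of_injective_algebraMap (algebraMap ℚ Ω).injective
  obtain rfl : a = DivisionRing.toRatAlgebra := Subsingleton.elim _ _
  have hn : NumberField Ω := { to_charZero := hc, to_finiteDimensional := inferInstance }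
  have hN : Normal ℚ Ω := Normal.of_isSplittingField T
  exact ⟨Ω, inferInstance, hn, ⟨⟩, inferInstance⟩

private theorem exspl (F : Type) [Field F] (T : F[X]) :
    ∃ (Ω : Type) (_ : Field Ω) (_ : Algebra F Ω), FiniteDimensional F Ω ∧ IsSplittingField F Ω T :=
  ⟨T.SplittingField, inferInstance, inferInstance, inferInstance, inferInstance⟩

private theorem spl (T : ℚ[X]) : ∃ (Ω : Type) (_ : Field Ω) (_ : NumberField Ω),
    IsGalois ℚ Ω ∧ IsSplittingField ℚ Ω T := by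
  obtain ⟨Ω, _, _, _, _⟩ := exspl ℚ T
  exact spl0 T Ω

private theorem map_q (V : ℤ[X]) (L : Type) [Field L] [CharZero L] :
    (V.map (Int.castRingHom ℚ)).map (algebraMap ℚ L) = V.map (Int.castRingHom L) := by
  rw [Polynomial.map_map]
  congr 1
  exact Subsingleton.elim _ _

private theorem map_T (V : ℤ[X]) (R r q : ℕ) (L : Type) [Field L] [CharZero L] :
    (V.map (Int.castRingHom ℚ) * (X ^ R - 1) * (X ^ r - C (q : ℚ))).map (algebraMap ℚ L) =
      V.map (Int.castRingHom L) * (X ^ R - 1) * (X ^ r - C (q : L)) := by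
  rw [Polynomial.map_mul, Polynomial.map_mul, map_q]
  simp

private theorem map_ne (V : ℤ[X]) (hV : V.Monic) (R r q : ℕ) (hR : 0 < R) (hr : 0 < r) (L : Type)
    [Field L] : V.map (Int.castRingHom L) * (X ^ R - 1) * (X ^ r - C (q : L)) ≠ 0 := by
  refine mul_ne_zero (mul_ne_zero (hV.map _).ne_zero ?_) (X_pow_sub_C_ne_zero hr _)
  have := X_pow_sub_C_ne_zero (R := L) hR 1
  rwa [C_1] at this

private theorem root_iff (V : ℤ[X]) (L : Type) [CommRing L] (x : L) :
    (V.map (Int.castRingHom L)).IsRoot x ↔ aeval x V = 0 := by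
  rw [IsRoot.def, eval_map, aeval_def, algebraMap_int_eq]

theorem fldG (V : ℤ[X]) (hV : V.Monic) (q : ℕ) (hq : 2 ≤ q) (S : Finset ℕ)
    (hS : ∀ s ∈ S, s.Prime) (E D : ℕ) :
    ∃ (r N : ℕ) (Ω : Type) (_ : Field Ω) (_ : NumberField Ω) (_ : IsGalois ℚ Ω) (ζ ρ : Ω),
      r.Prime ∧ D < r ∧ IsPrimitiveRoot ζ (r * ∏ s ∈ S, s ^ (N + E)) ∧ ρ ^ r = (q : Ω) ∧
      (V.map (Int.castRingHom Ω)).Splits ∧
      (∀ γ : Ω, aeval γ V = 0 → γ ≠ 0 → (∀ A B : ℕ, γ ^ A = (q : Ω) ^ B → A = 0) →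
        ∀ y : Ω, y ^ r ≠ γ) ∧
      ∀ s ∈ S, ∀ j : ℕ, j ≠ 0 → (∃ y : Ω, (q : Ω) ^ j = y ^ s ^ N) → D ≤ j := by
  classical
  obtain ⟨M, _, _, hMg, hMs⟩ := spl (V.map (Int.castRingHom ℚ))
  have hVM : (V.map (Int.castRingHom M)).Splits := by
    have h := IsSplittingField.splits M (V.map (Int.castRingHom ℚ))
    rwa [map_q] at h
  obtain ⟨Γ, hΓ⟩ : ∃ Γ : Finset (𝓞 M), ∀ γ, γ ∈ Γ ↔
      (aeval γ V = 0 ∧ γ ≠ 0 ∧ ∀ A B : ℕ, γ ^ A = (q : 𝓞 M) ^ B → A = 0) := by
    refine ⟨((V.map (Int.castRingHom (𝓞 M))).roots.toFinset).filter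
      (fun γ => γ ≠ 0 ∧ ∀ A B : ℕ, γ ^ A = (q : 𝓞 M) ^ B → A = 0), fun γ => ?_⟩
    rw [Finset.mem_filter, Multiset.mem_toFinset, mem_roots (hV.map _).ne_zero, root_iff]
  obtain ⟨r, N, K, _, _, _, ζ, ρ, hr, hDr, hζ, hρ, h1, h2⟩ :=
    H13.KU.fld M q hq Γ (fun γ hγ => ((hΓ γ).1 hγ).2) S hS E D
  obtain ⟨P, hP⟩ : ∃ P, P = ∏ s ∈ S, s ^ (N + E) := ⟨_, rfl⟩
  have hP0 : P ≠ 0 := by
    rw [hP, Finset.prod_ne_zero_iff]
    exact fun s hs => pow_ne_zero _ (hS s hs).ne_zero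
  obtain ⟨R, hR⟩ : ∃ R, R = r * P := ⟨_, rfl⟩
  have hRpos : 0 < R := by
    rw [hR]
    exact Nat.mul_pos hr.pos (Nat.pos_of_ne_zero hP0)
  rw [← hP, ← hR] at hζ
  obtain ⟨T, hT⟩ : ∃ T : ℚ[X], T = V.map (Int.castRingHom ℚ) * (X ^ R - 1) * (X ^ r - C (q : ℚ)) :=
    ⟨_, rfl⟩
  have hTK : (T.map (algebraMap ℚ K)).Splits := by
    rw [hT, map_T]
    refine Splits.mul (Splits.mul ?_ ?_) ?_
    · have h3 : V.map (Int.castRingHom K) = (V.map (Int.castRingHom M)).map (algebraMap M K) := by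
        rw [Polynomial.map_map]
        congr 1
        exact Subsingleton.elim _ _
      rw [h3]
      exact hVM.map _
    · exact X_pow_sub_one_splits hζ
    · have hζr : IsPrimitiveRoot (ζ ^ P) r := hζ.pow hRpos (by rw [hR, mul_comm])
      exact X_pow_sub_C_splits_of_isPrimitiveRoot hζr hρ
  obtain ⟨Ω, _, _, hΩg, hΩs⟩ := spl T
  obtain ⟨ψ, hψ⟩ : ∃ ψ : Ω →+* K, ψ = (IsSplittingField.lift Ω T hTK : Ω →ₐ[ℚ] K) := ⟨_, rfl⟩
  have hψi : Function.Injective ψ := ψ.injective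
  have hTΩ : (V.map (Int.castRingHom Ω) * (X ^ R - 1) * (X ^ r - C (q : Ω))).Splits := by
    have h := IsSplittingField.splits Ω T
    rwa [hT, map_T] at h
  have hne := map_ne V hV R r q hRpos hr.pos Ω
  have hVψ : (V.map (Int.castRingHom Ω)).map ψ = V.map (Int.castRingHom K) := by
    rw [Polynomial.map_map]
    congr 1
    exact Subsingleton.elim _ _
  have hTψ : (V.map (Int.castRingHom Ω) * (X ^ R - 1) * (X ^ r - C (q : Ω))).map ψ =
      V.map (Int.castRingHom K) * (X ^ R - 1) * (X ^ r - C (q : K)) := by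
    rw [Polynomial.map_mul, Polynomial.map_mul, hVψ]
    simp
  obtain ⟨ζ', hζ'⟩ : ∃ ζ' : Ω, ψ ζ' = ζ := by
    refine hTΩ.mem_range_of_isRoot hne ?_
    rw [hTψ, IsRoot.def, eval_mul, eval_mul]
    simp [hζ.pow_eq_one]
  obtain ⟨ρ', hρ'⟩ : ∃ ρ' : Ω, ψ ρ' = ρ := by
    refine hTΩ.mem_range_of_isRoot hne ?_
    rw [hTψ, IsRoot.def, eval_mul, eval_mul]
    simp [hρ]
  refine ⟨r, N, Ω, inferInstance, inferInstance, hΩg, ζ', ρ', hr, hDr, ?_, ?_, ?_, ?_, ?_⟩
  · rw [← hP, ← hR]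
    rw [← hζ'] at hζ
    exact hζ.of_map_of_injective hψi
  · apply hψi
    rw [map_pow, hρ', hρ, map_natCast]
  · refine hTΩ.of_dvd hne ?_
    rw [mul_assoc]
    exact dvd_mul_right _ _
  · intro γ hγ hγ0 hind y hy
    have hroot : aeval (ψ γ) V = 0 := by
      rw [← root_iff, ← hVψ, IsRoot.def, eval_map, eval₂_hom, (root_iff V Ω γ).2 hγ, map_zero]
    have h3 : V.map (Int.castRingHom K) = (V.map (Int.castRingHom M)).map (algebraMap M K) := by
      rw [Polynomial.map_map]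
      congr 1
      exact Subsingleton.elim _ _
    obtain ⟨m, hm⟩ : ∃ m : M, algebraMap M K m = ψ γ := by
      refine hVM.mem_range_of_isRoot (hV.map _).ne_zero ?_
      rw [← h3, root_iff]
      exact hroot
    have hmK : aeval m V = 0 := by
      rw [← root_iff, IsRoot.def]
      apply (algebraMap M K).injective
      rw [map_zero, ← eval₂_hom, ← eval_map, ← h3, hm]
      exact (root_iff V K _).2 hroot
    have hint : IsIntegral ℤ m := ⟨V, hV, by rw [← aeval_def]; exact hmK⟩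
    obtain ⟨m', hm'⟩ : ∃ m' : 𝓞 M, (m' : M) = m := ⟨⟨m, hint⟩, rfl⟩
    have hmem : m' ∈ Γ := by
      rw [hΓ]
      refine ⟨?_, ?_, ?_⟩
      · have hinj : Function.Injective (algebraMap (𝓞 M) M) := RingOfIntegers.coe_injective
        apply hinj
        rw [map_zero, ← aeval_algebraMap_apply]
        change aeval ((m' : 𝓞 M) : M) V = 0
        rw [hm', hmK]
      · rintro rfl
        apply hγ0
        apply hψi
        rw [map_zero, ← hm, ← hm']
        simp
      · intro A B hAB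
        apply hind A B
        apply hψi
        rw [map_pow, map_pow, map_natCast, ← hm, ← hm']
        have h4 : ((m' : M)) ^ A = (q : M) ^ B := by exact_mod_cast congrArg (algebraMap (𝓞 M) M) hAB
        rw [← map_pow, h4, map_pow, map_natCast]
    apply h1 m' hmem (ψ y)
    rw [← map_pow, hy, hm', hm]
  · rintro s hs j hj ⟨y, hy⟩
    refine h2 s hs j hj ⟨ψ y, ?_⟩
    rw [← map_pow, ← hy, map_pow, map_natCast]

end H13.PC
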