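import Mathlib

/-!
# PC-KB: an automorphism of 2-power order

Choose `u ∈ ℕ` with `u ≡ 1` modulo `r n` and `u ≡ -1` modulo `e` (Chinese remainder theorem), prime to `r n e`. The cyclotomic polynomial is
irreducible over `ℚ`, so there is an automorphism of `ℚ(ζ)` with `ζ ↦ ζ ^ u` (`IsPrimitiveRoot.autToPow`, `IsCyclotomicExtension.autEquivPow`, or: `ζ ^ u` is a
root of the minimal polynomial of `ζ`, `IsPrimitiveRoot.minpoly_eq_pow_coprime`), which extends to `Ω` (normal; or directly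
`exists_algHom_of_splits..`/`IsConjRoot`: `ζ` and `ζ ^ u` have the same minimal polynomial over `ℚ`, so some `σ₀ : Ω ≃ₐ[ℚ] Ω` has `σ₀ ζ = ζ ^ u`). Let
`orderOf σ₀ = 2 ^ κ t`, `t` odd, `σ = σ₀ ^ t`, of order `2 ^ κ`. `σ₀ (ζ ^ e) = ζ ^ (e u) = ζ ^ e`, so `σ (ζ ^ e) = ζ ^ e`;
`σ₀ (ζ ^ (r n)) = ζ ^ (r n u) = (ζ ^ (r n))⁻¹`, and `t` is odd. `σ ρ = ξ ρ` with `ξ ^ r = 1` (`ρ ≠ 0`, `σ q = q`); `ξ` is a power of the primitive
`r`-th root of unity `ζ ^ (n e)`, a power of `ζ ^ e`, so `σ ξ = ξ` and `σ ^ j ρ = ξ ^ j ρ`. With `j = 2 ^ κ`: `ξ ^ (2 ^ κ) = 1`, and `ξ ^ r = 1` with `r` odd, so `ξ = 1`.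
-/

set_option autoImplicit false

open Polynomial NumberField

namespace H13.PC

theorem sgm {Ω : Type} [Field Ω] [NumberField Ω] [IsGalois ℚ Ω] (r n e q : ℕ) (hr : r.Prime)
    (hr2 : r ≠ 2) (hq : q ≠ 0) (hn : n ≠ 0) (he : Odd e) (hc : (r * n).Coprime e) (ζ ρ : Ω)
    (hζ : IsPrimitiveRoot ζ (r * n * e)) (hρ : ρ ^ r = (q : Ω)) :
    ∃ (σ : Ω ≃ₐ[ℚ] Ω) (κ : ℕ), orderOf σ = 2 ^ κ ∧ σ (ζ ^ e) = ζ ^ e ∧ σ ρ = ρ ∧
      σ (ζ ^ (r * n)) = (ζ ^ (r * n))⁻¹ := by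
  classical
  have he0 : 0 < e := he.pos
  have hr0 : 0 < r := hr.pos
  have hn0 : 0 < n := Nat.pos_of_ne_zero hn
  have hN : 0 < r * n * e := Nat.mul_pos (Nat.mul_pos hr0 hn0) he0
  obtain ⟨u, hu1, hu2⟩ := Nat.chineseRemainder hc 1 (e - 1)
  have hu1' : u.Coprime (r * n) := by
    have h := hu1.gcd_eq
    rw [Nat.gcd_one_left] at h
    exact h
  have hu2' : (u + 1) ≡ 0 [MOD e] := by
    have h := hu2.add_right 1
    rw [Nat.sub_add_cancel he0] at h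
    exact h.trans (by simp [Nat.ModEq])
  have hdvd : e ∣ u + 1 := (Nat.modEq_zero_iff_dvd).1 hu2'
  have hu3 : u.Coprime e := by
    have h := hu2.gcd_eq
    unfold Nat.Coprime
    rw [h]
    have h2 : (e - 1).Coprime (e - 1 + 1) := by simp
    rw [Nat.sub_add_cancel he0] at h2
    exact h2
  have huc : u.Coprime (r * n * e) := Nat.Coprime.mul_right hu1' hu3
  have hζu : IsPrimitiveRoot (ζ ^ u) (r * n * e) := hζ.pow_of_coprime u huc
  have hmin : minpoly ℚ ζ = minpoly ℚ (ζ ^ u) := by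
    rw [← Polynomial.cyclotomic_eq_minpoly_rat hζ hN, ← Polynomial.cyclotomic_eq_minpoly_rat hζu hN]
  have hconj : IsConjRoot ℚ (ζ ^ u) ζ := hmin.symm
  obtain ⟨σ₀, hσ₀⟩ := isConjRoot_iff_exists_algEquiv.1 hconj
  have hσζ : σ₀ ζ = ζ ^ u := hσ₀
  have hord : orderOf σ₀ ≠ 0 := (orderOf_pos σ₀).ne'
  obtain ⟨κ, t, ht, hκ⟩ := Nat.exists_eq_two_pow_mul_odd hord
  have hA : σ₀ (ζ ^ e) = ζ ^ e := by
    rw [map_pow, hσζ, ← pow_mul]
    have h1 : u * e ≡ 1 * e [MOD (r * n * e)] := hu1.mul_right' e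
    rw [one_mul] at h1
    rw [pow_eq_pow_mod (u * e) hζ.pow_eq_one, h1]
    exact (pow_eq_pow_mod e hζ.pow_eq_one).symm
  have hB : σ₀ (ζ ^ (r * n)) = (ζ ^ (r * n))⁻¹ := by
    rw [map_pow, hσζ]
    apply eq_inv_of_mul_eq_one_left
    rw [← pow_mul, ← pow_add]
    have h1 : u * (r * n) + r * n = (r * n) * (u + 1) := by ring
    rw [h1]
    obtain ⟨c, hc'⟩ := hdvd
    rw [hc', ← mul_assoc, pow_mul, hζ.pow_eq_one, one_pow]
  have hAt : ∀ k : ℕ, (σ₀ ^ k) (ζ ^ e) = ζ ^ e := by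
    intro k
    induction k with
    | zero => simp
    | succ k ih => rw [pow_succ, AlgEquiv.mul_apply, hA, ih]
  have hBt : ∀ k : ℕ, (σ₀ ^ (2 * k)) (ζ ^ (r * n)) = ζ ^ (r * n) := by
    intro k
    induction k with
    | zero => simp
    | succ k ih =>
      rw [Nat.mul_succ, pow_add, AlgEquiv.mul_apply, pow_two, AlgEquiv.mul_apply, hB, map_inv₀, hB,
        inv_inv, ih]
  refine ⟨σ₀ ^ t, κ, ?_, hAt t, ?_, ?_⟩
  · rw [orderOf_pow_of_dvd (by rintro rfl; simp at ht) ⟨2 ^ κ, by rw [hκ, mul_comm]⟩, hκ]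
    exact Nat.mul_div_cancel _ ht.pos
  · set σ := σ₀ ^ t with hσ
    have hρ0 : ρ ≠ 0 := by
      rintro rfl
      rw [zero_pow hr0.ne'] at hρ
      exact hq (by exact_mod_cast hρ.symm)
    have hξr : (σ ρ / ρ) ^ r = 1 := by
      rw [div_pow, ← map_pow, hρ, map_natCast]
      exact div_self (by exact_mod_cast hq)
    have hprim : IsPrimitiveRoot (ζ ^ (e * n)) r := by
      apply hζ.pow hN
      ring
    have : NeZero r := ⟨hr0.ne'⟩
    obtain ⟨i, -, hi⟩ := hprim.eq_pow_of_pow_eq_one hξr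
    have hσξ : σ (σ ρ / ρ) = σ ρ / ρ := by
      rw [← hi, map_pow, pow_mul, map_pow, hAt t]
    set ξ := σ ρ / ρ with hξ
    have hσρ : σ ρ = ξ * ρ := by rw [hξ, div_mul_cancel₀ _ hρ0]
    have hpow : ∀ j : ℕ, (σ ^ j) ρ = ξ ^ j * ρ := by
      intro j
      induction j with
      | zero => simp
      | succ j ih =>
        rw [pow_succ', AlgEquiv.mul_apply, ih, map_mul, map_pow, hσξ, hσρ, pow_succ, mul_assoc]
    have hordσ : orderOf σ = 2 ^ κ := by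
      rw [hσ, orderOf_pow_of_dvd (by rintro rfl; simp at ht) ⟨2 ^ κ, by rw [hκ, mul_comm]⟩, hκ]
      exact Nat.mul_div_cancel _ ht.pos
    have h2 : ξ ^ (2 ^ κ) = 1 := by
      have h3 := hpow (2 ^ κ)
      rw [← hordσ, pow_orderOf_eq_one, AlgEquiv.one_apply] at h3
      rw [← hordσ]
      have h4 : ξ ^ orderOf σ * ρ = 1 * ρ := by rw [one_mul]; exact h3.symm
      exact mul_right_cancel₀ hρ0 h4
    have h5 : ξ ^ (Nat.gcd (2 ^ κ) r) = 1 := pow_gcd_eq_one.2 ⟨h2, hξr⟩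
    have h6 : Nat.gcd (2 ^ κ) r = 1 := by
      apply Nat.Coprime.pow_left
      exact (Nat.coprime_primes Nat.prime_two hr).2 (Ne.symm hr2)
    rw [h6, pow_one] at h5
    rw [hσρ, h5, one_mul]
  · obtain ⟨k, rfl⟩ := ht
    rw [pow_succ, AlgEquiv.mul_apply, hB, map_inv₀, hBt k]

end H13.PC
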