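import Pool.Agent.H13.KU.Gd
import Pool.Agent.H13.KU.Lsmd
import Pool.Agent.H13.TA.EPz

/-!
# PC-KC: a quarter of the primes are good

* `gd2`: `L = log (1 / (s - 1)) ≥ 0`. By `H13.TA.inert_pz` the set `I` of the `v` of prime norm with the last property has `PZ I s ≥ L / 2 - C`. Bad sets (as in
  `Pool/Agent/H13/KU/Gd.lean`): with `c = card ι`, `Bad i` = the `v` with `nm v` prime, `m i ∣ nm v - 1`, `α i ^ ((nm v - 1) / m i) - 1 ∈ v`; by `H13.KU.kmd` for `m i`,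
  the root `ζ ^ (n / m i)` and `d = 4 c + 1`: `(4 c + 1) PZ (Bad i) s ≤ L + C_i`. `A₁` = the `v` with `nm v ≤ B` or `n ∈ v` or `v ∈ T`: finite, `H63.MA.pz_finite`. If
  `v ∈ I`, `v ∉ A₁` then `n ∣ nm v - 1` as in `KU/Gd.lean`. So `L / 2 - C ≤ PZ I ≤ PZ A₁ + PZ Good + ∑ PZ (Bad i)` and `c / (4 c + 1) ≤ 1 / 4`.
* `lsmc`: the proof of `H13.KU.lsmd` in `Pool/Agent/H13/KU/Lsmd.lean` with `c₀` instead of `1 / 2`.
-/

set_option autoImplicit false

open Polynomial NumberField IsDedekindDomain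
open H63.MA (Pl nm PZ Over)

namespace H13.PC

private theorem gd_union {K : Type} [Field K] [NumberField K] (S S' : Set (Pl K)) {s : ℝ}
    (hs : 1 < s) : PZ (S ∪ S') s ≤ PZ S s + PZ S' s := by
  have h1 := H63.MA.pz_add S S' hs
  have h2 := H63.MA.pz_nonneg (S ∩ S') s
  linarith

private theorem gd_biUnion {K : Type} [Field K] [NumberField K] {ι : Type} (t : Finset ι)
    (S : ι → Set (Pl K)) {s : ℝ} (hs : 1 < s) : PZ (⋃ i ∈ t, S i) s ≤ ∑ i ∈ t, PZ (S i) s := by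
  classical
  induction t using Finset.induction_on with
  | empty =>
    rw [Finset.sum_empty]
    have h1 : (⋃ i ∈ (∅ : Finset ι), S i) = (∅ : Set (Pl K)) := by simp
    rw [h1]
    unfold PZ
    simp
  | insert i t hi ih =>
    rw [Finset.sum_insert hi, Finset.set_biUnion_insert]
    exact (gd_union _ _ hs).trans (add_le_add le_rfl ih)

private theorem gd_finite (K : Type) [Field K] [NumberField K] (B : ℕ) :
    {v : Pl K | nm v ≤ B}.Finite := by
  have hinj : Function.Injective fun v : Pl K => v.asIdeal := fun v w h => HeightOneSpectrum.ext h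
  exact (Ideal.finite_setOfPred_absNorm_le (S := 𝓞 K) B).preimage hinj.injOn

private theorem gd_dvd {K : Type} [Field K] [NumberField K] {n : ℕ} (hn : n ≠ 0) {ζ : K}
    (hζ : IsPrimitiveRoot ζ n) (v : Pl K) (hl : (nm v).Prime) (hv : n < nm v) :
    n ∣ nm v - 1 := by
  classical
  haveI : NeZero n := ⟨hn⟩
  haveI hmax : v.asIdeal.IsMaximal := v.isMaximal
  letI : Field (𝓞 K ⧸ v.asIdeal) := Ideal.Quotient.field v.asIdeal
  have hcard : Nat.card (𝓞 K ⧸ v.asIdeal) = nm v := by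
    unfold nm
    rw [Ideal.absNorm_apply, Submodule.cardQuot_apply]
  haveI : Finite (𝓞 K ⧸ v.asIdeal) := Nat.finite_of_card_ne_zero (by rw [hcard]; exact hl.ne_zero)
  letI : Fintype (𝓞 K ⧸ v.asIdeal) := Fintype.ofFinite _
  have hcard' : Fintype.card (𝓞 K ⧸ v.asIdeal) = nm v := by
    rw [← hcard, Nat.card_eq_fintype_card]
  have h1 : (Ideal.absNorm v.asIdeal).Coprime n := by
    refine (Nat.Prime.coprime_iff_not_dvd hl).2 fun h2 => ?_
    have h3 := Nat.le_of_dvd (Nat.pos_of_ne_zero hn) h2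
    exact absurd hv (not_lt.2 h3)
  have h2 : IsPrimitiveRoot (Ideal.Quotient.mk v.asIdeal hζ.toInteger) n :=
    IsPrimitiveRoot.idealQuotient_mk hζ.toInteger_isPrimitiveRoot hl.ne_one h1
  have h3 := FiniteField.pow_card_sub_one_eq_one (Ideal.Quotient.mk v.asIdeal hζ.toInteger)
    (h2.ne_zero hn)
  rw [hcard'] at h3
  exact h2.dvd_of_pow_eq_one _ h3

theorem gd2 {K K2 : Type} [Field K] [NumberField K] [Field K2] [NumberField K2] [Algebra K K2]
    (h2 : Module.finrank K K2 = 2) (c : K2 ≃ₐ[K] K2) (hc : c ≠ 1) (n : ℕ) (hn : n ≠ 0) (ζ : K)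
    (hζ : IsPrimitiveRoot ζ n) {ι : Type} [Fintype ι] (m : ι → ℕ) (α : ι → 𝓞 K)
    (hm : ∀ i, m i ∣ n) (hα : ∀ i, α i ≠ 0)
    (hd : ∀ i, ∀ j : ℕ, j ≠ 0 → (∃ y : K, (α i : K) ^ j = y ^ m i) → 4 * Fintype.card ι + 1 ≤ j)
    (T : Set (Pl K)) (hT : T.Finite) (B : ℕ) :
    ∃ C : ℝ, ∀ s : ℝ, 1 < s → s ≤ 2 → 1 / 4 * Real.log (1 / (s - 1)) - C ≤
      PZ {v : Pl K | v ∉ T ∧ (nm v).Prime ∧ B < nm v ∧ n ∣ nm v - 1 ∧
        (∀ i, α i ^ ((nm v - 1) / m i) - 1 ∉ v.asIdeal) ∧ ∃ w : Pl K2, Over w v ∧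
          ∀ x : 𝓞 K2, ∃ z ∈ w.asIdeal, (z : K2) = c (x : K2) - (x : K2) ^ nm v} s := by
  classical
  obtain ⟨k, hk⟩ : ∃ k : ℕ, k = Fintype.card ι := ⟨_, rfl⟩
  rw [← hk] at hd
  have hm0 : ∀ i, m i ≠ 0 := fun i h0 => by
    have h1 := hm i
    rw [h0, zero_dvd_iff] at h1
    exact hn h1
  have hkm : ∀ i, ∃ C : ℝ, ∀ s : ℝ, 1 < s → s ≤ 2 → ((4 * k + 1 : ℕ) : ℝ) *
      PZ {v : Pl K | (nm v).Prime ∧ m i ∣ nm v - 1 ∧
        α i ^ ((nm v - 1) / m i) - 1 ∈ v.asIdeal} s ≤ Real.log (1 / (s - 1)) + C := by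
    intro i
    have h1 : IsPrimitiveRoot (ζ ^ (n / m i)) (m i) :=
      hζ.pow (Nat.pos_of_ne_zero hn) (Nat.div_mul_cancel (hm i)).symm
    exact H13.KU.kmd (m i) (hm0 i) _ h1 (α i) (hα i) (4 * k + 1) fun j hj hy => hd i j hj hy
  choose Ci hCi using hkm
  obtain ⟨C₁, hC₁⟩ := H63.MA.pz_finite ((gd_finite K (max B n)).union hT)
  obtain ⟨C₂, hC₂⟩ := H13.TA.inert_pz h2 c hc
  refine ⟨C₁ + C₂ + (∑ i, Ci i) / (4 * k + 1), fun s hs hs2 => ?_⟩
  obtain ⟨I, hI⟩ : ∃ I : Set (Pl K), I = {v : Pl K | (nm v).Prime ∧ ∃ w : Pl K2, Over w v ∧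
        ∀ x : 𝓞 K2, ∃ z ∈ w.asIdeal, (z : K2) = c (x : K2) - (x : K2) ^ nm v} := ⟨_, rfl⟩
  obtain ⟨Good, hGood⟩ : ∃ Good : Set (Pl K), Good = {v : Pl K | v ∉ T ∧ (nm v).Prime ∧
        B < nm v ∧ n ∣ nm v - 1 ∧
        (∀ i, α i ^ ((nm v - 1) / m i) - 1 ∉ v.asIdeal) ∧ ∃ w : Pl K2, Over w v ∧
          ∀ x : 𝓞 K2, ∃ z ∈ w.asIdeal, (z : K2) = c (x : K2) - (x : K2) ^ nm v} := ⟨_, rfl⟩
  obtain ⟨Bad, hBad⟩ : ∃ Bad : ι → Set (Pl K), Bad = fun i => {v : Pl K | (nm v).Prime ∧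
        m i ∣ nm v - 1 ∧ α i ^ ((nm v - 1) / m i) - 1 ∈ v.asIdeal} := ⟨_, rfl⟩
  obtain ⟨A₁, hA₁⟩ : ∃ A₁ : Set (Pl K), A₁ = {v : Pl K | nm v ≤ max B n} ∪ T := ⟨_, rfl⟩
  have hcov : I ⊆ A₁ ∪ (Good ∪ ⋃ i ∈ (Finset.univ : Finset ι), Bad i) := by
    intro v hv
    rw [hI] at hv
    obtain ⟨h0, hw⟩ := hv
    by_cases h1 : v ∈ A₁
    · exact Or.inl h1
    · rw [hA₁] at h1
      have h1a : v ∉ T := fun h => h1 (Or.inr h)
      have h2 : max B n < nm v := not_le.1 fun h => h1 (Or.inl h)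
      have h3 : B < nm v := lt_of_le_of_lt (le_max_left _ _) h2
      have h4 : n < nm v := lt_of_le_of_lt (le_max_right _ _) h2
      have h5 := gd_dvd hn hζ v h0 h4
      by_cases h6 : ∀ i, α i ^ ((nm v - 1) / m i) - 1 ∉ v.asIdeal
      · refine Or.inr (Or.inl ?_)
        rw [hGood]
        exact ⟨h1a, h0, h3, h5, h6, hw⟩
      · push Not at h6
        obtain ⟨i, hi⟩ := h6
        refine Or.inr (Or.inr ?_)
        simp only [Set.mem_iUnion]
        refine ⟨i, Finset.mem_univ i, ?_⟩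
        rw [hBad]
        exact ⟨h0, (hm i).trans h5, hi⟩
  have h1 : PZ I s ≤ PZ A₁ s + (PZ Good s + ∑ i, PZ (Bad i) s) := by
    refine (H63.MA.pz_mono hcov hs).trans ((gd_union _ _ hs).trans ?_)
    refine add_le_add le_rfl ((gd_union _ _ hs).trans ?_)
    exact add_le_add le_rfl (gd_biUnion _ _ hs)
  have h2' := hC₂ s hs hs2
  have h4 := hC₁ s hs
  rw [← hI] at h2'
  rw [← hA₁] at h4
  rw [← hGood]
  obtain ⟨L, hL⟩ : ∃ L : ℝ, L = Real.log (1 / (s - 1)) := ⟨_, rfl⟩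
  rw [← hL] at h2' ⊢
  have hL0 : 0 ≤ L := by
    rw [hL]
    refine Real.log_nonneg ?_
    rw [le_div_iff₀ (by linarith)]
    linarith
  have hc0 : (0 : ℝ) < 4 * k + 1 := by positivity
  have h5 : ∑ i, PZ (Bad i) s ≤ (k * L + ∑ i, Ci i) / (4 * k + 1) := by
    rw [le_div_iff₀ hc0]
    have h6 : ∑ i, ((4 * (k : ℝ) + 1) * PZ (Bad i) s) ≤ ∑ i, (L + Ci i) := by
      refine Finset.sum_le_sum fun i _ => ?_
      have h7 := hCi i s hs hs2
      push_cast at h7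
      rw [hL, hBad]
      exact h7
    rw [← Finset.mul_sum, Finset.sum_add_distrib, Finset.sum_const, Finset.card_univ,
      nsmul_eq_mul, ← hk] at h6
    linarith
  have h6 : (k * L + ∑ i, Ci i) / (4 * k + 1) ≤ L / 4 + (∑ i, Ci i) / (4 * k + 1) := by
    rw [add_div]
    refine add_le_add ?_ le_rfl
    rw [div_le_iff₀ hc0]
    nlinarith
  linarith

theorem lsmc {K : Type} [Field K] [NumberField K] (S : Set (Pl K)) (P : ℕ → Prop)
    (hS : ∀ v ∈ S, (nm v).Prime ∧ P (nm v)) (c₀ C : ℝ) (hc₀ : 0 < c₀)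
    (hC : ∀ s : ℝ, 1 < s → s ≤ 2 → c₀ * Real.log (1 / (s - 1)) - C ≤ PZ S s) :
    H13.KU.PosDens P := by
  classical
  set Q : ℕ → Prop := fun l => l.Prime ∧ P l with hQ
  have hgood : ∀ v ∈ S, Q (nm v) := hS
  set n : ℕ := Module.finrank ℤ (𝓞 K) with hn
  have hn0 : 0 < n := by
    rw [hn]
    exact Module.finrank_pos
  have hn0' : (0 : ℝ) < n := by exact_mod_cast hn0
  have hup : ∀ s : ℝ, 1 < s → PZ S s ≤ n * ∑' l : {l : ℕ // Q l}, ((l : ℕ) : ℝ) ^ (-s) := by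
    intro s hs1
    have hs : Summable fun l : {l : ℕ // Q l} => ((l : ℕ) : ℝ) ^ (-s) := by
      have h1 : Summable fun n : ℕ => (n : ℝ) ^ (-s) := Real.summable_nat_rpow.2 (by linarith)
      exact h1.comp_injective Subtype.val_injective
    have hfs : ∀ T : Finset ℕ, (∀ l ∈ T, Q l) → ∑ l ∈ T, ((l : ℕ) : ℝ) ^ (-s) ≤
        ∑' l : {l : ℕ // Q l}, ((l : ℕ) : ℝ) ^ (-s) := by
      intro T hT
      have h1 := hs.sum_le_tsum (T.subtype Q) (fun l _ => Real.rpow_nonneg (Nat.cast_nonneg _) _)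
      rw [Finset.sum_subtype_of_mem (f := fun l : ℕ => ((l : ℕ) : ℝ) ^ (-s)) hT] at h1
      exact h1
    unfold PZ
    refine Real.tsum_le_of_sum_le (fun v => Set.indicator_nonneg (fun v _ =>
      Real.rpow_nonneg (Nat.cast_nonneg _) _) v) ?_
    intro F
    set F' := F.filter (· ∈ S) with hF'
    have e1 : ∑ v ∈ F, S.indicator (fun v => (nm v : ℝ) ^ (-s)) v =
        ∑ v ∈ F', (nm v : ℝ) ^ (-s) := by
      rw [hF', Finset.sum_filter]
      apply Finset.sum_congr rfl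
      intro v _
      rw [Set.indicator_apply]
    rw [e1]
    have hmem : ∀ v ∈ F', Q (nm v) := fun v hv => hgood v (Finset.mem_filter.mp hv).2
    calc ∑ v ∈ F', (nm v : ℝ) ^ (-s)
        = ∑ l ∈ F'.image nm, ∑ v ∈ F' with nm v = l, (nm v : ℝ) ^ (-s) := by
          rw [Finset.sum_fiberwise_of_maps_to (fun v hv => Finset.mem_image_of_mem _ hv)]
      _ ≤ ∑ l ∈ F'.image nm, n * ((l : ℕ) : ℝ) ^ (-s) := by
          apply Finset.sum_le_sum
          intro l hl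
          rw [Finset.mem_image] at hl
          obtain ⟨v0, hv0, hv0l⟩ := hl
          have hlp : l.Prime := by rw [← hv0l]; exact (hmem v0 hv0).1
          have e2 : ∑ v ∈ F' with nm v = l, (nm v : ℝ) ^ (-s) =
              ∑ v ∈ F' with nm v = l, ((l : ℕ) : ℝ) ^ (-s) := by
            apply Finset.sum_congr rfl
            intro v hv
            rw [(Finset.mem_filter.mp hv).2]
          rw [e2, Finset.sum_const, nsmul_eq_mul]
          apply mul_le_mul_of_nonneg_right _ (Real.rpow_nonneg (Nat.cast_nonneg _) _)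
          have := H63.MA.pzb_card_above hlp (F'.filter (fun v => nm v = l)) (by
            intro v hv
            have h1 := (Finset.mem_filter.mp hv).2
            change (l : 𝓞 K) ∈ v.asIdeal
            rw [← h1]
            exact Ideal.absNorm_mem v.asIdeal)
          exact_mod_cast this
      _ = n * ∑ l ∈ F'.image nm, ((l : ℕ) : ℝ) ^ (-s) := by rw [Finset.mul_sum]
      _ ≤ n * ∑' l : {l : ℕ // Q l}, ((l : ℕ) : ℝ) ^ (-s) := by
          apply mul_le_mul_of_nonneg_left _ (Nat.cast_nonneg n)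
          apply hfs
          intro l hl
          rw [Finset.mem_image] at hl
          obtain ⟨v, hv, rfl⟩ := hl
          exact hmem v hv
  refine ⟨c₀ / n, C / n, by positivity, fun s hs hs2 => ?_⟩
  have h1 := (hC s hs hs2).trans (hup s hs)
  have h2 : (c₀ / (n : ℝ) * Real.log (1 / (s - 1)) - C / n) * n =
      c₀ * Real.log (1 / (s - 1)) - C := by
    field_simp
  have h3 : (c₀ / (n : ℝ) * Real.log (1 / (s - 1)) - C / n) * n ≤
      (∑' l : {l : ℕ // Q l}, ((l : ℕ) : ℝ) ^ (-s)) * n := by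
    rw [h2]
    linarith
  exact le_of_mul_le_mul_right h3 hn0'

end H13.PC
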