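import Pool.Agent.H13.TA.EPz

/-!
# PC-KD: Frobenius elements which generate a cyclic group of 2-power order

`K` = the fixed field of the group generated by `σ`, `K2` = the fixed field of the group generated by `σ ^ 2`, as intermediate fields of
`Ω/ℚ` or `K2` as an intermediate field of `Ω/K`; `Ω/K` is Galois with group `⟨σ⟩`, cyclic of order `2 ^ κ`, `[K2 : K] = 2` (`κ ≥ 1`), `c` = restriction of
`σ` to `K2` (`K2/K` is normal), `c ≠ 1`. (All are number fields.) Choose `θ ∈ 𝓞 K2` with `c θ ≠ θ`; `T` = the primes of `K` below the finitely many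
primes of `K2` containing `θ - c θ`.

Let `v ∉ T`, `nm v = l` prime, `w` over `v` with `c x ≡ x ^ l` modulo `w`. Let `W` be a prime of `Ω` over `v`. There is an arithmetic Frobenius element at
`W` in `Gal(Ω/K) = ⟨σ⟩`, that is `σ ^ j` with `(σ ^ j) x ≡ x ^ l` modulo `W` for all `x ∈ 𝓞 Ω` (`IsArithFrobAt`; see `Pool/Agent/H13/TA/EInv.lean`,
`Pool/Agent/H13/KU/Kmd.lean`, `H63.MA.gfrob_ex`). Suppose `j` is even. Then `σ ^ j` is the identity on `K2`, so `x ≡ x ^ l` modulo `w' = W ∩ 𝓞 K2` for all `x ∈ 𝓞 K2`. `w'` and `w` are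
over `v`, so `w' = w` or `w' = c w`; applying `c` to the congruences one sees that `c x ≡ x ^ l` also modulo `c w`. So `c x ≡ x` modulo `w'` for all `x`, in particular
`θ - c θ ∈ w'`: against `v ∉ T`. So `j` is odd (take `j` as a natural number: `σ` has finite order).
-/

set_option autoImplicit false

open Polynomial NumberField IsDedekindDomain
open H63.MA (Pl nm PZ Over)

namespace H13.PC

private theorem kd_sub {M : Type} [Field M] [NumberField M] (a b : 𝓞 M) (n : ℕ) :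
    ((a - b ^ n : 𝓞 M) : M) = (a : M) - (b : M) ^ n := by
  change algebraMap (𝓞 M) M (a - b ^ n) = _
  rw [map_sub, map_pow]

private theorem kd_pow {K Ω : Type} [Field K] [Field Ω] [Algebra K Ω] (τ : Ω ≃ₐ[K] Ω) {x : Ω}
    (h : τ x = x) (j : ℕ) : (τ ^ j) x = x := by
  induction j with
  | zero => rfl
  | succ j ih =>
    rw [pow_succ, AlgEquiv.mul_apply, h]
    exact ih

private theorem kd_over {K K2 Ω : Type} [Field K] [NumberField K] [Field K2] [NumberField K2] [Field Ω]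
    [NumberField Ω] [Algebra K K2] [Algebra K2 Ω] [Algebra K Ω] [IsScalarTower K K2 Ω]
    {W : Pl Ω} {w : Pl K2} {v : Pl K} (h1 : Over W w) (h2 : Over w v) : Over W v := by
  have h3 : algebraMap (𝓞 K) (𝓞 Ω) = (algebraMap (𝓞 K2) (𝓞 Ω)).comp (algebraMap (𝓞 K) (𝓞 K2)) := by
    refine RingHom.ext fun x => RingOfIntegers.ext ?_
    change algebraMap K Ω (x : K) = algebraMap K2 Ω (algebraMap K K2 (x : K))
    exact IsScalarTower.algebraMap_apply K K2 Ω (x : K)
  unfold Over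
  rw [h3, ← Ideal.comap_comap, show W.asIdeal.comap (algebraMap (𝓞 K2) (𝓞 Ω)) = w.asIdeal from h1]
  exact h2

private theorem kd_main {K Ω : Type} [Field K] [NumberField K] [Field Ω] [NumberField Ω] [Algebra K Ω]
    [IsGalois K Ω] (τ : Ω ≃ₐ[K] Ω) (hgen : ∀ g : Ω ≃ₐ[K] Ω, ∃ j : ℕ, τ ^ j = g) (κ : ℕ) (hκ : κ ≠ 0)
    (hτ : orderOf τ = 2 ^ κ) :
    ∃ (K2 : Type) (_ : Field K2) (_ : NumberField K2) (_ : Algebra K K2) (c : K2 ≃ₐ[K] K2),
      Module.finrank K K2 = 2 ∧ c ≠ 1 ∧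
      ∃ T : Set (Pl K), T.Finite ∧ ∀ v ∉ T, (nm v).Prime →
        (∃ w : Pl K2, Over w v ∧ ∀ x : 𝓞 K2, ∃ z ∈ w.asIdeal,
          (z : K2) = c (x : K2) - (x : K2) ^ nm v) →
        ∃ (W : Pl Ω) (j : ℕ), Odd j ∧ Over W v ∧ ∀ x : 𝓞 Ω, ∃ z ∈ W.asIdeal,
          (z : Ω) = (τ ^ j) (x : Ω) - (x : Ω) ^ nm v := by
  classical
  have hfd : FiniteDimensional K Ω := Module.Finite.of_restrictScalars_finite ℚ K Ω
  have hcomm : ∀ a b : Ω ≃ₐ[K] Ω, a * b = b * a := by
    intro a b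
    obtain ⟨i, rfl⟩ := hgen a
    obtain ⟨j, rfl⟩ := hgen b
    rw [← pow_add, ← pow_add, add_comm]
  obtain ⟨H, hH⟩ : ∃ H : Subgroup (Ω ≃ₐ[K] Ω), H = Subgroup.zpowers (τ ^ 2) := ⟨_, rfl⟩
  have hN : H.Normal := ⟨fun n hn g => by rw [hcomm g n, mul_inv_cancel_right]; exact hn⟩
  have hgal : IsGalois K (IntermediateField.fixedField H) := inferInstance
  have hnf : NumberField (IntermediateField.fixedField H) := NumberField.of_module_finite K _
  have hcH : Nat.card H = 2 ^ (κ - 1) := by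
    rw [hH, Nat.card_zpowers, orderOf_pow' _ two_ne_zero, hτ]
    obtain ⟨k, rfl⟩ := Nat.exists_eq_succ_of_ne_zero hκ
    have h1 : Nat.gcd (2 ^ (k + 1)) 2 = 2 := Nat.gcd_eq_right (dvd_pow_self 2 (Nat.succ_ne_zero k))
    rw [Nat.succ_eq_add_one, h1, pow_succ, Nat.mul_div_cancel _ two_pos, Nat.add_sub_cancel]
  have hcG : Nat.card (Ω ≃ₐ[K] Ω) = 2 ^ κ := by
    have h1 : Subgroup.zpowers τ = ⊤ := by
      rw [Subgroup.eq_top_iff']
      intro g
      obtain ⟨j, rfl⟩ := hgen g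
      exact Subgroup.npow_mem_zpowers τ j
    rw [← hτ, ← Nat.card_zpowers, h1, Subgroup.card_top]
  have hfr : Module.finrank K (IntermediateField.fixedField H) = 2 := by
    have h1 := IntermediateField.finrank_fixedField_eq_card (F := K) (E := Ω) H
    have h2 := Module.finrank_mul_finrank K (IntermediateField.fixedField H) Ω
    rw [h1, hcH, ← IsGalois.card_aut_eq_finrank K Ω, hcG] at h2
    obtain ⟨k, rfl⟩ := Nat.exists_eq_succ_of_ne_zero hκ
    rw [Nat.succ_eq_add_one, Nat.add_sub_cancel, pow_succ, mul_comm] at h2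
    exact Nat.eq_of_mul_eq_mul_left (pow_pos two_pos k) h2
  have hcc : ∀ x : IntermediateField.fixedField H,
      ((τ.restrictNormal (IntermediateField.fixedField H) x : IntermediateField.fixedField H) : Ω) = τ (x : Ω) :=
    fun x => AlgEquiv.restrictNormal_commutes τ (IntermediateField.fixedField H) x
  obtain ⟨c, hcdef⟩ : ∃ c, c = τ.restrictNormal (IntermediateField.fixedField H) := ⟨_, rfl⟩
  rw [← hcdef] at hcc
  have hc1 : c ≠ 1 := by
    intro hc
    have hbot : IntermediateField.fixedField H = ⊥ := by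
      rw [eq_bot_iff]
      intro x hx
      rw [← IsGalois.fixedField_top (F := K) (E := Ω), IntermediateField.mem_fixedField_iff]
      intro g _
      have h1 : τ x = x := by
        have h2 := hcc ⟨x, hx⟩
        rw [hc] at h2
        exact h2.symm
      obtain ⟨j, rfl⟩ := hgen g
      exact kd_pow τ h1 j
    rw [hbot, IntermediateField.finrank_bot] at hfr
    omega
  refine ⟨IntermediateField.fixedField H, inferInstance, hnf, inferInstance, c, hfr, hc1, ?_⟩
  -- the automorphism on the integers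
  have hcI : ∀ x : 𝓞 (IntermediateField.fixedField H), ∃ y : 𝓞 (IntermediateField.fixedField H),
      (y : IntermediateField.fixedField H) = c x := by
    intro x
    refine ⟨⟨c x, ?_⟩, rfl⟩
    exact map_isIntegral_int c.toRingEquiv.toRingHom x.2
  obtain ⟨θ, θ', hθ', hθ⟩ : ∃ θ θ' : 𝓞 (IntermediateField.fixedField H),
      (θ' : IntermediateField.fixedField H) = c θ ∧ θ' ≠ θ := by
    by_contra hall
    push Not at hall
    apply hc1
    ext x
    obtain ⟨a, b, hb, rfl⟩ := IsFractionRing.div_surjective (𝓞 (IntermediateField.fixedField H)) x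
    have hfix : ∀ a : 𝓞 (IntermediateField.fixedField H),
        c (algebraMap (𝓞 (IntermediateField.fixedField H)) (IntermediateField.fixedField H) a) =
          algebraMap (𝓞 (IntermediateField.fixedField H)) (IntermediateField.fixedField H) a := by
      intro a
      obtain ⟨y, hy⟩ := hcI a
      have h1 := hall a y hy
      rw [h1] at hy
      exact hy.symm
    rw [map_div₀, hfix, hfix]
    rfl
  have hθ0 : θ - θ' ≠ 0 := sub_ne_zero.mpr (Ne.symm hθ)
  have hfin : {w : Pl (IntermediateField.fixedField H) | θ - θ' ∈ w.asIdeal}.Finite := by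
    have h1 : Ideal.span {θ - θ'} ≠ 0 := by
      rw [Ne, Ideal.zero_eq_bot, Ideal.span_singleton_eq_bot]
      exact hθ0
    refine (Ideal.finite_factors h1).subset ?_
    intro w hw
    change w.asIdeal ∣ _
    rw [Ideal.dvd_iff_le]
    exact (Ideal.span_singleton_le_iff_mem _).2 hw
  refine ⟨(fun w : Pl (IntermediateField.fixedField H) => w.under (𝓞 K)) '' {w | θ - θ' ∈ w.asIdeal},
    hfin.image _, ?_⟩
  rintro v hv hl ⟨w, hw, hcw⟩
  obtain ⟨W, hW⟩ : ∃ W : Pl Ω, Over W w := by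
    obtain ⟨Q, hQ, hQv⟩ := Ideal.exists_maximal_ideal_liesOver_of_isIntegral (S := 𝓞 Ω) w.asIdeal
    exact ⟨⟨Q, hQ.isPrime, Ideal.ne_bot_of_liesOver_of_ne_bot w.ne_bot Q⟩, hQv.over.symm⟩
  have hWv : Over W v := kd_over hW hw
  have hWp := W.isPrime
  have hfinq : Finite (𝓞 Ω ⧸ W.asIdeal) := Ideal.finiteQuotientOfFreeOfNeBot _ W.ne_bot
  obtain ⟨g, hg⟩ := IsArithFrobAt.exists_of_isInvariant (𝓞 K) Gal(Ω/K) W.asIdeal
  have hun : W.asIdeal.under (𝓞 K) = v.asIdeal := hWv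
  have hcard : Nat.card (𝓞 K ⧸ W.asIdeal.under (𝓞 K)) = nm v := by
    rw [hun]
    unfold nm
    rw [Ideal.absNorm_apply, Submodule.cardQuot_apply]
  have hfrob : ∀ x : 𝓞 Ω, g • x - x ^ nm v ∈ W.asIdeal := by
    intro x
    have h1 := hg x
    rw [hcard] at h1
    exact h1
  obtain ⟨j, rfl⟩ := hgen g
  refine ⟨W, j, ?_, hWv, ?_⟩
  · by_contra hj
    rw [Nat.not_odd_iff_even] at hj
    obtain ⟨i, hi⟩ := hj
    have hfixj : ∀ y ∈ IntermediateField.fixedField H, (τ ^ j) y = y := by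
      intro y hy
      rw [IntermediateField.mem_fixedField_iff] at hy
      refine hy _ ?_
      rw [hH, hi, ← two_mul, pow_mul]
      exact Subgroup.npow_mem_zpowers _ _
    have h1 : ∀ x : 𝓞 (IntermediateField.fixedField H), x - x ^ nm v ∈ w.asIdeal := by
      intro x
      have h2 := hfrob (algebraMap (𝓞 (IntermediateField.fixedField H)) (𝓞 Ω) x)
      have h3 : (τ ^ j) • (algebraMap (𝓞 (IntermediateField.fixedField H)) (𝓞 Ω) x) =
          algebraMap (𝓞 (IntermediateField.fixedField H)) (𝓞 Ω) x := by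
        refine RingOfIntegers.ext ?_
        exact hfixj _ (x : IntermediateField.fixedField H).2
      rw [h3, ← map_pow, ← map_sub] at h2
      have h4 : x - x ^ nm v ∈ W.asIdeal.comap (algebraMap (𝓞 (IntermediateField.fixedField H)) (𝓞 Ω)) := h2
      rw [show W.asIdeal.comap (algebraMap (𝓞 (IntermediateField.fixedField H)) (𝓞 Ω)) = w.asIdeal from hW] at h4
      exact h4
    apply hv
    refine ⟨w, ?_, HeightOneSpectrum.ext hw⟩
    obtain ⟨z, hz, hz'⟩ := hcw θ
    have h5 : z = θ' - θ ^ nm v := by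
      refine RingOfIntegers.ext ?_
      rw [hz', kd_sub, hθ']
    rw [h5] at hz
    have h6 := w.asIdeal.sub_mem (h1 θ) hz
    rw [sub_sub_sub_cancel_right] at h6
    exact h6
  · intro x
    refine ⟨(τ ^ j) • x - x ^ nm v, hfrob x, ?_⟩
    rw [kd_sub]
    rfl

theorem frb {Ω : Type} [Field Ω] [NumberField Ω] [IsGalois ℚ Ω] (σ : Ω ≃ₐ[ℚ] Ω) (κ : ℕ)
    (hκ : κ ≠ 0) (hσ : orderOf σ = 2 ^ κ) :
    ∃ (K K2 : Type) (_ : Field K) (_ : NumberField K) (_ : Field K2) (_ : NumberField K2)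
      (_ : Algebra K K2) (_ : Algebra K Ω) (c : K2 ≃ₐ[K] K2),
      Module.finrank K K2 = 2 ∧ c ≠ 1 ∧ (∀ x : Ω, σ x = x → ∃ y : K, algebraMap K Ω y = x) ∧
      ∃ T : Set (Pl K), T.Finite ∧ ∀ v ∉ T, (nm v).Prime →
        (∃ w : Pl K2, Over w v ∧ ∀ x : 𝓞 K2, ∃ z ∈ w.asIdeal,
          (z : K2) = c (x : K2) - (x : K2) ^ nm v) →
        ∃ (W : Pl Ω) (j : ℕ), Odd j ∧ Over W v ∧ ∀ x : 𝓞 Ω, ∃ z ∈ W.asIdeal,
          (z : Ω) = (σ ^ j) (x : Ω) - (x : Ω) ^ nm v := by
  classical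
  obtain ⟨G, hG⟩ : ∃ G : Subgroup (Ω ≃ₐ[ℚ] Ω), G = Subgroup.zpowers σ := ⟨_, rfl⟩
  have hmem : σ ∈ G := by
    rw [hG]
    exact Subgroup.mem_zpowers σ
  let e := IntermediateField.subgroupEquivAlgEquiv G
  have he : ∀ (g : G) (x : Ω), e g x = (g : Ω ≃ₐ[ℚ] Ω) x := fun _ _ => rfl
  have hnf : NumberField (IntermediateField.fixedField G) := NumberField.of_module_finite ℚ _
  obtain ⟨τ, hτ⟩ : ∃ τ, τ = e ⟨σ, hmem⟩ := ⟨_, rfl⟩
  have hpow : ∀ (j : ℕ) (x : Ω), (τ ^ j) x = (σ ^ j) x := by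
    intro j x
    rw [hτ, ← map_pow, he]
    rfl
  have hgen : ∀ g : Ω ≃ₐ[IntermediateField.fixedField G] Ω, ∃ j : ℕ, τ ^ j = g := by
    intro g
    have h1 : ((e.symm g : G) : Ω ≃ₐ[ℚ] Ω) ∈ Subgroup.zpowers σ := by
      rw [← hG]
      exact (e.symm g).2
    rw [← mem_powers_iff_mem_zpowers] at h1
    obtain ⟨j, hj⟩ := h1
    refine ⟨j, ?_⟩
    refine AlgEquiv.ext fun x => ?_
    rw [hpow]
    have h2 : g = e (e.symm g) := (e.apply_symm_apply g).symm
    rw [h2, he]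
    exact DFunLike.congr_fun hj x
  have hord : orderOf τ = 2 ^ κ := by
    rw [hτ, MulEquiv.orderOf_eq, Subgroup.orderOf_mk]
    exact hσ
  obtain ⟨K2, i1, i2, i3, c, h1, h2, T, h3, h4⟩ := kd_main τ hgen κ hκ hord
  refine ⟨IntermediateField.fixedField G, K2, inferInstance, hnf, i1, i2, i3, inferInstance, c, h1, h2, ?_,
    T, h3, ?_⟩
  · intro x hx
    refine ⟨⟨x, ?_⟩, rfl⟩
    rw [IntermediateField.mem_fixedField_iff]
    intro g hg
    rw [hG, ← mem_powers_iff_mem_zpowers] at hg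
    obtain ⟨j, rfl⟩ := hg
    exact kd_pow σ hx j
  · intro v hv hp hw
    obtain ⟨W, j, hj, hW, h5⟩ := h4 v hv hp hw
    refine ⟨W, j, hj, hW, fun x => ?_⟩
    obtain ⟨z, hz, hz'⟩ := h5 x
    exact ⟨z, hz, by rw [hz', hpow]⟩

end H13.PC
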