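import Pool.Agent.H63.MA.LBd
import Pool.Agent.H13.KU.Ord

/-!
# PC-KE: local arguments

* `lft`: `V = ∏ (X - γ)` over `𝓞 Ω` (the roots are integral). Let `P` be the product of all `γ - γ'`, `γ ≠ γ'` roots; it divides a nonzero integer `δ` (its norm), `B0 = |δ|`.
  Let `l > B0`, so no `γ - γ'` (`γ ≠ γ'`) is in `W` (else `δ ∈ W`, `l ∈ W` are coprime integers). `l ∣ V(b)`, so `∏ (b - γ) ∈ W`, `b ≡ γ` modulo `W` for some root `γ`.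
  `(σ ^ j) γ ≡ γ ^ l ≡ b ^ l ≡ b ≡ γ` (Fermat: `l ∣ b ^ l - b`), and `(σ ^ j) γ` is a root of `V`, so `(σ ^ j) γ = γ`. As `j` is odd and the order of `σ` is a power of
  `2`, `σ` is a power of `σ ^ j`, so `σ γ = γ`.
* `loc2`: as `H13.KU.loc` (`Pool/Agent/H13/KU/Loc.lean`), in the field `κ = 𝓞 Ω / W` of characteristic `l`: `ZMod l → κ` is injective, `b'`, `g` = classes of `b`, `q`;
  `orderOf g = orderOf (q : ZMod l)`. `g ≠ 0`, `g ^ (l - 1) = 1` (Fermat for `q`). `g ^ ((l - 1) / r) = 1`: `ρ` is integral, its class `ρ'` satisfies `ρ' ^ r = g ≠ 0` and `ρ' ^ l = ρ'`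
  (`hρl`), so `ρ' ^ (l - 1) = 1`, `r ∣ l - 1`. `b' = γ'`. First case: `H13.KU.ordA`; second case: `H13.KU.ordB` with `s = 2`, `l' = l - 1`.
* `cop`: `ζ ^ (l + 1) ≡ 1` modulo `W`: `ζ⁻¹ = (σ ^ j) ζ ≡ ζ ^ l` (`j` odd). `l ∤ e`, so the powers `1, ζ, .., ζ ^ (e - 1)` are different modulo `W` (`1 - ζ ^ i` divides a power of `e` for
  `0 < i < e`; or `X ^ e - 1` is separable modulo `W`), so `e ∣ l + 1`. A prime `p` dividing `e` and `l - 1` divides `2`, but `e` is odd. `orderOf (q : ZMod l)` divides `l - 1` (`l ∤ q`).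
-/

set_option autoImplicit false

open Polynomial NumberField IsDedekindDomain
open H63.MA (Pl nm PZ Over)

namespace H13.PC

private theorem ke_dvd {Ω : Type} [Field Ω] [NumberField Ω] (W : Pl Ω) (l B : ℕ) (hl : l.Prime)
    (hlW : (l : 𝓞 Ω) ∈ W.asIdeal) (hB : (B : 𝓞 Ω) ∈ W.asIdeal) : l ∣ B := by
  by_contra h
  have hc : Nat.Coprime l B := (hl.coprime_iff_not_dvd).2 h
  have h1 := Nat.gcd_eq_gcd_ab l B
  rw [hc.gcd_eq_one] at h1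
  apply W.isPrime.ne_top
  rw [Ideal.eq_top_iff_one]
  have h2 : (1 : 𝓞 Ω) = (l : 𝓞 Ω) * (Nat.gcdA l B : 𝓞 Ω) + (B : 𝓞 Ω) * (Nat.gcdB l B : 𝓞 Ω) := by
    exact_mod_cast congrArg (fun z : ℤ => (z : 𝓞 Ω)) h1
  rw [h2]
  exact W.asIdeal.add_mem (W.asIdeal.mul_mem_right _ hlW) (W.asIdeal.mul_mem_right _ hB)

private theorem ke_split {Ω : Type} [Field Ω] [NumberField Ω] (V : ℤ[X]) (hV : V.Monic)
    (hs : (V.map (Int.castRingHom Ω)).Splits) :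
    ∃ t : Multiset (𝓞 Ω), (∀ γ ∈ t, aeval γ V = 0) ∧
      ∀ b : ℤ, ((V.eval b : ℤ) : 𝓞 Ω) = (t.map fun γ => (b : 𝓞 Ω) - γ).prod := by
  have hint : ∀ a ∈ (V.map (Int.castRingHom Ω)).roots, IsIntegral ℤ a := by
    intro a ha
    rw [mem_roots (hV.map _).ne_zero, IsRoot, eval_map] at ha
    exact ⟨V, hV, ha⟩
  obtain ⟨f, hf⟩ : ∃ f : {a // a ∈ (V.map (Int.castRingHom Ω)).roots} → 𝓞 Ω,
      ∀ a, algebraMap (𝓞 Ω) Ω (f a) = a.1 := ⟨fun a => ⟨a.1, hint a.1 a.2⟩, fun _ => rfl⟩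
  refine ⟨(V.map (Int.castRingHom Ω)).roots.attach.map f, ?_, ?_⟩
  · intro γ hγ
    obtain ⟨a, -, rfl⟩ := Multiset.mem_map.1 hγ
    apply FaithfulSMul.algebraMap_injective (𝓞 Ω) Ω
    have h1 := Polynomial.aeval_algebraMap_apply Ω (f a) V
    rw [hf] at h1
    have h3 := a.2
    rw [mem_roots (hV.map _).ne_zero, IsRoot, eval_map] at h3
    rw [← h1, map_zero]
    exact h3
  · intro b
    apply FaithfulSMul.algebraMap_injective (𝓞 Ω) Ω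
    rw [map_multiset_prod, Multiset.map_map, Multiset.map_map, map_intCast]
    have h1 := hs.eval_eq_prod_roots_of_monic (hV.map (Int.castRingHom Ω)) (b : Ω)
    have h2 : (V.map (Int.castRingHom Ω)).eval (b : Ω) = ((V.eval b : ℤ) : Ω) := by
      rw [Polynomial.eval_intCast_map, eq_intCast]
      simp
    rw [h2] at h1
    rw [h1, ← Multiset.attach_map_val' _ (fun a : Ω => (b : Ω) - a)]
    congr 1
    refine Multiset.map_congr rfl fun a _ => ?_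
    simp only [Function.comp_apply, map_sub, map_intCast]
    rw [hf]

theorem lft {Ω : Type} [Field Ω] [NumberField Ω] (σ : Ω ≃ₐ[ℚ] Ω) (κ : ℕ)
    (hσ : orderOf σ = 2 ^ κ) (V : ℤ[X]) (hV : V.Monic) (hs : (V.map (Int.castRingHom Ω)).Splits) :
    ∃ B0 : ℕ, ∀ (W : Pl Ω) (l j : ℕ), l.Prime → B0 < l → (l : 𝓞 Ω) ∈ W.asIdeal → Odd j →
      (∀ x : 𝓞 Ω, ∃ z ∈ W.asIdeal, (z : Ω) = (σ ^ j) (x : Ω) - (x : Ω) ^ l) →
      ∀ b : ℤ, (l : ℤ) ∣ V.eval b → ∃ γ : 𝓞 Ω, aeval γ V = 0 ∧ σ (γ : Ω) = γ ∧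
        (b : 𝓞 Ω) - γ ∈ W.asIdeal := by
  classical
  have hV0 : V.map (Int.castRingHom (𝓞 Ω)) ≠ 0 := (hV.map _).ne_zero
  obtain ⟨R, hR⟩ : ∃ R : Finset (𝓞 Ω), ∀ x, x ∈ R ↔ aeval x V = 0 := by
    refine ⟨(V.map (Int.castRingHom (𝓞 Ω))).roots.toFinset, fun x => ?_⟩
    rw [Multiset.mem_toFinset, mem_roots hV0, IsRoot, eval_map]
    rfl
  obtain ⟨t, ht, hprod⟩ := ke_split V hV hs
  refine ⟨∏ x ∈ (R ×ˢ R).filter (fun x => x.1 ≠ x.2), Ideal.absNorm (Ideal.span {x.1 - x.2}), ?_⟩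
  intro W l j hl hB hlW hj hF b hb
  have hB0 : ∏ x ∈ (R ×ˢ R).filter (fun x => x.1 ≠ x.2),
      Ideal.absNorm (Ideal.span {x.1 - x.2}) ≠ 0 := by
    rw [Finset.prod_ne_zero_iff]
    intro x hx h
    rw [Ideal.absNorm_eq_zero_iff, Ideal.span_singleton_eq_bot, sub_eq_zero] at h
    exact (Finset.mem_filter.1 hx).2 h
  have hsep : ∀ γ ∈ R, ∀ γ' ∈ R, γ - γ' ∈ W.asIdeal → γ = γ' := by
    intro γ hγ γ' hγ' h
    by_contra hne
    have h1 : ((Ideal.absNorm (Ideal.span {γ - γ'}) : ℕ) : 𝓞 Ω) ∈ W.asIdeal := by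
      have h2 := Ideal.absNorm_mem (Ideal.span {γ - γ'})
      refine (Ideal.span_le.2 ?_ : Ideal.span {γ - γ'} ≤ W.asIdeal) h2
      rw [Set.singleton_subset_iff]
      exact h
    have h2 := ke_dvd W l _ hl hlW h1
    have h3 : Ideal.absNorm (Ideal.span {γ - γ'}) ∣ ∏ x ∈ (R ×ˢ R).filter (fun x => x.1 ≠ x.2),
        Ideal.absNorm (Ideal.span {x.1 - x.2}) :=
      Finset.dvd_prod_of_mem (fun x : 𝓞 Ω × 𝓞 Ω => Ideal.absNorm (Ideal.span {x.1 - x.2}))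
        (a := (γ, γ')) (Finset.mem_filter.2 ⟨Finset.mem_product.2 ⟨hγ, hγ'⟩, hne⟩)
    exact absurd (Nat.le_of_dvd (Nat.pos_of_ne_zero hB0) (h2.trans h3)) (not_le.2 hB)
  have hVb : ((V.eval b : ℤ) : 𝓞 Ω) ∈ W.asIdeal := by
    obtain ⟨c, hc⟩ := hb
    rw [hc, Int.cast_mul, Int.cast_natCast]
    exact W.asIdeal.mul_mem_right _ hlW
  rw [hprod b] at hVb
  obtain ⟨y, hy, hyW⟩ := (W.isPrime.multiset_prod_mem_iff_exists_mem _).1 hVb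
  obtain ⟨γ, hγt, rfl⟩ := Multiset.mem_map.1 hy
  have hγ0 := ht γ hγt
  refine ⟨γ, hγ0, ?_, hyW⟩
  have hint : IsIntegral ℤ ((σ ^ j) (γ : Ω)) := map_isIntegral_int (σ ^ j) γ.2
  obtain ⟨γ', hγ'⟩ : ∃ γ' : 𝓞 Ω, (γ' : Ω) = (σ ^ j) (γ : Ω) := ⟨⟨_, hint⟩, rfl⟩
  have hγ'0 : aeval γ' V = 0 := by
    apply NumberField.RingOfIntegers.ext
    have h1 := Polynomial.aeval_algebraMap_apply Ω γ' V
    have h2 := Polynomial.aeval_algebraMap_apply Ω γ V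
    rw [hγ0, map_zero] at h2
    change algebraMap (𝓞 Ω) Ω _ = algebraMap (𝓞 Ω) Ω 0
    rw [← h1, map_zero]
    have h3 : algebraMap (𝓞 Ω) Ω γ' = (σ ^ j) (algebraMap (𝓞 Ω) Ω γ) := hγ'
    rw [h3]
    have h4 := Polynomial.aeval_algHom_apply (((σ ^ j : Ω ≃ₐ[ℚ] Ω) : Ω →ₐ[ℚ] Ω).restrictScalars ℤ)
      (algebraMap (𝓞 Ω) Ω γ) V
    rw [h2, map_zero] at h4
    exact h4
  have hfer : (b : 𝓞 Ω) ^ l - b ∈ W.asIdeal := by
    have hlf : Fact l.Prime := ⟨hl⟩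
    have h1 : (l : ℤ) ∣ b ^ l - b := by
      rw [← ZMod.intCast_zmod_eq_zero_iff_dvd]
      push_cast
      rw [ZMod.pow_card, sub_self]
    obtain ⟨c, hc⟩ := h1
    have h2 : (b : 𝓞 Ω) ^ l - b = (l : 𝓞 Ω) * (c : 𝓞 Ω) := by
      exact_mod_cast congrArg (fun z : ℤ => (z : 𝓞 Ω)) hc
    rw [h2]
    exact W.asIdeal.mul_mem_right _ hlW
  have hpow : γ ^ l - (b : 𝓞 Ω) ^ l ∈ W.asIdeal := by
    obtain ⟨c, hc⟩ := sub_dvd_pow_sub_pow γ (b : 𝓞 Ω) l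
    rw [hc]
    refine W.asIdeal.mul_mem_right _ ?_
    have h1 := W.asIdeal.neg_mem hyW
    rwa [neg_sub] at h1
  have hfrob : γ' - γ ^ l ∈ W.asIdeal := by
    obtain ⟨z, hz, hz'⟩ := hF γ
    have h1 : γ' - γ ^ l = z := by
      apply NumberField.RingOfIntegers.ext
      rw [hz']
      push_cast
      exact congrArg (fun x : Ω => x - (γ : Ω) ^ l) hγ'
    rw [h1]
    exact hz
  have hclose : γ' - γ ∈ W.asIdeal := by
    have h1 : γ' - γ = (γ' - γ ^ l) + (γ ^ l - (b : 𝓞 Ω) ^ l) + ((b : 𝓞 Ω) ^ l - b) + (b - γ) := by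
      ring
    rw [h1]
    exact W.asIdeal.add_mem (W.asIdeal.add_mem (W.asIdeal.add_mem hfrob hpow) hfer) hyW
  have heq := hsep γ' ((hR _).2 hγ'0) γ ((hR _).2 hγ0) hclose
  have hfix : (σ ^ j) (γ : Ω) = γ := by rw [← hγ', heq]
  have hcop : j.Coprime (orderOf σ) := by
    rw [hσ]
    exact Nat.Coprime.pow_right _ (Nat.coprime_two_right.2 hj)
  obtain ⟨m, hm⟩ := exists_pow_eq_self_of_coprime hcop
  have hfixm : ∀ m : ℕ, ((σ ^ j) ^ m) (γ : Ω) = γ := by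
    intro m
    induction m with
    | zero => rfl
    | succ m ih =>
      rw [pow_succ, AlgEquiv.mul_apply, hfix, ih]
  rw [← hm]
  exact hfixm m

theorem loc2 {Ω : Type} [Field Ω] [NumberField Ω] (q r N E : ℕ) (hr : r ≠ 0) (ρ : Ω)
    (hρ : ρ ^ r = (q : Ω)) (W : Pl Ω) (l : ℕ) (hl : l.Prime) (hlW : (l : 𝓞 Ω) ∈ W.asIdeal)
    (hq : ¬ l ∣ q) (hρl : ∃ z ∈ W.asIdeal, (z : Ω) = ρ - ρ ^ l)
    (hn : r * 2 ^ (N + E) ∣ l - 1) (hs : (q : 𝓞 Ω) ^ ((l - 1) / 2 ^ N) - 1 ∉ W.asIdeal)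
    (γ : 𝓞 Ω) (hγ : γ ^ ((l - 1) / r) - 1 ∉ W.asIdeal ∨
      ∃ A B f : ℕ, f ≤ E ∧ 2 ^ f ∣ A ∧ ¬ 2 ^ f ∣ B ∧ γ ^ A = (q : 𝓞 Ω) ^ B) (b : ℤ)
    (hb : (b : 𝓞 Ω) - γ ∈ W.asIdeal) : (b : ZMod l) ^ orderOf (q : ZMod l) ≠ 1 := by
  classical
  haveI hmax : W.asIdeal.IsMaximal := W.isMaximal
  letI : Field (𝓞 Ω ⧸ W.asIdeal) := Ideal.Quotient.field W.asIdeal
  haveI hlf : Fact l.Prime := ⟨hl⟩
  set π : 𝓞 Ω →+* 𝓞 Ω ⧸ W.asIdeal := Ideal.Quotient.mk W.asIdeal with hπ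
  have hπ0 : ∀ x : 𝓞 Ω, π x = 0 ↔ x ∈ W.asIdeal := fun x => Ideal.Quotient.eq_zero_iff_mem
  have hπ1 : ∀ x : 𝓞 Ω, π x = 1 ↔ x - 1 ∈ W.asIdeal := fun x => by
    rw [← hπ0, map_sub, map_one, sub_eq_zero]
  have hl0 : (l : 𝓞 Ω ⧸ W.asIdeal) = 0 := by
    have h2 := (hπ0 _).2 hlW
    rwa [map_natCast] at h2
  haveI hchar : CharP (𝓞 Ω ⧸ W.asIdeal) l := by
    obtain ⟨p, hp⟩ := CharP.exists (𝓞 Ω ⧸ W.asIdeal)
    have h1 : p ∣ l := (CharP.cast_eq_zero_iff (𝓞 Ω ⧸ W.asIdeal) p l).1 hl0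
    rcases (Nat.dvd_prime hl).1 h1 with h2 | h2
    · exact absurd h2 (CharP.char_ne_one (𝓞 Ω ⧸ W.asIdeal) p)
    · rw [← h2]
      exact hp
  set F : ZMod l →+* 𝓞 Ω ⧸ W.asIdeal := ZMod.castHom (dvd_refl l) _ with hF
  have hFinj : Function.Injective F := F.injective
  set b' := F (b : ZMod l) with hb'
  set g : 𝓞 Ω ⧸ W.asIdeal := (q : 𝓞 Ω ⧸ W.asIdeal) with hg
  have hFq : F (q : ZMod l) = g := map_natCast F q
  have hπq : π (q : 𝓞 Ω) = g := map_natCast π q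
  have hord : orderOf g = orderOf (q : ZMod l) := by
    rw [← hFq]
    exact orderOf_injective (F : ZMod l →* 𝓞 Ω ⧸ W.asIdeal) hFinj _
  have hγb : b' = π γ := by
    have h1 : F (b : ZMod l) = π (b : 𝓞 Ω) := by rw [map_intCast, map_intCast]
    rw [hb', h1, ← sub_eq_zero, ← map_sub, hπ0]
    exact hb
  have hq0 : (q : ZMod l) ≠ 0 := by
    rw [Ne, ZMod.natCast_eq_zero_iff]
    exact hq
  have hg0 : g ≠ 0 := by
    rw [← hFq]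
    exact fun h => hq0 (hFinj (h.trans (map_zero F).symm))
  have hg1 : g ^ (l - 1) = 1 := by
    rw [← hFq, ← map_pow, ZMod.pow_card_sub_one_eq_one hq0, map_one]
  have hrd : r ∣ l - 1 := (Dvd.intro _ rfl).trans hn
  have hgr : g ^ ((l - 1) / r) = 1 := by
    have hint : IsIntegral ℤ ρ := by
      refine IsIntegral.of_pow (Nat.pos_of_ne_zero hr) ?_
      rw [hρ]
      have h1 : ((q : ℤ) : Ω) = (q : Ω) := by push_cast; rfl
      rw [← h1]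
      exact isIntegral_algebraMap (R := ℤ) (x := (q : ℤ))
    set ρ₀ : 𝓞 Ω := ⟨ρ, hint⟩ with hρ₀
    have h2 : ρ₀ ^ r = (q : 𝓞 Ω) := by
      apply NumberField.RingOfIntegers.ext
      push_cast
      exact hρ
    have h3 : π ρ₀ ^ r = g := by
      rw [← map_pow, h2, hπq]
    have h4 : π ρ₀ ≠ 0 := by
      intro h0
      rw [h0, zero_pow hr] at h3
      exact hg0 h3.symm
    have h5 : π ρ₀ = π ρ₀ ^ l := by
      obtain ⟨z, hz, hz'⟩ := hρl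
      have h6 : ρ₀ - ρ₀ ^ l = z := by
        apply NumberField.RingOfIntegers.ext
        rw [hz']
        push_cast
        rfl
      rw [← map_pow, ← sub_eq_zero, ← map_sub, h6, hπ0]
      exact hz
    have h7 : π ρ₀ ^ (l - 1) = 1 := by
      have h8 : π ρ₀ * π ρ₀ ^ (l - 1) = π ρ₀ * 1 := by
        rw [← pow_succ', Nat.sub_add_cancel hl.one_le, mul_one, ← h5]
      exact mul_left_cancel₀ h4 h8
    rw [← h3, ← pow_mul, Nat.mul_div_cancel' hrd]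
    exact h7
  have hmain : b' ^ orderOf g ≠ 1 := by
    rcases hγ with h1 | ⟨A, B, f, hfE, hA, hB, hAB⟩
    · refine H13.KU.ordA g b' ((l - 1) / r) hgr fun h2 => h1 ?_
      rw [← hπ1, map_pow]
      rw [hγb] at h2
      exact h2
    · refine H13.KU.ordB g b' (l - 1) 2 N E f A B Nat.prime_two ?_ hg1 (fun h2 => ?_) hfE hA hB ?_
      · exact (Dvd.intro_left r rfl).trans hn
      · apply hs
        rw [← hπ1, map_pow, hπq]
        exact h2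
      · rw [hγb, ← map_pow, hAB, map_pow, map_natCast]
  intro hcon
  apply hmain
  rw [hord, hb', ← map_pow, hcon, map_one]

theorem cop {Ω : Type} [Field Ω] [NumberField Ω] (σ : Ω ≃ₐ[ℚ] Ω) (e q : ℕ) (he : Odd e) (ζ : Ω)
    (hζ : IsPrimitiveRoot ζ e) (hσζ : σ ζ = ζ⁻¹) (W : Pl Ω) (l j : ℕ) (hl : l.Prime)
    (hle : ¬ l ∣ e) (hlq : ¬ l ∣ q) (hlW : (l : 𝓞 Ω) ∈ W.asIdeal) (hj : Odd j)
    (hF : ∀ x : 𝓞 Ω, ∃ z ∈ W.asIdeal, (z : Ω) = (σ ^ j) (x : Ω) - (x : Ω) ^ l) :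
    (orderOf (q : ZMod l)).Coprime e := by
  classical
  haveI hmax : W.asIdeal.IsMaximal := W.isMaximal
  letI : Field (𝓞 Ω ⧸ W.asIdeal) := Ideal.Quotient.field W.asIdeal
  haveI hlf : Fact l.Prime := ⟨hl⟩
  set π : 𝓞 Ω →+* 𝓞 Ω ⧸ W.asIdeal := Ideal.Quotient.mk W.asIdeal with hπ
  have hπ0 : ∀ x : 𝓞 Ω, π x = 0 ↔ x ∈ W.asIdeal := fun x => Ideal.Quotient.eq_zero_iff_mem
  have he0 : 0 < e := he.pos
  have hint : IsIntegral ℤ ζ := hζ.isIntegral he0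
  obtain ⟨ζ₀, hζ₀⟩ : ∃ ζ₀ : 𝓞 Ω, (ζ₀ : Ω) = ζ := ⟨⟨ζ, hint⟩, rfl⟩
  have hprim : IsPrimitiveRoot ζ₀ e := by
    refine IsPrimitiveRoot.of_map_of_injective (f := algebraMap (𝓞 Ω) Ω) ?_
      (FaithfulSMul.algebraMap_injective (𝓞 Ω) Ω)
    have h1 : algebraMap (𝓞 Ω) Ω ζ₀ = ζ := hζ₀
    rw [h1]
    exact hζ
  have heW : ((e : ℕ) : 𝓞 Ω ⧸ W.asIdeal) ≠ 0 := by
    intro h
    have h1 : (e : 𝓞 Ω) ∈ W.asIdeal := by
      rw [← hπ0, map_natCast]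
      exact h
    exact hle (ke_dvd W l e hl hlW h1)
  haveI : NeZero ((e : ℕ) : 𝓞 Ω ⧸ W.asIdeal) := ⟨heW⟩
  have hz : IsPrimitiveRoot (π ζ₀) e := by
    rw [← isRoot_cyclotomic_iff, ← map_cyclotomic e π]
    exact (hprim.isRoot_cyclotomic he0).map
  -- the powers of `σ`
  have hσj : (σ ^ j) ζ = ζ⁻¹ := by
    have h2 : ∀ i : ℕ, (σ ^ (2 * i)) ζ = ζ := by
      intro i
      induction i with
      | zero => rfl
      | succ i ih =>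
        have h3 : 2 * (i + 1) = 2 * i + 1 + 1 := by ring
        rw [h3, pow_succ, pow_succ, AlgEquiv.mul_apply, AlgEquiv.mul_apply, hσζ, map_inv₀, hσζ,
          inv_inv, ih]
    obtain ⟨i, rfl⟩ := hj
    rw [pow_succ, AlgEquiv.mul_apply, hσζ, map_inv₀, h2]
  have hz1 : π ζ₀ ^ (l + 1) = 1 := by
    obtain ⟨z, hzW, hz'⟩ := hF ζ₀
    have h1 : ζ₀ * z = 1 - ζ₀ ^ (l + 1) := by
      apply FaithfulSMul.algebraMap_injective (𝓞 Ω) Ω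
      have h3 : algebraMap (𝓞 Ω) Ω z = ζ⁻¹ - ζ ^ l := by
        have h4 : algebraMap (𝓞 Ω) Ω z = (σ ^ j) (ζ₀ : Ω) - (ζ₀ : Ω) ^ l := hz'
        rw [h4, hζ₀, hσj]
      have h5 : algebraMap (𝓞 Ω) Ω ζ₀ = ζ := hζ₀
      rw [map_mul, map_sub, map_one, map_pow, h3, h5, pow_succ', mul_sub,
        mul_inv_cancel₀ (hζ.ne_zero he0.ne')]
    have h2 : π (1 - ζ₀ ^ (l + 1)) = 0 := by
      rw [← h1, hπ0]
      exact W.asIdeal.mul_mem_left _ hzW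
    rw [map_sub, map_one, map_pow, sub_eq_zero] at h2
    exact h2.symm
  have hel : e ∣ l + 1 := hz.dvd_of_pow_eq_one _ hz1
  have hq0 : (q : ZMod l) ≠ 0 := by
    rw [Ne, ZMod.natCast_eq_zero_iff]
    exact hlq
  have hol : orderOf (q : ZMod l) ∣ l - 1 :=
    orderOf_dvd_of_pow_eq_one (ZMod.pow_card_sub_one_eq_one hq0)
  have h1 : Nat.gcd (orderOf (q : ZMod l)) e ∣ 2 := by
    have h2 : Nat.gcd (orderOf (q : ZMod l)) e ∣ l - 1 := (Nat.gcd_dvd_left _ _).trans hol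
    have h3 : Nat.gcd (orderOf (q : ZMod l)) e ∣ l + 1 := (Nat.gcd_dvd_right _ _).trans hel
    have h4 := Nat.dvd_sub h3 h2
    have h5 : l + 1 - (l - 1) = 2 := by
      have := hl.one_le
      omega
    rwa [h5] at h4
  rcases (Nat.dvd_prime Nat.prime_two).1 h1 with h2 | h2
  · exact h2
  · exfalso
    have h3 : 2 ∣ e := by
      rw [← h2]
      exact Nat.gcd_dvd_right _ _
    exact (Nat.not_even_iff_odd.2 he) (even_iff_two_dvd.2 h3)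

end H13.PC
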