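import Pool.Agent.H13.PC.Ka
import Pool.Agent.H13.PC.Kb
import Pool.Agent.H13.PC.Kc
import Pool.Agent.H13.PC.Kd
import Pool.Agent.H13.PC.Ke

/-!
# PC-KF: the good primes `l`

* `dep2`: `V` has finitely many complex roots. For each root `γ` for which it is possible choose `A ≠ 0` and `B` with `γ ^ A = q ^ B`; absolute values:
  `√q ^ A = q ^ B`, so `A = 2 B`, `B ≠ 0`; `f = ` exponent of `2` in `A` (one more than in `B`). `E` = the largest of these `f`. For a number field `Ω` choose an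
  embedding in `ℂ`. `γ ≠ 0` as `‖γ‖ = √q`.
* `kgd2`: `E` of `dep2` (made `≥ 1`). `S = {2} ∪ primeFactors (3 e)`, `D = 4 (natDegree V + 1) + 1 + ∑_(s ∈ S) s`. `fldG` gives `r, N, Ω, ζ, ρ`; `n = 2 ^ (N + E)`,
  `e' = ∏_(s ∈ S, s ≠ 2) s ^ (N + E)`, odd, divisible by `3` and by all primes dividing `e`; `∏_(s ∈ S) s ^ (N + E) = n e'`; `r > D` is not in `S`. `sgm` for `r, n, e'` gives `σ`, `κ`; `κ ≠ 0`: otherwise
  `σ = 1` and `ζ' = ζ ^ (r n)`, a primitive root of order `e'` (divisible by `3`), equals its inverse. `frb` gives `K, K2, c, T`. `ζ ^ e'` (primitive of order `r n`) and `ρ` are in `K` (fixed by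
  `σ`). `gd2` over `K` with `n := r n`, the root `ζ ^ e'`, `ι = Γ ⊕ Unit`, `Γ` = the set of the roots `γ ∈ 𝓞 K` of `V` independent of `q` (`γ ^ A = q ^ B → A = 0`), at most
  `natDegree V`; `m = r`, `α = γ` for `γ ∈ Γ`; `m = 2 ^ N`, `α = q`. `hd`: for `γ`: if `γ ^ j = y ^ r` in `K` and `r ∤ j`, then `γ` is an `r`-th power (see `kgd_pow` in
  `Pool/Agent/H13/KU/Kgd.lean`) in `K`, so in `Ω`, against `fldG`; so `j ≥ r > D`; for `q`: `fldG` with `s = 2`. `B' = max B (max q (max (3 e) B0))`, `B0` of `lft`. `lsmc` with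
  `c₀ = 1/4`: let `v` be in the set of `gd2`, `l = nm v`; `frb` gives `W`, `j`. `l ∈ W` (`Ideal.absNorm_mem`, `Over`). `cop` with `ζ ^ (r n)` and `e'` gives
  `(orderOf q).Coprime e'`, so it is prime to `e` (all primes dividing `e` divide `e'`). Let `b ∈ ZMod l` be a root of `V`, `b` the class of an integer; `lft` gives a root `γ ∈ 𝓞 Ω`, `σ γ = γ`, so
  `γ` comes from `γ_K ∈ 𝓞 K`. `dep2`: if `γ` is independent of `q`, `γ_K ∈ Γ` and `γ_K ^ ((l - 1)/r) - 1 ∉ v`, so `γ ^ .. - 1 ∉ W`; the same for `q`. `loc2` (`hρl`: `x = ρ` in the Frobenius property, `(σ ^ j) ρ = ρ`).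
-/

set_option autoImplicit false

open Polynomial NumberField IsDedekindDomain
open H63.MA (Pl nm PZ Over)

namespace H13.PC

private theorem dep2_fix (q : ℕ) (hq : 2 ≤ q) (γ : ℂ) (hγ : ‖γ‖ = √(q : ℝ)) (A B : ℕ)
    (h : γ ^ A = (q : ℂ) ^ B) : A = 2 * B := by
  have hq0 : (0 : ℝ) ≤ q := Nat.cast_nonneg q
  have h1 : ‖γ‖ ^ A = (q : ℝ) ^ B := by
    rw [← norm_pow, h, norm_pow, Complex.norm_natCast]
  have h2 : (q : ℝ) ^ A = (q : ℝ) ^ (2 * B) := by
    calc (q : ℝ) ^ A = (√(q : ℝ) ^ 2) ^ A := by rw [Real.sq_sqrt hq0]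
      _ = (√(q : ℝ) ^ A) ^ 2 := by rw [← pow_mul, ← pow_mul, mul_comm]
      _ = (q : ℝ) ^ (2 * B) := by rw [← hγ, h1, ← pow_mul, mul_comm]
  have h3 : q ^ A = q ^ (2 * B) := by exact_mod_cast h2
  exact Nat.pow_right_injective hq h3

private theorem dep2_f (A B : ℕ) (hA : A ≠ 0) (h : A = 2 * B) :
    ∃ f : ℕ, 2 ^ f ∣ A ∧ ¬ 2 ^ f ∣ B := by
  have hB : B ≠ 0 := by omega
  refine ⟨padicValNat 2 B + 1, ?_, ?_⟩
  · rw [h, pow_succ, mul_comm]
    exact Nat.mul_dvd_mul_left 2 pow_padicValNat_dvd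
  · exact pow_succ_padicValNat_not_dvd hB

theorem dep2 (V : ℤ[X]) (hV : V.Monic) (q : ℕ) (hq : 2 ≤ q)
    (hr : ∀ γ : ℂ, aeval γ V = 0 → ‖γ‖ = √(q : ℝ)) :
    ∃ E : ℕ, ∀ (Ω : Type) [Field Ω] [NumberField Ω] (γ : Ω), aeval γ V = 0 → γ ≠ 0 ∧
      ((∀ A B : ℕ, γ ^ A = (q : Ω) ^ B → A = 0) ∨
        ∃ A B f : ℕ, f ≤ E ∧ 2 ^ f ∣ A ∧ ¬ 2 ^ f ∣ B ∧ γ ^ A = (q : Ω) ^ B) := by
  classical
  have h1 : ∀ γ : ℂ, ∃ f : ℕ, aeval γ V = 0 → (∀ A B : ℕ, γ ^ A = (q : ℂ) ^ B → A = 0) ∨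
      ∃ A B : ℕ, 2 ^ f ∣ A ∧ ¬ 2 ^ f ∣ B ∧ γ ^ A = (q : ℂ) ^ B := by
    intro γ
    by_cases h : ∀ A B : ℕ, γ ^ A = (q : ℂ) ^ B → A = 0
    · exact ⟨0, fun _ => Or.inl h⟩
    · by_cases h0 : aeval γ V = 0
      · push Not at h
        obtain ⟨A, B, hAB, hA⟩ := h
        obtain ⟨f, hf, hf'⟩ := dep2_f A B hA (dep2_fix q hq γ (hr γ h0) A B hAB)
        exact ⟨f, fun _ => Or.inr ⟨A, B, hf, hf', hAB⟩⟩
      · exact ⟨0, fun h2 => absurd h2 h0⟩
  choose fF hF using h1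
  obtain ⟨R, hR⟩ : ∃ R : Finset ℂ, R = (V.map (Int.castRingHom ℂ)).roots.toFinset := ⟨_, rfl⟩
  refine ⟨R.sup fF, fun Ω _ _ γ hγ => ?_⟩
  obtain ⟨φ⟩ : Nonempty (Ω →+* ℂ) := inferInstance
  have hφ : aeval (φ γ) V = 0 := by
    have h2 := Polynomial.aeval_algHom_apply (φ.toIntAlgHom) γ V
    rw [hγ, map_zero] at h2
    exact h2
  have hmem : φ γ ∈ R := by
    rw [hR, Multiset.mem_toFinset, mem_roots (hV.map _).ne_zero, IsRoot.def, eval_map]
    rw [aeval_def] at hφ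
    exact hφ
  have hq0 : (0 : ℝ) < q := by
    have : 0 < q := by omega
    exact_mod_cast this
  refine ⟨?_, ?_⟩
  · rintro rfl
    have h3 := hr _ hφ
    rw [map_zero, norm_zero] at h3
    have h4 := Real.sqrt_pos.2 hq0
    rw [← h3] at h4
    exact lt_irrefl _ h4
  · rcases hF (φ γ) hφ with h | ⟨A, B, h2, h3, h4⟩
    · left
      intro A B hAB
      apply h A B
      rw [← map_pow, hAB, map_pow, map_natCast]
    · right
      refine ⟨A, B, fF (φ γ), Finset.le_sup (f := fF) hmem, h2, h3, ?_⟩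
      apply φ.injective
      rw [map_pow, map_pow, h4, map_natCast]

private theorem kgd2_pow {K : Type} [Field K] (x : K) (hx : x ≠ 0) {r j : ℕ} (hr : r.Prime)
    (hrj : ¬ r ∣ j) (y : K) (h : x ^ j = y ^ r) : ∃ z : K, z ^ r = x := by
  have hc : IsCoprime (j : ℤ) (r : ℤ) := by
    rw [Nat.isCoprime_iff_coprime]
    exact ((Nat.Prime.coprime_iff_not_dvd hr).2 hrj).symm
  obtain ⟨a, b, hab⟩ := hc
  refine ⟨y ^ a * x ^ b, ?_⟩
  have h1 : (y ^ a * x ^ b) ^ r = (y ^ r) ^ a * (x ^ r) ^ b := by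
    rw [mul_pow, ← zpow_natCast, ← zpow_natCast, ← zpow_mul, ← zpow_mul, ← zpow_natCast,
      ← zpow_natCast, ← zpow_mul, ← zpow_mul, mul_comm a, mul_comm b]
  rw [h1, ← h, ← zpow_natCast, ← zpow_natCast, ← zpow_mul, ← zpow_mul, ← zpow_add₀ hx]
  have h2 : (j : ℤ) * a + (r : ℤ) * b = 1 := by
    rw [← hab]
    ring
  rw [h2, zpow_one]

private theorem kgd2_over {K Ω : Type} [Field K] [NumberField K] [Field Ω] [NumberField Ω]
    [Algebra K Ω] {W : Pl Ω} {v : Pl K} (h : Over W v) (x : 𝓞 K) :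
    algebraMap (𝓞 K) (𝓞 Ω) x ∈ W.asIdeal ↔ x ∈ v.asIdeal := by
  have h1 : W.asIdeal.comap (algebraMap (𝓞 K) (𝓞 Ω)) = v.asIdeal := h
  rw [← h1, Ideal.mem_comap]

private theorem kgd2_arith (e : ℕ) (he : Odd e) (k : ℕ) (hk : k ≠ 0) :
    ∃ e' : ℕ, (∏ s ∈ insert 2 (3 * e).primeFactors, s ^ k = 2 ^ k * e') ∧ Odd e' ∧ 3 ∣ e' ∧
      (∀ p : ℕ, p.Prime → p ∣ e → p ∣ e') ∧
      ∀ r : ℕ, r.Prime → r ∉ insert 2 (3 * e).primeFactors → r.Coprime e' := by
  classical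
  have h3e : Odd (3 * e) := Nat.odd_mul.2 ⟨by decide, he⟩
  have h3e0 : 3 * e ≠ 0 := h3e.pos.ne'
  have h2 : 2 ∉ (3 * e).primeFactors := by
    intro h
    have h1 := Nat.dvd_of_mem_primeFactors h
    exact (Nat.not_even_iff_odd.2 h3e) (even_iff_two_dvd.2 h1)
  refine ⟨∏ s ∈ (3 * e).primeFactors, s ^ k, Finset.prod_insert h2, ?_, ?_, ?_, ?_⟩
  · refine Finset.prod_induction _ Odd (fun a b => Odd.mul) odd_one (fun s hs => ?_)
    exact (Odd.of_dvd_nat h3e (Nat.dvd_of_mem_primeFactors hs)).pow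
  · have h1 : 3 ∈ (3 * e).primeFactors :=
      Nat.mem_primeFactors.2 ⟨Nat.prime_three, dvd_mul_right _ _, h3e0⟩
    exact dvd_trans (dvd_pow_self 3 hk) (Finset.dvd_prod_of_mem (fun s => s ^ k) h1)
  · intro p hp hpe
    have h1 : p ∈ (3 * e).primeFactors :=
      Nat.mem_primeFactors.2 ⟨hp, Dvd.dvd.mul_left hpe 3, h3e0⟩
    exact dvd_trans (dvd_pow_self p hk) (Finset.dvd_prod_of_mem (fun s => s ^ k) h1)
  · intro r hr hrS
    refine Nat.Coprime.prod_right fun s hs => ?_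
    refine Nat.Coprime.pow_right _ ((Nat.coprime_primes hr (Nat.prime_of_mem_primeFactors hs)).2 ?_)
    rintro rfl
    exact hrS (Finset.mem_insert_of_mem hs)

theorem kgd2 (V : ℤ[X]) (hV : V.Monic) (q : ℕ) (hq : 2 ≤ q)
    (hr : ∀ γ : ℂ, aeval γ V = 0 → ‖γ‖ = √(q : ℝ)) (e : ℕ) (he : Odd e) (B : ℕ) :
    H13.KU.PosDens (fun l => B < l ∧ (orderOf (q : ZMod l)).Coprime e ∧
      ∀ b : ZMod l, (V.map (Int.castRingHom (ZMod l))).eval b = 0 →
        b ^ orderOf (q : ZMod l) ≠ 1) := by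
  classical
  obtain ⟨E0, hE0⟩ := dep2 V hV q hq hr
  obtain ⟨E, hE⟩ : ∃ E : ℕ, E = E0 + 1 := ⟨_, rfl⟩
  obtain ⟨S, hS⟩ : ∃ S : Finset ℕ, S = insert 2 (3 * e).primeFactors := ⟨_, rfl⟩
  have hSp : ∀ s ∈ S, s.Prime := fun s hs => by
    rw [hS, Finset.mem_insert] at hs
    rcases hs with rfl | hs
    · exact Nat.prime_two
    · exact Nat.prime_of_mem_primeFactors hs
  obtain ⟨D, hD⟩ : ∃ D : ℕ, D = 4 * (V.natDegree + 1) + 1 + ∑ s ∈ S, s := ⟨_, rfl⟩
  obtain ⟨r, N, Ω, _, _, _, ζ, ρ, hr', hDr, hζ, hρ, hVs, hγr, hsj⟩ := fldG V hV q hq S hSp E D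
  obtain ⟨e', hprod, he'o, he'3, he'p, he'r⟩ := kgd2_arith e he (N + E) (by omega)
  rw [← hS] at hprod he'r
  obtain ⟨n, hn⟩ : ∃ n : ℕ, n = 2 ^ (N + E) := ⟨_, rfl⟩
  rw [hprod, ← hn, ← mul_assoc] at hζ
  have hn0 : n ≠ 0 := by
    rw [hn]
    exact pow_ne_zero _ two_ne_zero
  have hrn0 : r * n ≠ 0 := mul_ne_zero hr'.ne_zero hn0
  have he'0 : e' ≠ 0 := he'o.pos.ne'
  have hrS : r ∉ S := fun h => by
    have h1 : r ≤ ∑ s ∈ S, s := Finset.single_le_sum (f := fun s => s) (fun s _ => Nat.zero_le s) h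
    omega
  have hcop : (r * n).Coprime e' := by
    refine Nat.Coprime.mul_left (he'r r hr' hrS) ?_
    rw [hn]
    exact Nat.Coprime.pow_left _ (Nat.coprime_two_left.2 he'o)
  have hr2 : r ≠ 2 := by
    rintro rfl
    omega
  have hq0 : q ≠ 0 := by omega
  obtain ⟨σ, κ, hσκ, hσe, hσρ, hσrn⟩ := sgm r n e' q hr' hr2 hq0 hn0 he'o hcop ζ ρ hζ hρ
  have hNpos : 0 < r * n * e' := Nat.mul_pos (Nat.pos_of_ne_zero hrn0) he'o.pos
  have hζ1 : IsPrimitiveRoot (ζ ^ (r * n)) e' := hζ.pow hNpos rfl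
  have hζ2 : IsPrimitiveRoot (ζ ^ e') (r * n) := hζ.pow hNpos (mul_comm _ _)
  have hκ : κ ≠ 0 := by
    rintro rfl
    rw [pow_zero, orderOf_eq_one_iff] at hσκ
    rw [hσκ, AlgEquiv.one_apply] at hσrn
    have h0 : ζ ^ (r * n) ≠ 0 := hζ1.ne_zero he'0
    have h1 : (ζ ^ (r * n)) ^ 2 = 1 := by
      rw [pow_two]
      nth_rewrite 2 [hσrn]
      exact mul_inv_cancel₀ h0
    have h2 := hζ1.dvd_of_pow_eq_one 2 h1
    have h3 := Nat.le_of_dvd two_pos (he'3.trans h2)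
    omega
  obtain ⟨K, K2, _, _, _, _, _, _, c, h2, hc, hfix, T, hT, hTv⟩ := frb σ κ hκ hσκ
  have hinjK : Function.Injective (algebraMap K Ω) := (algebraMap K Ω).injective
  obtain ⟨ζK, hζK⟩ := hfix (ζ ^ e') hσe
  have hζK1 : IsPrimitiveRoot ζK (r * n) := by
    rw [← hζK] at hζ2
    exact hζ2.of_map_of_injective hinjK
  obtain ⟨Γ, hΓ⟩ : ∃ Γ : Finset (𝓞 K), Γ = ((V.map (Int.castRingHom (𝓞 K))).roots.toFinset).filter
      (fun γ => γ ≠ 0 ∧ ∀ A B : ℕ, γ ^ A = (q : 𝓞 K) ^ B → A = 0) := ⟨_, rfl⟩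
  have hΓm : ∀ γ, γ ∈ Γ ↔ (aeval γ V = 0 ∧ γ ≠ 0 ∧
      ∀ A B : ℕ, γ ^ A = (q : 𝓞 K) ^ B → A = 0) := by
    intro γ
    rw [hΓ, Finset.mem_filter, Multiset.mem_toFinset, mem_roots (hV.map _).ne_zero, IsRoot.def,
      eval_map, aeval_def, algebraMap_int_eq]
  have hΓc : Γ.card ≤ V.natDegree := by
    rw [hΓ]
    refine (Finset.card_filter_le _ _).trans ((Multiset.toFinset_card_le _).trans ?_)
    refine (card_roots' _).trans ?_
    rw [hV.natDegree_map]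
  obtain ⟨B0, hB0⟩ := lft σ κ hσκ V hV hVs
  have hcard : 4 * Fintype.card ({x // x ∈ Γ} ⊕ Unit) + 1 ≤ D := by
    rw [Fintype.card_sum, Fintype.card_coe, Fintype.card_unit, hD]
    omega
  have hcoe : ∀ x : 𝓞 K, ((algebraMap (𝓞 K) (𝓞 Ω) x : 𝓞 Ω) : Ω) = algebraMap K Ω (x : K) :=
    fun x => rfl
  obtain ⟨C, hC⟩ := gd2 h2 c hc (r * n) hrn0 ζK hζK1
    (Sum.elim (fun _ => r) (fun _ => 2 ^ N) : {x // x ∈ Γ} ⊕ Unit → ℕ)
    (Sum.elim (fun γ => γ.1) (fun _ => (q : 𝓞 K)))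
    (by
      rintro (γ | s)
      · exact Dvd.intro _ rfl
      · rw [Sum.elim_inr, hn]
        exact Dvd.dvd.mul_left (pow_dvd_pow _ (by omega)) _)
    (by
      rintro (γ | s)
      · exact ((hΓm γ.1).1 γ.2).2.1
      · rw [Sum.elim_inr]
        exact_mod_cast hq0)
    (by
      rintro (γ | s) j hj ⟨y, hy⟩
      · rw [Sum.elim_inl, Sum.elim_inl] at hy
        obtain ⟨hg1, hg2, hg3⟩ := (hΓm γ.1).1 γ.2
        have hx0 : (γ.1 : K) ≠ 0 := by
          rw [Ne, RingOfIntegers.coe_eq_zero_iff]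
          exact hg2
        by_cases hrj : r ∣ j
        · exact (hcard.trans hDr.le).trans (Nat.le_of_dvd (Nat.pos_of_ne_zero hj) hrj)
        · obtain ⟨z, hz⟩ := kgd2_pow _ hx0 hr' hrj y hy
          refine absurd ?_ (hγr (algebraMap K Ω (γ.1 : K)) ?_ ?_ ?_ (algebraMap K Ω z))
          · rw [← map_pow, hz]
          · have h5 : aeval (γ.1 : K) V = 0 := by
              have h6 := aeval_algebraMap_apply K γ.1 V
              rw [hg1, map_zero] at h6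
              exact h6
            have h6 := aeval_algebraMap_apply Ω (γ.1 : K) V
            rw [h5, map_zero] at h6
            exact h6
          · intro h5
            exact hx0 (hinjK (by rw [h5, map_zero]))
          · intro A B hAB
            apply hg3 A B
            apply RingOfIntegers.coe_injective
            apply hinjK
            have h5 : algebraMap K Ω ((γ.1 : K) ^ A) = algebraMap K Ω ((q : K) ^ B) := by
              rw [map_pow, hAB, map_pow, map_natCast]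
            simpa using h5
      · rw [Sum.elim_inr, Sum.elim_inr] at hy
        refine hcard.trans (hsj 2 (by rw [hS]; exact Finset.mem_insert_self _ _) j hj
          ⟨algebraMap K Ω y, ?_⟩)
        rw [← map_pow, ← hy]
        simp)
    T hT (max B (max q (max e' B0)))
  refine lsmc _ (fun l => B < l ∧ (orderOf (q : ZMod l)).Coprime e ∧
      ∀ b : ZMod l, (V.map (Int.castRingHom (ZMod l))).eval b = 0 →
        b ^ orderOf (q : ZMod l) ≠ 1) (fun v hv => ?_) (1 / 4) C (by norm_num) hC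
  obtain ⟨hvT, hv1, hv2, hv3, hv4, hv5⟩ := hv
  obtain ⟨W, j, hj, hW, hF⟩ := hTv v hvT hv1 hv5
  obtain ⟨l, hl⟩ : ∃ l : ℕ, l = nm v := ⟨_, rfl⟩
  rw [← hl] at hv1 hv2 hv3 hv4 hF ⊢
  have hlB : B < l := lt_of_le_of_lt (le_max_left _ _) hv2
  have hlq : q < l := lt_of_le_of_lt ((le_max_left _ _).trans (le_max_right _ _)) hv2
  have hle' : e' < l := lt_of_le_of_lt ((le_max_left _ _).trans ((le_max_right _ _).trans
    (le_max_right _ _))) hv2
  have hlB0 : B0 < l := lt_of_le_of_lt ((le_max_right _ _).trans ((le_max_right _ _).trans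
    (le_max_right _ _))) hv2
  have hlq' : ¬ l ∣ q := fun h => absurd (Nat.le_of_dvd (by omega) h) (not_le.2 hlq)
  have hle'' : ¬ l ∣ e' := fun h => absurd (Nat.le_of_dvd he'o.pos h) (not_le.2 hle')
  have hlW : (l : 𝓞 Ω) ∈ W.asIdeal := by
    have h5 : ((nm v : ℕ) : 𝓞 K) ∈ v.asIdeal := Ideal.absNorm_mem v.asIdeal
    rw [← hl] at h5
    have h6 := (kgd2_over hW _).2 h5
    rwa [map_natCast] at h6
  refine ⟨hv1, hlB, ?_, ?_⟩
  · have h5 := cop σ e' q he'o (ζ ^ (r * n)) hζ1 hσrn W l j hv1 hle'' hlq' hlW hj hF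
    refine Nat.coprime_of_dvd fun p hp hpo hpe => ?_
    have h6 := Nat.dvd_gcd hpo (he'p p hp hpe)
    rw [h5] at h6
    exact hp.one_lt.ne' (Nat.dvd_one.1 h6)
  · intro b hb
    obtain ⟨b', rfl⟩ := ZMod.intCast_surjective b
    have hb1 : (l : ℤ) ∣ V.eval b' := by
      rw [← ZMod.intCast_zmod_eq_zero_iff_dvd]
      rw [eval_intCast_map] at hb
      simpa using hb
    obtain ⟨γ, hγ0, hσγ, hbγ⟩ := hB0 W l j hv1 hlB0 hlW hj hF b' hb1
    obtain ⟨y, hy⟩ := hfix (γ : Ω) hσγ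
    have hγΩ : aeval (γ : Ω) V = 0 := by
      have h6 := aeval_algebraMap_apply Ω γ V
      rw [hγ0, map_zero] at h6
      exact h6
    have hyV : aeval y V = 0 := by
      apply hinjK
      rw [map_zero, ← aeval_algebraMap_apply, hy]
      exact hγΩ
    have hyi : IsIntegral ℤ y := ⟨V, hV, by rw [← aeval_def]; exact hyV⟩
    obtain ⟨γK, hγK⟩ : ∃ γK : 𝓞 K, (γK : K) = y := ⟨⟨y, hyi⟩, rfl⟩
    have hγKγ : algebraMap (𝓞 K) (𝓞 Ω) γK = γ := by
      apply RingOfIntegers.coe_injective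
      change ((algebraMap (𝓞 K) (𝓞 Ω) γK : 𝓞 Ω) : Ω) = (γ : Ω)
      rw [hcoe, hγK, hy]
    have hγKV : aeval γK V = 0 := by
      have h6 := aeval_algebraMap_apply K γK V
      apply RingOfIntegers.coe_injective
      rw [← h6, map_zero]
      change aeval (γK : K) V = 0
      rw [hγK, hyV]
    obtain ⟨hγne, hγd⟩ := hE0 Ω (γ : Ω) hγΩ
    have hρi : IsIntegral ℤ ρ := by
      refine IsIntegral.of_pow hr'.pos ?_
      rw [hρ, ← map_natCast (algebraMap ℤ Ω)]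
      exact isIntegral_algebraMap
    refine loc2 q r N E hr'.ne_zero ρ hρ W l hv1 hlW hlq' ?_ ?_ ?_ γ ?_ b' hbγ
    · obtain ⟨ρi, hρi'⟩ : ∃ ρi : 𝓞 Ω, (ρi : Ω) = ρ := ⟨⟨ρ, hρi⟩, rfl⟩
      obtain ⟨z, hz, hz2⟩ := hF ρi
      refine ⟨z, hz, ?_⟩
      have h7 : ∀ i : ℕ, (σ ^ i) ρ = ρ := by
        intro i
        induction i with
        | zero => simp
        | succ i ih => rw [pow_succ, AlgEquiv.mul_apply, hσρ, ih]
      rw [hρi', h7] at hz2
      exact hz2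
    · rw [← hn]
      exact hv3
    · intro h7
      refine hv4 (Sum.inr ()) ((kgd2_over hW _).1 ?_)
      rw [Sum.elim_inr, Sum.elim_inr, map_sub, map_pow, map_natCast, map_one]
      exact h7
    · rcases hγd with h7 | ⟨A, B', f, h7, h8, h9, h10⟩
      · left
        intro h11
        have hmem : γK ∈ Γ := by
          rw [hΓm]
          refine ⟨hγKV, ?_, ?_⟩
          · rintro rfl
            apply hγne
            rw [← hγKγ]
            simp
          · intro A B' hAB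
            apply h7 A B'
            have h12 : algebraMap (𝓞 K) (𝓞 Ω) (γK ^ A) = algebraMap (𝓞 K) (𝓞 Ω) ((q : 𝓞 K) ^ B') := by
              rw [hAB]
            rw [map_pow, map_pow, map_natCast, hγKγ] at h12
            have h13 := congrArg (fun x : 𝓞 Ω => (x : Ω)) h12
            simpa using h13
        refine hv4 (Sum.inl ⟨γK, hmem⟩) ((kgd2_over hW _).1 ?_)
        rw [Sum.elim_inl, Sum.elim_inl, map_sub, map_pow, map_one, hγKγ]
        exact h11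
      · right
        refine ⟨A, B', f, by omega, h8, h9, ?_⟩
        apply RingOfIntegers.coe_injective
        simpa using h10

end H13.PC
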