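import Pool.Agent.H13.PC.Kb
import Pool.Agent.H13.PC.Ke

/-!
# PC-KG: no supersingular roots, local part

* `sgm'`: the proof of `sgm` in `PC/Kb.lean` (with `n = 1`) does not use that `e` is odd, only that `r` is odd and prime to `e`.
* `cop'`: `e ∣ l + 1` as in the proof of `cop` in `PC/Ke.lean` (there the oddness of `e` is used only at the end). As `4 ∣ e`: `l ≡ 3` modulo `4`, `(l - 1) / 2` is odd. `8 p ∣ e`, `q = p ^ ν`:
  `l ≡ -1` modulo `8` and modulo `p`, so `p` is a square modulo `l` (`p = 2`: `ZMod.exists_sq_eq_two_iff`; `p` odd: quadratic reciprocity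
  (`legendreSym.quadratic_reciprocity'` or `ZMod.exists_sq_eq_prime_iff_of_mod_four_eq_three`): `(p / l) = (-1) ^ ((p - 1) / 2) (l / p)` as `l ≡ 3` modulo `4`, and
  `(l / p) = (-1 / p) = (-1) ^ ((p - 1) / 2)`), so `q` is a square modulo `l` and its order `k` divides `(l - 1) / 2`. `k` is odd. An odd prime dividing `e` and `k` would divide `l - 1` and `l + 1`.
* `loc'`: as `loc2` (first case).
-/

set_option autoImplicit false

open Polynomial NumberField IsDedekindDomain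
open H63.MA (Pl nm PZ Over)

namespace H13.PC

private theorem kg_dvd {Ω : Type} [Field Ω] [NumberField Ω] (W : Pl Ω) (l B : ℕ) (hl : l.Prime)
    (hlW : (l : 𝓞 Ω) ∈ W.asIdeal) (hB : (B : 𝓞 Ω) ∈ W.asIdeal) : l ∣ B := by
  by_contra h
  have hc : Nat.Coprime l B := (hl.coprime_iff_not_dvd).2 h
  have h1 := Nat.gcd_eq_gcd_ab l B
  rw [hc.gcd_eq_one] at h1
  apply W.isPrime.ne_top
  rw [Ideal.eq_top_iff_one]
  have h2 : (1 : 𝓞 Ω) = (l : 𝓞 Ω) * (Nat.gcdA l B : 𝓞 Ω) + (B : 𝓞 Ω) * (Nat.gcdB l B : 𝓞 Ω) := by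
    exact_mod_cast congrArg (fun z : ℤ => (z : 𝓞 Ω)) h1
  rw [h2]
  exact W.asIdeal.add_mem (W.asIdeal.mul_mem_right _ hlW) (W.asIdeal.mul_mem_right _ hB)

theorem sgm' {Ω : Type} [Field Ω] [NumberField Ω] [IsGalois ℚ Ω] (r e q : ℕ) (hr : r.Prime)
    (hr2 : r ≠ 2) (hq : q ≠ 0) (he : e ≠ 0) (hc : r.Coprime e) (ζ ρ : Ω)
    (hζ : IsPrimitiveRoot ζ (r * e)) (hρ : ρ ^ r = (q : Ω)) :
    ∃ (σ : Ω ≃ₐ[ℚ] Ω) (κ : ℕ), orderOf σ = 2 ^ κ ∧ σ (ζ ^ e) = ζ ^ e ∧ σ ρ = ρ ∧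
      σ (ζ ^ r) = (ζ ^ r)⁻¹ := by
  classical
  have he0 : 0 < e := Nat.pos_of_ne_zero he
  have hr0 : 0 < r := hr.pos
  have hN : 0 < r * e := Nat.mul_pos hr0 he0
  obtain ⟨u, hu1, hu2⟩ := Nat.chineseRemainder hc 1 (e - 1)
  have hu1' : u.Coprime r := by
    have h := hu1.gcd_eq
    rw [Nat.gcd_one_left] at h
    exact h
  have hu2' : (u + 1) ≡ 0 [MOD e] := by
    have h := hu2.add_right 1
    rw [Nat.sub_add_cancel he0] at h
    exact h.trans (by simp [Nat.ModEq])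
  have hdvd : e ∣ u + 1 := (Nat.modEq_zero_iff_dvd).1 hu2'
  have hu3 : u.Coprime e := by
    have h := hu2.gcd_eq
    unfold Nat.Coprime
    rw [h]
    have h2 : (e - 1).Coprime (e - 1 + 1) := by simp
    rw [Nat.sub_add_cancel he0] at h2
    exact h2
  have huc : u.Coprime (r * e) := Nat.Coprime.mul_right hu1' hu3
  have hζu : IsPrimitiveRoot (ζ ^ u) (r * e) := hζ.pow_of_coprime u huc
  have hmin : minpoly ℚ ζ = minpoly ℚ (ζ ^ u) := by
    rw [← Polynomial.cyclotomic_eq_minpoly_rat hζ hN, ← Polynomial.cyclotomic_eq_minpoly_rat hζu hN]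
  have hconj : IsConjRoot ℚ (ζ ^ u) ζ := hmin.symm
  obtain ⟨σ₀, hσ₀⟩ := isConjRoot_iff_exists_algEquiv.1 hconj
  have hσζ : σ₀ ζ = ζ ^ u := hσ₀
  have hord : orderOf σ₀ ≠ 0 := (orderOf_pos σ₀).ne'
  obtain ⟨κ, t, ht, hκ⟩ := Nat.exists_eq_two_pow_mul_odd hord
  have hA : σ₀ (ζ ^ e) = ζ ^ e := by
    rw [map_pow, hσζ, ← pow_mul]
    have h1 : u * e ≡ 1 * e [MOD (r * e)] := hu1.mul_right' e
    rw [one_mul] at h1
    rw [pow_eq_pow_mod (u * e) hζ.pow_eq_one, h1]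
    exact (pow_eq_pow_mod e hζ.pow_eq_one).symm
  have hB : σ₀ (ζ ^ r) = (ζ ^ r)⁻¹ := by
    rw [map_pow, hσζ]
    apply eq_inv_of_mul_eq_one_left
    rw [← pow_mul, ← pow_add]
    have h1 : u * r + r = r * (u + 1) := by ring
    rw [h1]
    obtain ⟨c, hc'⟩ := hdvd
    rw [hc', ← mul_assoc, pow_mul, hζ.pow_eq_one, one_pow]
  have hAt : ∀ k : ℕ, (σ₀ ^ k) (ζ ^ e) = ζ ^ e := by
    intro k
    induction k with
    | zero => simp
    | succ k ih => rw [pow_succ, AlgEquiv.mul_apply, hA, ih]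
  have hBt : ∀ k : ℕ, (σ₀ ^ (2 * k)) (ζ ^ r) = ζ ^ r := by
    intro k
    induction k with
    | zero => simp
    | succ k ih =>
      rw [Nat.mul_succ, pow_add, AlgEquiv.mul_apply, pow_two, AlgEquiv.mul_apply, hB, map_inv₀, hB,
        inv_inv, ih]
  refine ⟨σ₀ ^ t, κ, ?_, hAt t, ?_, ?_⟩
  · rw [orderOf_pow_of_dvd (by rintro rfl; simp at ht) ⟨2 ^ κ, by rw [hκ, mul_comm]⟩, hκ]
    exact Nat.mul_div_cancel _ ht.pos
  · set σ := σ₀ ^ t with hσ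
    have hρ0 : ρ ≠ 0 := by
      rintro rfl
      rw [zero_pow hr0.ne'] at hρ
      exact hq (by exact_mod_cast hρ.symm)
    have hξr : (σ ρ / ρ) ^ r = 1 := by
      rw [div_pow, ← map_pow, hρ, map_natCast]
      exact div_self (by exact_mod_cast hq)
    have hprim : IsPrimitiveRoot (ζ ^ e) r := by
      apply hζ.pow hN
      exact mul_comm _ _
    have : NeZero r := ⟨hr0.ne'⟩
    obtain ⟨i, -, hi⟩ := hprim.eq_pow_of_pow_eq_one hξr
    have hσξ : σ (σ ρ / ρ) = σ ρ / ρ := by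
      rw [← hi, map_pow, hAt t]
    set ξ := σ ρ / ρ with hξ
    have hσρ : σ ρ = ξ * ρ := by rw [hξ, div_mul_cancel₀ _ hρ0]
    have hpow : ∀ j : ℕ, (σ ^ j) ρ = ξ ^ j * ρ := by
      intro j
      induction j with
      | zero => simp
      | succ j ih =>
        rw [pow_succ', AlgEquiv.mul_apply, ih, map_mul, map_pow, hσξ, hσρ, pow_succ, mul_assoc]
    have hordσ : orderOf σ = 2 ^ κ := by
      rw [hσ, orderOf_pow_of_dvd (by rintro rfl; simp at ht) ⟨2 ^ κ, by rw [hκ, mul_comm]⟩, hκ]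
      exact Nat.mul_div_cancel _ ht.pos
    have h2 : ξ ^ (2 ^ κ) = 1 := by
      have h3 := hpow (2 ^ κ)
      rw [← hordσ, pow_orderOf_eq_one, AlgEquiv.one_apply] at h3
      rw [← hordσ]
      have h4 : ξ ^ orderOf σ * ρ = 1 * ρ := by rw [one_mul]; exact h3.symm
      exact mul_right_cancel₀ hρ0 h4
    have h5 : ξ ^ (Nat.gcd (2 ^ κ) r) = 1 := pow_gcd_eq_one.2 ⟨h2, hξr⟩
    have h6 : Nat.gcd (2 ^ κ) r = 1 := by
      apply Nat.Coprime.pow_left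
      exact (Nat.coprime_primes Nat.prime_two hr).2 (Ne.symm hr2)
    rw [h6, pow_one] at h5
    rw [hσρ, h5, one_mul]
  · obtain ⟨k, rfl⟩ := ht
    rw [pow_succ, AlgEquiv.mul_apply, hB, map_inv₀, hBt k]

theorem cop' {Ω : Type} [Field Ω] [NumberField Ω] (σ : Ω ≃ₐ[ℚ] Ω) (e p ν : ℕ) (hp : p.Prime)
    (hpe : 8 * p ∣ e) (ζ : Ω) (hζ : IsPrimitiveRoot ζ e) (hσζ : σ ζ = ζ⁻¹) (W : Pl Ω) (l j : ℕ)
    (hl : l.Prime) (hle : ¬ l ∣ e) (hlW : (l : 𝓞 Ω) ∈ W.asIdeal) (hj : Odd j)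
    (hF : ∀ x : 𝓞 Ω, ∃ z ∈ W.asIdeal, (z : Ω) = (σ ^ j) (x : Ω) - (x : Ω) ^ l) :
    (orderOf ((p ^ ν : ℕ) : ZMod l)).Coprime e := by
  classical
  haveI hmax : W.asIdeal.IsMaximal := W.isMaximal
  letI : Field (𝓞 Ω ⧸ W.asIdeal) := Ideal.Quotient.field W.asIdeal
  haveI hlf : Fact l.Prime := ⟨hl⟩
  set π : 𝓞 Ω →+* 𝓞 Ω ⧸ W.asIdeal := Ideal.Quotient.mk W.asIdeal with hπ
  have hπ0 : ∀ x : 𝓞 Ω, π x = 0 ↔ x ∈ W.asIdeal := fun x => Ideal.Quotient.eq_zero_iff_mem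
  have he0 : 0 < e := by
    rcases Nat.eq_zero_or_pos e with h | h
    · exact absurd (h ▸ dvd_zero l) hle
    · exact h
  have hint : IsIntegral ℤ ζ := hζ.isIntegral he0
  obtain ⟨ζ₀, hζ₀⟩ : ∃ ζ₀ : 𝓞 Ω, (ζ₀ : Ω) = ζ := ⟨⟨ζ, hint⟩, rfl⟩
  have hprim : IsPrimitiveRoot ζ₀ e := by
    refine IsPrimitiveRoot.of_map_of_injective (f := algebraMap (𝓞 Ω) Ω) ?_
      (FaithfulSMul.algebraMap_injective (𝓞 Ω) Ω)
    have h1 : algebraMap (𝓞 Ω) Ω ζ₀ = ζ := hζ₀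
    rw [h1]
    exact hζ
  have heW : ((e : ℕ) : 𝓞 Ω ⧸ W.asIdeal) ≠ 0 := by
    intro h
    have h1 : (e : 𝓞 Ω) ∈ W.asIdeal := by
      rw [← hπ0, map_natCast]
      exact h
    exact hle (kg_dvd W l e hl hlW h1)
  haveI : NeZero ((e : ℕ) : 𝓞 Ω ⧸ W.asIdeal) := ⟨heW⟩
  have hz : IsPrimitiveRoot (π ζ₀) e := by
    rw [← isRoot_cyclotomic_iff, ← map_cyclotomic e π]
    exact (hprim.isRoot_cyclotomic he0).map
  -- the powers of `σ`
  have hσj : (σ ^ j) ζ = ζ⁻¹ := by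
    have h2 : ∀ i : ℕ, (σ ^ (2 * i)) ζ = ζ := by
      intro i
      induction i with
      | zero => rfl
      | succ i ih =>
        have h3 : 2 * (i + 1) = 2 * i + 1 + 1 := by ring
        rw [h3, pow_succ, pow_succ, AlgEquiv.mul_apply, AlgEquiv.mul_apply, hσζ, map_inv₀, hσζ,
          inv_inv, ih]
    obtain ⟨i, rfl⟩ := hj
    rw [pow_succ, AlgEquiv.mul_apply, hσζ, map_inv₀, h2]
  have hz1 : π ζ₀ ^ (l + 1) = 1 := by
    obtain ⟨z, hzW, hz'⟩ := hF ζ₀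
    have h1 : ζ₀ * z = 1 - ζ₀ ^ (l + 1) := by
      apply FaithfulSMul.algebraMap_injective (𝓞 Ω) Ω
      have h3 : algebraMap (𝓞 Ω) Ω z = ζ⁻¹ - ζ ^ l := by
        have h4 : algebraMap (𝓞 Ω) Ω z = (σ ^ j) (ζ₀ : Ω) - (ζ₀ : Ω) ^ l := hz'
        rw [h4, hζ₀, hσj]
      have h5 : algebraMap (𝓞 Ω) Ω ζ₀ = ζ := hζ₀
      rw [map_mul, map_sub, map_one, map_pow, h3, h5, pow_succ', mul_sub,
        mul_inv_cancel₀ (hζ.ne_zero he0.ne')]
    have h2 : π (1 - ζ₀ ^ (l + 1)) = 0 := by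
      rw [← h1, hπ0]
      exact W.asIdeal.mul_mem_left _ hzW
    rw [map_sub, map_one, map_pow, sub_eq_zero] at h2
    exact h2.symm
  have hel : e ∣ l + 1 := hz.dvd_of_pow_eq_one _ hz1
  have h8 : 8 * p ∣ l + 1 := hpe.trans hel
  have hl8 : l % 8 = 7 := by
    have h1 : 8 ∣ l + 1 := (Dvd.intro _ rfl).trans h8
    omega
  have hpl : p ∣ l + 1 := (Dvd.intro_left 8 rfl).trans h8
  have hl2 : l ≠ 2 := by
    rintro rfl
    omega
  haveI hpf : Fact p.Prime := ⟨hp⟩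
  have hlp : l ≠ p := by
    rintro rfl
    exact hle ((Dvd.intro_left 8 rfl).trans hpe)
  have hsq : IsSquare (p : ZMod l) := by
    rcases hp.eq_two_or_odd with h2 | h2
    · subst h2
      have h3 := (ZMod.exists_sq_eq_two_iff hl2).2 (Or.inr hl8)
      simpa using h3
    · have h3 : ((l : ℕ) : ZMod p) = -1 := by
        have h4 : ((l + 1 : ℕ) : ZMod p) = 0 := (ZMod.natCast_eq_zero_iff _ _).2 hpl
        push_cast at h4
        exact eq_neg_of_add_eq_zero_left h4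
      have h5 : p % 4 = 1 ∨ p % 4 = 3 := by omega
      rcases h5 with h5 | h5
      · have h6 := (ZMod.exists_sq_eq_prime_iff_of_mod_four_eq_one (p := p) (q := l) h5 hl2)
        rw [h3] at h6
        exact h6.1 (ZMod.exists_sq_eq_neg_one_iff.2 (by omega))
      · have h6 := (ZMod.exists_sq_eq_prime_iff_of_mod_four_eq_three (p := l) (q := p) (by omega) h5 hlp)
        rw [h3] at h6
        exact h6.2 fun h7 => ZMod.exists_sq_eq_neg_one_iff.1 h7 h5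
  obtain ⟨x, hx⟩ := hsq
  have hp0 : (p : ZMod l) ≠ 0 := by
    rw [Ne, ZMod.natCast_eq_zero_iff]
    intro h
    exact hlp ((Nat.prime_dvd_prime_iff_eq hl hp).1 h)
  have hx0 : x ≠ 0 := by
    rintro rfl
    rw [zero_mul] at hx
    exact hp0 hx
  have hk : orderOf ((p ^ ν : ℕ) : ZMod l) ∣ (l - 1) / 2 := by
    apply orderOf_dvd_of_pow_eq_one
    push_cast
    rw [hx, ← pow_two, ← pow_mul, ← pow_mul]
    have h1 : 2 * (ν * ((l - 1) / 2)) = (l - 1) * ν := by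
      have h2 : 2 * ((l - 1) / 2) = l - 1 := by omega
      rw [mul_left_comm, h2, mul_comm]
    rw [h1, pow_mul, ZMod.pow_card_sub_one_eq_one hx0, one_pow]
  have hodd : Odd ((l - 1) / 2) := by
    rw [Nat.odd_iff]
    omega
  have hkodd : Odd (orderOf ((p ^ ν : ℕ) : ZMod l)) := by
    obtain ⟨c, hc⟩ := hk
    rw [hc, Nat.odd_mul] at hodd
    exact hodd.1
  have hkl : orderOf ((p ^ ν : ℕ) : ZMod l) ∣ l - 1 := by
    refine hk.trans ⟨2, ?_⟩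
    omega
  have h1 : Nat.gcd (orderOf ((p ^ ν : ℕ) : ZMod l)) e ∣ 2 := by
    have h2 : Nat.gcd (orderOf ((p ^ ν : ℕ) : ZMod l)) e ∣ l - 1 := (Nat.gcd_dvd_left _ _).trans hkl
    have h3 : Nat.gcd (orderOf ((p ^ ν : ℕ) : ZMod l)) e ∣ l + 1 := (Nat.gcd_dvd_right _ _).trans hel
    have h4 := Nat.dvd_sub h3 h2
    have h5 : l + 1 - (l - 1) = 2 := by
      have := hl.one_le
      omega
    rwa [h5] at h4
  rcases (Nat.dvd_prime Nat.prime_two).1 h1 with h2 | h2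
  · exact h2
  · exfalso
    have h3 : 2 ∣ orderOf ((p ^ ν : ℕ) : ZMod l) := by
      rw [← h2]
      exact Nat.gcd_dvd_left _ _
    exact (Nat.not_even_iff_odd.2 hkodd) (even_iff_two_dvd.2 h3)

theorem loc' {Ω : Type} [Field Ω] [NumberField Ω] (q r : ℕ) (hr : r ≠ 0) (ρ : Ω)
    (hρ : ρ ^ r = (q : Ω)) (W : Pl Ω) (l : ℕ) (hl : l.Prime) (hlW : (l : 𝓞 Ω) ∈ W.asIdeal)
    (hq : ¬ l ∣ q) (hρl : ∃ z ∈ W.asIdeal, (z : Ω) = ρ - ρ ^ l) (hn : r ∣ l - 1) (γ : 𝓞 Ω)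
    (hγ : γ ^ ((l - 1) / r) - 1 ∉ W.asIdeal) (b : ℤ) (hb : (b : 𝓞 Ω) - γ ∈ W.asIdeal) :
    (b : ZMod l) ^ orderOf (q : ZMod l) ≠ 1 := by
  classical
  haveI hmax : W.asIdeal.IsMaximal := W.isMaximal
  letI : Field (𝓞 Ω ⧸ W.asIdeal) := Ideal.Quotient.field W.asIdeal
  haveI hlf : Fact l.Prime := ⟨hl⟩
  set π : 𝓞 Ω →+* 𝓞 Ω ⧸ W.asIdeal := Ideal.Quotient.mk W.asIdeal with hπ
  have hπ0 : ∀ x : 𝓞 Ω, π x = 0 ↔ x ∈ W.asIdeal := fun x => Ideal.Quotient.eq_zero_iff_mem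
  have hπ1 : ∀ x : 𝓞 Ω, π x = 1 ↔ x - 1 ∈ W.asIdeal := fun x => by
    rw [← hπ0, map_sub, map_one, sub_eq_zero]
  have hl0 : (l : 𝓞 Ω ⧸ W.asIdeal) = 0 := by
    have h2 := (hπ0 _).2 hlW
    rwa [map_natCast] at h2
  haveI hchar : CharP (𝓞 Ω ⧸ W.asIdeal) l := by
    obtain ⟨p, hp⟩ := CharP.exists (𝓞 Ω ⧸ W.asIdeal)
    have h1 : p ∣ l := (CharP.cast_eq_zero_iff (𝓞 Ω ⧸ W.asIdeal) p l).1 hl0
    rcases (Nat.dvd_prime hl).1 h1 with h2 | h2
    · exact absurd h2 (CharP.char_ne_one (𝓞 Ω ⧸ W.asIdeal) p)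
    · rw [← h2]
      exact hp
  set F : ZMod l →+* 𝓞 Ω ⧸ W.asIdeal := ZMod.castHom (dvd_refl l) _ with hF
  have hFinj : Function.Injective F := F.injective
  set b' := F (b : ZMod l) with hb'
  set g : 𝓞 Ω ⧸ W.asIdeal := (q : 𝓞 Ω ⧸ W.asIdeal) with hg
  have hFq : F (q : ZMod l) = g := map_natCast F q
  have hπq : π (q : 𝓞 Ω) = g := map_natCast π q
  have hord : orderOf g = orderOf (q : ZMod l) := by
    rw [← hFq]
    exact orderOf_injective (F : ZMod l →* 𝓞 Ω ⧸ W.asIdeal) hFinj _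
  have hγb : b' = π γ := by
    have h1 : F (b : ZMod l) = π (b : 𝓞 Ω) := by rw [map_intCast, map_intCast]
    rw [hb', h1, ← sub_eq_zero, ← map_sub, hπ0]
    exact hb
  have hq0 : (q : ZMod l) ≠ 0 := by
    rw [Ne, ZMod.natCast_eq_zero_iff]
    exact hq
  have hg0 : g ≠ 0 := by
    rw [← hFq]
    exact fun h => hq0 (hFinj (h.trans (map_zero F).symm))
  have hg1 : g ^ (l - 1) = 1 := by
    rw [← hFq, ← map_pow, ZMod.pow_card_sub_one_eq_one hq0, map_one]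
  have hrd : r ∣ l - 1 := hn
  have hgr : g ^ ((l - 1) / r) = 1 := by
    have hint : IsIntegral ℤ ρ := by
      refine IsIntegral.of_pow (Nat.pos_of_ne_zero hr) ?_
      rw [hρ]
      have h1 : ((q : ℤ) : Ω) = (q : Ω) := by push_cast; rfl
      rw [← h1]
      exact isIntegral_algebraMap (R := ℤ) (x := (q : ℤ))
    set ρ₀ : 𝓞 Ω := ⟨ρ, hint⟩ with hρ₀
    have h2 : ρ₀ ^ r = (q : 𝓞 Ω) := by
      apply NumberField.RingOfIntegers.ext
      push_cast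
      exact hρ
    have h3 : π ρ₀ ^ r = g := by
      rw [← map_pow, h2, hπq]
    have h4 : π ρ₀ ≠ 0 := by
      intro h0
      rw [h0, zero_pow hr] at h3
      exact hg0 h3.symm
    have h5 : π ρ₀ = π ρ₀ ^ l := by
      obtain ⟨z, hz, hz'⟩ := hρl
      have h6 : ρ₀ - ρ₀ ^ l = z := by
        apply NumberField.RingOfIntegers.ext
        rw [hz']
        push_cast
        rfl
      rw [← map_pow, ← sub_eq_zero, ← map_sub, h6, hπ0]
      exact hz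
    have h7 : π ρ₀ ^ (l - 1) = 1 := by
      have h8 : π ρ₀ * π ρ₀ ^ (l - 1) = π ρ₀ * 1 := by
        rw [← pow_succ', Nat.sub_add_cancel hl.one_le, mul_one, ← h5]
      exact mul_left_cancel₀ h4 h8
    rw [← h3, ← pow_mul, Nat.mul_div_cancel' hrd]
    exact h7
  have hmain : b' ^ orderOf g ≠ 1 := by
    refine H13.KU.ordA g b' ((l - 1) / r) hgr fun h2 => hγ ?_
    rw [← hπ1, map_pow]
    rw [hγb] at h2
    exact h2
  intro hcon
  apply hmain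
  rw [hord, hb', ← map_pow, hcon, map_one]

end H13.PC
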