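import Pool.Agent.H13.PC.Kg
import Pool.Agent.H13.PC.Ka
import Pool.Agent.H13.PC.Kc
import Pool.Agent.H13.PC.Kd

/-!
# PC-KH: the good primes `l` if no root is supersingular

As `kgd2` in `PC/Kf.lean`, without the part for the prime `2`. All roots `γ` of `V` (in a number field) are `≠ 0` (`hr0`) and satisfy `γ ^ A = q ^ B → A = 0` (`hr`, after an embedding
in `ℂ`). `S = primeFactors (2 e q)`, `E = 4`, `D = 4 (natDegree V) + 1 + ∑_(s ∈ S) s`. `fldG` gives `r, N, Ω, ζ, ρ`; `e' = ∏_(s ∈ S) s ^ (N + 4)`, divisible by `8 p` and by all primes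
dividing `e`; `r > D` is prime, not in `S`, odd. `sgm'` for `r, e'` gives `σ`, `κ`; `κ ≠ 0` (otherwise a primitive root of unity of order `e' > 2` equals its inverse). `frb` gives
`K, K2, c, T`; `ζ ^ e'` (primitive of order `r`) and `ρ` are in `K`. `gd2` over `K` with `n := r`, the root `ζ ^ e'`, `ι = Γ` = the set of the roots `γ ∈ 𝓞 K` of `V`, `m = r`, `α = γ`;
`hd`: if `γ ^ j = y ^ r` in `K` and `r ∤ j`, then `γ` is an `r`-th power in `K` (see `kgd_pow` in `Pool/Agent/H13/KU/Kgd.lean`), against `fldG`; so `j ≥ r > D`.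
`B' = max B (max q (max e' B0))`, `B0` of `lft`. `lsmc` with `c₀ = 1/4`; for `v` in the set of `gd2`, `l = nm v`, `frb` gives `W`, `j`; `cop'` (`q = p ^ ν`) with `ζ ^ r` and `e'`, so
`(orderOf q).Coprime e'`, hence prime to `e`. For a root `b ∈ ZMod l` of `V`: `lft`, `γ ∈ 𝓞 Ω` fixed by `σ`, comes from `γ_K ∈ Γ`, and `loc'`.
-/

set_option autoImplicit false

open Polynomial NumberField IsDedekindDomain
open H63.MA (Pl nm PZ Over)

namespace H13.PC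

private theorem kgd3_pow {K : Type} [Field K] (x : K) (hx : x ≠ 0) {r j : ℕ} (hr : r.Prime)
    (hrj : ¬ r ∣ j) (y : K) (h : x ^ j = y ^ r) : ∃ z : K, z ^ r = x := by
  have hc : IsCoprime (j : ℤ) (r : ℤ) := by
    rw [Nat.isCoprime_iff_coprime]
    exact ((Nat.Prime.coprime_iff_not_dvd hr).2 hrj).symm
  obtain ⟨a, b, hab⟩ := hc
  refine ⟨y ^ a * x ^ b, ?_⟩
  have h1 : (y ^ a * x ^ b) ^ r = (y ^ r) ^ a * (x ^ r) ^ b := by
    rw [mul_pow, ← zpow_natCast, ← zpow_natCast, ← zpow_mul, ← zpow_mul, ← zpow_natCast,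
      ← zpow_natCast, ← zpow_mul, ← zpow_mul, mul_comm a, mul_comm b]
  rw [h1, ← h, ← zpow_natCast, ← zpow_natCast, ← zpow_mul, ← zpow_mul, ← zpow_add₀ hx]
  have h2 : (j : ℤ) * a + (r : ℤ) * b = 1 := by
    rw [← hab]
    ring
  rw [h2, zpow_one]

private theorem kgd3_over {K Ω : Type} [Field K] [NumberField K] [Field Ω] [NumberField Ω]
    [Algebra K Ω] {W : Pl Ω} {v : Pl K} (h : Over W v) (x : 𝓞 K) :
    algebraMap (𝓞 K) (𝓞 Ω) x ∈ W.asIdeal ↔ x ∈ v.asIdeal := by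
  have h1 : W.asIdeal.comap (algebraMap (𝓞 K) (𝓞 Ω)) = v.asIdeal := h
  rw [← h1, Ideal.mem_comap]

private theorem kgd3_arith (e p q : ℕ) (he : e ≠ 0) (hp : p.Prime) (hpq : p ∣ q) (hq : q ≠ 0)
    (N : ℕ) :
    ∃ e' : ℕ, (∏ s ∈ (2 * e * q).primeFactors, s ^ (N + 4) = e') ∧ e' ≠ 0 ∧ 8 * p ∣ e' ∧
      (∀ p : ℕ, p.Prime → p ∣ e → p ∣ e') ∧
      ∀ r : ℕ, r.Prime → r ∉ (2 * e * q).primeFactors → r.Coprime e' := by
  classical
  have h0 : 2 * e * q ≠ 0 := mul_ne_zero (mul_ne_zero two_ne_zero he) hq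
  have hd : ∀ s : ℕ, s.Prime → s ∣ 2 * e * q → s ^ (N + 4) ∣
      ∏ s ∈ (2 * e * q).primeFactors, s ^ (N + 4) := by
    intro s hs hsd
    exact Finset.dvd_prod_of_mem (fun s => s ^ (N + 4)) (Nat.mem_primeFactors.2 ⟨hs, hsd, h0⟩)
  have hd2 : 2 ^ (N + 4) ∣ ∏ s ∈ (2 * e * q).primeFactors, s ^ (N + 4) :=
    hd 2 Nat.prime_two (by rw [mul_assoc]; exact dvd_mul_right _ _)
  have hdp : p ^ (N + 4) ∣ ∏ s ∈ (2 * e * q).primeFactors, s ^ (N + 4) :=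
    hd p hp (Dvd.dvd.mul_left hpq _)
  refine ⟨∏ s ∈ (2 * e * q).primeFactors, s ^ (N + 4), rfl, ?_, ?_, ?_, ?_⟩
  · exact Finset.prod_ne_zero_iff.2 fun s hs =>
      pow_ne_zero _ (Nat.prime_of_mem_primeFactors hs).ne_zero
  · by_cases hp2 : p = 2
    · rw [hp2]
      refine dvd_trans ?_ hd2
      have h1 : 8 * 2 = 2 ^ 4 := by norm_num
      rw [h1]
      exact pow_dvd_pow 2 (by omega)
    · refine Nat.Coprime.mul_dvd_of_dvd_of_dvd ?_ ?_ ?_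
      · have h1 : (8 : ℕ) = 2 ^ 3 := by norm_num
        rw [h1]
        exact Nat.Coprime.pow_left _ ((Nat.coprime_primes Nat.prime_two hp).2 (Ne.symm hp2))
      · refine dvd_trans ?_ hd2
        have h1 : (8 : ℕ) = 2 ^ 3 := by norm_num
        rw [h1]
        exact pow_dvd_pow 2 (by omega)
      · exact dvd_trans (dvd_pow_self p (by omega)) hdp
  · intro s hs hse
    refine dvd_trans (dvd_pow_self s (by omega : N + 4 ≠ 0)) (hd s hs ?_)
    exact Dvd.dvd.mul_right (Dvd.dvd.mul_left hse 2) q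
  · intro r hr hrS
    refine Nat.Coprime.prod_right fun s hs => ?_
    refine Nat.Coprime.pow_right _ ((Nat.coprime_primes hr (Nat.prime_of_mem_primeFactors hs)).2 ?_)
    rintro rfl
    exact hrS hs

private theorem kgd3_ind (V : ℤ[X]) (q : ℕ) (hr0 : V.eval 0 ≠ 0)
    (hr : ∀ γ : ℂ, aeval γ V = 0 → ∀ A B : ℕ, γ ^ A = (q : ℂ) ^ B → A = 0)
    {Ω : Type} [Field Ω] [NumberField Ω] (γ : Ω) (hγ : aeval γ V = 0) :
    γ ≠ 0 ∧ ∀ A B : ℕ, γ ^ A = (q : Ω) ^ B → A = 0 := by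
  obtain ⟨φ⟩ : Nonempty (Ω →+* ℂ) := inferInstance
  have hφ : aeval (φ γ) V = 0 := by
    have h2 := Polynomial.aeval_algHom_apply (φ.toIntAlgHom) γ V
    rw [hγ, map_zero] at h2
    exact h2
  refine ⟨?_, ?_⟩
  · rintro rfl
    apply hr0
    rw [← coeff_zero_eq_aeval_zero', ← coeff_zero_eq_eval_zero] at *
    simpa using hγ
  · intro A B hAB
    apply hr _ hφ A B
    rw [← map_pow, hAB, map_pow, map_natCast]

private theorem kgd3_main (V : ℤ[X]) (hV : V.Monic) (p ν q : ℕ) (hp : p.Prime) (hν : ν ≠ 0)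
    (hqp : q = p ^ ν) (hr0 : V.eval 0 ≠ 0)
    (hr : ∀ γ : ℂ, aeval γ V = 0 → ∀ A B : ℕ, γ ^ A = (q : ℂ) ^ B → A = 0) (e : ℕ)
    (he : e ≠ 0) (B : ℕ) :
    H13.KU.PosDens (fun l => B < l ∧ (orderOf (q : ZMod l)).Coprime e ∧
      ∀ b : ZMod l, (V.map (Int.castRingHom (ZMod l))).eval b = 0 →
        b ^ orderOf (q : ZMod l) ≠ 1) := by
  classical
  have hq : 2 ≤ q := by
    rw [hqp]
    exact Nat.one_lt_pow hν hp.one_lt
  have hq0 : q ≠ 0 := by omega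
  have hpq : p ∣ q := by
    rw [hqp]
    exact dvd_pow_self p hν
  obtain ⟨S, hS⟩ : ∃ S : Finset ℕ, S = (2 * e * q).primeFactors := ⟨_, rfl⟩
  have hSp : ∀ s ∈ S, s.Prime := fun s hs => by
    rw [hS] at hs
    exact Nat.prime_of_mem_primeFactors hs
  have h2S : 2 ∈ S := by
    rw [hS]
    exact Nat.mem_primeFactors.2 ⟨Nat.prime_two, by rw [mul_assoc]; exact dvd_mul_right _ _,
      mul_ne_zero (mul_ne_zero two_ne_zero he) hq0⟩
  obtain ⟨D, hD⟩ : ∃ D : ℕ, D = 4 * V.natDegree + 1 + ∑ s ∈ S, s := ⟨_, rfl⟩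
  obtain ⟨r, N, Ω, _, _, _, ζ, ρ, hr', hDr, hζ, hρ, hVs, hγr, -⟩ := fldG V hV q hq S hSp 4 D
  obtain ⟨e', hprod, he'0, he'8, he'p, he'r⟩ := kgd3_arith e p q he hp hpq hq0 N
  rw [← hS] at hprod he'r
  rw [hprod] at hζ
  have hrS : r ∉ S := fun h => by
    have h1 : r ≤ ∑ s ∈ S, s := Finset.single_le_sum (f := fun s => s) (fun s _ => Nat.zero_le s) h
    omega
  have hcop : r.Coprime e' := he'r r hr' hrS
  have hr2 : r ≠ 2 := by
    rintro rfl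
    exact hrS h2S
  obtain ⟨σ, κ, hσκ, hσe, hσρ, hσrn⟩ := sgm' r e' q hr' hr2 hq0 he'0 hcop ζ ρ hζ hρ
  have hNpos : 0 < r * e' := Nat.mul_pos hr'.pos (Nat.pos_of_ne_zero he'0)
  have hζ1 : IsPrimitiveRoot (ζ ^ r) e' := hζ.pow hNpos rfl
  have hζ2 : IsPrimitiveRoot (ζ ^ e') r := hζ.pow hNpos (mul_comm _ _)
  have hκ : κ ≠ 0 := by
    rintro rfl
    rw [pow_zero, orderOf_eq_one_iff] at hσκ
    rw [hσκ, AlgEquiv.one_apply] at hσrn
    have h0 : ζ ^ r ≠ 0 := hζ1.ne_zero he'0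
    have h1 : (ζ ^ r) ^ 2 = 1 := by
      rw [pow_two]
      nth_rewrite 2 [hσrn]
      exact mul_inv_cancel₀ h0
    have h2 := hζ1.dvd_of_pow_eq_one 2 h1
    have h3 : 8 ∣ 2 := (dvd_mul_right 8 p).trans (he'8.trans h2)
    omega
  obtain ⟨K, K2, _, _, _, _, _, _, c, h2, hc, hfix, T, hT, hTv⟩ := frb σ κ hκ hσκ
  have hinjK : Function.Injective (algebraMap K Ω) := (algebraMap K Ω).injective
  obtain ⟨ζK, hζK⟩ := hfix (ζ ^ e') hσe
  have hζK1 : IsPrimitiveRoot ζK r := by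
    rw [← hζK] at hζ2
    exact hζ2.of_map_of_injective hinjK
  obtain ⟨Γ, hΓ⟩ : ∃ Γ : Finset (𝓞 K), Γ = (V.map (Int.castRingHom (𝓞 K))).roots.toFinset :=
    ⟨_, rfl⟩
  have hΓm : ∀ γ, γ ∈ Γ ↔ aeval γ V = 0 := by
    intro γ
    rw [hΓ, Multiset.mem_toFinset, mem_roots (hV.map _).ne_zero, IsRoot.def,
      eval_map, aeval_def, algebraMap_int_eq]
  have hΓc : Γ.card ≤ V.natDegree := by
    rw [hΓ]
    refine (Multiset.toFinset_card_le _).trans ?_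
    refine (card_roots' _).trans ?_
    rw [hV.natDegree_map]
  obtain ⟨B0, hB0⟩ := lft σ κ hσκ V hV hVs
  have hcard : 4 * Fintype.card {x // x ∈ Γ} + 1 ≤ D := by
    rw [Fintype.card_coe, hD]
    omega
  have hcoe : ∀ x : 𝓞 K, ((algebraMap (𝓞 K) (𝓞 Ω) x : 𝓞 Ω) : Ω) = algebraMap K Ω (x : K) :=
    fun x => rfl
  have hΓK : ∀ γ ∈ Γ, aeval (γ : K) V = 0 := by
    intro γ hγ
    have h6 := aeval_algebraMap_apply K γ V
    rw [(hΓm γ).1 hγ, map_zero] at h6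
    exact h6
  obtain ⟨C, hC⟩ := gd2 h2 c hc r hr'.ne_zero ζK hζK1 (fun _ : {x // x ∈ Γ} => r)
    (fun γ => γ.1) (fun _ => dvd_rfl)
    (by
      intro γ h0
      apply (kgd3_ind V q hr0 hr (γ.1 : K) (hΓK γ.1 γ.2)).1
      rw [h0]
      simp)
    (by
      rintro γ j hj ⟨y, hy⟩
      obtain ⟨hg2, hg3⟩ := kgd3_ind V q hr0 hr (γ.1 : K) (hΓK γ.1 γ.2)
      by_cases hrj : r ∣ j
      · exact (hcard.trans hDr.le).trans (Nat.le_of_dvd (Nat.pos_of_ne_zero hj) hrj)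
      · obtain ⟨z, hz⟩ := kgd3_pow _ hg2 hr' hrj y hy
        have h5 : aeval (algebraMap K Ω (γ.1 : K)) V = 0 := by
          have h6 := aeval_algebraMap_apply Ω (γ.1 : K) V
          rw [hΓK γ.1 γ.2, map_zero] at h6
          exact h6
        obtain ⟨h6, h7⟩ := kgd3_ind V q hr0 hr (algebraMap K Ω (γ.1 : K)) h5
        refine absurd ?_ (hγr (algebraMap K Ω (γ.1 : K)) h5 h6 h7 (algebraMap K Ω z))
        rw [← map_pow, hz])
    T hT (max B (max q (max e' B0)))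
  refine lsmc _ (fun l => B < l ∧ (orderOf (q : ZMod l)).Coprime e ∧
      ∀ b : ZMod l, (V.map (Int.castRingHom (ZMod l))).eval b = 0 →
        b ^ orderOf (q : ZMod l) ≠ 1) (fun v hv => ?_) (1 / 4) C (by norm_num) hC
  obtain ⟨hvT, hv1, hv2, hv3, hv4, hv5⟩ := hv
  obtain ⟨W, j, hj, hW, hF⟩ := hTv v hvT hv1 hv5
  obtain ⟨l, hl⟩ : ∃ l : ℕ, l = nm v := ⟨_, rfl⟩
  rw [← hl] at hv1 hv2 hv3 hv4 hF ⊢
  have hlB : B < l := lt_of_le_of_lt (le_max_left _ _) hv2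
  have hlq : q < l := lt_of_le_of_lt ((le_max_left _ _).trans (le_max_right _ _)) hv2
  have hle' : e' < l := lt_of_le_of_lt ((le_max_left _ _).trans ((le_max_right _ _).trans
    (le_max_right _ _))) hv2
  have hlB0 : B0 < l := lt_of_le_of_lt ((le_max_right _ _).trans ((le_max_right _ _).trans
    (le_max_right _ _))) hv2
  have hlq' : ¬ l ∣ q := fun h => absurd (Nat.le_of_dvd (by omega) h) (not_le.2 hlq)
  have hle'' : ¬ l ∣ e' := fun h =>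
    absurd (Nat.le_of_dvd (Nat.pos_of_ne_zero he'0) h) (not_le.2 hle')
  have hlW : (l : 𝓞 Ω) ∈ W.asIdeal := by
    have h5 : ((nm v : ℕ) : 𝓞 K) ∈ v.asIdeal := Ideal.absNorm_mem v.asIdeal
    rw [← hl] at h5
    have h6 := (kgd3_over hW _).2 h5
    rwa [map_natCast] at h6
  refine ⟨hv1, hlB, ?_, ?_⟩
  · have h5 := cop' σ e' p ν hp he'8 (ζ ^ r) hζ1 hσrn W l j hv1 hle'' hlW hj hF
    rw [← hqp] at h5
    refine Nat.coprime_of_dvd fun p' hp' hpo hpe => ?_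
    have h6 := Nat.dvd_gcd hpo (he'p p' hp' hpe)
    rw [h5] at h6
    exact hp'.one_lt.ne' (Nat.dvd_one.1 h6)
  · intro b hb
    obtain ⟨b', rfl⟩ := ZMod.intCast_surjective b
    have hb1 : (l : ℤ) ∣ V.eval b' := by
      rw [← ZMod.intCast_zmod_eq_zero_iff_dvd]
      rw [eval_intCast_map] at hb
      simpa using hb
    obtain ⟨γ, hγ0, hσγ, hbγ⟩ := hB0 W l j hv1 hlB0 hlW hj hF b' hb1
    obtain ⟨y, hy⟩ := hfix (γ : Ω) hσγ
    have hγΩ : aeval (γ : Ω) V = 0 := by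
      have h6 := aeval_algebraMap_apply Ω γ V
      rw [hγ0, map_zero] at h6
      exact h6
    have hyV : aeval y V = 0 := by
      apply hinjK
      rw [map_zero, ← aeval_algebraMap_apply, hy]
      exact hγΩ
    have hyi : IsIntegral ℤ y := ⟨V, hV, by rw [← aeval_def]; exact hyV⟩
    obtain ⟨γK, hγK⟩ : ∃ γK : 𝓞 K, (γK : K) = y := ⟨⟨y, hyi⟩, rfl⟩
    have hγKγ : algebraMap (𝓞 K) (𝓞 Ω) γK = γ := by
      apply RingOfIntegers.coe_injective
      change ((algebraMap (𝓞 K) (𝓞 Ω) γK : 𝓞 Ω) : Ω) = (γ : Ω)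
      rw [hcoe, hγK, hy]
    have hγKV : aeval γK V = 0 := by
      have h6 := aeval_algebraMap_apply K γK V
      apply RingOfIntegers.coe_injective
      rw [← h6, map_zero]
      change aeval (γK : K) V = 0
      rw [hγK, hyV]
    have hρi : IsIntegral ℤ ρ := by
      refine IsIntegral.of_pow hr'.pos ?_
      rw [hρ, ← map_natCast (algebraMap ℤ Ω)]
      exact isIntegral_algebraMap
    refine loc' q r hr'.ne_zero ρ hρ W l hv1 hlW hlq' ?_ hv3 γ ?_ b' hbγ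
    · obtain ⟨ρi, hρi'⟩ : ∃ ρi : 𝓞 Ω, (ρi : Ω) = ρ := ⟨⟨ρ, hρi⟩, rfl⟩
      obtain ⟨z, hz, hz2⟩ := hF ρi
      refine ⟨z, hz, ?_⟩
      have h7 : ∀ i : ℕ, (σ ^ i) ρ = ρ := by
        intro i
        induction i with
        | zero => simp
        | succ i ih => rw [pow_succ, AlgEquiv.mul_apply, hσρ, ih]
      rw [hρi', h7] at hz2
      exact hz2
    · intro h11
      refine hv4 ⟨γK, (hΓm γK).2 hγKV⟩ ((kgd3_over hW _).1 ?_)
      rw [map_sub, map_pow, map_one, hγKγ]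
      exact h11

theorem kgd3 (V : ℤ[X]) (hV : V.Monic) (p ν : ℕ) (hp : p.Prime) (hν : ν ≠ 0)
    (hr0 : V.eval 0 ≠ 0)
    (hr : ∀ γ : ℂ, aeval γ V = 0 → ∀ A B : ℕ, γ ^ A = ((p ^ ν : ℕ) : ℂ) ^ B → A = 0) (e : ℕ)
    (he : e ≠ 0) (B : ℕ) :
    H13.KU.PosDens (fun l => B < l ∧ (orderOf ((p ^ ν : ℕ) : ZMod l)).Coprime e ∧
      ∀ b : ZMod l, (V.map (Int.castRingHom (ZMod l))).eval b = 0 →
        b ^ orderOf ((p ^ ν : ℕ) : ZMod l) ≠ 1) :=
  kgd3_main V hV p ν (p ^ ν) hp hν rfl hr0 hr e he B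

end H13.PC
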