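import Pool.Agent.H13.PC.Ph
import Pool.Agent.H13.PC.Or

/-!
# PC-LO: a place where the order is the weight
-/

set_option autoImplicit false

open Polynomial

noncomputable section

namespace H13.PC

variable {F : Type} [Field F] {a b p r M : ℕ} {τ : F[X]} {f : F[X][X]} {m : ℕ} {e : Fin m → ℕ}
  {E : Fin m → Type} [∀ i, Field (E i)] [∀ i, Algebra F (E i)] {c : ∀ i, E i}

theorem lo (h : a * r = b * p + 1) (hI : Inf M τ e c) (y : ∀ i, PowerSeries (E i))
    (hy : ∀ i, PowerSeries.constantCoeff (y i) = c i) (I : Finset (Fin m)) (g : F[X][X])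
    (hg : g ≠ 0) (hd : g.natDegree < a * ∑ i ∈ I, e i) :
    ∃ i ∈ I, evy (y i) (Phi a b p r g) ≠ 0 ∧
      (evy (y i) (Phi a b p r g)).order = -((Phi a b p r g).natDegree : ℤ) := by
  obtain ⟨k, G, h1, h2, h3⟩ := phi_lead h g hg _ hd
  by_contra hcon
  push Not at hcon
  refine absurd (hI.sep I G h2 fun i hi => ?_) (not_le.2 h3)
  by_contra h4
  have h5 : aeval (PowerSeries.constantCoeff (y i)) (Phi a b p r g).leadingCoeff ≠ 0 := by
    rw [h1, hy i, map_mul, map_pow, aeval_X]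
    exact mul_ne_zero (pow_ne_zero _ (hI.ne i)) h4
  obtain ⟨h6, h7⟩ := evy_order (y i) _ h5
  exact hcon i hi h6 h7

end H13.PC
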