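import Pool.Agent.H13.PC.Ak
import Pool.Agent.H13.PC.Def
import Pool.Agent.H13.CZ.Cnt
import Pool.Agent.H13.CZ.Orb
import Pool.Agent.H13.CZ.Exl

/-!
# PC-NE: the multiplicity of `q` as a Frobenius eigenvalue

As `H13.CZ.noeig` in `Pool/Agent/H13/CZ/Main.lean`, with `asmk` instead of `asm`.
`V = (X - 1) ^ (m - 1) P₁`, `P₁ = P ∏_i (1 + X + .. + X ^ (e i - 1))`, so `(X - 1) V = P ∏ (X ^ (e i) - 1)`
(`Polynomial.mul_geom_sum`/`geom_sum_mul`, `m ≠ 0`). The sum of the `r`-th powers of the roots of `V` is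
`∑_P ρ ^ r + ∑_i [e i ∣ r] e i - 1` (the roots of `X ^ e - 1` are the `e`-th roots of unity, the sum of their `r`-th powers is `e` if
`e ∣ r` and `0` otherwise), so `hP.npt` says `npt f r = q ^ r - ∑_V ρ ^ r` as in `noeig`. `P₁(1) = c ∏ e i` is prime to `l`.
-/

set_option autoImplicit false

open Polynomial

noncomputable section

namespace H13.PC

theorem psum_unity (e : ℕ) (he : e ≠ 0) (r : ℕ) (hr : r ≠ 0) :
    (((X ^ e - 1 : ℤ[X]).aroots ℂ).map fun ρ => ρ ^ r).sum = if e ∣ r then (e : ℂ) else 0 := by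
  have hζ := Complex.isPrimitiveRoot_exp e he
  obtain ⟨ζ, hζd⟩ : ∃ ζ : ℂ, ζ = Complex.exp (2 * Real.pi * Complex.I / e) := ⟨_, rfl⟩
  rw [← hζd] at hζ
  have h1 : (X ^ e - 1 : ℤ[X]).aroots ℂ = (Multiset.range e).map fun i => ζ ^ i := by
    have h2 : (X ^ e - 1 : ℤ[X]).aroots ℂ = nthRoots e (1 : ℂ) := by
      unfold nthRoots aroots
      congr 1
      simp
    rw [h2, hζ.nthRoots_eq (one_pow e)]
    simp
  rw [h1, Multiset.map_map]
  have h3 : ((Multiset.range e).map ((fun ρ : ℂ => ρ ^ r) ∘ fun i => ζ ^ i)).sum =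
      ∑ i ∈ Finset.range e, (ζ ^ r) ^ i := by
    change ∑ i ∈ Finset.range e, (ζ ^ i) ^ r = _
    refine Finset.sum_congr rfl fun i _ => ?_
    rw [← pow_mul, ← pow_mul, mul_comm]
  rw [h3]
  split_ifs with hd
  · have h4 : ζ ^ r = 1 := (hζ.pow_eq_one_iff_dvd r).2 hd
    simp [h4]
  · have h4 : ζ ^ r ≠ 1 := fun h => hd ((hζ.pow_eq_one_iff_dvd r).1 h)
    have h5 : (∑ i ∈ Finset.range e, (ζ ^ r) ^ i) * (ζ ^ r - 1) = 0 := by
      rw [geom_sum_mul, ← pow_mul, mul_comm, pow_mul, hζ.pow_eq_one, one_pow, sub_self]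
    exact (mul_eq_zero.1 h5).resolve_right (sub_ne_zero.2 h4)

private theorem ne_xe (e : ℕ) (he : e ≠ 0) : (X ^ e - 1 : ℤ[X]) ≠ 0 := by
  have h : (X ^ e - 1 : ℤ[X]).Monic := by
    have := monic_X_pow_sub_C (1 : ℤ) he
    rwa [map_one] at this
  exact h.ne_zero

private theorem ne_psum {m : ℕ} (e : Fin m → ℕ) (he : ∀ i, e i ≠ 0) (r : ℕ) (hr : r ≠ 0) (s : Finset (Fin m)) :
    (((∏ i ∈ s, (X ^ e i - 1 : ℤ[X])).aroots ℂ).map fun ρ => ρ ^ r).sum =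
      ∑ i ∈ s, if e i ∣ r then (e i : ℂ) else 0 := by
  classical
  induction s using Finset.induction_on with
  | empty => simp
  | insert a s ha ih =>
    rw [Finset.prod_insert ha, Finset.sum_insert ha, aroots_mul, Multiset.map_add, Multiset.sum_add, ih,
      psum_unity (e a) (he a) r hr]
    exact mul_ne_zero (ne_xe _ (he a)) (Finset.prod_ne_zero_iff.2 fun i _ => ne_xe _ (he i))

theorem noeigk {F : Type} [Field F] [Finite F] {f : F[X][X]} {m : ℕ} {e : Fin m → ℕ} {P : ℤ[X]}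
    {c : ℕ} (hP : IsP f e P c) (hm : m ≠ 0) (he : ∀ i, e i ≠ 0) (l s : ℕ) (hl : l.Prime)
    (hs : s ≠ 0) (hq : l ^ s ∣ Nat.card F - 1) (hlc : ¬ l ∣ c) (hle : ∀ i, ¬ l ∣ e i)
    (A : Multiset ℂ) (hA : ∀ r : ℕ, r ≠ 0 → (H13.CZ.spt f (l ^ s) r : ℂ) =
      (Nat.card F : ℂ) ^ (2 * r) + (A.map fun α => α ^ r).sum) :
    A.count (Nat.card F : ℂ) ≤ (m - 1) * (l ^ s - 1) := by
  classical
  have hn : l ^ s ≠ 0 := pow_ne_zero _ hl.ne_zero
  have hq2 : 2 ≤ Nat.card F := Finite.one_lt_card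
  have hlq : l ∣ Nat.card F - 1 := (dvd_pow_self l hs).trans hq
  obtain ⟨P₁, hP₁⟩ : ∃ P₁ : ℤ[X], P₁ = P * ∏ i, ∑ j ∈ Finset.range (e i), (X : ℤ[X]) ^ j := ⟨_, rfl⟩
  obtain ⟨V, hV⟩ : ∃ V : ℤ[X], V = (X - 1) ^ (m - 1) * P₁ := ⟨_, rfl⟩
  have hX1 : (X - 1 : ℤ[X]).Monic := by
    have := monic_X_sub_C (1 : ℤ)
    rwa [map_one] at this
  have hVm : V.Monic := by
    rw [hV, hP₁]
    exact (hX1.pow _).mul (hP.monic.mul (monic_prod_of_monic _ _ fun i _ => monic_geom_sum_X (he i)))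
  have hXV : (X - 1) * V = P * ∏ i, (X ^ e i - 1 : ℤ[X]) := by
    have h1 : ∀ i ∈ (Finset.univ : Finset (Fin m)), (X ^ e i - 1 : ℤ[X]) =
        (X - 1) * ∑ j ∈ Finset.range (e i), (X : ℤ[X]) ^ j := fun i _ => (mul_geom_sum X (e i)).symm
    rw [Finset.prod_congr rfl h1, Finset.prod_mul_distrib, Finset.prod_const, Finset.card_univ, Fintype.card_fin,
      hV, hP₁]
    obtain ⟨k, rfl⟩ := Nat.exists_eq_succ_of_ne_zero hm
    rw [Nat.succ_sub_one, pow_succ]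
    ring
  have hVs : ∀ r : ℕ, r ≠ 0 → ((V.aroots ℂ).map fun ρ => ρ ^ r).sum =
      ((P.aroots ℂ).map fun ρ => ρ ^ r).sum + (∑ i, if e i ∣ r then (e i : ℂ) else 0) - 1 := by
    intro r hr
    have h1 := congrArg (fun p : ℤ[X] => ((p.aroots ℂ).map fun ρ => ρ ^ r).sum) hXV
    have h2 : (P * ∏ i, (X ^ e i - 1 : ℤ[X])) ≠ 0 :=
      mul_ne_zero hP.monic.ne_zero (Finset.prod_ne_zero_iff.2 fun i _ => ne_xe _ (he i))
    have h3 : ((X - 1 : ℤ[X]) * V) ≠ 0 := mul_ne_zero hX1.ne_zero hVm.ne_zero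
    have h4 : (X - 1 : ℤ[X]).aroots ℂ = {1} := by
      have := aroots_X_sub_C (S := ℂ) (1 : ℤ)
      simpa using this
    rw [aroots_mul h3, aroots_mul h2, Multiset.map_add, Multiset.map_add, Multiset.sum_add, Multiset.sum_add,
      ne_psum e he r hr, h4, Multiset.map_singleton, Multiset.sum_singleton, one_pow] at h1
    rw [← h1]
    ring
  have hP1 : ¬ (l : ℤ) ∣ P₁.eval 1 := by
    have h1 : P₁.eval 1 = ((c * ∏ i, e i : ℕ) : ℤ) := by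
      rw [hP₁, eval_mul, hP.one, eval_prod]
      push_cast
      congr 1
      refine Finset.prod_congr rfl fun i _ => ?_
      simp [eval_finsetSum]
    rw [h1, Int.natCast_dvd_natCast]
    intro h2
    rcases (Nat.Prime.dvd_mul hl).1 h2 with h3 | h3
    · exact hlc h3
    · obtain ⟨i, -, h4⟩ := (Prime.dvd_finsetProd_iff hl.prime _).1 h3
      exact hle i h4
  obtain ⟨E, hE, hEl⟩ := H13.CZ.exl l hl (fun r => ((l ^ s * H13.CZ.wpt f (l ^ s) r : ℕ) : ℤ))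
    (fun r j hr hj => by exact_mod_cast H13.CZ.wdv f l s r j hl hr hq hj)
  refine asmk l (l ^ s) (Nat.card F) (m - 1) hl hlq hq2 hn V P₁ hVm hV hP1 _ E hE hEl A ?_
  intro r hr
  have h1 := H13.CZ.cnt f (l ^ s) r hn hr hq
  have h2 : (H13.TA.npt f r : ℂ) = (Nat.card F : ℂ) ^ r - ((V.aroots ℂ).map fun ρ => ρ ^ r).sum := by
    rw [hP.npt r hr, hVs r hr]
    ring
  have h3 : (H13.CZ.spt f (l ^ s) r : ℂ) = ((l ^ s : ℕ) : ℂ) * (Nat.card F : ℂ) ^ (2 * r) -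
      (((l ^ s : ℕ) : ℂ) - 1) * (H13.TA.npt f r : ℂ) - ((l ^ s : ℕ) : ℂ) * (H13.CZ.wpt f (l ^ s) r : ℂ) := by
    have h4 := congrArg (Int.cast : ℤ → ℂ) h1
    push_cast at h4 ⊢
    exact h4
  rw [hA r hr, h2] at h3
  have h5 : (A.map fun α => α ^ r).sum = ((l ^ s : ℕ) : ℂ) * (Nat.card F : ℂ) ^ (2 * r) -
      (((l ^ s : ℕ) : ℂ) - 1) * ((Nat.card F : ℂ) ^ r - ((V.aroots ℂ).map fun ρ => ρ ^ r).sum) -
      ((l ^ s : ℕ) : ℂ) * (H13.CZ.wpt f (l ^ s) r : ℂ) - (Nat.card F : ℂ) ^ (2 * r) := by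
    rw [← h3]
    ring
  rw [h5]
  push_cast
  ring

end H13.PC
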