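import Pool.Agent.H13.PC.Ne

/-!
# PC-NS: the number of points of the curve as a sum of powers
-/

set_option autoImplicit false

open Polynomial

noncomputable section

namespace H13.PC

private theorem ns_xe (e : ℕ) (he : e ≠ 0) : (X ^ e - 1 : ℤ[X]) ≠ 0 := by
  have h : (X ^ e - 1 : ℤ[X]).Monic := by
    have := monic_X_pow_sub_C (1 : ℤ) he
    rwa [map_one] at this
  exact h.ne_zero

private theorem ns_psum {m : ℕ} (e : Fin m → ℕ) (he : ∀ i, e i ≠ 0) (r : ℕ) (hr : r ≠ 0) (s : Finset (Fin m)) :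
    (((∏ i ∈ s, (X ^ e i - 1 : ℤ[X])).aroots ℂ).map fun ρ => ρ ^ r).sum =
      ∑ i ∈ s, if e i ∣ r then (e i : ℂ) else 0 := by
  classical
  induction s using Finset.induction_on with
  | empty => simp
  | insert a s ha ih =>
    rw [Finset.prod_insert ha, Finset.sum_insert ha, aroots_mul, Multiset.map_add, Multiset.sum_add, ih,
      psum_unity (e a) (he a) r hr]
    exact mul_ne_zero (ns_xe _ (he a)) (Finset.prod_ne_zero_iff.2 fun i _ => ns_xe _ (he i))

/-- the number of points of the curve is `q ^ r` minus the sum of the `r`-th powers of a multiset which contains the roots of `P` -/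
theorem ns {F : Type} [Field F] [Finite F] {f : F[X][X]} {m : ℕ} {e : Fin m → ℕ} {P : ℤ[X]}
    {c : ℕ} (hP : IsP f e P c) (hm : m ≠ 0) (he : ∀ i, e i ≠ 0) :
    ∃ A : Multiset ℂ, (∀ γ : ℂ, aeval γ P = 0 → γ ∈ A) ∧ ∀ r : ℕ, r ≠ 0 →
      (H13.TA.npt f r : ℂ) = (Nat.card F : ℂ) ^ r - (A.map fun α => α ^ r).sum := by
  classical
  obtain ⟨P₁, hP₁⟩ : ∃ P₁ : ℤ[X], P₁ = P * ∏ i, ∑ j ∈ Finset.range (e i), (X : ℤ[X]) ^ j := ⟨_, rfl⟩
  obtain ⟨V, hV⟩ : ∃ V : ℤ[X], V = (X - 1) ^ (m - 1) * P₁ := ⟨_, rfl⟩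
  have hX1 : (X - 1 : ℤ[X]).Monic := by
    have := monic_X_sub_C (1 : ℤ)
    rwa [map_one] at this
  have hVm : V.Monic := by
    rw [hV, hP₁]
    exact (hX1.pow _).mul (hP.monic.mul (monic_prod_of_monic _ _ fun i _ => monic_geom_sum_X (he i)))
  have hXV : (X - 1) * V = P * ∏ i, (X ^ e i - 1 : ℤ[X]) := by
    have h1 : ∀ i ∈ (Finset.univ : Finset (Fin m)), (X ^ e i - 1 : ℤ[X]) =
        (X - 1) * ∑ j ∈ Finset.range (e i), (X : ℤ[X]) ^ j := fun i _ => (mul_geom_sum X (e i)).symm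
    rw [Finset.prod_congr rfl h1, Finset.prod_mul_distrib, Finset.prod_const, Finset.card_univ, Fintype.card_fin,
      hV, hP₁]
    obtain ⟨k, rfl⟩ := Nat.exists_eq_succ_of_ne_zero hm
    rw [Nat.succ_sub_one, pow_succ]
    ring
  refine ⟨V.aroots ℂ, ?_, ?_⟩
  · intro γ hγ
    rw [mem_aroots]
    refine ⟨hVm.ne_zero, ?_⟩
    rw [hV, hP₁]
    simp [hγ]
  · intro r hr
    have h1 := congrArg (fun p : ℤ[X] => ((p.aroots ℂ).map fun ρ => ρ ^ r).sum) hXV
    have h2 : (P * ∏ i, (X ^ e i - 1 : ℤ[X])) ≠ 0 :=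
      mul_ne_zero hP.monic.ne_zero (Finset.prod_ne_zero_iff.2 fun i _ => ns_xe _ (he i))
    have h3 : ((X - 1 : ℤ[X]) * V) ≠ 0 := mul_ne_zero hX1.ne_zero hVm.ne_zero
    have h4 : (X - 1 : ℤ[X]).aroots ℂ = {1} := by
      have := aroots_X_sub_C (S := ℂ) (1 : ℤ)
      simpa using this
    rw [aroots_mul h3, aroots_mul h2, Multiset.map_add, Multiset.map_add, Multiset.sum_add, Multiset.sum_add,
      ns_psum e he r hr, h4, Multiset.map_singleton, Multiset.sum_singleton, one_pow] at h1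
    rw [hP.npt r hr]
    have h5 : ((V.aroots ℂ).map fun ρ => ρ ^ r).sum =
      ((P.aroots ℂ).map fun ρ => ρ ^ r).sum + (∑ i, if e i ∣ r then (e i : ℂ) else 0) - 1 := by
      rw [← h1]
      ring
    rw [h5]
    ring

end H13.PC
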