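import Pool.Agent.H13.PC.Inf

/-!
# PC-PH: the homomorphism `Phi`

`Phi` maps `d t ^ j x ^ i` to `d y ^ (p j + r i) z ^ (a j + b i)`; by `a r = b p + 1` the map
`(i, j) ↦ (p j + r i, a j + b i) = (k, n)` is injective: `i = a k - p n`, `j = r n - b k`.

* `phi_coeff`, `phi_mem`: write `g` as the sum of its monomials.
* `phi_deg`, `phi_zero` from these two.
* `phi_lead`: let `n` be the degree of `Phi g`. The monomials `(i, j)` of `g` with `a j + b i = n` all have the same `i` modulo `a` (`a`, `b` are
  coprime by `a r = b p + 1`): `i = i₀ + a k`, `i₀ < a`, `j = j₀ - b k`, `j₀ = (n - b i₀) / a`, and `p j + r i = (p j₀ + r i₀) + k`. So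
  the leading coefficient is `y ^ (p j₀ + r i₀) ∑_k g_k y ^ k`, and `a k ≤ i < a K`.
* `phi_f`: the monomials of `f` have `a j + b i ≤ a b M`; if equality holds, `i = a k`, `j = b (M - k)`, coefficient `τ_k`
  (`h.top`), exponent `p b (M - k) + r a k = b p M + k`.
* `phi_mon`: the monomial `x ^ d` of `g` goes to `z ^ (b d)` times a power of `y`.
* `phi_const`: `a j + b i = 0` only for `i = j = 0`.
-/

set_option autoImplicit false

open Polynomial

noncomputable section

namespace H13.PC

variable {F : Type} [Field F] {a b p r : ℕ}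

private theorem phi_mono (i j : ℕ) (c : F) : Phi a b p r (monomial i (monomial j c)) =
    monomial (a * j + b * i) (monomial (p * j + r * i) c) := by
  unfold Phi
  rw [coe_eval₂RingHom, eval₂_monomial, coe_eval₂RingHom, eval₂_monomial]
  rw [← C_mul_X_pow_eq_monomial, ← C_mul_X_pow_eq_monomial, RingHom.comp_apply]
  simp only [map_mul, map_pow]
  ring

private theorem phi_sum (g : F[X][X]) : Phi a b p r g =
    ∑ i ∈ g.support, ∑ j ∈ (g.coeff i).support,
      monomial (a * j + b * i) (monomial (p * j + r * i) ((g.coeff i).coeff j)) := by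
  conv_lhs => rw [g.as_sum_support]
  rw [map_sum]
  refine Finset.sum_congr rfl fun i _ => ?_
  conv_lhs => rw [(g.coeff i).as_sum_support]
  rw [map_sum, map_sum]
  exact Finset.sum_congr rfl fun j _ => phi_mono i j _

private theorem co_mono (n k n' k' : ℕ) (c : F) :
    ((monomial n' (monomial k' c) : F[X][X]).coeff n).coeff k = if n' = n ∧ k' = k then c else 0 := by
  rw [coeff_monomial]
  by_cases h1 : n' = n
  · rw [if_pos h1, coeff_monomial]
    by_cases h2 : k' = k
    · rw [if_pos h2, if_pos ⟨h1, h2⟩]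
    · rw [if_neg h2, if_neg (fun h => h2 h.2)]
  · rw [if_neg h1, if_neg (fun h => h1 h.1), coeff_zero]

private theorem phi_co (g : F[X][X]) (n k : ℕ) : ((Phi a b p r g).coeff n).coeff k =
    ∑ i ∈ g.support, ∑ j ∈ (g.coeff i).support,
      if a * j + b * i = n ∧ p * j + r * i = k then (g.coeff i).coeff j else 0 := by
  rw [phi_sum]
  simp only [finset_sum_coeff, co_mono]

private theorem ij_inj (h : a * r = b * p + 1) {i j i' j' : ℕ} (h1 : a * j' + b * i' = a * j + b * i)
    (h2 : p * j' + r * i' = p * j + r * i) : i' = i ∧ j' = j := by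
  zify at *
  constructor
  · linear_combination a * h2 - p * h1 - (i' - i : ℤ) * h
  · linear_combination r * h1 - b * h2 - (j' - j : ℤ) * h

theorem phi_coeff (h : a * r = b * p + 1) (g : F[X][X]) (i j : ℕ) :
    ((Phi a b p r g).coeff (a * j + b * i)).coeff (p * j + r * i) = (g.coeff i).coeff j := by
  classical
  rw [phi_co]
  have key : ∀ i' j', (a * j' + b * i' = a * j + b * i ∧ p * j' + r * i' = p * j + r * i) ↔ (i' = i ∧ j' = j) := by
    intro i' j'
    constructor
    · rintro ⟨h1, h2⟩
      exact ij_inj h h1 h2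
    · rintro ⟨rfl, rfl⟩
      exact ⟨rfl, rfl⟩
  simp only [key]
  by_cases hi : i ∈ g.support
  · rw [Finset.sum_eq_single i]
    · by_cases hj : j ∈ (g.coeff i).support
      · rw [Finset.sum_eq_single j]
        · rw [if_pos ⟨rfl, rfl⟩]
        · intro j' _ hj'
          rw [if_neg (fun h0 => hj' h0.2)]
        · intro h0
          exact absurd hj h0
      · rw [Finset.sum_eq_zero]
        · rw [notMem_support_iff] at hj
          exact hj.symm
        · intro j' hj'
          rw [if_neg]
          rintro ⟨-, rfl⟩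
          exact hj hj'
    · intro i' _ hi'
      refine Finset.sum_eq_zero fun j' _ => ?_
      rw [if_neg (fun h0 => hi' h0.1)]
    · intro h0
      exact absurd hi h0
  · rw [Finset.sum_eq_zero]
    · rw [notMem_support_iff] at hi
      rw [hi, coeff_zero]
    · intro i' hi'
      refine Finset.sum_eq_zero fun j' _ => ?_
      rw [if_neg]
      rintro ⟨rfl, -⟩
      exact hi hi'

theorem phi_mem (g : F[X][X]) (n k : ℕ) (h0 : ((Phi a b p r g).coeff n).coeff k ≠ 0) :
    ∃ i j, n = a * j + b * i ∧ k = p * j + r * i ∧ (g.coeff i).coeff j ≠ 0 := by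
  rw [phi_co] at h0
  obtain ⟨i, -, h1⟩ := Finset.exists_ne_zero_of_sum_ne_zero h0
  obtain ⟨j, hj, h2⟩ := Finset.exists_ne_zero_of_sum_ne_zero h1
  by_cases h3 : a * j + b * i = n ∧ p * j + r * i = k
  · exact ⟨i, j, h3.1.symm, h3.2.symm, mem_support_iff.1 hj⟩
  · rw [if_neg h3] at h2
    exact absurd rfl h2

theorem phi_deg (h : a * r = b * p + 1) (g : F[X][X]) (n : ℕ) :
    (Phi a b p r g).natDegree ≤ n ↔ ∀ i j, (g.coeff i).coeff j ≠ 0 → a * j + b * i ≤ n := by
  constructor
  · intro h1 i j h2
    by_contra h3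
    push Not at h3
    have h4 := coeff_eq_zero_of_natDegree_lt (lt_of_le_of_lt h1 h3)
    have h5 := phi_coeff h g i j
    rw [h4, coeff_zero] at h5
    exact h2 h5.symm
  · intro h1
    rw [natDegree_le_iff_coeff_eq_zero]
    intro N hN
    ext k
    rw [coeff_zero]
    by_contra h2
    obtain ⟨i, j, h3, -, h4⟩ := phi_mem g N k h2
    have h5 := h1 i j h4
    omega

theorem phi_zero (h : a * r = b * p + 1) (g : F[X][X]) : Phi a b p r g = 0 ↔ g = 0 := by
  constructor
  · intro h1
    ext i j
    rw [← phi_coeff h g i j, h1]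
    simp
  · rintro rfl
    exact map_zero _

theorem phi_lead (h : a * r = b * p + 1) (g : F[X][X]) (hg : g ≠ 0) (K : ℕ)
    (hK : g.natDegree < a * K) : ∃ (k : ℕ) (G : F[X]), (Phi a b p r g).leadingCoeff = X ^ k * G ∧
      G ≠ 0 ∧ G.natDegree < K := by
  have h0 : Phi a b p r g ≠ 0 := fun h1 => hg ((phi_zero h g).1 h1)
  obtain ⟨n, hn⟩ : ∃ n, n = (Phi a b p r g).natDegree := ⟨_, rfl⟩
  obtain ⟨lc, hlc⟩ : ∃ lc, lc = (Phi a b p r g).leadingCoeff := ⟨_, rfl⟩
  have hlc' : lc = (Phi a b p r g).coeff n := by rw [hlc, hn]; rfl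
  have hlc0 : lc ≠ 0 := by
    rw [hlc]
    exact leadingCoeff_ne_zero.2 h0
  have key : ∀ k, lc.coeff k ≠ 0 → ∃ i, a * k = i + p * n ∧ i < a * K := by
    intro k hk
    rw [hlc'] at hk
    obtain ⟨i, j, h1, h2, h3⟩ := phi_mem g n k hk
    refine ⟨i, ?_, ?_⟩
    · rw [h1, h2]
      zify at *
      linear_combination (i : ℤ) * h
    · refine lt_of_le_of_lt (le_natDegree_of_ne_zero ?_) hK
      intro h4
      rw [h4, coeff_zero] at h3
      exact h3 rfl
  obtain ⟨G, hG⟩ : X ^ lc.natTrailingDegree ∣ lc := by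
    rw [X_pow_dvd_iff]
    intro d hd
    exact coeff_eq_zero_of_lt_natTrailingDegree hd
  have hG0 : G ≠ 0 := by
    rintro rfl
    rw [mul_zero] at hG
    exact hlc0 hG
  refine ⟨lc.natTrailingDegree, G, ?_, hG0, ?_⟩
  · rw [← hlc]
    exact hG
  · have h1 : lc.natDegree = lc.natTrailingDegree + G.natDegree := by
      conv_lhs => rw [hG]
      rw [natDegree_mul (pow_ne_zero _ X_ne_zero) hG0, natDegree_X_pow]
    obtain ⟨i0, h2, -⟩ := key lc.natTrailingDegree (by
      have := trailingCoeff_nonzero_iff_nonzero.2 hlc0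
      exact this)
    obtain ⟨i1, h3, h4⟩ := key lc.natDegree (by
      have := leadingCoeff_ne_zero.2 hlc0
      exact this)
    rw [h1, mul_add] at h3
    have h5 : a * G.natDegree < a * K := by omega
    exact lt_of_mul_lt_mul_left h5 (Nat.zero_le _)

theorem phi_f (h : a * r = b * p + 1) {M : ℕ} {τ : F[X]} {f : F[X][X]} (hf : Qh a b M τ f) :
    (Phi a b p r f).natDegree = a * b * M ∧
      (Phi a b p r f).leadingCoeff = X ^ (b * p * M) * τ := by
  have ha : 0 < a := Nat.pos_of_ne_zero hf.ha
  have hle : (Phi a b p r f).natDegree ≤ a * b * M := by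
    rw [phi_deg h]
    intro i j hij
    have h1 : f.coeff i ≠ 0 := by
      intro h0
      rw [h0, coeff_zero] at hij
      exact hij rfl
    have h2 := hf.wt i h1
    have h3 : j ≤ (f.coeff i).natDegree := le_natDegree_of_ne_zero hij
    have h4 := Nat.mul_le_mul_left a h3
    omega
  -- the coefficients with weight `a b M`
  have key : ∀ k, ((Phi a b p r f).coeff (a * b * M)).coeff k ≠ 0 → ∃ i, i ≤ M ∧ k = b * p * M + i := by
    intro k hk
    obtain ⟨i, j, h1, h2, -⟩ := phi_mem f _ k hk
    have h3 : a ∣ b * i := by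
      have h4 : a ∣ a * j + b * i := by
        rw [← h1, mul_assoc]
        exact dvd_mul_right _ _
      exact (Nat.dvd_add_right (dvd_mul_right a j)).1 h4
    obtain ⟨i', rfl⟩ := hf.cop.dvd_of_dvd_mul_left h3
    have h5 : b * M = j + b * i' := by
      have h6 : a * (b * M) = a * (j + b * i') := by
        rw [← mul_assoc, h1]
        ring
      exact Nat.eq_of_mul_eq_mul_left ha h6
    refine ⟨i', ?_, ?_⟩
    · have h6 : b * i' ≤ b * M := by omega
      exact le_of_mul_le_mul_left h6 (Nat.pos_of_ne_zero hf.hb)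
    · rw [h2]
      zify at *
      linear_combination (-(p : ℤ)) * h5 + (i' : ℤ) * h
  have hco : ∀ i, i ≤ M → ((Phi a b p r f).coeff (a * b * M)).coeff (b * p * M + i) = τ.coeff i := by
    intro i hi
    rw [← hf.top i hi, ← phi_coeff h f (a * i) (b * (M - i))]
    obtain ⟨d, rfl⟩ : ∃ d, M = i + d := ⟨M - i, by omega⟩
    rw [Nat.add_sub_cancel_left]
    have e1 : a * (b * d) + b * (a * i) = a * b * (i + d) := by ring
    have e2 : p * (b * d) + r * (a * i) = b * p * (i + d) + i := by
      have : r * (a * i) = (a * r) * i := by ring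
      rw [this, h]
      ring
    rw [e1, e2]
  have hmain : (Phi a b p r f).coeff (a * b * M) = X ^ (b * p * M) * τ := by
    ext k
    rw [coeff_X_pow_mul']
    split_ifs with h1
    · obtain ⟨i, rfl⟩ : ∃ i, k = b * p * M + i := ⟨k - b * p * M, by omega⟩
      rw [Nat.add_sub_cancel_left]
      by_cases hi : i ≤ M
      · exact hco i hi
      · have h2 : τ.coeff i = 0 := coeff_eq_zero_of_natDegree_lt (by rw [hf.tdeg]; omega)
        rw [h2]
        by_contra h3
        obtain ⟨i', h4, h5⟩ := key _ h3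
        omega
    · by_contra h3
      obtain ⟨i', h4, h5⟩ := key _ h3
      omega
  have hne : (Phi a b p r f).coeff (a * b * M) ≠ 0 := by
    rw [hmain]
    exact mul_ne_zero (pow_ne_zero _ X_ne_zero) hf.tmon.ne_zero
  have hdeg : (Phi a b p r f).natDegree = a * b * M := le_antisymm hle (le_natDegree_of_ne_zero hne)
  refine ⟨hdeg, ?_⟩
  rw [← hmain, ← hdeg]
  rfl

theorem phi_mon (h : a * r = b * p + 1) (g : F[X][X]) (hg : g.Monic) :
    b * g.natDegree ≤ (Phi a b p r g).natDegree := by
  have h1 := (phi_deg h g _).1 le_rfl g.natDegree 0 (by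
    have : g.coeff g.natDegree = 1 := hg
    rw [this, coeff_one_zero]
    exact one_ne_zero)
  rw [mul_zero, zero_add] at h1
  exact h1

theorem phi_const (h : a * r = b * p + 1) (hb : b ≠ 0) (g : F[X][X])
    (h0 : (Phi a b p r g).natDegree = 0) : ∃ c : F, g = C (C c) := by
  have ha : a ≠ 0 := by
    rintro rfl
    rw [zero_mul] at h
    omega
  have h1 := (phi_deg h g 0).1 h0.le
  refine ⟨(g.coeff 0).coeff 0, ?_⟩
  ext i j
  by_cases hi : i = 0
  · subst hi
    rw [coeff_C_zero]
    by_cases hj : j = 0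
    · subst hj
      rw [coeff_C_zero]
    · rw [coeff_C_ne_zero hj]
      by_contra h2
      have h3 := h1 0 j h2
      rw [mul_zero, add_zero] at h3
      have h4 : 0 < a * j := Nat.mul_pos (Nat.pos_of_ne_zero ha) (Nat.pos_of_ne_zero hj)
      omega
  · rw [coeff_C_ne_zero hi, coeff_zero]
    by_contra h2
    have h3 := h1 i j h2
    have h4 : 0 < b * i := Nat.mul_pos (Nat.pos_of_ne_zero hb) (Nat.pos_of_ne_zero hi)
    omega

end H13.PC
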