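import Pool.Agent.H13.PC.La

/-!
# PC-PRF: the genus and the product formula

`E = ∑ e i`.

* `gen_ex`: with `n0` of `hr.hinf`, `g = 1 + n0 E - ell ⊤ n0`; induction on `n ≥ n0` (`Int.le_induction`).
* `ell_big`: `n0` of `hg`. Let `w i ≥ n0` for all `i`, `N` an upper bound of the `w i`. By `ell_le`
  `ell ⊤ w ≤ ell ⊤ n0 + dw (w - n0)` and `ell ⊤ N ≤ ell ⊤ w + dw (N - w)`, and `ell ⊤ N = ell ⊤ n0 + (N - n0) E` by `hg`, so the
  first inequality is an equality.
* `prf`: let `r ≠ 0`. `O/(r)` is finite dimensional (`H13.TA.ideg_fin`), so there are finitely many `x_j ∈ O` whose classes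
  span it; choose `w` with `w i ≥ n0`, `w i + W i r ≥ n0` and `w i + W i r ≥ W i x_j` for all `i`, `j` with `x_j ≠ 0`. With
  `w' = w + W r` the map `L ⊤ w' → O/(r)` is onto with kernel `L (r) w'`, so `ell ⊤ w' = ell (r) w' + ideg (r)`;
  `ell (r) w' = ell ⊤ w` (`ell_mul` with `J = ⊤`, `Ideal.mul_top`), and `ell_big` for `w` and `w'` gives
  `ideg (r) = dw w' - dw w = dw (W r)`.
-/

set_option autoImplicit false

open Polynomial

noncomputable section

namespace H13.PC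

variable {F : Type} [Field F] {m : ℕ} {f : F[X][X]} {e : Fin m → ℕ} {W : Fin m → AdjoinRoot f → ℤ}

theorem gen_ex (h : Pls f e W) (hr : Rie h) : ∃ g : ℤ, IsGen h g := by
  obtain ⟨n0, hn0⟩ := hr.hinf
  refine ⟨1 + n0 * ∑ i, (e i : ℤ) - (ell h ⊤ (fun _ => n0) : ℤ), n0, ?_⟩
  intro n hn
  induction n, hn using Int.leInduction with
  | base => ring
  | succ n hn ih =>
    rw [hn0 n hn]
    push_cast
    rw [ih]
    ring

private theorem prf_dw_sub (w w' : Fin m → ℤ) : dw e (w - w') = dw e w - dw e w' := by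
  unfold dw
  rw [← Finset.sum_sub_distrib]
  refine Finset.sum_congr rfl fun i _ => ?_
  rw [Pi.sub_apply]
  ring

private theorem prf_dw_const (n : ℤ) : dw e (fun _ => n) = n * ∑ i, (e i : ℤ) := by
  unfold dw
  rw [Finset.mul_sum]
  refine Finset.sum_congr rfl fun i _ => ?_
  ring

theorem ell_big (h : Pls f e W) (hr : Rie h) {g : ℤ} (hg : IsGen h g) :
    ∃ n0 : ℤ, ∀ w : Fin m → ℤ, (∀ i, n0 ≤ w i) → (ell h ⊤ w : ℤ) = dw e w + 1 - g := by
  obtain ⟨n0, hn0⟩ := hg
  refine ⟨n0, fun w hw => ?_⟩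
  have hsum : 0 ≤ ∑ j, (w j - n0) := Finset.sum_nonneg fun j _ => by linarith [hw j]
  have hle : ∀ i, w i ≤ n0 + ∑ j, (w j - n0) := by
    intro i
    have := Finset.single_le_sum (f := fun j => w j - n0) (fun j _ => by linarith [hw j]) (Finset.mem_univ i)
    linarith
  set N : ℤ := n0 + ∑ j, (w j - n0) with hN
  have h1 := ell_le h hr ⊤ (w := fun _ => n0) (w' := w) (fun i => hw i)
  have h2 := ell_le h hr ⊤ (w := w) (w' := fun _ => N) (fun i => hle i)
  rw [prf_dw_sub, prf_dw_const] at h1 h2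
  have h3 := hn0 N (by linarith)
  have h4 := hn0 n0 le_rfl
  linarith

private theorem prf_ker (h : Pls f e W) (I : Ideal (AdjoinRoot f)) (w : Fin m → ℤ) :
    (LinearMap.ker ((Ideal.Quotient.mkₐ F I).toLinearMap ∘ₗ (L h ⊤ w).subtype)).map (L h ⊤ w).subtype =
      L h I w := by
  ext x
  rw [Submodule.mem_map]
  constructor
  · rintro ⟨y, hy, rfl⟩
    rw [LinearMap.mem_ker] at hy
    refine ⟨?_, y.2.2⟩
    exact Ideal.Quotient.eq_zero_iff_mem.1 hy
  · rintro ⟨h1, h2⟩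
    refine ⟨⟨x, ⟨Submodule.mem_top, h2⟩⟩, ?_, rfl⟩
    rw [LinearMap.mem_ker]
    exact Ideal.Quotient.eq_zero_iff_mem.2 h1

theorem prf (h : Pls f e W) (hr : Rie h) {r : AdjoinRoot f} (hr0 : r ≠ 0) :
    (H13.TA.ideg f (Ideal.span {r}) : ℤ) = dw e (fun i => W i r) := by
  classical
  have hd := h.dom
  obtain ⟨g, hg⟩ := gen_ex h hr
  obtain ⟨n0, hn0⟩ := ell_big h hr hg
  set I : Ideal (AdjoinRoot f) := Ideal.span {r} with hI
  have hI0 : I ≠ ⊥ := by
    rw [hI, Ne, Ideal.span_singleton_eq_bot]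
    exact hr0
  have hfin := H13.TA.ideg_fin h.monic hI0
  obtain ⟨S, hS⟩ := hfin.fg_top
  choose x hx using fun y : AdjoinRoot f ⧸ I => Ideal.Quotient.mk_surjective y
  set B : ℤ := |n0| + ∑ j, |W j r| + ∑ s ∈ S, ∑ j, |W j (x s)| with hB
  have hB1 : 0 ≤ ∑ s ∈ S, ∑ j, |W j (x s)| :=
    Finset.sum_nonneg fun s _ => Finset.sum_nonneg fun j _ => abs_nonneg _
  have hB2 : ∀ i, |W i r| ≤ ∑ j, |W j r| := fun i =>
    Finset.single_le_sum (f := fun j => |W j r|) (fun j _ => abs_nonneg _) (Finset.mem_univ i)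
  have hB3 : ∀ s ∈ S, ∀ i, |W i (x s)| ≤ ∑ s ∈ S, ∑ j, |W j (x s)| := by
    intro s hs i
    have h1 : |W i (x s)| ≤ ∑ j, |W j (x s)| :=
      Finset.single_le_sum (f := fun j => |W j (x s)|) (fun j _ => abs_nonneg _) (Finset.mem_univ i)
    have h2 : ∑ j, |W j (x s)| ≤ ∑ s ∈ S, ∑ j, |W j (x s)| :=
      Finset.single_le_sum (f := fun s => ∑ j, |W j (x s)|)
        (fun s _ => Finset.sum_nonneg fun j _ => abs_nonneg _) hs
    exact h1.trans h2
  set w : Fin m → ℤ := fun _ => B with hw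
  set w' : Fin m → ℤ := w + fun i => W i r with hw'
  have hw1 : ∀ i, n0 ≤ w i := by
    intro i
    have h1 := le_abs_self n0
    have h2 : 0 ≤ ∑ j, |W j r| := Finset.sum_nonneg fun j _ => abs_nonneg _
    simp only [hw, hB]
    linarith
  have hw2 : ∀ i, n0 ≤ w' i := by
    intro i
    have h1 := le_abs_self n0
    have h2 := hB2 i
    have h3 := neg_abs_le (W i r)
    simp only [hw', hw, Pi.add_apply, hB]
    linarith
  have hw3 : ∀ s ∈ S, ∀ i, W i (x s) ≤ w' i := by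
    intro s hs i
    have h1 := abs_nonneg n0
    have h2 := hB2 i
    have h3 := neg_abs_le (W i r)
    have h4 := hB3 s hs i
    have h5 := le_abs_self (W i (x s))
    simp only [hw', hw, Pi.add_apply, hB]
    linarith
  have hfw := L_fin h hr ⊤ w'
  set φ : L h ⊤ w' →ₗ[F] AdjoinRoot f ⧸ I :=
    (Ideal.Quotient.mkₐ F I).toLinearMap ∘ₗ (L h ⊤ w').subtype with hφ
  have hrange : LinearMap.range φ = ⊤ := by
    rw [eq_top_iff, ← hS, Submodule.span_le]
    intro s hs
    refine ⟨⟨x s, ⟨Submodule.mem_top, Or.inr fun i => hw3 s hs i⟩⟩, ?_⟩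
    exact hx s
  have h1 := LinearMap.finrank_range_add_finrank_ker φ
  rw [hrange, finrank_top] at h1
  have h2 : Module.finrank F (LinearMap.ker φ) = ell h I w' := by
    rw [← Submodule.finrank_map_subtype_eq, hφ, prf_ker]
    rfl
  have h3 : ell h I w' = ell h ⊤ w := by
    have h4 := ell_mul h hr0 ⊤ w
    rw [Ideal.mul_top] at h4
    exact h4
  have h5 := hn0 w hw1
  have h6 := hn0 w' hw2
  have h7 : dw e w' = dw e w + dw e (fun i => W i r) := by
    unfold dw
    rw [← Finset.sum_add_distrib]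
    refine Finset.sum_congr rfl fun i _ => ?_
    simp only [hw', Pi.add_apply]
    ring
  have h8 : (H13.TA.ideg f I : ℤ) + (ell h ⊤ w : ℤ) = (ell h ⊤ w' : ℤ) := by
    rw [← h3, ← h2]
    exact_mod_cast h1
  linarith

end H13.PC
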