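import Pool.Agent.H13.PC.Dm

/-!
# PC-PW: the pole orders

`φ = evy y ∘ Phi : F[t][x] → E((s))` (a field), `φ(f) = 0` (`hy.zero`), so `φ(g)` only depends on the class of `g` in `O`.

* `wy_mk`: with `g₀` the chosen representative of the class of `g`, `f ∣ g - g₀` (`AdjoinRoot.mk_eq_mk`), so `φ(g) = φ(g₀)`.
* `ev_ne`: the induced `φ : O → E((s))` is injective: its kernel is a prime ideal of the domain `O`, `O` is integral over `F[t]`
  (`f` monic), so if it were `≠ 0` it would contain some `q(t) ≠ 0` (e.g. the norm, or the constant coefficient of a minimal equation;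
  `Ideal.exists_coeff_ne_zero_mem_comap_of_root_mem`, `Ideal.comap_ne_bot_of_integral_mem` or like). But `φ(q(t))` has order `-a deg q` by `evy_order`: for
  `q = ∑ q_j t ^ j` of degree `n`, `Phi q = ∑ q_j y ^ (p j) z ^ (a j)` has leading coefficient `q_n y ^ (p n)` (`a ≥ 1`), `≠ 0` at
  `y(0) = c ≠ 0`.
* `rep`: division by the monic `f` of degree `a M`: each `u ∈ O` is the class of some `g` with `g.natDegree < a M` (`modByMonic`).
* `wy_max`: `u ≠ 0` the class of such a `g`; `lo` with `I = univ` (`hI.sum`) gives `i` with `W i u = natDegree (Phi g)`, and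
  `W i u ≤ natDegree (Phi g)` for all `i` (`evy_le`).
* `pls`: `mul`, `add`: `HahnSeries.order_mul`, `HahnSeries.min_order_le_order_add`; `cst`: `φ(c) = c` (`Phi (C (C c)) = C (C c)`,
  `evy_const`) has order `0`; `glob`: by `wy_max` `natDegree (Phi g) ≤ 0`, so `g` is constant (`phi_const`); `ne`: `m ≠ 0` as
  `∑ e i = M ≠ 0`; `pos`: `e i` is the degree of the finite field extension `E i`.
-/

set_option autoImplicit false

open Polynomial

noncomputable section

namespace H13.PC

variable {F : Type} [Field F] {a b p r M : ℕ} {τ : F[X]} {f : F[X][X]}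

section one

variable {E : Type} [Field E] [Algebra F E] {c : E}

private theorem ev_mk {y : PowerSeries E} (hy : IsY a b p r f c y) {g g' : F[X][X]} (h : f ∣ g - g') :
    evy (F := F) y (Phi a b p r g) = evy y (Phi a b p r g') := by
  obtain ⟨k, hk⟩ := h
  have h1 : g = f * k + g' := by rw [← hk, sub_add_cancel]
  rw [h1, map_add, map_add, map_mul, map_mul, hy.zero, zero_mul, zero_add]

private theorem phi_C (q : F[X]) : Phi a b p r (C q) = (q.map (C : F →+* F[X])).comp (C (X ^ p) * X ^ a) := by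
  unfold Phi
  rw [coe_eval₂RingHom, eval₂_C, coe_eval₂RingHom, comp, eval₂_map]

private theorem phi_C_lead (ha : a ≠ 0) {q : F[X]} :
    (Phi a b p r (C q)).leadingCoeff = C q.leadingCoeff * (X ^ p) ^ q.natDegree := by
  have h1 : (C (X ^ p) * X ^ a : F[X][X]).natDegree ≠ 0 := by
    rw [natDegree_C_mul_X_pow _ _ (pow_ne_zero p X_ne_zero)]
    exact ha
  rw [phi_C, leadingCoeff_comp h1, leadingCoeff_map_of_injective C_injective, leadingCoeff_C_mul_X_pow,
    natDegree_map_eq_of_injective C_injective]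

theorem wy_mk {y : PowerSeries E} (hy : IsY a b p r f c y) (g : F[X][X]) :
    Wy a b p r y (AdjoinRoot.mk f g) = -(evy (F := F) y (Phi a b p r g)).order := by
  unfold Wy
  congr 2
  refine ev_mk hy ?_
  rw [← AdjoinRoot.mk_eq_mk]
  exact Function.surjInv_eq _ _

theorem ev_ne (hf : Qh a b M τ f) [IsDomain (AdjoinRoot f)] {y : PowerSeries E}
    (hy : IsY a b p r f c y) (hc : c ≠ 0) (g : F[X][X]) :
    evy y (Phi a b p r g) = 0 ↔ AdjoinRoot.mk f g = 0 := by
  constructor
  · intro h0
    by_contra hu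
    have hfin : IsIntegral F[X] (AdjoinRoot.mk f g) := by
      have h1 := hf.monic.finite_adjoinRoot
      exact Algebra.IsIntegral.isIntegral _
    have h1 := Ideal.comap_ne_bot_of_integral_mem (I := Ideal.span {AdjoinRoot.mk f g}) hu
      (Ideal.mem_span_singleton_self _) hfin
    obtain ⟨q, hq, hq0⟩ := Submodule.exists_mem_ne_zero_of_ne_bot h1
    rw [Ideal.mem_comap, Ideal.mem_span_singleton'] at hq
    obtain ⟨v, hv⟩ := hq
    obtain ⟨g', rfl⟩ := AdjoinRoot.mk_surjective v
    have h2 : AdjoinRoot.mk f (C q) = AdjoinRoot.mk f (g' * g) := by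
      rw [map_mul, hv]
      rfl
    have h3 := ev_mk hy ((AdjoinRoot.mk_eq_mk).1 h2)
    rw [map_mul, map_mul, h0, mul_zero] at h3
    have h4 : aeval (PowerSeries.constantCoeff y) (Phi a b p r (C q)).leadingCoeff ≠ 0 := by
      rw [phi_C_lead hf.ha, hy.const, map_mul, map_pow, map_pow, aeval_X, aeval_C]
      refine mul_ne_zero ?_ (pow_ne_zero _ (pow_ne_zero _ hc))
      rw [Ne, map_eq_zero_iff _ (algebraMap F E).injective]
      exact leadingCoeff_ne_zero.2 hq0
    exact (evy_order y _ h4).1 h3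
  · intro h0
    have h1 : f ∣ g - 0 := by
      rw [sub_zero]
      exact AdjoinRoot.mk_eq_zero.1 h0
    rw [ev_mk hy h1, map_zero, map_zero]

end one

variable {m : ℕ} {e : Fin m → ℕ}
  {E : Fin m → Type} [∀ i, Field (E i)] [∀ i, Algebra F (E i)] {c : ∀ i, E i}

theorem rep (hf : Qh a b M τ f) (u : AdjoinRoot f) :
    ∃ g : F[X][X], g.natDegree < a * M ∧ AdjoinRoot.mk f g = u := by
  obtain ⟨g', rfl⟩ := AdjoinRoot.mk_surjective u
  refine ⟨g' %ₘ f, ?_, ?_⟩
  · rw [← hf.deg]
    refine natDegree_modByMonic_lt _ hf.monic ?_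
    intro h1
    have h2 := hf.deg
    rw [h1, natDegree_one] at h2
    exact mul_ne_zero hf.ha hf.hM h2.symm
  · rw [AdjoinRoot.mk_eq_mk]
    refine ⟨-(g' /ₘ f), ?_⟩
    have h1 := modByMonic_add_div g' f
    linear_combination h1

theorem wy_max (h : a * r = b * p + 1) (hf : Qh a b M τ f) (hI : Inf M τ e c)
    (y : ∀ i, PowerSeries (E i)) (hy : ∀ i, IsY a b p r f (c i) (y i)) (g : F[X][X]) (hg : g ≠ 0)
    (hd : g.natDegree < a * M) :
    (∃ i, Wy a b p r (y i) (AdjoinRoot.mk f g) = (Phi a b p r g).natDegree) ∧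
      ∀ i, Wy a b p r (y i) (AdjoinRoot.mk f g) ≤ (Phi a b p r g).natDegree := by
  have hd' : g.natDegree < a * ∑ i ∈ (Finset.univ : Finset (Fin m)), e i := by
    rw [hI.sum]
    exact hd
  constructor
  · obtain ⟨i, -, -, h2⟩ := lo h hI y (fun i => (hy i).const) Finset.univ g hg hd'
    refine ⟨i, ?_⟩
    rw [wy_mk (hy i), h2, neg_neg]
  · intro i
    rw [wy_mk (hy i)]
    by_cases h0 : evy (F := F) (y i) (Phi a b p r g) = 0
    · rw [h0, HahnSeries.order_zero, neg_zero]
      exact Nat.cast_nonneg _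
    · have := evy_le (y i) (Phi a b p r g) _ le_rfl h0
      linarith

theorem pls (h : a * r = b * p + 1) (hf : Qh a b M τ f)
    (hs : Ideal.span {f, derivative f, H13.TA.dt f} = ⊤) (hI : Inf M τ e c)
    (y : ∀ i, PowerSeries (E i)) (hy : ∀ i, IsY a b p r f (c i) (y i)) :
    Pls f e (fun i => Wy a b p r (y i)) := by
  have hd : IsDomain (AdjoinRoot f) := dom h hf hs hI y hy
  have hne : ∀ (i : Fin m) (g : F[X][X]), AdjoinRoot.mk f g ≠ 0 → evy (F := F) (y i) (Phi a b p r g) ≠ 0 :=
    fun i g hg h0 => hg ((ev_ne hf (hy i) (hI.ne i) g).1 h0)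
  refine ⟨hf.monic, ?_, ?_, hd, ?_, ?_, ?_, ?_⟩
  · rintro rfl
    have := hI.sum
    rw [Finset.univ_eq_empty, Finset.sum_empty] at this
    exact hf.hM this.symm
  · intro i
    have h1 := hI.fin i
    rw [← hI.deg i]
    exact Module.finrank_pos.ne'
  · intro i u v hu hv
    obtain ⟨g, rfl⟩ := AdjoinRoot.mk_surjective u
    obtain ⟨g', rfl⟩ := AdjoinRoot.mk_surjective v
    show Wy a b p r (y i) _ = Wy a b p r (y i) _ + Wy a b p r (y i) _
    rw [← map_mul, wy_mk (hy i), wy_mk (hy i), wy_mk (hy i), map_mul, map_mul,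
      HahnSeries.order_mul (hne i g hu) (hne i g' hv)]
    ring
  · intro i u v hu hv huv
    obtain ⟨g, rfl⟩ := AdjoinRoot.mk_surjective u
    obtain ⟨g', rfl⟩ := AdjoinRoot.mk_surjective v
    rw [← map_add] at huv
    show Wy a b p r (y i) _ ≤ max (Wy a b p r (y i) _) (Wy a b p r (y i) _)
    rw [← map_add, wy_mk (hy i), wy_mk (hy i), wy_mk (hy i)]
    have h1 := hne i _ huv
    rw [map_add, map_add] at h1 ⊢
    have h2 := HahnSeries.min_order_le_order_add h1
    rw [max_neg_neg]
    linarith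
  · intro i c' hc'
    have h1 : algebraMap F (AdjoinRoot f) c' = AdjoinRoot.mk f (C (C c')) := rfl
    show Wy a b p r (y i) _ = 0
    rw [h1, wy_mk (hy i)]
    have h2 : Phi a b p r (C (C c')) = C (C c') := by
      rw [phi_C, map_C, C_comp]
    rw [h2, evy_const, HahnSeries.order_C, neg_zero]
  · intro u hu hW
    obtain ⟨g, hg, rfl⟩ := rep hf u
    have hg0 : g ≠ 0 := by
      rintro rfl
      exact hu (map_zero _)
    obtain ⟨⟨i, hi⟩, -⟩ := wy_max h hf hI y hy g hg0 hg
    have h1 : Wy a b p r (y i) (AdjoinRoot.mk f g) ≤ 0 := hW i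
    rw [hi] at h1
    have h2 : (Phi a b p r g).natDegree = 0 := by omega
    obtain ⟨c', rfl⟩ := phi_const h hf.hb g h2
    exact ⟨c', rfl⟩

end H13.PC
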