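import Pool.Agent.H13.PC.Sp
import Pool.Agent.H13.PC.Ft

/-!
# PC-SQ: reduction, separable leading form

* `spU`: `sm_den` (in `PC/Sp.lean`) gives `d`. Over the field of fractions `A τ + B τ' = 1`; with a common denominator `d'` of the coefficients `A' τ + B' τ' = d' ≠ 0` in
  `O[X]` (`O[X] → Frac(O)[X]` is injective), so if `φ d' ≠ 0` then `τ.map φ` is separable (`derivative_map`). `h₀ = d d' τ(0)`. `Qh`: `qh_map`.
* `fct_card`: `i ↦ h i` is a bijection from `Fin m` to the monic irreducible divisors of `τ = ∏ h i` (an irreducible divisor of the product divides one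
  `h i`, and both are monic irreducible, so they are equal).
-/

set_option autoImplicit false

open Polynomial

noncomputable section

namespace H13.PC

private theorem sq_den (O : Type) [CommRing O] [IsDomain O] (A : (FractionRing O)[X]) :
    ∃ d : O, d ≠ 0 ∧ ∃ A' : O[X], A'.map (algebraMap O (FractionRing O)) =
      C (algebraMap O (FractionRing O) d) * A := by
  obtain ⟨b, hb, h⟩ := IsLocalization.integerNormalization_spec (nonZeroDivisors O) A
  refine ⟨b, nonZeroDivisors.ne_zero hb, IsLocalization.integerNormalization (nonZeroDivisors O) A, ?_⟩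
  rw [h, ← Polynomial.smul_eq_C_mul, algebraMap_smul]

private theorem sq_sep (O : Type) [CommRing O] [IsDomain O] (τ : O[X])
    (hτ : (τ.map (algebraMap O (FractionRing O))).Separable) :
    ∃ d : O, d ≠ 0 ∧ ∀ (F : Type) [Field F] (φ : O →+* F), φ d ≠ 0 → (τ.map φ).Separable := by
  obtain ⟨A, B, hAB⟩ := hτ
  obtain ⟨d1, hd1, A1, hA1⟩ := sq_den O A
  obtain ⟨d2, hd2, B1, hB1⟩ := sq_den O B
  have hinj : Function.Injective (mapRingHom (algebraMap O (FractionRing O))) :=
    map_injective _ (IsFractionRing.injective O (FractionRing O))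
  have key : C d2 * A1 * τ + C d1 * B1 * derivative τ = C (d1 * d2) := by
    apply hinj
    rw [coe_mapRingHom]
    simp only [Polynomial.map_add, Polynomial.map_mul, map_C, map_mul]
    rw [hA1, hB1, ← derivative_map]
    calc _ = C (algebraMap O (FractionRing O) d1) * C (algebraMap O (FractionRing O) d2) *
        (A * τ.map (algebraMap O (FractionRing O)) +
          B * derivative (τ.map (algebraMap O (FractionRing O)))) := by ring
      _ = _ := by rw [hAB, mul_one]
  refine ⟨d1 * d2, mul_ne_zero hd1 hd2, fun F _ φ hφ => ?_⟩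
  have h2 := congrArg (Polynomial.map φ) key
  simp only [Polynomial.map_add, Polynomial.map_mul, map_C] at h2
  rw [← derivative_map] at h2
  have h3 : C (φ (d1 * d2))⁻¹ * C (φ (d1 * d2)) = (1 : F[X]) := by
    rw [← C_mul, inv_mul_cancel₀ hφ, C_1]
  refine ⟨C (φ (d1 * d2))⁻¹ * (C (φ d2) * A1.map φ), C (φ (d1 * d2))⁻¹ * (C (φ d1) * B1.map φ), ?_⟩
  rw [← h3, ← h2]
  ring

theorem spU (O : Type) [CommRing O] [IsDomain O] (a b M : ℕ) (τ : O[X]) (f : O[X][X])
    (h : Qh a b M τ f) (hτ : (τ.map (algebraMap O (FractionRing O))).Separable)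
    (h0 : τ.coeff 0 ≠ 0)
    (hs : Ideal.span {H13.CB.ofr O f, derivative (H13.CB.ofr O f), H13.TA.dt (H13.CB.ofr O f)} = ⊤) :
    ∃ h₀ : O, h₀ ≠ 0 ∧ ∀ (F : Type) [Field F] (φ : O →+* F), φ h₀ ≠ 0 →
      Qh a b M (τ.map φ) (f.map (mapRingHom φ)) ∧ (τ.map φ).Separable ∧ (τ.map φ).coeff 0 ≠ 0 ∧
      Ideal.span {f.map (mapRingHom φ), derivative (f.map (mapRingHom φ)),
        H13.TA.dt (f.map (mapRingHom φ))} = ⊤ := by
  obtain ⟨d, hd, hd2⟩ := sm_den O f hs
  obtain ⟨d', hd', hd2'⟩ := sq_sep O τ hτ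
  refine ⟨d * (d' * τ.coeff 0), mul_ne_zero hd (mul_ne_zero hd' h0), fun F _ φ hφ => ?_⟩
  rw [map_mul, map_mul] at hφ
  have h1 := left_ne_zero_of_mul hφ
  have h2 := right_ne_zero_of_mul hφ
  have h3 := left_ne_zero_of_mul h2
  have h4 := right_ne_zero_of_mul h2
  refine ⟨qh_map φ h, hd2' F φ h3, ?_, hd2 F φ h1⟩
  rw [coeff_map]
  exact h4

theorem fct_card {F : Type} [Field F] {τ : F[X]} {m : ℕ} {e : Fin m → ℕ} (h : Fct τ e) :
    Nat.card {p : F[X] // p.Monic ∧ Irreducible p ∧ p ∣ τ} = m := by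
  obtain ⟨g, h1, h2, h3⟩ := h
  have hdvd : ∀ i, g i ∣ τ := fun i => by
    rw [← h3]
    exact Finset.dvd_prod_of_mem _ (Finset.mem_univ i)
  let f : Fin m → {p : F[X] // p.Monic ∧ Irreducible p ∧ p ∣ τ} := fun i =>
    ⟨g i, (h1 i).2.1, (h1 i).1, hdvd i⟩
  have hf : Function.Bijective f := by
    constructor
    · intro i j hij
      exact h2 (congrArg Subtype.val hij)
    · rintro ⟨p, hp1, hp2, hp3⟩
      rw [← h3] at hp3
      obtain ⟨i, -, hi⟩ := Prime.exists_mem_finset_dvd hp2.prime hp3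
      have h5 : Associated p (g i) := (hp2.dvd_irreducible_iff_associated (h1 i).1).1 hi
      exact ⟨i, Subtype.ext (eq_of_monic_of_associated hp1 (h1 i).2.1 h5).symm⟩
  rw [← Nat.card_eq_of_bijective f hf, Nat.card_fin]

theorem fct_odd {F : Type} [Field F] {τ : F[X]} {m : ℕ} {e : Fin m → ℕ} (h : Fct τ e)
    (ho : ∀ p : F[X], Irreducible p → p ∣ τ → Odd p.natDegree) (i : Fin m) : Odd (e i) := by
  obtain ⟨p, h1, -, h3⟩ := h
  rw [← (h1 i).2.2]
  refine ho _ (h1 i).1 ?_
  rw [← h3]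
  exact Finset.dvd_prod_of_mem _ (Finset.mem_univ i)

end H13.PC
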