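import Pool.Agent.H13.PC.Pw

/-!
# PC-RF: functions with bounded poles

* `fin_n`: the elements of `L ⊤ (n, .., n)` are the classes of the `g` with `g.natDegree < a M` and weight
  `natDegree (Phi g) ≤ n` (`rep`, `wy_max`; `0` is the class of `0`), that is (`phi_deg`) of the linear combinations of the monomials
  `t ^ j x ^ i` with `i < a M`, `a j + b i ≤ n`; the classes of the monomials `t ^ j x ^ i` with `i < a M` are linearly independent over `F`
  (`f` is monic of degree `a M` in `x`: a nonzero `g` of smaller degree is not divisible by `f`). There are finitely many such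
  `(i, j)` as `a, b ≥ 1`.
* `cnt_n`: the pairs with `a j + b i = n + 1`, `i < a M`: `b i ≡ n + 1` modulo `a` determines `i` modulo `a` (coprime), `i = i₀ + a k`,
  `k < M`, and `j = (n + 1 - b i)/a` is `≥ 0` as `b i ≤ a b M ≤ n`. So there are exactly `M`.
-/

set_option autoImplicit false

open Polynomial

noncomputable section

namespace H13.PC

variable {F : Type} [Field F] {a b p r M : ℕ} {τ : F[X]} {f : F[X][X]} {m : ℕ} {e : Fin m → ℕ}
  {E : Fin m → Type} [∀ i, Field (E i)] [∀ i, Algebra F (E i)] {c : ∀ i, E i}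

/-- the exponents of the monomials of weight at most `n` -/
private abbrev Rix (a b M n : ℕ) : Type := {v : ℕ × ℕ // v.1 < a * M ∧ a * v.2 + b * v.1 ≤ n}

private def rfs (a b M n : ℕ) : Finset (ℕ × ℕ) :=
  (Finset.range (a * M) ×ˢ Finset.range (n + 1)).filter fun v => a * v.2 + b * v.1 ≤ n

private theorem mem_rfs (ha : a ≠ 0) (b M n : ℕ) (v : ℕ × ℕ) :
    v ∈ rfs a b M n ↔ v.1 < a * M ∧ a * v.2 + b * v.1 ≤ n := by
  unfold rfs
  rw [Finset.mem_filter, Finset.mem_product, Finset.mem_range, Finset.mem_range]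
  constructor
  · rintro ⟨⟨h1, -⟩, h2⟩
    exact ⟨h1, h2⟩
  · rintro ⟨h1, h2⟩
    refine ⟨⟨h1, ?_⟩, h2⟩
    have h3 : 1 * v.2 ≤ a * v.2 := Nat.mul_le_mul_right _ (Nat.one_le_iff_ne_zero.2 ha)
    omega

private theorem rf_card (ha : a ≠ 0) (b M n : ℕ) : Nat.card (Rix a b M n) = (rfs a b M n).card :=
  Nat.subtype_card _ (mem_rfs ha b M n)

private theorem rf_finite (ha : a ≠ 0) (b M n : ℕ) : Finite (Rix a b M n) := by
  have h : {v : ℕ × ℕ | v.1 < a * M ∧ a * v.2 + b * v.1 ≤ n} = (rfs a b M n : Set (ℕ × ℕ)) := by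
    ext v
    rw [Set.mem_ofPred_eq, Finset.mem_coe, mem_rfs ha]
  have h2 : Set.Finite {v : ℕ × ℕ | v.1 < a * M ∧ a * v.2 + b * v.1 ≤ n} := by
    rw [h]
    exact Finset.finite_toSet _
  exact h2.to_subtype

/-- the polynomial with given coefficients -/
private def rfp [Fintype (Rix a b M m)] (d : Rix a b M m → F) : F[X][X] :=
  ∑ v : Rix a b M m, monomial v.1.1 (monomial v.1.2 (d v))

private theorem rfp_coeff [Fintype (Rix a b M m)] (d : Rix a b M m → F) (i j : ℕ) :
    ((rfp d).coeff i).coeff j = if h : i < a * M ∧ a * j + b * i ≤ m then d ⟨(i, j), h⟩ else 0 := by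
  classical
  unfold rfp
  rw [finsetSum_coeff, finsetSum_coeff]
  have e : ∀ v : Rix a b M m, ((monomial v.1.1 (monomial v.1.2 (d v))).coeff i).coeff j =
      if v.1 = (i, j) then d v else 0 := by
    intro v
    rw [coeff_monomial]
    by_cases h1 : v.1.1 = i
    · rw [if_pos h1, coeff_monomial]
      by_cases h2 : v.1.2 = j
      · rw [if_pos h2, if_pos (Prod.ext h1 h2)]
      · rw [if_neg h2, if_neg]
        intro h3
        exact h2 (congrArg Prod.snd h3)
    · rw [if_neg h1, coeff_zero, if_neg]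
      intro h3
      exact h1 (congrArg Prod.fst h3)
  rw [Finset.sum_congr rfl fun v _ => e v]
  split_ifs with h
  · rw [Finset.sum_eq_single ⟨(i, j), h⟩]
    · rw [if_pos rfl]
    · intro v _ hv
      rw [if_neg]
      intro h3
      exact hv (Subtype.ext h3)
    · intro h3
      exact absurd (Finset.mem_univ _) h3
  · refine Finset.sum_eq_zero fun v _ => ?_
    rw [if_neg]
    intro h3
    apply h
    have h4 := v.2
    rw [h3] at h4
    exact h4

private theorem rfp_deg [Fintype (Rix a b M m)] (h0 : 0 < a * M) (d : Rix a b M m → F) :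
    (rfp d).natDegree < a * M := by
  have h1 : (rfp d).natDegree ≤ a * M - 1 := by
    rw [natDegree_le_iff_coeff_eq_zero]
    intro i hi
    ext j
    rw [rfp_coeff, dif_neg, coeff_zero]
    rintro ⟨h2, -⟩
    omega
  omega

/-- the linear map to `O` -/
private def rfl' (f : F[X][X]) [Fintype (Rix a b M m)] : (Rix a b M m → F) →ₗ[F] AdjoinRoot f where
  toFun d := AdjoinRoot.mk f (rfp d)
  map_add' d d' := by
    rw [← map_add]
    congr 1
    ext i j
    rw [coeff_add, coeff_add, rfp_coeff, rfp_coeff, rfp_coeff]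
    split_ifs
    · rfl
    · rw [add_zero]
  map_smul' c d := by
    rw [RingHom.id_apply, AdjoinRoot.smul_mk]
    congr 1
    ext i j
    rw [coeff_smul, coeff_smul, rfp_coeff, rfp_coeff]
    split_ifs
    · rfl
    · rw [smul_zero]

private theorem rfl'_apply [Fintype (Rix a b M m)] (d : Rix a b M m → F) :
    rfl' f d = AdjoinRoot.mk f (rfp d) := rfl

theorem fin_n (h : a * r = b * p + 1) (hf : Qh a b M τ f) (hI : Inf M τ e c)
    (y : ∀ i, PowerSeries (E i)) (hy : ∀ i, IsY a b p r f (c i) (y i))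
    (hP : Pls f e (fun i => Wy a b p r (y i))) (n : ℕ) :
    Module.Finite F (L hP ⊤ (fun _ => (n : ℤ))) ∧
      ell hP ⊤ (fun _ => (n : ℤ)) = Nat.card {v : ℕ × ℕ // v.1 < a * M ∧ a * v.2 + b * v.1 ≤ n} := by
  have hfin := rf_finite hf.ha b M n
  have : Fintype (Rix a b M n) := Fintype.ofFinite _
  have h0 : 0 < a * M := Nat.pos_of_ne_zero (mul_ne_zero hf.ha hf.hM)
  have hinj : Function.Injective (rfl' (F := F) (a := a) (b := b) (M := M) (m := n) f) := by
    rw [injective_iff_map_eq_zero]
    intro d hd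
    rw [rfl'_apply, AdjoinRoot.mk_eq_zero] at hd
    have h1 : rfp d = 0 := by
      by_contra hne
      refine hf.monic.not_dvd_of_natDegree_lt hne ?_ hd
      rw [hf.deg]
      exact rfp_deg h0 d
    funext v
    have h2 := rfp_coeff d v.1.1 v.1.2
    rw [h1, coeff_zero, coeff_zero, dif_pos v.2] at h2
    exact h2.symm
  have hL : L hP ⊤ (fun _ => (n : ℤ)) = LinearMap.range (rfl' (F := F) (a := a) (b := b) (M := M) (m := n) f) := by
    ext u
    rw [LinearMap.mem_range]
    constructor
    · rintro ⟨-, hu⟩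
      by_cases hu0 : u = 0
      · exact ⟨0, by rw [map_zero, hu0]⟩
      have hu1 := hu.resolve_left hu0
      obtain ⟨g, hg1, hg2⟩ := rep hf u
      have hg0 : g ≠ 0 := by
        intro h3
        apply hu0
        rw [← hg2, h3, map_zero]
      obtain ⟨⟨i, hi⟩, -⟩ := wy_max h hf hI y hy g hg0 hg1
      have h3 := hu1 i
      dsimp only at h3
      rw [← hg2, hi] at h3
      have h4 : (Phi a b p r g).natDegree ≤ n := by exact_mod_cast h3
      rw [phi_deg h] at h4
      refine ⟨fun v => (g.coeff v.1.1).coeff v.1.2, ?_⟩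
      rw [rfl'_apply, ← hg2]
      congr 1
      ext i j
      rw [rfp_coeff]
      split_ifs with h5
      · rfl
      · by_contra hne
        apply h5
        refine ⟨?_, h4 i j (Ne.symm hne)⟩
        by_contra h6
        apply hne
        have h7 : g.natDegree < i := lt_of_lt_of_le hg1 (not_lt.1 h6)
        rw [coeff_eq_zero_of_natDegree_lt h7, coeff_zero]
    · rintro ⟨d, rfl⟩
      refine ⟨Submodule.mem_top, ?_⟩
      by_cases h1 : rfp d = 0
      · left
        rw [rfl'_apply, h1, map_zero]
      · right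
        intro i
        obtain ⟨-, h2⟩ := wy_max h hf hI y hy (rfp d) h1 (rfp_deg h0 d)
        refine (h2 i).trans ?_
        have h3 : (Phi a b p r (rfp d)).natDegree ≤ n := by
          rw [phi_deg h]
          intro i j hij
          rw [rfp_coeff] at hij
          by_contra h4
          apply hij
          rw [dif_neg]
          rintro ⟨-, h5⟩
          exact h4 h5
        show ((Phi a b p r (rfp d)).natDegree : ℤ) ≤ (n : ℤ)
        exact_mod_cast h3
  have e1 : Nat.card (Rix a b M n) = Fintype.card (Rix a b M n) := Nat.card_eq_fintype_card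
  unfold ell
  rw [hL]
  refine ⟨inferInstance, ?_⟩
  rw [LinearMap.finrank_range_of_inj hinj, Module.finrank_fintype_fun_eq_card]
  exact e1.symm

theorem cnt_n (ha : a ≠ 0) (hb : b ≠ 0) (hc : a.Coprime b) (M n : ℕ) (hn : a * b * M ≤ n) :
    Nat.card {v : ℕ × ℕ // v.1 < a * M ∧ a * v.2 + b * v.1 ≤ n + 1} =
      Nat.card {v : ℕ × ℕ // v.1 < a * M ∧ a * v.2 + b * v.1 ≤ n} + M := by
  have e1 := rf_card ha b M (n + 1)
  have e2 := rf_card ha b M n
  refine e1.trans ?_
  refine Eq.trans ?_ (congrArg (· + M) e2.symm)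
  have hapos : 0 < a := Nat.pos_of_ne_zero ha
  obtain ⟨i₀, hi₀, hi₁⟩ := Nat.exists_mul_mod_eq_of_coprime (n + 1) hc.symm ha
  -- split
  have hsplit : rfs a b M (n + 1) = rfs a b M n ∪ (rfs a b M (n + 1)).filter (fun v => a * v.2 + b * v.1 = n + 1) := by
    ext v
    rw [Finset.mem_union, Finset.mem_filter, mem_rfs ha, mem_rfs ha]
    constructor
    · rintro ⟨h1, h2⟩
      by_cases h3 : a * v.2 + b * v.1 = n + 1
      · exact Or.inr ⟨⟨h1, h2⟩, h3⟩
      · exact Or.inl ⟨h1, by omega⟩
    · rintro (⟨h1, h2⟩ | ⟨h1, -⟩)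
      · exact ⟨h1, by omega⟩
      · exact h1
  have hdis : Disjoint (rfs a b M n) ((rfs a b M (n + 1)).filter (fun v => a * v.2 + b * v.1 = n + 1)) := by
    rw [Finset.disjoint_left]
    intro v h1 h2
    rw [Finset.mem_filter] at h2
    rw [mem_rfs ha] at h1
    omega
  rw [hsplit, Finset.card_union_of_disjoint hdis]
  congr 1
  have hle : ∀ k < M, b * (i₀ + a * k) ≤ n := by
    intro k hk
    have h1 : i₀ + a * k ≤ a * M := by
      have : a * (k + 1) ≤ a * M := Nat.mul_le_mul_left _ hk
      rw [mul_add, mul_one] at this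
      omega
    calc b * (i₀ + a * k) ≤ b * (a * M) := Nat.mul_le_mul_left _ h1
      _ = a * b * M := by ring
      _ ≤ n := hn
  have hdvd : ∀ k < M, a ∣ n + 1 - b * (i₀ + a * k) := by
    intro k hk
    have h1 : (b * (i₀ + a * k)) ≡ (n + 1) [MOD a] := by
      have h2 : b * (i₀ + a * k) = b * i₀ + a * (b * k) := by ring
      rw [h2]
      unfold Nat.ModEq
      rw [Nat.add_mul_mod_self_left]
      exact hi₁
    exact (Nat.modEq_iff_dvd' ((hle k hk).trans (Nat.le_succ _))).1 h1
  have hcard : ((rfs a b M (n + 1)).filter (fun v => a * v.2 + b * v.1 = n + 1)).card = (Finset.range M).card := by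
    symm
    refine Finset.card_bij (fun k _ => ((i₀ + a * k, (n + 1 - b * (i₀ + a * k)) / a) : ℕ × ℕ)) ?_ ?_ ?_
    · intro k hk
      rw [Finset.mem_range] at hk
      rw [Finset.mem_filter, mem_rfs ha]
      dsimp only
      have h1 := Nat.mul_div_cancel' (hdvd k hk)
      have h2 := hle k hk
      have h3 : i₀ + a * k < a * M := by
        have : a * (k + 1) ≤ a * M := Nat.mul_le_mul_left _ hk
        rw [mul_add, mul_one] at this
        omega
      refine ⟨⟨h3, ?_⟩, ?_⟩ <;> rw [h1] <;> omega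
    · intro k _ k' _ h
      have h1 : i₀ + a * k = i₀ + a * k' := congrArg Prod.fst h
      exact Nat.eq_of_mul_eq_mul_left hapos (Nat.add_left_cancel h1)
    · rintro ⟨i, j⟩ hv
      rw [Finset.mem_filter, mem_rfs ha] at hv
      dsimp only at hv
      obtain ⟨⟨h1, h2⟩, h3⟩ := hv
      have h4 : i % a = i₀ := by
        have h5 : b * i ≡ b * i₀ [MOD a] := by
          unfold Nat.ModEq
          rw [hi₁, ← h3, Nat.mul_add_mod]
        have h6 : i ≡ i₀ [MOD a] := Nat.ModEq.cancel_left_of_coprime hc h5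
        unfold Nat.ModEq at h6
        rw [h6, Nat.mod_eq_of_lt hi₀]
      have h5 : i₀ + a * (i / a) = i := by
        rw [← h4]
        exact Nat.mod_add_div i a
      refine ⟨i / a, ?_, ?_⟩
      · rw [Finset.mem_range]
        exact Nat.div_lt_of_lt_mul h1
      · rw [h5]
        congr 1
        have h6 : n + 1 - b * i = a * j := by omega
        rw [h6, Nat.mul_div_cancel_left _ hapos]
  rw [hcard, Finset.card_range]

end H13.PC
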