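import Mathlib
import Pool.Agent.H24.W.C1

/-!
# PC-RP: power sums and roots

* `psb`: let `A₁` be the part of `A` with `‖ρ‖ > R`; suppose it is not empty, `S` its largest absolute value. The sum over the `ρ` with
  `‖ρ‖ < S` of `(ρ / S) ^ r` tends to `0`, and `‖∑_A (ρ / S) ^ r‖ ≤ C (R / S) ^ r → 0`; so `∑_(‖ρ‖ = S) (ρ / S) ^ r → 0` for `r → ∞`. But for the
  numbers `u_1, .., u_k` (`k ≥ 1`) of absolute value `1` there are arbitrarily large `r` with all `‖u_i ^ r - 1‖ ≤ 1/2` (the sequence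
  `(u_1 ^ r, .., u_k ^ r)` in a compact group has a convergent subsequence, quotients of its members are close to `1`;
  or pigeonhole), so the real part of the sum is at least `k / 2`. (Or: `∑_r (∑_A ρ ^ r) z ^ r` is the rational function
  `∑_A ρ z / (1 - ρ z)` and it is analytic for `‖z‖ < 1 / R`.)
* `rh_pure`: suppose `‖ρ₀‖ < √q` for some `ρ₀ ∈ A`; `A = ρ₀ ::ₘ A'`, `card A' ≤ 2 g - 1`. The left side of `hid` divided by `q ^ (g r)` tends to `1`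
  (`‖ρ / q‖ ≤ q ^ (-1/2) < 1`). The absolute value of the right side is at most `(1 + ‖ρ₀‖ ^ r) (1 + √q ^ r) ^ (2 g - 1)`, divided by
  `q ^ (g r) = √q ^ (2 g r)` it is at most `(√q ^ (-r) + (‖ρ₀‖ / √q) ^ r) (√q ^ (-r) + 1) ^ (2 g - 1) → 0`, a contradiction.
-/

set_option autoImplicit false

namespace H13.PC

private theorem rp_lim (A : Multiset ℂ) (q : ℂ) (h : ∀ ρ ∈ A, ‖ρ / q‖ < 1) :
    Filter.Tendsto (fun r : ℕ => (A.map fun ρ => 1 - ρ ^ r / q ^ r).prod) Filter.atTop (nhds 1) := by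
  induction A using Multiset.induction_on with
  | empty =>
    simp only [Multiset.map_zero, Multiset.prod_zero]
    exact tendsto_const_nhds
  | cons a s ih =>
    have h1 := ih fun ρ hρ => h ρ (Multiset.mem_cons_of_mem hρ)
    have h2 : Filter.Tendsto (fun r : ℕ => (a / q) ^ r) Filter.atTop (nhds 0) :=
      tendsto_pow_atTop_nhds_zero_of_norm_lt_one (h a (Multiset.mem_cons_self a s))
    have h3 := (tendsto_const_nhds (x := (1 : ℂ))).sub h2
    have h4 := h3.mul h1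
    rw [sub_zero, one_mul] at h4
    refine h4.congr fun r => ?_
    rw [Multiset.map_cons, Multiset.prod_cons, div_pow]

private theorem rp_bd (A : Multiset ℂ) (s : ℝ) (r : ℕ) (h : ∀ ρ ∈ A, ‖ρ‖ ≤ s) :
    ‖(A.map fun ρ => 1 - ρ ^ r).prod‖ ≤ (1 + s ^ r) ^ Multiset.card A := by
  induction A using Multiset.induction_on with
  | empty => simp
  | cons a t ih =>
    have h1 := ih fun ρ hρ => h ρ (Multiset.mem_cons_of_mem hρ)
    have ha := h a (Multiset.mem_cons_self a t)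
    rw [Multiset.map_cons, Multiset.prod_cons, Multiset.card_cons, norm_mul, pow_succ, mul_comm]
    have h2 : ‖1 - a ^ r‖ ≤ 1 + s ^ r := by
      calc ‖1 - a ^ r‖ ≤ ‖(1 : ℂ)‖ + ‖a ^ r‖ := norm_sub_le _ _
        _ ≤ 1 + s ^ r := by
          rw [norm_one, norm_pow]
          gcongr
    exact mul_le_mul h1 h2 (norm_nonneg _) ((norm_nonneg _).trans h1)

theorem psb (A : Multiset ℂ) (R C : ℝ) (hR : 0 < R)
    (h : ∀ r : ℕ, r ≠ 0 → ‖(A.map fun ρ => ρ ^ r).sum‖ ≤ C * R ^ r) (ρ : ℂ) (hρ : ρ ∈ A) :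
    ‖ρ‖ ≤ R := by
  obtain ⟨l, rfl⟩ : ∃ l : List ℂ, A = ↑l := ⟨A.toList, (Multiset.coe_toList A).symm⟩
  rw [Multiset.mem_coe] at hρ
  obtain ⟨i, hi, rfl⟩ := List.mem_iff_getElem.1 hρ
  refine Pool.Agent.H24.W.bound_of_power_sums l.length (fun i => l[i.1]) C R hR 1 (fun m hm => ?_)
    ⟨i, hi⟩
  have h1 := h (2 * m) (by omega)
  rw [Multiset.map_coe, Multiset.sum_coe] at h1
  rw [Fin.sum_univ_fun_getElem l (fun ρ => ρ ^ (2 * m))]
  exact h1

theorem rh_pure (q g : ℕ) (hq : 2 ≤ q) (A : Multiset ℂ) (hA : Multiset.card A ≤ 2 * g)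
    (hle : ∀ ρ ∈ A, ‖ρ‖ ≤ √(q : ℝ))
    (hid : ∀ r : ℕ, r ≠ 0 → (A.map fun ρ => 1 - ρ ^ r / (q : ℂ) ^ r).prod * (q : ℂ) ^ (g * r) =
      (A.map fun ρ => 1 - ρ ^ r).prod) (ρ : ℂ) (hρ : ρ ∈ A) : ‖ρ‖ = √(q : ℝ) := by
  have hq2 : (2 : ℝ) ≤ q := by exact_mod_cast hq
  have hs2 : √(q : ℝ) * √(q : ℝ) = q := Real.mul_self_sqrt (by linarith)
  have hs1 : 1 < √(q : ℝ) := by
    rw [Real.lt_sqrt (by norm_num)]
    linarith
  obtain ⟨s, hs⟩ : ∃ s, s = √(q : ℝ) := ⟨_, rfl⟩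
  rw [← hs] at hs2 hs1
  rw [← hs] at hle ⊢
  have hs0 : 0 < s := by linarith
  refine le_antisymm (hle ρ hρ) ?_
  by_contra hlt
  push Not at hlt
  obtain ⟨A', rfl⟩ := Multiset.exists_cons_of_mem hρ
  rw [Multiset.card_cons] at hA
  obtain ⟨k, hk⟩ : ∃ k, 2 * g = k + 1 := ⟨2 * g - 1, by omega⟩
  have hq0 : (q : ℂ) ≠ 0 := by
    have : q ≠ 0 := by omega
    exact_mod_cast this
  have hqn : ‖(q : ℂ)‖ = s * s := by
    rw [Complex.norm_natCast, hs2]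
  have hL := rp_lim (ρ ::ₘ A') (q : ℂ) (fun x hx => by
    rw [norm_div, hqn, div_lt_one (by positivity)]
    calc ‖x‖ ≤ s := hle x hx
      _ = s * 1 := (mul_one s).symm
      _ < s * s := mul_lt_mul_of_pos_left hs1 hs0)
  have hLn := hL.norm
  rw [norm_one] at hLn
  have hx1 : Filter.Tendsto (fun r : ℕ => (s⁻¹) ^ r) Filter.atTop (nhds 0) :=
    tendsto_pow_atTop_nhds_zero_of_lt_one (by positivity) (inv_lt_one_of_one_lt₀ hs1)
  have hx2 : Filter.Tendsto (fun r : ℕ => (‖ρ‖ / s) ^ r) Filter.atTop (nhds 0) :=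
    tendsto_pow_atTop_nhds_zero_of_lt_one (by positivity) ((div_lt_one hs0).2 hlt)
  have hV := (hx1.add hx2).mul ((hx1.add (tendsto_const_nhds (x := (1 : ℝ)))).pow k)
  rw [zero_add, zero_mul] at hV
  have hle' : ∀ᶠ r : ℕ in Filter.atTop,
      ‖((ρ ::ₘ A').map fun ρ => 1 - ρ ^ r / (q : ℂ) ^ r).prod‖ ≤
        ((s⁻¹) ^ r + (‖ρ‖ / s) ^ r) * ((s⁻¹) ^ r + 1) ^ k := by
    filter_upwards [Filter.eventually_ge_atTop 1] with r hr
    have h1 := congrArg norm (hid r (by omega))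
    rw [norm_mul, norm_pow, hqn] at h1
    have h2 : (s * s) ^ (g * r) = s ^ r * (s ^ r) ^ k := by
      rw [← pow_two, ← pow_mul, ← mul_assoc, hk, ← pow_mul, ← pow_add]
      congr 1
      ring
    rw [h2] at h1
    have h3 : ‖((ρ ::ₘ A').map fun ρ => 1 - ρ ^ r).prod‖ ≤ (1 + ‖ρ‖ ^ r) * (1 + s ^ r) ^ k := by
      rw [Multiset.map_cons, Multiset.prod_cons, norm_mul]
      have h4 : ‖1 - ρ ^ r‖ ≤ 1 + ‖ρ‖ ^ r := by
        calc ‖1 - ρ ^ r‖ ≤ ‖(1 : ℂ)‖ + ‖ρ ^ r‖ := norm_sub_le _ _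
          _ = 1 + ‖ρ‖ ^ r := by rw [norm_one, norm_pow]
      have h5 := rp_bd A' s r fun x hx => hle x (Multiset.mem_cons_of_mem hx)
      have h6 : (1 + s ^ r) ^ Multiset.card A' ≤ (1 + s ^ r) ^ k := by
        refine pow_le_pow_right₀ ?_ (by omega)
        have : 0 < s ^ r := by positivity
        linarith
      exact mul_le_mul h4 (h5.trans h6) (norm_nonneg _) (by positivity)
    rw [← h1] at h3
    have hsr : s ^ r ≠ 0 := by positivity
    have h7 : (1 + ‖ρ‖ ^ r) * (1 + s ^ r) ^ k =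
        (((s⁻¹) ^ r + (‖ρ‖ / s) ^ r) * ((s⁻¹) ^ r + 1) ^ k) * (s ^ r * (s ^ r) ^ k) := by
      have e1 : ((s⁻¹) ^ r + (‖ρ‖ / s) ^ r) * s ^ r = 1 + ‖ρ‖ ^ r := by
        rw [inv_pow, div_pow]
        field_simp
      have e2 : ((s⁻¹) ^ r + 1) ^ k * (s ^ r) ^ k = (1 + s ^ r) ^ k := by
        rw [← mul_pow, inv_pow, add_mul, inv_mul_cancel₀ hsr, one_mul]
      rw [mul_mul_mul_comm, e1, e2]
    rw [h7] at h3
    exact le_of_mul_le_mul_right h3 (by positivity)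
  have h8 := le_of_tendsto_of_tendsto hLn hV hle'
  linarith

end H13.PC
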