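import Pool.Agent.H13.PC.Srr
import Pool.Agent.H13.PC.Co
import Pool.Agent.H13.PC.Zp

/-!
# PC-ZS: the degree of the numerator of the zeta function

* `bn_cn'`: the proof of `bn_cn` in `PC/Cn.lean` with `srr` instead of `rr_eq` (copy it; `N + 1 - g ≥ 0` by `gen_nonneg`; if `N + 1 - g = 0` both sides are
  zero or the classes have `0` elements: the formula `(q - 1) #class + 1 = q ^ ell` holds anyway).
* `deg_le`: the coefficient of `X ^ n` in `L` is `b n - (q + 1) b (n - 1) + q b (n - 2)` (terms with negative index are `0`). For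
  `n ≥ 2 g + 1` and `n ≥ 2` the formula `hf` holds for `N = n, n - 1, n - 2 ≥ 2 g - 1`, so it is zero (multiply by `q - 1 ≠ 0`). `n = 1` occurs only for
  `g = 0`: `hf` for `N = 0` gives `c = 1` (`b 0 = 1`), for `N = 1` `b 1 = q + 1`.
* `exS`: as `exP'` in `PC/Zp.lean`; `cn = c` for `N ≥ g` by `cn_gcd` (the divisor `(⊤, single i 1)` has degree `1`), so by `bn_cn'` the formula holds
  for all `N ≥ 2 g - 1` (for `g ≥ 1` `2 g - 1 ≥ g`; for `g = 0` all `N ≥ 0 = g`). `P = L.reverse` has degree at most that of `L`.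
-/

set_option autoImplicit false

open Polynomial

noncomputable section

namespace H13.PC

variable {F : Type} [Field F] {m : ℕ} {f : F[X][X]} {e : Fin m → ℕ} {W : Fin m → AdjoinRoot f → ℤ}

private theorem zs_equiv (h : Pls f e W) (N : ℕ) :
    Equivalence (fun D D' : {D : Ed f m // edeg e D = N} => Eqv W D.1 D'.1) :=
  ⟨fun D => eqv_refl h D.1, fun h1 => eqv_symm h h1, fun h1 h2 => eqv_trans h h1 h2⟩

private theorem zs_c1 (q : ℤ) (B : PowerSeries ℤ) : PowerSeries.coeff 1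
    ((1 - PowerSeries.X) * (1 - PowerSeries.C q * PowerSeries.X) * B) =
      PowerSeries.coeff 1 B - (q + 1) * PowerSeries.coeff 0 B := by
  have h : (1 - PowerSeries.X) * (1 - PowerSeries.C q * PowerSeries.X) * B =
      B - PowerSeries.X * (B + (PowerSeries.C q * B - PowerSeries.C q * (PowerSeries.X * B))) := by
    ring
  rw [h, map_sub, show (1 : ℕ) = 0 + 1 from rfl, PowerSeries.coeff_succ_X_mul, map_add, map_sub,
    PowerSeries.coeff_C_mul, PowerSeries.coeff_C_mul, PowerSeries.coeff_zero_X_mul]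
  ring

private theorem zs_c2 (q : ℤ) (B : PowerSeries ℤ) (n : ℕ) : PowerSeries.coeff (n + 2)
    ((1 - PowerSeries.X) * (1 - PowerSeries.C q * PowerSeries.X) * B) =
      PowerSeries.coeff (n + 2) B - (q + 1) * PowerSeries.coeff (n + 1) B + q * PowerSeries.coeff n B := by
  have h : (1 - PowerSeries.X) * (1 - PowerSeries.C q * PowerSeries.X) * B =
      B - PowerSeries.X * (B + (PowerSeries.C q * B - PowerSeries.C q * (PowerSeries.X * B))) := by
    ring
  rw [h, map_sub, show n + 2 = (n + 1) + 1 from rfl, PowerSeries.coeff_succ_X_mul, map_add, map_sub,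
    PowerSeries.coeff_C_mul, PowerSeries.coeff_C_mul, PowerSeries.coeff_succ_X_mul]
  ring

private theorem zs_top [IsDedekindDomain (AdjoinRoot f)] (h : Pls f e W) :
    H13.TA.ideg f (⊤ : Ideal (AdjoinRoot f)) = 0 := by
  have hne : (⊤ : Ideal (AdjoinRoot f)) ≠ ⊥ := top_ne_bot
  exact (H13.TA.ideg_zero h.monic hne).2 rfl

private theorem zs_single [IsDedekindDomain (AdjoinRoot f)] (h : Pls f e W) {i : Fin m}
    (hi : e i = 1) (N : ℕ) :
    edeg e ((⟨⊤, top_ne_bot⟩, Pi.single i N) : Ed f m) = N := by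
  unfold edeg
  simp only
  rw [zs_top h, zero_add, Finset.sum_eq_single i]
  · rw [hi, Pi.single_eq_same, one_mul]
  · intro j _ hj
    rw [Pi.single_eq_of_ne hj, mul_zero]
  · intro h0
    exact absurd (Finset.mem_univ i) h0

theorem bn_cn' [Finite F] [IsDedekindDomain (AdjoinRoot f)] (h : Pls f e W) (hr : Rie h) {g : ℤ}
    (hg : IsGen h g) (i : Fin m) (hi : e i = 1) (φ : AdjoinRoot f →+* LaurentSeries F)
    (hφ : Tail (W i) φ) (N : ℕ) (hN : 2 * g - 1 ≤ N) :
    ((Nat.card F : ℤ) - 1) * bn f e N =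
      cn e W N * ((Nat.card F : ℤ) ^ ((N : ℤ) + 1 - g).toNat - 1) := by
  have hfin := ed_fin (e := e) h N
  have heq := zs_equiv (e := e) h N
  have hq : 1 ≤ Nat.card F := Nat.card_pos
  have hfib : ∀ x : Quot (fun D D' : {D : Ed f m // edeg e D = N} => Eqv W D.1 D'.1),
      ((Nat.card F : ℤ) - 1) * (Nat.card {D : {D : Ed f m // edeg e D = N} //
        Quot.mk (fun D D' : {D : Ed f m // edeg e D = N} => Eqv W D.1 D'.1) D = x} : ℤ) =
      (Nat.card F : ℤ) ^ ((N : ℤ) + 1 - g).toNat - 1 := by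
    intro x
    obtain ⟨D₀, rfl⟩ := Quot.exists_rep x
    obtain ⟨J, w, hJ, h1, h2⟩ := cls_size h hr D₀.1
    have h3 : Nat.card {D : {D : Ed f m // edeg e D = N} //
        Quot.mk (fun D D' : {D : Ed f m // edeg e D = N} => Eqv W D.1 D'.1) D = Quot.mk _ D₀} =
        Nat.card {D : Ed f m // Eqv W D D₀.1} := by
      refine Nat.card_congr ⟨fun D => ⟨D.1.1, ?_⟩, fun D => ⟨⟨D.1, ?_⟩, ?_⟩, ?_, ?_⟩
      · exact (heq.quot_mk_eq_iff D.1 D₀).1 D.2
      · rw [edeg_eqv h hr D.2]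
        exact D₀.2
      · exact (heq.quot_mk_eq_iff _ D₀).2 D.2
      · intro D
        rfl
      · intro D
        rfl
    have h4 : (ell h J w : ℤ) = (N : ℤ) + 1 - g := by
      rw [srr h hr hg i hi φ hφ hJ w (by rw [h1, D₀.2]; exact hN), h1, D₀.2]
    have h5 : ((N : ℤ) + 1 - g).toNat = ell h J w := by omega
    rw [h3, h5]
    have h6 : (((Nat.card F - 1) * Nat.card {D : Ed f m // Eqv W D D₀.1} + 1 : ℕ) : ℤ) =
        ((Nat.card F ^ ell h J w : ℕ) : ℤ) := by rw [h2]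
    rw [Nat.cast_add, Nat.cast_mul, Nat.cast_sub hq, Nat.cast_pow] at h6
    push_cast at h6
    linarith
  have hbn : (bn f e N : ℤ) =
      ∑ᶠ x : Quot (fun D D' : {D : Ed f m // edeg e D = N} => Eqv W D.1 D'.1),
      (Nat.card {D : {D : Ed f m // edeg e D = N} //
        Quot.mk (fun D D' : {D : Ed f m // edeg e D = N} => Eqv W D.1 D'.1) D = x} : ℤ) := by
    have hfq : Fintype (Quot (fun D D' : {D : Ed f m // edeg e D = N} => Eqv W D.1 D'.1)) :=
      Fintype.ofFinite _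
    rw [finsum_eq_sum_of_fintype]
    unfold bn
    rw [← Nat.card_congr (Equiv.sigmaFiberEquiv
      (Quot.mk (fun D D' : {D : Ed f m // edeg e D = N} => Eqv W D.1 D'.1))), Nat.card_sigma]
    push_cast
    rfl
  have hfq : Fintype (Quot (fun D D' : {D : Ed f m // edeg e D = N} => Eqv W D.1 D'.1)) :=
    Fintype.ofFinite _
  rw [hbn, finsum_eq_sum_of_fintype, Finset.mul_sum, Finset.sum_congr rfl fun x _ => hfib x,
    Finset.sum_const, Finset.card_univ, ← Nat.card_eq_fintype_card, nsmul_eq_mul]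
  rfl

theorem deg_le (q c : ℕ) (g : ℤ) (hg : 0 ≤ g) (hq : 2 ≤ q) (b : ℕ → ℕ) (hb0 : b 0 = 1) (L : ℤ[X])
    (hL : (L : PowerSeries ℤ) = (1 - PowerSeries.X) * (1 - PowerSeries.C (q : ℤ) * PowerSeries.X) *
        PowerSeries.mk (fun n => (b n : ℤ)))
    (hf : ∀ N : ℕ, 2 * g - 1 ≤ N → ((q : ℤ) - 1) * b N = c * ((q : ℤ) ^ ((N : ℤ) + 1 - g).toNat - 1)) :
    (L.natDegree : ℤ) ≤ 2 * g := by
  obtain ⟨G, rfl⟩ := Int.eq_ofNat_of_zero_le hg
  have hq1 : (q : ℤ) - 1 ≠ 0 := by
    have : (2 : ℤ) ≤ q := by exact_mod_cast hq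
    omega
  have hkey : L.natDegree ≤ 2 * G := by
    rw [Polynomial.natDegree_le_iff_coeff_eq_zero]
    intro n hn
    have h1 := congrArg (PowerSeries.coeff n) hL
    rw [Polynomial.coeff_coe] at h1
    rw [h1]
    rcases n with _ | _ | n
    · omega
    · have hG : G = 0 := by omega
      subst hG
      rw [zero_add, zs_c1, PowerSeries.coeff_mk, PowerSeries.coeff_mk]
      have e0 := hf 0 (by norm_num)
      have e1 := hf 1 (by norm_num)
      have t0 : (((0 : ℕ) : ℤ) + 1 - ((0 : ℕ) : ℤ)).toNat = 1 := rfl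
      have t1 : (((1 : ℕ) : ℤ) + 1 - ((0 : ℕ) : ℤ)).toNat = 2 := rfl
      rw [t0, hb0, pow_one] at e0
      rw [t1] at e1
      have hc : (c : ℤ) = 1 := by
        have : ((q : ℤ) - 1) * c = ((q : ℤ) - 1) * 1 := by
          rw [mul_comm ((q : ℤ) - 1) (c : ℤ), ← e0]
          push_cast
          ring
        exact mul_left_cancel₀ hq1 this
      rw [hc, one_mul] at e1
      have hb1 : (b 1 : ℤ) = q + 1 := by
        apply mul_left_cancel₀ hq1
        rw [e1]
        ring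
      rw [hb1, hb0]
      push_cast
      ring
    · rw [zs_c2, PowerSeries.coeff_mk, PowerSeries.coeff_mk, PowerSeries.coeff_mk]
      have e0 := hf n (by push_cast; omega)
      have e1 := hf (n + 1) (by push_cast; omega)
      have e2 := hf (n + 2) (by push_cast; omega)
      obtain ⟨k, hk⟩ : ∃ k : ℕ, (n : ℤ) + 1 - (G : ℤ) = k := ⟨n + 1 - G, by omega⟩
      have t0 : ((n : ℤ) + 1 - ((G : ℕ) : ℤ)).toNat = k := by omega
      have t1 : (((n + 1 : ℕ) : ℤ) + 1 - ((G : ℕ) : ℤ)).toNat = k + 1 := by push_cast; omega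
      have t2 : (((n + 2 : ℕ) : ℤ) + 1 - ((G : ℕ) : ℤ)).toNat = k + 2 := by push_cast; omega
      rw [t0] at e0
      rw [t1] at e1
      rw [t2] at e2
      apply mul_left_cancel₀ hq1
      have e3 : ((q : ℤ) - 1) * ((b (n + 2) : ℤ) - ((q : ℤ) + 1) * b (n + 1) + q * b n) =
          ((q : ℤ) - 1) * b (n + 2) - ((q : ℤ) + 1) * (((q : ℤ) - 1) * b (n + 1)) +
            q * (((q : ℤ) - 1) * b n) := by ring
      rw [e3, e0, e1, e2]
      ring
  exact_mod_cast hkey

theorem exS [Finite F] [IsDedekindDomain (AdjoinRoot f)] (h : Pls f e W) (hr : Rie h) {g : ℤ}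
    (hg : IsGen h g) (i : Fin m) (hi : e i = 1) (φ : AdjoinRoot f →+* LaurentSeries F)
    (hφ : Tail (W i) φ) : ∃ (P : ℤ[X]) (c : ℕ), IsP f e P c ∧
      aeval ((Nat.card F : ℝ)⁻¹) P.reverse = c * (Nat.card F : ℝ) ^ (-g) ∧ (P.natDegree : ℤ) ≤ 2 * g := by
  have hq : 2 ≤ Nat.card F := Finite.one_lt_card
  have hg0 := gen_nonneg h hr hg
  obtain ⟨c, hc, hcn⟩ := cn_gcd h hr hg (fun d hd => by
    have h1 := hd ((⟨⊤, top_ne_bot⟩, Pi.single i 1) : Ed f m)
    rw [zs_single h hi] at h1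
    exact Nat.dvd_one.1 h1)
  have hfor : ∀ N : ℕ, 2 * g - 1 ≤ N → ((Nat.card F : ℤ) - 1) * bn f e N =
      c * ((Nat.card F : ℤ) ^ ((N : ℤ) + 1 - g).toNat - 1) := by
    intro N hN
    rw [bn_cn' h hr hg i hi φ hφ N hN, hcn N (by omega)]
  obtain ⟨L, hL, hL1, hLq, hpos⟩ := formC (Nat.card F) c g hq hc (bn f e) (bn_zero h.monic e h.pos)
    ⟨(2 * g).toNat, fun N hN => hfor N (by omega)⟩
  obtain ⟨a1, a2, a3, a4, a5⟩ := formE (Nat.card F) m hq h.ne e h.pos (H13.TA.an f) (bn f e)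
    (H13.TA.npt f) (an_zero h.monic) (bn_zero h.monic e h.pos) (bn_an h.monic e h.pos) (by
      intro n
      rw [H13.TA.recB h.monic n]
      refine Finset.sum_congr rfl fun r hr => ?_
      rw [H13.TA.pts h.monic (by have := (Finset.mem_Icc.1 hr).1; omega)]) c L hL hL1 hpos
  have hdeg := deg_le (Nat.card F) c g hg0 hq (bn f e) (bn_zero h.monic e h.pos) L hL hfor
  have h3 : L.coeff 0 ≠ 0 := by
    have h4 := congrArg (PowerSeries.coeff 0) hL
    rw [Polynomial.coeff_coe] at h4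
    rw [h4]
    simp [bn_zero h.monic e h.pos]
  have h5 : L.reverse.natDegree = L.natDegree := by
    rw [Polynomial.reverse_natDegree, Polynomial.natTrailingDegree_eq_zero.2 (Or.inr h3), Nat.sub_zero]
  have h6 : L.reverse.reverse = L := by
    show Polynomial.reflect L.reverse.natDegree (Polynomial.reflect L.natDegree L) = L
    rw [h5, Polynomial.reflect_reflect]
  refine ⟨L.reverse, c, ⟨a1, a2, a3, hc, a4, a5⟩, ?_, ?_⟩
  · rw [h6]
    exact hLq
  · rw [h5]
    exact hdeg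

end H13.PC
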