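import Pool.Agent.H13.PC.Eg
import Pool.Agent.H13.PC.Zs
import Pool.Agent.H13.PC.Rp
import Pool.Agent.H13.PC.Hd
import Pool.Agent.H13.PC.Cb

/-!
# PC-RH: the Riemann hypothesis for curves with a separable leading form

* `fct_split`: `h i = X - C (c i)`.
* `ext1`: trivial (`1 ∣ r`).
* `rhS`: `exT` gives `W`, `hP`, `Rie`, the genus `g = gq a b m ≥ 0` (`gen_nonneg`) and the expansions; `exS` at the place `0` gives `P`, `c` with `natDegree P ≤ 2 g`
  (`AdjoinRoot f` is a Dedekind domain: `H13.TA.sm_ded`).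
  `A = P.aroots ℂ`, at most `2 g` elements. `psb` with `R = √q`: `∑ ρ ^ r = q ^ r + 1 - m - npt f r` (`IsP.npt`, `e i = 1`), of absolute value
  `≤ (|C| + m + 1) √q ^ r` (`√(q ^ r) = √q ^ r ≥ 1`). `hid` with `g` (as a natural number): for each `r ≥ 1` let `F'` be of degree `r` (`H13.CB.ext`); over
  `F'` the leading form is `∏ (X - c i)` again, `exS` as above for `bc F' f` (`qh_map`, `H13.TA.bc_smooth`), the genus is the same number
  `gq a b m`; `Ext`: `ext1`. Then `rh_pure`.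
* `rh`: `cb2` gives `k`. Over `k`: `τ = ∏ (X - c i)`, `c : Fin M → k` injective (`τ` separable, splits, monic of degree `M`: `hf.tdeg`), `c i ≠ 0`. `rhS` for
  `bc k f` gives `P₁`. Let `ρ ∈ V.aroots ℂ`, `x = ρ ^ d`, `d = [k : F]`, `x ≠ 0` as `V(0) ≠ 0`. `ps_prod` (`Ext d e 1`: `fct_ext` and `fct_split`) at `x`: the right side
  is zero, so `x` is a root of `P₁`, `‖ρ‖ ^ d = ‖x‖ = √|k| = √(q ^ d)`.
-/

set_option autoImplicit false

open Polynomial

noncomputable section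

namespace H13.PC

theorem fct_split {F : Type} [Field F] {m : ℕ} (c : Fin m → F) (hc : Function.Injective c) :
    Fct (∏ i, (X - C (c i))) (fun _ : Fin m => 1) := by
  refine ⟨fun i => X - C (c i), fun i => ⟨irreducible_X_sub_C _, monic_X_sub_C _, natDegree_X_sub_C _⟩,
    fun i j hij => hc ?_, rfl⟩
  have h1 : C (c i) = C (c j) := sub_right_injective hij
  exact C_injective h1

theorem ext1 (d m : ℕ) : Ext d (fun _ : Fin m => 1) (fun _ : Fin m => 1) := by
  intro r _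
  simp

/-- `exS` for a split leading form -/
private theorem rh_ex {k : Type} [Field k] [Finite k] {a b m : ℕ} {c : Fin m → k} {f : k[X][X]}
    (hf : Qh a b m (∏ i, (X - C (c i))) f)
    (hs : Ideal.span {f, derivative f, H13.TA.dt f} = ⊤) (hc : Function.Injective c)
    (h0 : ∀ i, c i ≠ 0) :
    0 ≤ gq a b m ∧ ∃ (P : ℤ[X]) (h : ℕ), IsP f (fun _ : Fin m => 1) P h ∧
      aeval ((Nat.card k : ℝ)⁻¹) P.reverse = h * (Nat.card k : ℝ) ^ (-gq a b m) ∧
      (P.natDegree : ℤ) ≤ 2 * gq a b m := by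
  obtain ⟨W, hP, hR, hG, hT⟩ := exT hf hs hc h0
  have hdom := hP.dom
  have hded : IsDedekindDomain (AdjoinRoot f) := H13.TA.sm_ded hf.monic hs
  obtain ⟨φ, hφ⟩ := hT ⟨0, Nat.pos_of_ne_zero hf.hM⟩
  exact ⟨gen_nonneg hP hR hG, exS hP hR hG ⟨0, Nat.pos_of_ne_zero hf.hM⟩ rfl φ hφ⟩

private theorem rh_sq (x : ℝ) (hx : 0 ≤ x) (r : ℕ) : √(x ^ r) = √x ^ r := by
  have h1 : √x * √x = x := Real.mul_self_sqrt hx
  have h2 : x ^ r = √x ^ r * √x ^ r := by rw [← mul_pow, h1]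
  rw [h2, Real.sqrt_mul_self (by positivity)]

private theorem rh_split {k : Type} [Field k] (T : k[X]) (hm : T.Monic) (hs : T.Separable)
    (hsp : T.Splits) (M : ℕ) (hM : T.natDegree = M) :
    ∃ c : Fin M → k, Function.Injective c ∧ ∏ i, (X - C (c i)) = T := by
  have h1 := hsp.eq_prod_roots_of_monic hm
  have h2 : Multiset.card T.roots = M := by rw [← hM, hsp.natDegree_eq_card_roots]
  have h3 : T.roots.Nodup := nodup_roots hs
  obtain ⟨l, hl⟩ : ∃ l : List k, T.roots = ↑l := ⟨T.roots.toList, (Multiset.coe_toList _).symm⟩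
  rw [hl] at h1 h2 h3
  rw [Multiset.coe_card] at h2
  rw [Multiset.coe_nodup] at h3
  rw [Multiset.map_coe, Multiset.prod_coe] at h1
  clear hM
  subst h2
  refine ⟨l.get, List.nodup_iff_injective_get.1 h3, ?_⟩
  rw [h1]
  exact Fin.prod_univ_fun_getElem l (fun a => X - C a)

theorem rhS {k : Type} [Field k] [Finite k] {a b m : ℕ} {c : Fin m → k} {f : k[X][X]}
    (hf : Qh a b m (∏ i, (X - C (c i))) f)
    (hs : Ideal.span {f, derivative f, H13.TA.dt f} = ⊤) (hc : Function.Injective c)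
    (h0 : ∀ i, c i ≠ 0) (hC : ∃ C : ℝ, ∀ r : ℕ, r ≠ 0 →
      |(H13.TA.npt f r : ℝ) - (Nat.card k : ℝ) ^ r| ≤ C * √((Nat.card k : ℝ) ^ r)) :
    ∃ (P : ℤ[X]) (h : ℕ), IsP f (fun _ : Fin m => 1) P h ∧
      ∀ ρ ∈ P.aroots ℂ, ‖ρ‖ = √(Nat.card k : ℝ) := by
  obtain ⟨hg0, P, h, hP, hrev, hdeg⟩ := rh_ex hf hs hc h0
  obtain ⟨K, hK⟩ := hC
  refine ⟨P, h, hP, ?_⟩
  have hq2 : 2 ≤ Nat.card k := Finite.one_lt_card
  have hq2' : (2 : ℝ) ≤ (Nat.card k : ℝ) := by exact_mod_cast hq2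
  have hs1 : 1 ≤ √(Nat.card k : ℝ) := by
    rw [Real.le_sqrt (by norm_num) (by linarith)]
    linarith
  have hcard : Multiset.card (P.aroots ℂ) ≤ 2 * (gq a b m).toNat := by
    have h1 : Multiset.card (P.aroots ℂ) ≤ P.natDegree := by
      unfold Polynomial.aroots
      refine (Polynomial.card_roots' _).trans ?_
      exact natDegree_map_le
    omega
  refine rh_pure (Nat.card k) (gq a b m).toNat hq2 _ hcard ?_ ?_
  · refine psb (P.aroots ℂ) (√(Nat.card k : ℝ)) (|K| + m + 1) (by linarith) ?_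
    intro r hr
    have h1 := hP.npt r hr
    have h2 : (∑ i : Fin m, if (1 : ℕ) ∣ r then (((1 : ℕ) : ℂ)) else 0) = (m : ℂ) := by simp
    rw [h2] at h1
    have h3 : ((P.aroots ℂ).map fun ρ => ρ ^ r).sum =
        -(((H13.TA.npt f r : ℝ) - (Nat.card k : ℝ) ^ r : ℝ) : ℂ) + (1 - (m : ℂ)) := by
      push_cast
      rw [h1]
      ring
    have h4 := rh_sq (Nat.card k : ℝ) (by linarith) r
    have h5 : ‖(-(((H13.TA.npt f r : ℝ) - (Nat.card k : ℝ) ^ r : ℝ) : ℂ) + (1 - (m : ℂ)))‖ ≤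
        |(H13.TA.npt f r : ℝ) - (Nat.card k : ℝ) ^ r| + (1 + m) := by
      refine (norm_add_le _ _).trans (add_le_add ?_ ?_)
      · rw [norm_neg, Complex.norm_real, Real.norm_eq_abs]
      · refine (norm_sub_le _ _).trans ?_
        rw [norm_one, Complex.norm_natCast]
    rw [h3]
    refine h5.trans ?_
    have h6 := hK r hr
    rw [h4] at h6
    have h7 : 1 ≤ √(Nat.card k : ℝ) ^ r := one_le_pow₀ hs1
    have h8 : K * √(Nat.card k : ℝ) ^ r ≤ |K| * √(Nat.card k : ℝ) ^ r :=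
      mul_le_mul_of_nonneg_right (le_abs_self K) (by linarith)
    have h9 : (1 + (m : ℝ)) ≤ (1 + m) * √(Nat.card k : ℝ) ^ r :=
      le_mul_of_one_le_right (by positivity) h7
    have h10 : (|K| + m + 1) * √(Nat.card k : ℝ) ^ r =
        |K| * √(Nat.card k : ℝ) ^ r + (1 + m) * √(Nat.card k : ℝ) ^ r := by ring
    rw [h10]
    linarith
  · intro r hr
    refine hid hP (gq a b m).toNat ?_ r hr
    intro r hr
    obtain ⟨F', k1, k2, k3, hF'⟩ := H13.CB.ext k r hr
    have hf' := qh_map (algebraMap k F') hf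
    rw [Polynomial.map_prod] at hf'
    simp only [Polynomial.map_sub, Polynomial.map_X, Polynomial.map_C] at hf'
    obtain ⟨-, P', h', hP', hrev', -⟩ := rh_ex (c := fun i => algebraMap k F' (c i)) hf'
      (H13.TA.bc_smooth hs) ((algebraMap k F').injective.comp hc)
      (fun i => (_root_.map_ne_zero _).2 (h0 i))
    refine ⟨F', k1, k2, k3, m, _, P', h', hF', ext1 _ m, hP', ?_⟩
    rw [hrev', Int.toNat_of_nonneg hg0]

theorem rh {F : Type} [Field F] [Finite F] {a b M : ℕ} {τ : F[X]} {f : F[X][X]}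
    (hf : Qh a b M τ f) (hs : Ideal.span {f, derivative f, H13.TA.dt f} = ⊤) (hτ : τ.Separable)
    (h0 : τ.coeff 0 ≠ 0) {m : ℕ} {e : Fin m → ℕ} (he : Fct τ e) {V : ℤ[X]} {c : ℕ}
    (hV : IsP f e V c) (ρ : ℂ) (hρ : ρ ∈ V.aroots ℂ) : ‖ρ‖ = √(Nat.card F : ℝ) := by
  obtain ⟨k, k1, k2, k3, hsp, hC⟩ := cb2 hf hs hτ h0
  obtain ⟨c₁, hinj, hprod⟩ := rh_split (τ.map (algebraMap F k)) (hf.tmon.map _) hτ.map hsp M
    (by rw [natDegree_map, hf.tdeg])
  have hf' : Qh a b M (∏ i, (X - C (c₁ i))) (H13.TA.bc k f) := by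
    rw [hprod]
    exact qh_map (algebraMap F k) hf
  have h0' : ∀ i, c₁ i ≠ 0 := by
    intro i hi
    apply h0
    have h1 : (τ.map (algebraMap F k)).coeff 0 = 0 := by
      rw [← hprod, coeff_zero_eq_eval_zero, eval_prod]
      refine Finset.prod_eq_zero (Finset.mem_univ i) ?_
      rw [eval_sub, eval_X, eval_C, hi, sub_zero]
    rwa [coeff_map, _root_.map_eq_zero] at h1
  obtain ⟨P, h, hP, hRH⟩ := rhS hf' (H13.TA.bc_smooth hs) hinj h0' hC
  have hext : Ext (Module.finrank F k) e (fun _ : Fin M => 1) :=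
    fct_ext he hτ (by
      rw [← hprod]
      exact fct_split c₁ hinj)
  have hfin : Module.Finite F k := Module.Finite.of_finite
  have hd0 : Module.finrank F k ≠ 0 := Module.finrank_pos.ne'
  have hQ : Nat.card k = Nat.card F ^ Module.finrank F k := Module.natCard_eq_pow_finrank
  have hρ0 : ρ ≠ 0 := by
    rintro rfl
    rw [mem_aroots] at hρ
    apply hV.zero
    have h2 := hρ.2
    rw [← coeff_zero_eq_aeval_zero'] at h2
    rw [← coeff_zero_eq_eval_zero]
    rw [eq_intCast] at h2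
    exact_mod_cast h2
  have hx : ρ ^ Module.finrank F k ≠ 0 := pow_ne_zero _ hρ0
  have h1 := ps_prod hext hV hP (ρ ^ Module.finrank F k) hx
  have h2 : ((V.aroots ℂ).map fun σ => 1 - σ ^ Module.finrank F k / ρ ^ Module.finrank F k).prod = 0 :=
    Multiset.prod_eq_zero (Multiset.mem_map.2 ⟨ρ, hρ, by rw [div_self hx, sub_self]⟩)
  rw [h2] at h1
  obtain ⟨σ, hσ, hσ1⟩ := Multiset.mem_map.1 (Multiset.prod_eq_zero_iff.1 h1)
  have h3 : σ = ρ ^ Module.finrank F k := by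
    have h4 : σ / ρ ^ Module.finrank F k = 1 := (sub_eq_zero.1 hσ1).symm
    rwa [div_eq_one_iff_eq hx] at h4
  have h5 := hRH σ hσ
  rw [h3, norm_pow, hQ, Nat.cast_pow, rh_sq _ (Nat.cast_nonneg _)] at h5
  exact (pow_left_inj₀ (norm_nonneg _) (Real.sqrt_nonneg _) hd0).1 h5

end H13.PC
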