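import Pool.Agent.H13.PC.Ps
import Pool.Agent.H13.CB.Rt

/-!
# PC-RT: the roots of the zeta polynomial

As `Pool/Agent/H13/CB/Rt.lean` (`rt`; copy the proof with `ps_prod` of `PC/Ps.lean`; `H13.CB.ext` gives the extension).
-/

set_option autoImplicit false

open Polynomial

noncomputable section

namespace H13.PC

variable {F : Type} [Field F] {f : F[X][X]} {m : ℕ} {e : Fin m → ℕ}

theorem rt [Finite F] {V : ℤ[X]} {c' : ℕ} (hV : IsP f e V c')
    (hall : ∀ (F' : Type) [Field F'] [Finite F'] [Algebra F F'],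
      ∃ (m' : ℕ) (e' : Fin m' → ℕ) (V' : ℤ[X]) (h' : ℕ), Ext (Module.finrank F F') e e' ∧
        IsP (H13.TA.bc F' f) e' V' h') (γ : ℂ) (hγ : aeval γ V = 0) (r c : ℕ)
    (hr : r ≠ 0) : γ ^ r ≠ (Nat.card F : ℂ) ^ (r * c) := by
  intro hx
  obtain ⟨F', hF1, hF2, hF3, hF4⟩ := H13.CB.ext F r hr
  obtain ⟨m', e', V', h', he', hV'⟩ := hall F'
  have hfin : Module.Finite F F' := Module.Finite.of_finite
  have hQ : Nat.card F' = Nat.card F ^ r := by
    rw [← hF4]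
    exact Module.natCard_eq_pow_finrank
  have hq0 : (Nat.card F : ℂ) ≠ 0 := by
    have : Nat.card F ≠ 0 := Nat.card_pos.ne'
    exact_mod_cast this
  have hx0 : (Nat.card F : ℂ) ^ (r * c) ≠ 0 := pow_ne_zero _ hq0
  have h1 := ps_prod he' hV hV' _ hx0
  have h2 : ((V.aroots ℂ).map fun ρ => 1 - ρ ^ Module.finrank F F' / (Nat.card F : ℂ) ^ (r * c)).prod = 0 := by
    rw [Multiset.prod_eq_zero_iff, Multiset.mem_map]
    refine ⟨γ, ?_, ?_⟩
    · rw [mem_aroots]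
      exact ⟨hV.monic.ne_zero, hγ⟩
    · rw [hF4, hx, div_self hx0, sub_self]
  rw [h2, Multiset.prod_eq_zero_iff, Multiset.mem_map] at h1
  obtain ⟨ρ, hρ, hρ2⟩ := h1
  rw [mem_aroots] at hρ
  have h3 : ρ = (Nat.card F : ℂ) ^ (r * c) := by
    have h4 : ρ / (Nat.card F : ℂ) ^ (r * c) = 1 := by linear_combination -hρ2
    rwa [div_eq_one_iff_eq hx0] at h4
  have h4 : ρ = (((Nat.card F : ℝ) ^ (r * c) : ℝ) : ℂ) := by
    rw [h3]
    push_cast
    rfl
  have h5 : aeval ((Nat.card F : ℝ) ^ (r * c)) V' = 0 := by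
    have h6 := hρ.2
    rw [h4] at h6
    have h7 : aeval (((Nat.card F : ℝ) ^ (r * c) : ℝ) : ℂ) V' = ((aeval ((Nat.card F : ℝ) ^ (r * c)) V' : ℝ) : ℂ) :=
      (aeval_algebraMap_apply ℂ ((Nat.card F : ℝ) ^ (r * c)) V')
    rw [h7] at h6
    exact_mod_cast h6
  rcases Nat.eq_zero_or_pos c with hc | hc
  · rw [hc, mul_zero, pow_zero] at h5
    have h6 := hV'.one
    have h7 : aeval (1 : ℝ) V' = ((V'.eval 1 : ℤ) : ℝ) := by
      have := aeval_algebraMap_apply ℝ (1 : ℤ) V'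
      rw [map_one] at this
      rw [this]
      rfl
    rw [h7, h6] at h5
    have h8 : (h' : ℝ) = 0 := by exact_mod_cast h5
    exact hV'.pos (by exact_mod_cast h8)
  · refine hV'.real _ ?_ h5
    rw [hQ, pow_mul, Nat.cast_pow]
    have h6 : (1 : ℝ) ≤ (Nat.card F : ℝ) ^ r := by
      have : 1 ≤ Nat.card F := Nat.card_pos
      exact one_le_pow₀ (by exact_mod_cast this)
    exact le_self_pow₀ h6 hc.ne'

end H13.PC
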