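import Pool.Agent.H13.PC.Qm
import Pool.Agent.H13.CB.Sp

/-!
# PC-SP: reduction

As `H13.CB.spec` in `Pool/Agent/H13/CB/Sp.lean` (copy the private lemmas and the part of the proof which shows that the
reduction is smooth if `φ d ≠ 0`, `d = d₁ d₂ d₃`). `h₀ = d ∏ c_i ∏_(i ≠ j) (c_i - c_j)`; `Qh` by `qh_map`.
-/

set_option autoImplicit false

open Polynomial

noncomputable section

namespace H13.PC

private theorem sp_dt_coeff {R : Type} [CommRing R] (g : R[X][X]) (n : ℕ) :
    (H13.TA.dt g).coeff n = derivative (g.coeff n) := by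
  unfold H13.TA.dt
  rw [Polynomial.sum_def, finsetSum_coeff]
  simp only [coeff_monomial]
  rw [Finset.sum_ite_eq' g.support n]
  by_cases hn : n ∈ g.support
  · rw [if_pos hn]
  · rw [if_neg hn, notMem_support_iff.1 hn, derivative_zero]

private theorem sp_dt_map {R S : Type} [CommRing R] [CommRing S] (φ : R →+* S) (g : R[X][X]) :
    H13.TA.dt (g.map (mapRingHom φ)) = (H13.TA.dt g).map (mapRingHom φ) := by
  ext1 n
  rw [sp_dt_coeff, coeff_map, coeff_map, sp_dt_coeff, coe_mapRingHom, derivative_map]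

private theorem sp_den (O : Type) [CommRing O] [IsDomain O] (A : (FractionRing O)[X][X]) :
    ∃ d : O, d ≠ 0 ∧ ∃ A' : O[X][X], A'.map (mapRingHom (algebraMap O (FractionRing O))) =
      C (C (algebraMap O (FractionRing O) d)) * A := by
  induction A using Polynomial.induction_on' with
  | add p q hp hq =>
    obtain ⟨d1, h1, A1, e1⟩ := hp
    obtain ⟨d2, h2, A2, e2⟩ := hq
    refine ⟨d1 * d2, mul_ne_zero h1 h2, C (C d2) * A1 + C (C d1) * A2, ?_⟩
    rw [Polynomial.map_add, Polynomial.map_mul, Polynomial.map_mul, e1, e2, map_C, map_C,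
      coe_mapRingHom, map_C, map_C, map_mul, map_mul, map_mul]
    ring
  | monomial n p =>
    obtain ⟨b, hb, h⟩ := IsLocalization.integerNormalization_spec (nonZeroDivisors O) p
    refine ⟨b, nonZeroDivisors.ne_zero hb,
      monomial n (IsLocalization.integerNormalization (nonZeroDivisors O) p), ?_⟩
    rw [map_monomial, coe_mapRingHom, h, C_mul_monomial]
    congr 1
    rw [← Polynomial.smul_eq_C_mul, algebraMap_smul]

theorem sm_den (O : Type) [CommRing O] [IsDomain O] (f : O[X][X])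
    (hs : Ideal.span {H13.CB.ofr O f, derivative (H13.CB.ofr O f), H13.TA.dt (H13.CB.ofr O f)} = ⊤) :
    ∃ d : O, d ≠ 0 ∧ ∀ (F : Type) [Field F] (φ : O →+* F), φ d ≠ 0 →
      Ideal.span {f.map (mapRingHom φ), derivative (f.map (mapRingHom φ)),
        H13.TA.dt (f.map (mapRingHom φ))} = ⊤ := by
  rw [Ideal.eq_top_iff_one, Ideal.mem_span_insert] at hs
  obtain ⟨A, z, hz, h1⟩ := hs
  rw [Ideal.mem_span_pair] at hz
  obtain ⟨B, D, hBD⟩ := hz
  obtain ⟨d1, hd1, A1, hA1⟩ := sp_den O A
  obtain ⟨d2, hd2, B1, hB1⟩ := sp_den O B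
  obtain ⟨d3, hd3, D1, hD1⟩ := sp_den O D
  have hinj : Function.Injective (mapRingHom (mapRingHom (algebraMap O (FractionRing O)))) :=
    map_injective _ (map_injective _ (IsFractionRing.injective O (FractionRing O)))
  have key : C (C (d2 * d3)) * A1 * f + C (C (d1 * d3)) * B1 * derivative f +
      C (C (d1 * d2)) * D1 * H13.TA.dt f = C (C (d1 * d2 * d3)) := by
    apply hinj
    rw [coe_mapRingHom]
    simp only [Polynomial.map_add, Polynomial.map_mul, map_C, coe_mapRingHom, map_mul]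
    rw [hA1, hB1, hD1, ← sp_dt_map, ← derivative_map]
    have h2 : f.map (mapRingHom (algebraMap O (FractionRing O))) = H13.CB.ofr O f := rfl
    rw [h2]
    rw [← hBD] at h1
    calc _ = C (C (algebraMap O (FractionRing O) d1)) * C (C (algebraMap O (FractionRing O) d2)) *
        C (C (algebraMap O (FractionRing O) d3)) * (A * H13.CB.ofr O f + (B * derivative (H13.CB.ofr O f) +
          D * H13.TA.dt (H13.CB.ofr O f))) := by ring
      _ = _ := by rw [← h1, mul_one]
  refine ⟨d1 * d2 * d3, mul_ne_zero (mul_ne_zero hd1 hd2) hd3, fun F _ φ hφ1 => ?_⟩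
  rw [Ideal.eq_top_iff_one]
  have h2 := congrArg (Polynomial.map (mapRingHom φ)) key
  simp only [Polynomial.map_add, Polynomial.map_mul, map_C, coe_mapRingHom] at h2
  rw [← sp_dt_map, ← derivative_map] at h2
  have h3 : C (C (φ (d1 * d2 * d3))⁻¹) * C (C (φ (d1 * d2 * d3))) = (1 : F[X][X]) := by
    rw [← C_mul, ← C_mul, inv_mul_cancel₀ hφ1, C_1, C_1]
  rw [← h3, ← h2]
  refine Ideal.mul_mem_left _ _ ?_
  refine Ideal.add_mem _ (Ideal.add_mem _ ?_ ?_) ?_
  · exact Ideal.mul_mem_left _ _ (Ideal.subset_span (by simp))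
  · exact Ideal.mul_mem_left _ _ (Ideal.subset_span (by simp))
  · exact Ideal.mul_mem_left _ _ (Ideal.subset_span (by simp))

theorem spq (O : Type) [CommRing O] [IsDomain O] (a b m : ℕ) (c : Fin m → O)
    (hc : Function.Injective c) (hc0 : ∀ i, c i ≠ 0) (f : O[X][X])
    (h : Qh a b m (∏ i, (X - C (c i))) f)
    (hs : Ideal.span {H13.CB.ofr O f, derivative (H13.CB.ofr O f), H13.TA.dt (H13.CB.ofr O f)} = ⊤) :
    ∃ h₀ : O, h₀ ≠ 0 ∧ ∀ (F : Type) [Field F] (φ : O →+* F), φ h₀ ≠ 0 →
      (Function.Injective fun i => φ (c i)) ∧ (∀ i, φ (c i) ≠ 0) ∧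
      Qh a b m (∏ i, (X - C (φ (c i)))) (f.map (mapRingHom φ)) ∧
      Ideal.span {f.map (mapRingHom φ), derivative (f.map (mapRingHom φ)),
        H13.TA.dt (f.map (mapRingHom φ))} = ⊤ := by
  classical
  obtain ⟨d, hd, hd2⟩ := sm_den O f hs
  refine ⟨d * ((∏ i, c i) * ∏ i, ∏ j, if i = j then 1 else c i - c j), ?_, ?_⟩
  · refine mul_ne_zero hd (mul_ne_zero (Finset.prod_ne_zero_iff.2 fun i _ => hc0 i)
      (Finset.prod_ne_zero_iff.2 fun i _ => Finset.prod_ne_zero_iff.2 fun j _ => ?_))
    split_ifs with hij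
    · exact one_ne_zero
    · exact sub_ne_zero.2 fun h => hij (hc h)
  · intro F _ φ hφ
    rw [map_mul, map_mul] at hφ
    have h1 := left_ne_zero_of_mul hφ
    have h2 := right_ne_zero_of_mul hφ
    have h3 := left_ne_zero_of_mul h2
    have h4 := right_ne_zero_of_mul h2
    rw [map_prod, Finset.prod_ne_zero_iff] at h3 h4
    refine ⟨?_, fun i => h3 i (Finset.mem_univ i), ?_, hd2 F φ h1⟩
    · intro i j hij
      by_contra hne
      have h5 := h4 i (Finset.mem_univ i)
      rw [map_prod, Finset.prod_ne_zero_iff] at h5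
      have h6 := h5 j (Finset.mem_univ j)
      rw [if_neg hne, map_sub] at h6
      exact h6 (sub_eq_zero.2 hij)
    · have h5 := qh_map φ h
      have h6 : (∏ i, (X - C (c i))).map φ = ∏ i, (X - C (φ (c i))) := by
        rw [Polynomial.map_prod]
        refine Finset.prod_congr rfl fun i _ => ?_
        rw [Polynomial.map_sub, map_X, map_C]
      rw [h6] at h5
      exact h5

end H13.PC
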