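import Pool.Agent.H13.PC.Rr
import Pool.Agent.H13.PC.Gq

/-!
# PC-SRR: Riemann's theorem for degrees at least `2 g - 1` (no duality)

Write `δ = Pi.single i 1`, `k = w i`, `d = dw w - ideg J ≥ 2 g - 1`. Suppose `ell J w ≠ d + 1 - g`; by `rr_ge` `ell J w ≥ d + 2 - g`. Let `N1` be
that of `rr_eq`, `j ∈ ℕ` with `j > d`, `n ∈ ℕ` with `n ≥ j` and `d + n - j ≥ N1`.

For a Laurent series `s` let `T s ∈ F ^ n` be its coefficients at `-(k + 1), .., -(k + n)` and `T' s ∈ F ^ n` those at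
`-(k - j + 1), .., -(k - j + n)`. `T ∘ φ` on `L J (w + n δ)` is `F`-linear with kernel `L J w` (`Tail`), so its image has dimension
`ell J (w + n δ) - ell J w = d + n + 1 - g - ell J w ≤ n - 1`, and there is a linear form `ω ≠ 0` on `F ^ n` with
(1) `ω (T (φ u)) = 0` for all `u ∈ L J (w + n δ)`.

`U = L ⊤ (j δ)`, of dimension `≥ j + 1 - g` (`rr_ge`; `e i = 1`, `ideg ⊤ = 0`). For `x ∈ U` and `t ∈ F ^ n` let
`s_t = ∑_ν t_ν z ^ (-(k - j + ν))` and `ω_x(t) = ω (T (φ x s_t))`, linear in `x` and `t`.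
(2) `ω_x (T' (φ v)) = 0` for `v ∈ L J (w + (n - j) δ)`: `φ v = s_(T' (φ v)) + s'`, `s'` of order `≥ -(k - j)`, `φ x` has order `≥ -j`, so
`T (φ x s') = 0`, and `x v ∈ L J (w + n δ)`, so `ω (T (φ x φ v)) = 0` by (1).
`T' ∘ φ` on `L J (w + (n - j) δ)` has kernel `L J (w - j δ) = 0` (degree `d - j < 0`: for `u ≠ 0` in it `ideg J ≤ ideg (span {u}) = ∑ e i W i u ≤ dw (w - j δ)`,
`prf`, `H13.TA.ideg_anti`), so the linear forms on `F ^ n` which vanish on its image form a space of dimension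
`n - ell J (w + (n - j) δ) = n - (d + n - j + 1 - g) = j - d - 1 + g < j + 1 - g ≤ dim U`. So there is `x ≠ 0` in `U` with `ω_x = 0`.
(3) `κ = W i x` is in `[0, j]`: if `κ < 0`, then all `W i' x ≤ 0`, `x` is a constant `≠ 0` (`h.glob`) and `κ = 0` (`h.cst`).
(4) `ω (T s) = 0` for all `s` of order `≥ -(k + n - j)`: `s = φ x s'`, `s'` of order `≥ -(k + n - j) + κ ≥ -(k - j + n)`,
`s' = s_(T' s') + s''` with `s''` of order `≥ -(k - j)`, so `T (φ x s'') = 0` and `ω (T s) = ω_x (T' s') = 0`.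
(5) `ell J (w + n δ) - ell J (w + (n - j) δ) = j` (`rr_eq` twice), so the coefficients of `φ u`, `u ∈ L J (w + n δ)`, at
`-(k + n - j + 1), .., -(k + n)` are arbitrary. So for each Laurent series `s` of order `≥ -(k + n)` there is such a `u` with `s - φ u` of order
`≥ -(k + n - j)`, and by (1), (4) `ω (T s) = 0`. So `ω = 0`, a contradiction.
-/

set_option autoImplicit false

open Polynomial

noncomputable section

namespace H13.PC

variable {F : Type} [Field F] {m : ℕ} {f : F[X][X]} {e : Fin m → ℕ} {W : Fin m → AdjoinRoot f → ℤ}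

private theorem srr_dwadd (w w' : Fin m → ℤ) : dw e (w + w') = dw e w + dw e w' := by
  unfold dw
  rw [← Finset.sum_add_distrib]
  refine Finset.sum_congr rfl fun i _ => ?_
  rw [Pi.add_apply]
  ring

private theorem srr_dws (i : Fin m) (n : ℤ) : dw e (Pi.single i n) = e i * n := by
  unfold dw
  rw [Finset.sum_eq_single i, Pi.single_eq_same]
  · intro j _ hj
    rw [Pi.single_eq_of_ne hj, mul_zero]
  · intro h
    exact absurd (Finset.mem_univ i) h

private theorem srr_top (h : Pls f e W) : (H13.TA.ideg f (⊤ : Ideal (AdjoinRoot f)) : ℤ) = 0 := by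
  have := h.dom
  have h1 : (⊤ : Ideal (AdjoinRoot f)) ≠ ⊥ := by
    rw [← Ideal.one_eq_top]
    exact one_ne_zero
  exact_mod_cast (H13.TA.ideg_zero h.monic h1).2 rfl

theorem gen_nonneg [IsDedekindDomain (AdjoinRoot f)] (h : Pls f e W) (hr : Rie h) {g : ℤ}
    (hg : IsGen h g) : 0 ≤ g := by
  have hd := h.dom
  have h1 : (⊤ : Ideal (AdjoinRoot f)) ≠ ⊥ := by
    rw [← Ideal.one_eq_top]
    exact one_ne_zero
  have h2 := rr_ge h hr hg h1 0
  rw [srr_top h] at h2
  have h3 : dw e (0 : Fin m → ℤ) = 0 := by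
    unfold dw
    simp
  have h4 : ell h ⊤ (0 : Fin m → ℤ) ≤ 1 := by
    have h5 : L h ⊤ (0 : Fin m → ℤ) ≤ Submodule.span F {(1 : AdjoinRoot f)} := by
      rintro r ⟨-, hr2⟩
      rcases hr2 with rfl | hr2
      · exact Submodule.zero_mem _
      · by_cases hr0 : r = 0
        · rw [hr0]
          exact Submodule.zero_mem _
        · obtain ⟨c, hc⟩ := h.glob r hr0 hr2
          rw [hc, Algebra.algebraMap_eq_smul_one]
          exact Submodule.smul_mem _ _ (Submodule.subset_span rfl)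
    have h6 := Submodule.finrank_mono h5
    rw [finrank_span_singleton (one_ne_zero : (1 : AdjoinRoot f) ≠ 0)] at h6
    exact h6
  have h5 : (ell h ⊤ (0 : Fin m → ℤ) : ℤ) ≤ 1 := by exact_mod_cast h4
  linarith

/-- the series of order at least `-a` -/
private def Sa (F : Type) [Field F] (a : ℤ) : Submodule F (LaurentSeries F) where
  carrier := {s | ∀ j < -a, s.coeff j = 0}
  add_mem' := by
    intro s t hs ht j hj
    rw [HahnSeries.coeff_add, hs j hj, ht j hj, add_zero]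
  zero_mem' := fun j _ => HahnSeries.coeff_zero
  smul_mem' := by
    intro c s hs j hj
    rw [HahnSeries.coeff_smul, hs j hj, smul_zero]

private theorem Sa_mono {a b : ℤ} (h : a ≤ b) : Sa F a ≤ Sa F b :=
  fun _ hs j hj => hs j (by linarith)

private theorem mem_Sa {a : ℤ} {s : LaurentSeries F} (hs : s ≠ 0) : s ∈ Sa F a ↔ -a ≤ s.order := by
  constructor
  · intro h
    by_contra hcon
    push Not at hcon
    exact hs (HahnSeries.coeff_order_eq_zero.1 (h _ hcon))
  · intro h j hj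
    exact HahnSeries.coeff_eq_zero_of_lt_order (lt_of_lt_of_le hj h)

private theorem Sa_mul {a b : ℤ} {s t : LaurentSeries F} (hs : s ∈ Sa F a) (ht : t ∈ Sa F b) :
    s * t ∈ Sa F (a + b) := by
  by_cases h1 : s = 0
  · rw [h1, zero_mul]
    exact Submodule.zero_mem _
  by_cases h2 : t = 0
  · rw [h2, mul_zero]
    exact Submodule.zero_mem _
  rw [mem_Sa (mul_ne_zero h1 h2), HahnSeries.order_mul h1 h2]
  have h3 := (mem_Sa h1).1 hs
  have h4 := (mem_Sa h2).1 ht
  linarith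

/-- coefficients -/
private def Tc (F : Type) [Field F] (a : ℤ) (n : ℕ) : LaurentSeries F →ₗ[F] (Fin n → F) where
  toFun s ν := s.coeff (-(a + 1 + (ν : ℕ)))
  map_add' s t := by
    funext ν
    rw [HahnSeries.coeff_add]
    rfl
  map_smul' c s := by
    funext ν
    rw [HahnSeries.coeff_smul]
    rfl

/-- the section -/
private def Sg (F : Type) [Field F] (a : ℤ) (n : ℕ) : (Fin n → F) →ₗ[F] LaurentSeries F where
  toFun t := ∑ ν, t ν • HahnSeries.single (-(a + 1 + (ν : ℕ))) (1 : F)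
  map_add' s t := by
    rw [← Finset.sum_add_distrib]
    exact Finset.sum_congr rfl fun ν _ => by rw [Pi.add_apply, add_smul]
  map_smul' c s := by
    rw [RingHom.id_apply, Finset.smul_sum]
    exact Finset.sum_congr rfl fun ν _ => by rw [Pi.smul_apply, smul_eq_mul, mul_smul]

private theorem Tc_Sg (a : ℤ) (n : ℕ) (t : Fin n → F) : Tc F a n (Sg F a n t) = t := by
  change Tc F a n (∑ ν, t ν • HahnSeries.single (-(a + 1 + (ν : ℕ))) (1 : F)) = t
  rw [map_sum]
  funext μ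
  rw [Finset.sum_apply, Finset.sum_eq_single μ]
  · rw [map_smul]
    change t μ * (HahnSeries.single (-(a + 1 + (μ : ℕ))) (1 : F)).coeff (-(a + 1 + (μ : ℕ))) = t μ
    rw [HahnSeries.coeff_single_same, mul_one]
  · intro ν _ hν
    rw [map_smul]
    change t ν * (HahnSeries.single (-(a + 1 + (ν : ℕ))) (1 : F)).coeff (-(a + 1 + (μ : ℕ))) = 0
    rw [HahnSeries.coeff_single_of_ne, mul_zero]
    intro h
    apply hν
    apply Fin.ext
    have h1 : ((μ : ℕ) : ℤ) = ((ν : ℕ) : ℤ) := by linarith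
    exact_mod_cast h1.symm
  · intro h
    exact absurd (Finset.mem_univ μ) h

private theorem Sg_mem (a : ℤ) (n : ℕ) (t : Fin n → F) : Sg F a n t ∈ Sa F (a + n) := by
  change (∑ ν, t ν • HahnSeries.single (-(a + 1 + (ν : ℕ))) (1 : F)) ∈ Sa F (a + n)
  refine Submodule.sum_mem _ fun ν _ => Submodule.smul_mem _ _ fun j hj => ?_
  rw [HahnSeries.coeff_single_of_ne]
  intro h
  have h1 : ((ν : ℕ) : ℤ) + 1 ≤ n := by exact_mod_cast ν.2
  linarith

private theorem Tc_zero {a : ℤ} {n : ℕ} {s : LaurentSeries F} (hs : s ∈ Sa F (a + n))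
    (h : Tc F a n s = 0) : s ∈ Sa F a := by
  intro j hj
  by_cases h1 : j < -(a + n)
  · exact hs j h1
  · push Not at h1
    obtain ⟨ν, hν⟩ := Int.eq_ofNat_of_zero_le (show 0 ≤ -a - 1 - j by linarith [Int.lt_iff_add_one_le.1 hj])
    have h2 : ν < n := by
      have : (ν : ℤ) < n := by linarith
      exact_mod_cast this
    have h3 := congrFun h ⟨ν, h2⟩
    have h4 : -(a + 1 + ((⟨ν, h2⟩ : Fin n) : ℕ)) = j := by
      change -(a + 1 + (ν : ℤ)) = j
      linarith
    change s.coeff (-(a + 1 + ((⟨ν, h2⟩ : Fin n) : ℕ))) = 0 at h3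
    rwa [h4] at h3

private theorem Tc_of {a : ℤ} {n : ℕ} {s : LaurentSeries F} (hs : s ∈ Sa F a) : Tc F a n s = 0 := by
  funext ν
  change s.coeff (-(a + 1 + (ν : ℕ))) = 0
  refine hs _ ?_
  have : (0 : ℤ) ≤ (ν : ℕ) := Int.natCast_nonneg _
  linarith

private theorem Sg_sub {a : ℤ} {n : ℕ} {s : LaurentSeries F} (hs : s ∈ Sa F (a + n)) :
    s - Sg F a n (Tc F a n s) ∈ Sa F a := by
  refine Tc_zero (n := n) (Submodule.sub_mem _ hs (Sg_mem a n _)) ?_
  rw [map_sub, Tc_Sg, sub_self]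

/-- no condition at the place `i` -/
private def Li (h : Pls f e W) (J : Ideal (AdjoinRoot f)) (w : Fin m → ℤ) (i : Fin m) :
    Submodule F (AdjoinRoot f) where
  carrier := {r | r ∈ J ∧ (r = 0 ∨ ∀ i', i' ≠ i → W i' r ≤ w i')}
  add_mem' := by
    rintro r s ⟨h1, h2⟩ ⟨h3, h4⟩
    refine ⟨J.add_mem h1 h3, ?_⟩
    by_cases hr : r = 0
    · rw [hr, zero_add]
      exact h4
    by_cases hs : s = 0
    · rw [hs, add_zero]
      exact h2
    by_cases hrs : r + s = 0
    · exact Or.inl hrs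
    right
    intro i' hi'
    refine (h.add i' r s hr hs hrs).trans (max_le ?_ ?_)
    · exact (h2.resolve_left hr) i' hi'
    · exact (h4.resolve_left hs) i' hi'
  zero_mem' := ⟨J.zero_mem, Or.inl rfl⟩
  smul_mem' := by
    rintro c r ⟨h1, h2⟩
    have h3 : c • r = algebraMap F (AdjoinRoot f) c * r := Algebra.smul_def c r
    refine ⟨by rw [h3]; exact J.mul_mem_left _ h1, ?_⟩
    by_cases hc : c = 0
    · left
      rw [hc, zero_smul]
    by_cases hr : r = 0
    · left
      rw [hr, smul_zero]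
    right
    intro i' hi'
    have hd := h.dom
    have hc' : algebraMap F (AdjoinRoot f) c ≠ 0 := by
      intro h0
      exact hc ((map_eq_zero_iff _ (algebraMap F (AdjoinRoot f)).injective).1 h0)
    rw [h3, h.mul i' _ _ hc' hr, h.cst i' c hc, zero_add]
    exact (h2.resolve_left hr) i' hi'

/-- the expansion as a linear map -/
private def phl (φ : AdjoinRoot f →+* LaurentSeries F)
    (hφ : ∀ c : F, φ (algebraMap F (AdjoinRoot f) c) = HahnSeries.C c) :
    AdjoinRoot f →ₗ[F] LaurentSeries F where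
  toFun := φ
  map_add' := map_add φ
  map_smul' := by
    intro c u
    rw [Algebra.smul_def, map_mul, hφ, RingHom.id_apply, HahnSeries.C_mul_eq_smul]

private theorem L_iff (h : Pls f e W) {i : Fin m} {φ : AdjoinRoot f →+* LaurentSeries F}
    (hφ : Tail (W i) φ) (J : Ideal (AdjoinRoot f)) (w : Fin m → ℤ) (n : ℤ) (u : AdjoinRoot f) :
    u ∈ L h J (w + Pi.single i n) ↔ u ∈ Li h J w i ∧ φ u ∈ Sa F (w i + n) := by
  by_cases hu : u = 0
  · rw [hu, map_zero]
    exact ⟨fun _ => ⟨Submodule.zero_mem _, Submodule.zero_mem _⟩, fun _ => Submodule.zero_mem _⟩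
  obtain ⟨h1, h2⟩ := hφ.2 u hu
  rw [mem_Sa h1, h2]
  constructor
  · rintro ⟨h3, h4⟩
    have h5 := h4.resolve_left hu
    refine ⟨⟨h3, Or.inr fun i' hi' => ?_⟩, ?_⟩
    · have h6 := h5 i'
      rwa [Pi.add_apply, Pi.single_eq_of_ne hi', add_zero] at h6
    · have h6 := h5 i
      rw [Pi.add_apply, Pi.single_eq_same] at h6
      linarith
  · rintro ⟨⟨h3, h4⟩, h5⟩
    refine ⟨h3, Or.inr fun i' => ?_⟩
    rw [Pi.add_apply]
    by_cases hi' : i' = i
    · rw [hi', Pi.single_eq_same]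
      linarith
    · rw [Pi.single_eq_of_ne hi', add_zero]
      exact (h4.resolve_left hu) i' hi'

private theorem srr_ker (h : Pls f e W) (hr : Rie h) {i : Fin m} {φ : AdjoinRoot f →+* LaurentSeries F}
    (hφ : Tail (W i) φ) (J : Ideal (AdjoinRoot f)) (w : Fin m → ℤ) (n : ℕ) :
    Module.finrank F (LinearMap.range ((Tc F (w i) n ∘ₗ phl φ hφ.1).domRestrict (L h J (w + Pi.single i (n : ℤ))))) +
      ell h J w = ell h J (w + Pi.single i (n : ℤ)) := by
  have hfin := L_fin h hr J (w + Pi.single i (n : ℤ))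
  have h1 := LinearMap.finrank_range_add_finrank_ker
    ((Tc F (w i) n ∘ₗ phl φ hφ.1).domRestrict (L h J (w + Pi.single i (n : ℤ))))
  have h2 : Submodule.map (L h J (w + Pi.single i (n : ℤ))).subtype
      (LinearMap.ker ((Tc F (w i) n ∘ₗ phl φ hφ.1).domRestrict (L h J (w + Pi.single i (n : ℤ))))) =
      L h J w := by
    ext r
    rw [Submodule.mem_map]
    constructor
    · rintro ⟨x, hx, rfl⟩
      rw [LinearMap.mem_ker] at hx
      have hx2 := (L_iff h hφ J w n x.1).1 x.2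
      have hx3 : φ x.1 ∈ Sa F (w i) := Tc_zero (n := n) hx2.2 hx
      have hx4 := (L_iff h hφ J w 0 x.1).2 ⟨hx2.1, by rwa [add_zero]⟩
      rwa [Pi.single_zero, add_zero] at hx4
    · intro hx
      have hx1 : r ∈ L h J (w + Pi.single i (0 : ℤ)) := by rwa [Pi.single_zero, add_zero]
      have hx2 := (L_iff h hφ J w 0 r).1 hx1
      rw [add_zero] at hx2
      have hx3 : r ∈ L h J (w + Pi.single i (n : ℤ)) := (L_iff h hφ J w n r).2
        ⟨hx2.1, Sa_mono (by have : (0 : ℤ) ≤ n := Int.natCast_nonneg _; linarith) hx2.2⟩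
      refine ⟨⟨r, hx3⟩, ?_, rfl⟩
      rw [LinearMap.mem_ker]
      exact Tc_of hx2.2
  have h3 := (Submodule.equivSubtypeMap (L h J (w + Pi.single i (n : ℤ)))
    (LinearMap.ker ((Tc F (w i) n ∘ₗ phl φ hφ.1).domRestrict (L h J (w + Pi.single i (n : ℤ)))))).finrank_eq
  rw [h2] at h3
  unfold ell
  rw [← h3]
  exact h1

/-- large pole orders at `i` -/
private theorem srr_big [IsDedekindDomain (AdjoinRoot f)] (h : Pls f e W) (hr : Rie h) {g : ℤ}
    (hg : IsGen h g) (i : Fin m) (hi : e i = 1) (φ : AdjoinRoot f →+* LaurentSeries F)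
    (hφ : Tail (W i) φ) {J : Ideal (AdjoinRoot f)} (hJ : J ≠ ⊥) (w : Fin m → ℤ) :
    ∃ n0 : ℤ, (Li h J w i).map (phl φ hφ.1) ⊔ Sa F (w i + n0) = ⊤ := by
  obtain ⟨N1, hN1⟩ := rr_eq h hr hg
  obtain ⟨n0, hn0⟩ : ∃ n0 : ℤ, n0 = N1 - (dw e w - (H13.TA.ideg f J : ℤ)) := ⟨_, rfl⟩
  refine ⟨n0, ?_⟩
  have hdw : ∀ n : ℤ, dw e (w + Pi.single i n) = dw e w + n := by
    intro n
    rw [srr_dwadd, srr_dws, hi, Nat.cast_one, one_mul]
  have hstep : ∀ k : ℕ, Sa F (w i + n0 + k) ≤ (Li h J w i).map (phl φ hφ.1) ⊔ Sa F (w i + n0) := by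
    intro k
    induction k with
    | zero =>
      rw [Nat.cast_zero, add_zero]
      exact le_sup_right
    | succ k ih =>
      intro s hs
      have e1 := hN1 J hJ (w + Pi.single i (n0 + k)) (by rw [hdw]; have : (0 : ℤ) ≤ k := Int.natCast_nonneg _; linarith)
      have e2 := hN1 J hJ (w + Pi.single i (n0 + k + 1)) (by rw [hdw]; have : (0 : ℤ) ≤ k := Int.natCast_nonneg _; linarith)
      rw [hdw] at e1 e2
      obtain ⟨u, hu1, hu2⟩ : ∃ u ∈ L h J (w + Pi.single i (n0 + k + 1)), u ∉ L h J (w + Pi.single i (n0 + k)) := by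
        by_contra hcon
        push Not at hcon
        have hle : L h J (w + Pi.single i (n0 + k + 1)) ≤ L h J (w + Pi.single i (n0 + k)) := hcon
        have hfin := L_fin h hr J (w + Pi.single i (n0 + k))
        have h3 := Submodule.finrank_mono hle
        have h4 : (ell h J (w + Pi.single i (n0 + k + 1)) : ℤ) ≤ ell h J (w + Pi.single i (n0 + k)) := by
          exact_mod_cast h3
        linarith
      have h3 := (L_iff h hφ J w _ u).1 hu1
      have h4 : φ u ∉ Sa F (w i + n0 + k) := fun h5 => hu2 ((L_iff h hφ J w _ u).2 ⟨h3.1, by rwa [← add_assoc]⟩)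
      have h5 : (φ u).coeff (-(w i + n0 + k + 1)) ≠ 0 := by
        intro h6
        apply h4
        intro j hj
        rcases lt_or_eq_of_le (Int.le_sub_one_of_lt hj) with h7 | h7
        · exact h3.2 j (by linarith)
        · have h8 : j = -(w i + n0 + k + 1) := by linarith
          rw [h8]
          exact h6
      obtain ⟨c, hc⟩ : ∃ c : F, c = s.coeff (-(w i + n0 + k + 1)) * ((φ u).coeff (-(w i + n0 + k + 1)))⁻¹ := ⟨_, rfl⟩
      have h6 : s - c • φ u ∈ Sa F (w i + n0 + k) := by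
        intro j hj
        rw [HahnSeries.coeff_sub, HahnSeries.coeff_smul, smul_eq_mul]
        rcases lt_or_eq_of_le (Int.le_sub_one_of_lt hj) with h7 | h7
        · have h8 : s.coeff j = 0 := hs j (by push_cast; linarith)
          rw [h8, h3.2 j (by linarith), mul_zero, sub_zero]
        · have h8 : j = -(w i + n0 + k + 1) := by linarith
          rw [h8, hc, mul_assoc, inv_mul_cancel₀ h5, mul_one, sub_self]
      have h7 := ih h6
      have h8 : c • φ u ∈ (Li h J w i).map (phl φ hφ.1) ⊔ Sa F (w i + n0) :=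
        Submodule.smul_mem _ _ (Submodule.mem_sup_left ⟨u, h3.1, rfl⟩)
      have h9 := Submodule.add_mem _ h7 h8
      rwa [sub_add_cancel] at h9
  rw [eq_top_iff]
  intro s _
  by_cases hs : s = 0
  · rw [hs]
    exact Submodule.zero_mem _
  · refine hstep (-s.order - (w i + n0)).toNat ((mem_Sa hs).2 ?_)
    have h1 := Int.self_le_toNat (-s.order - (w i + n0))
    linarith

/-- if all series are expansions up to order `-w i` then the formula holds -/
private theorem srr_a [IsDedekindDomain (AdjoinRoot f)] (h : Pls f e W) (hr : Rie h) {g : ℤ}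
    (hg : IsGen h g) (i : Fin m) (hi : e i = 1) (φ : AdjoinRoot f →+* LaurentSeries F)
    (hφ : Tail (W i) φ) {J : Ideal (AdjoinRoot f)} (hJ : J ≠ ⊥) (w : Fin m → ℤ)
    (htop : (Li h J w i).map (phl φ hφ.1) ⊔ Sa F (w i) = ⊤) :
    (ell h J w : ℤ) = dw e w - (H13.TA.ideg f J : ℤ) + 1 - g := by
  obtain ⟨N1, hN1⟩ := rr_eq h hr hg
  obtain ⟨n, hn⟩ : ∃ n : ℕ, n = (N1 - (dw e w - (H13.TA.ideg f J : ℤ))).toNat := ⟨_, rfl⟩
  have hdw : dw e (w + Pi.single i (n : ℤ)) = dw e w + n := by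
    rw [srr_dwadd, srr_dws, hi, Nat.cast_one, one_mul]
  have h1 := hN1 J hJ (w + Pi.single i (n : ℤ)) (by
    rw [hdw, hn]
    have := Int.self_le_toNat (N1 - (dw e w - (H13.TA.ideg f J : ℤ)))
    linarith)
  rw [hdw] at h1
  have h2 := srr_ker h hr hφ J w n
  have h3 : LinearMap.range ((Tc F (w i) n ∘ₗ phl φ hφ.1).domRestrict (L h J (w + Pi.single i (n : ℤ)))) = ⊤ := by
    rw [eq_top_iff]
    intro t _
    have h4 : Sg F (w i) n t ∈ (Li h J w i).map (phl φ hφ.1) ⊔ Sa F (w i) := by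
      rw [htop]
      exact Submodule.mem_top
    obtain ⟨y, hy, z, hz, hyz⟩ := Submodule.mem_sup.1 h4
    obtain ⟨u, hu, rfl⟩ := hy
    have h5 : φ u ∈ Sa F (w i + n) := by
      have h6 : phl φ hφ.1 u = Sg F (w i) n t - z := by rw [← hyz, add_sub_cancel_right]
      change phl φ hφ.1 u ∈ _
      rw [h6]
      exact Submodule.sub_mem _ (Sg_mem _ _ _)
        (Sa_mono (by have : (0 : ℤ) ≤ n := Int.natCast_nonneg _; linarith) hz)
    refine ⟨⟨u, (L_iff h hφ J w n u).2 ⟨hu, h5⟩⟩, ?_⟩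
    change Tc F (w i) n (phl φ hφ.1 u) = t
    have h6 : phl φ hφ.1 u = Sg F (w i) n t - z := by rw [← hyz, add_sub_cancel_right]
    rw [h6, map_sub, Tc_Sg, Tc_of hz, sub_zero]
  rw [h3, finrank_top, Module.finrank_fin_fun] at h2
  have h4 : ((n : ℤ) + ell h J w : ℤ) = ell h J (w + Pi.single i (n : ℤ)) := by exact_mod_cast h2
  linarith

theorem srr [IsDedekindDomain (AdjoinRoot f)] (h : Pls f e W) (hr : Rie h) {g : ℤ}
    (hg : IsGen h g) (i : Fin m) (hi : e i = 1) (φ : AdjoinRoot f →+* LaurentSeries F)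
    (hφ : Tail (W i) φ) {J : Ideal (AdjoinRoot f)} (hJ : J ≠ ⊥) (w : Fin m → ℤ)
    (hd : 2 * g - 1 ≤ dw e w - (H13.TA.ideg f J : ℤ)) :
    (ell h J w : ℤ) = dw e w - (H13.TA.ideg f J : ℤ) + 1 - g := by
  refine srr_a h hr hg i hi φ hφ hJ w ?_
  by_contra htop
  have hdom := h.dom
  obtain ⟨ω, hω, hker⟩ := Submodule.exists_le_ker_of_lt_top _ (lt_top_iff_ne_top.2 htop)
  have hωA : ∀ u ∈ Li h J w i, ω (φ u) = 0 := fun u hu =>
    hker (Submodule.mem_sup_left ⟨u, hu, rfl⟩)
  have hωS : ∀ s ∈ Sa F (w i), ω s = 0 := fun s hs => hker (Submodule.mem_sup_right hs)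
  obtain ⟨n0, hn0⟩ := srr_big h hr hg i hi φ hφ hJ w
  obtain ⟨N1, hN1⟩ := rr_eq h hr hg
  obtain ⟨d, hdd⟩ : ∃ d : ℤ, d = dw e w - (H13.TA.ideg f J : ℤ) := ⟨_, rfl⟩
  rw [← hdd] at hd
  -- the pole order `j`
  obtain ⟨j, hj⟩ : ∃ j : ℕ, d < j := ⟨(d + 1).toNat, by have := Int.self_le_toNat (d + 1); linarith⟩
  -- the length `n`
  obtain ⟨n, hnj, hnn, hnN⟩ : ∃ n : ℕ, (j : ℤ) ≤ n ∧ n0 + j ≤ n ∧ N1 ≤ d + n - j := by
    refine ⟨j + (n0).toNat + (N1 - d).toNat, ?_, ?_, ?_⟩
    · push_cast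
      have h1 : (0 : ℤ) ≤ n0.toNat := Int.natCast_nonneg _
      have h2 : (0 : ℤ) ≤ (N1 - d).toNat := Int.natCast_nonneg _
      linarith
    · push_cast
      have h1 := Int.self_le_toNat n0
      have h2 : (0 : ℤ) ≤ (N1 - d).toNat := Int.natCast_nonneg _
      linarith
    · push_cast
      have h1 : (0 : ℤ) ≤ n0.toNat := Int.natCast_nonneg _
      have h2 := Int.self_le_toNat (N1 - d)
      linarith
  have hdwn : ∀ a : ℤ, dw e (w + Pi.single i a) = dw e w + a := by
    intro a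
    rw [srr_dwadd, srr_dws, hi, Nat.cast_one, one_mul]
  obtain ⟨w', hw'⟩ : ∃ w' : Fin m → ℤ, w' = w + Pi.single i (-(j : ℤ)) := ⟨_, rfl⟩
  have hw'i : w' i = w i - j := by
    rw [hw', Pi.add_apply, Pi.single_eq_same]
    ring
  have hLi : Li h J w' i = Li h J w i := by
    ext u
    change (u ∈ J ∧ (u = 0 ∨ ∀ i', i' ≠ i → W i' u ≤ w' i')) ↔ (u ∈ J ∧ (u = 0 ∨ ∀ i', i' ≠ i → W i' u ≤ w i'))
    have h1 : ∀ i', i' ≠ i → w' i' = w i' := fun i' hi' => by
      rw [hw', Pi.add_apply, Pi.single_eq_of_ne hi', add_zero]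
    refine and_congr Iff.rfl (or_congr Iff.rfl (forall_congr' fun i' => forall_congr' fun hi' => ?_))
    rw [h1 i' hi']
  -- no functions of negative degree
  have hell0 : ell h J w' = 0 := by
    have h1 : L h J w' = ⊥ := by
      rw [eq_bot_iff]
      rintro u ⟨hu1, hu2⟩
      rw [Submodule.mem_bot]
      by_contra hu0
      have h2 := hu2.resolve_left hu0
      have h3 := prf h hr hu0
      have h4 : dw e (fun i => W i u) ≤ dw e w' := by
        unfold dw
        exact Finset.sum_le_sum fun i' _ => mul_le_mul_of_nonneg_left (h2 i') (Int.natCast_nonneg _)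
      have hsp : Ideal.span {u} ≠ ⊥ := by
        rw [Ne, Ideal.span_singleton_eq_bot]
        exact hu0
      have h5 := H13.TA.ideg_anti h.monic hsp ((Ideal.span_singleton_le_iff_mem J).2 hu1)
      have h6 : (H13.TA.ideg f J : ℤ) ≤ H13.TA.ideg f (Ideal.span {u}) := by exact_mod_cast h5
      rw [hw', hdwn] at h4
      linarith
    unfold ell
    rw [h1, finrank_bot]
  -- the linear forms
  have hrk := srr_ker h hr hφ J w' n
  have hww : w' + Pi.single i (n : ℤ) = w + Pi.single i ((n : ℤ) - j) := by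
    rw [hw', add_assoc, ← Pi.single_add]
    congr 2
    ring
  have hbig := hN1 J hJ (w + Pi.single i ((n : ℤ) - j)) (by rw [hdwn]; linarith)
  rw [hdwn] at hbig
  rw [hell0, add_zero] at hrk
  obtain ⟨Z, hZ⟩ : ∃ Z : Submodule F (Fin n → F), Z =
    LinearMap.range ((Tc F (w' i) n ∘ₗ phl φ hφ.1).domRestrict (L h J (w' + Pi.single i (n : ℤ)))) := ⟨_, rfl⟩
  rw [← hZ, hww] at hrk
  have hann := Subspace.finrank_add_finrank_dualAnnihilator_eq Z
  rw [Module.finrank_fin_fun] at hann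
  -- the multipliers
  have htop1 : (⊤ : Ideal (AdjoinRoot f)) ≠ ⊥ := by
    rw [← Ideal.one_eq_top]
    exact one_ne_zero
  have hU := rr_ge h hr hg htop1 (Pi.single i (j : ℤ))
  rw [srr_dws, hi, srr_top h, Nat.cast_one, one_mul] at hU
  have hUf := L_fin h hr (⊤ : Ideal (AdjoinRoot f)) (Pi.single i (j : ℤ))
  -- properties of multipliers
  have hx1 : ∀ x ∈ L h ⊤ (Pi.single i (j : ℤ)), ∀ u ∈ Li h J w i, x * u ∈ Li h J w i := by
    rintro x ⟨-, hx⟩ u ⟨hu1, hu2⟩
    refine ⟨J.mul_mem_left _ hu1, ?_⟩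
    by_cases hx0 : x = 0
    · left
      rw [hx0, zero_mul]
    by_cases hu0 : u = 0
    · left
      rw [hu0, mul_zero]
    right
    intro i' hi'
    rw [h.mul i' x u hx0 hu0]
    have h1 := (hx.resolve_left hx0) i'
    rw [Pi.single_eq_of_ne hi'] at h1
    linarith [(hu2.resolve_left hu0) i' hi']
  have hx2 : ∀ x ∈ L h ⊤ (Pi.single i (j : ℤ)), φ x ∈ Sa F j := by
    intro x hx
    have h1 : x ∈ L h ⊤ ((0 : Fin m → ℤ) + Pi.single i (j : ℤ)) := by rwa [zero_add]
    have h2 := ((L_iff h hφ ⊤ 0 (j : ℤ) x).1 h1).2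
    rwa [Pi.zero_apply, zero_add] at h2
  have hx3 : ∀ x ∈ L h ⊤ (Pi.single i (j : ℤ)), ∀ s ∈ Sa F (w' i), ω (φ x * s) = 0 := by
    intro x hx s hs
    refine hωS _ ?_
    have h1 := Sa_mul (hx2 x hx) hs
    rwa [hw'i, add_sub_cancel] at h1
  -- the map `x ↦ ω_x`
  let Θ : L h ⊤ (Pi.single i (j : ℤ)) →ₗ[F] Module.Dual F (Fin n → F) :=
    { toFun := fun x =>
        { toFun := fun t => ω (φ x.1 * Sg F (w' i) n t)
          map_add' := fun s t => by
            rw [map_add, mul_add, map_add]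
          map_smul' := fun c t => by
            rw [map_smul, RingHom.id_apply, ← HahnSeries.C_mul_eq_smul, mul_left_comm,
              HahnSeries.C_mul_eq_smul, map_smul] }
      map_add' := fun x y => by
        refine LinearMap.ext fun t => ?_
        change ω (φ (x.1 + y.1) * Sg F (w' i) n t) =
          ω (φ x.1 * Sg F (w' i) n t) + ω (φ y.1 * Sg F (w' i) n t)
        rw [map_add, add_mul, map_add]
      map_smul' := fun c x => by
        refine LinearMap.ext fun t => ?_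
        change ω (φ (c • x.1) * Sg F (w' i) n t) = c • ω (φ x.1 * Sg F (w' i) n t)
        have h1 : φ (c • x.1) = c • φ x.1 := (phl φ hφ.1).map_smul c x.1
        rw [h1, ← HahnSeries.C_mul_eq_smul, mul_assoc, HahnSeries.C_mul_eq_smul, map_smul] }
  have hΘ : ∀ x t, Θ x t = ω (φ x.1 * Sg F (w' i) n t) := fun _ _ => rfl
  have hrange : LinearMap.range Θ ≤ Z.dualAnnihilator := by
    rintro _ ⟨x, rfl⟩
    rw [Submodule.mem_dualAnnihilator]
    intro t ht
    rw [hZ] at ht
    obtain ⟨v, rfl⟩ := ht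
    have hv := (L_iff h hφ J w' n v.1).1 v.2
    rw [hLi] at hv
    have h1 := Sg_sub hv.2
    have h2 := hx3 x.1 x.2 _ h1
    rw [mul_sub, map_sub, ← map_mul, hωA _ (hx1 x.1 x.2 _ hv.1), zero_sub, neg_eq_zero] at h2
    rw [hΘ]
    exact h2
  have hlt : Module.finrank F (LinearMap.range Θ) < Module.finrank F (L h ⊤ (Pi.single i (j : ℤ))) := by
    have h1 := Submodule.finrank_mono hrange
    have h2 : (Module.finrank F (L h ⊤ (Pi.single i (j : ℤ))) : ℤ) = ell h ⊤ (Pi.single i (j : ℤ)) := rfl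
    have h3 : (Module.finrank F Z : ℤ) = ell h J (w + Pi.single i ((n : ℤ) - j)) := by exact_mod_cast hrk
    have h4 : (Module.finrank F Z : ℤ) + Module.finrank F Z.dualAnnihilator = n := by exact_mod_cast hann
    have h5 : (Module.finrank F (LinearMap.range Θ) : ℤ) ≤ Module.finrank F Z.dualAnnihilator := by exact_mod_cast h1
    have h6 : (Module.finrank F (LinearMap.range Θ) : ℤ) < Module.finrank F (L h ⊤ (Pi.single i (j : ℤ))) := by
      rw [h2]
      linarith
    exact_mod_cast h6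
  obtain ⟨x, hx0, hxΘ⟩ : ∃ x : L h ⊤ (Pi.single i (j : ℤ)), x ≠ 0 ∧ Θ x = 0 := by
    by_contra hcon
    push Not at hcon
    have hinj : LinearMap.ker Θ = ⊥ := by
      rw [eq_bot_iff]
      intro y hy
      rw [Submodule.mem_bot]
      by_contra hy0
      exact hcon y hy0 hy
    have h1 := LinearMap.finrank_range_add_finrank_ker Θ
    rw [hinj, finrank_bot, add_zero] at h1
    omega
  have hx0' : x.1 ≠ 0 := fun h0 => hx0 (Subtype.ext h0)
  have hfx := (hφ.2 x.1 hx0').1
  have hall : ∀ s, ω (φ x.1 * s) = 0 := by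
    intro s
    have hs : s ∈ (Li h J w i).map (phl φ hφ.1) ⊔ Sa F (w' i + n) := by
      have h1 : Sa F (w i + n0) ≤ Sa F (w' i + n) := Sa_mono (by rw [hw'i]; linarith)
      have h2 := sup_le_sup_left h1 ((Li h J w i).map (phl φ hφ.1))
      rw [hn0] at h2
      exact h2 Submodule.mem_top
    obtain ⟨y, ⟨u, hu, rfl⟩, z, hz, rfl⟩ := Submodule.mem_sup.1 hs
    have h1 : ω (φ x.1 * phl φ hφ.1 u) = 0 := by
      change ω (φ x.1 * φ u) = 0
      rw [← map_mul]
      exact hωA _ (hx1 x.1 x.2 u hu)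
    have h2 := hx3 x.1 x.2 _ (Sg_sub hz)
    have h3 : ω (φ x.1 * Sg F (w' i) n (Tc F (w' i) n z)) = 0 := by
      rw [← hΘ, hxΘ]
      rfl
    rw [mul_sub, map_sub, h3, sub_zero] at h2
    rw [mul_add, map_add, h1, h2, add_zero]
  apply hω
  refine LinearMap.ext fun s => ?_
  have h1 := hall ((φ x.1)⁻¹ * s)
  rw [mul_inv_cancel_left₀ hfx] at h1
  exact h1

end H13.PC
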