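import Pool.Agent.H13.PC.Gd
import Pool.Agent.H13.PC.Bz

/-!
# PC-YW: the points of the Galois closure over a value of the coordinate

`Yw D K w`: the ring homomorphisms `y : B → K`, the identity on `k`, with `y X = w`.

* `yw_fin`: `fib_card` for all finite subsets.
* `yw_ne`: `K` is algebraically closed and an extension of `k`, `B` is integral over `k[X]`, `k[X] → B` injective: the homomorphism
  `k[X] → K`, `X ↦ w`, extends to `B` (a prime ideal `P` of `B` above its kernel, `Ideal.exists_ideal_over_prime_of_isIntegral` / `Algebra.IsIntegral`; `B/P` is a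
  domain, integral over `k[X]/p`, which is embedded in `K`; `IsAlgClosed.lift`).
* `yw_sh`: clear, `act τ` is the identity on `k[X]`.
* `yw_root`: `∏ (X - y (x i)) = g(w, X)` is separable, so the `y (x i)` are different.
* `yw_free`: `y ∘ act τ = y` gives `y (act τ (x i)) = y (x i)`, `act τ (x i) = x j`, so `j = i` by `yw_root`, for all `i`, so `τ = 1`.
* `yw_card`, `yw_trans`: the `y ∘ act τ`, `τ ∈ G`, are `#G` different elements of `Yw`, which has at most `#G` elements.
-/

set_option autoImplicit false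

open Polynomial
open Pool.Agent.H3.FS

noncomputable section

namespace H13.PC

/-- the automorphism of `B` -/
def GD.sh {k : Type} [Field k] {g : k[X][X]} {N : ℕ} (D : GD k g N) (τ : D.G) : D.B →+* D.B :=
  ((D.act τ : D.B →ₐ[k[X]] D.B) : D.B →+* D.B)

/-- evaluation at `w` -/
def evK (k : Type) [Field k] {K : Type} [Field K] [Algebra k K] (w : K) : k[X] →+* K :=
  eval₂RingHom (algebraMap k K) w

/-- the points over `w` -/
def Yw {k : Type} [Field k] {g : k[X][X]} {N : ℕ} (D : GD k g N) (K : Type) [Field K] [Algebra k K]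
    (w : K) : Set (D.B →+* K) :=
  {y | (∀ c : k, y (algebraMap k[X] D.B (C c)) = algebraMap k K c) ∧
    y (algebraMap k[X] D.B X) = w}

variable {k : Type} [Field k] {g : k[X][X]} {N : ℕ} (D : GD k g N) {K : Type} [Field K]
  [Algebra k K] {w : K}

theorem yw_fin : (Yw D K w).Finite ∧ (Yw D K w).ncard ≤ Fintype.card D.G := by
  have h1 : ∀ Y : Finset (D.B →+* K), (Y : Set (D.B →+* K)) ⊆ Yw D K w → Y.card ≤ Fintype.card D.G := by
    intro Y hY
    exact fib_card D.c.b w Y (fun y hy => (hY hy).1) (fun y hy => (hY hy).2)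
  have h2 : (Yw D K w).Finite := by
    by_contra h
    obtain ⟨Y, hY, hc⟩ := Set.Infinite.exists_subset_card_eq h (Fintype.card D.G + 1)
    have := h1 Y hY
    omega
  refine ⟨h2, ?_⟩
  rw [Set.ncard_eq_toFinset_card _ h2]
  exact h1 _ (by rw [h2.coe_toFinset])

open scoped TensorProduct in
theorem yw_ne [IsAlgClosed K] : (Yw D K w).Nonempty := by
  letI : Algebra k[X] K := (evK k w).toAlgebra
  have h1 : Module.Free k[X] D.B := Module.Free.of_basis D.c.b
  have h2 : Module.Finite k[X] D.B := Module.Finite.of_basis D.c.b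
  have h3 : Nontrivial (K ⊗[k[X]] D.B) := by
    apply Module.nontrivial_of_finrank_pos (R := K)
    rw [Module.finrank_baseChange, Module.finrank_eq_card_basis D.c.b]
    exact Fintype.card_pos_iff.2 ⟨1⟩
  obtain ⟨M, hM⟩ := Ideal.exists_maximal (K ⊗[k[X]] D.B)
  letI := Ideal.Quotient.field M
  have h4 : Algebra.IsIntegral K ((K ⊗[k[X]] D.B) ⧸ M) := Algebra.IsIntegral.of_finite _ _
  have h5 : Function.Bijective (algebraMap K ((K ⊗[k[X]] D.B) ⧸ M)) :=
    IsAlgClosed.algebraMap_bijective_of_isIntegral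
  obtain ⟨e, he⟩ : ∃ e : K ≃+* ((K ⊗[k[X]] D.B) ⧸ M), ∀ x, e x = algebraMap K _ x :=
    ⟨RingEquiv.ofBijective _ h5, fun x => rfl⟩
  obtain ⟨y, hy⟩ : ∃ y : D.B →+* K, ∀ b, y b = e.symm (Ideal.Quotient.mk M (1 ⊗ₜ b)) :=
    ⟨(e.symm : _ →+* K).comp ((Ideal.Quotient.mk M).comp
      ((Algebra.TensorProduct.includeRight : D.B →ₐ[k[X]] K ⊗[k[X]] D.B) : D.B →+* K ⊗[k[X]] D.B)),
      fun b => rfl⟩
  have h6 : ∀ f : k[X], y (algebraMap k[X] D.B f) = evK k w f := by
    intro f
    have h7 : (1 : K) ⊗ₜ[k[X]] (algebraMap k[X] D.B f) = (evK k w f) ⊗ₜ[k[X]] (1 : D.B) := by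
      rw [Algebra.algebraMap_eq_smul_one, ← TensorProduct.smul_tmul, Algebra.smul_def, mul_one]
      rfl
    rw [hy, h7, RingEquiv.symm_apply_eq, he]
    rfl
  refine ⟨y, fun c => ?_, ?_⟩
  · rw [h6]
    simp [evK]
  · rw [h6]
    simp [evK]

private theorem yw_alg {y : D.B →+* K} (hy : y ∈ Yw D K w) : y.comp (algebraMap k[X] D.B) = evK k w := by
  apply Polynomial.ringHom_ext
  · intro c
    rw [RingHom.comp_apply, hy.1 c]
    simp [evK]
  · rw [RingHom.comp_apply, hy.2]
    simp [evK]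

private theorem sh_apply (τ : D.G) (b : D.B) : D.sh τ b = D.act τ b := rfl

theorem yw_sh {y : D.B →+* K} (hy : y ∈ Yw D K w) (τ : D.G) : y.comp (D.sh τ) ∈ Yw D K w := by
  refine ⟨fun c => ?_, ?_⟩
  · rw [RingHom.comp_apply, sh_apply, AlgEquiv.commutes]
    exact hy.1 c
  · rw [RingHom.comp_apply, sh_apply, AlgEquiv.commutes]
    exact hy.2

theorem yw_root {y : D.B →+* K} (hy : y ∈ Yw D K w) (hw : (g.map (evK k w)).Separable) :
    g.map (evK k w) = ∏ i, (X - C (y (D.x i))) ∧ Function.Injective fun i => y (D.x i) := by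
  have h1 : g.map (evK k w) = ∏ i, (X - C (y (D.x i))) := by
    rw [← yw_alg D hy, ← Polynomial.map_map, D.root, Polynomial.map_prod]
    refine Finset.prod_congr rfl fun i _ => ?_
    rw [Polynomial.map_sub, Polynomial.map_X, Polynomial.map_C]
  refine ⟨h1, ?_⟩
  rw [h1] at hw
  exact separable_prod_X_sub_C_iff.1 hw

theorem yw_free {y : D.B →+* K} (hy : y ∈ Yw D K w) (hw : (g.map (evK k w)).Separable) {τ : D.G}
    (h : y.comp (D.sh τ) = y) : τ = 1 := by
  apply D.free
  intro i
  obtain ⟨j, hj⟩ := D.perm τ i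
  have h1 : y (D.act τ (D.x i)) = y (D.x i) := by
    have h2 := congrArg (fun f : D.B →+* K => f (D.x i)) h
    exact h2
  rw [hj] at h1
  have h3 : j = i := (yw_root D hy hw).2 h1
  rw [hj, h3]

private theorem yw_inj {y : D.B →+* K} (hy : y ∈ Yw D K w) (hw : (g.map (evK k w)).Separable) :
    Function.Injective fun τ : D.G => y.comp (D.sh τ) := by
  intro τ τ' h
  have h1 : τ * τ'⁻¹ = 1 := by
    apply yw_free D hy hw
    ext b
    have h2 := congrArg (fun f : D.B →+* K => f (D.act τ'⁻¹ b)) h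
    simp only [RingHom.comp_apply, sh_apply] at h2 ⊢
    rw [← AlgEquiv.mul_apply, ← map_mul, ← AlgEquiv.mul_apply, ← map_mul, mul_inv_cancel, map_one,
      AlgEquiv.one_apply] at h2
    exact h2
  exact mul_inv_eq_one.1 h1

private theorem yw_range {y : D.B →+* K} (hy : y ∈ Yw D K w) (hw : (g.map (evK k w)).Separable) :
    Set.range (fun τ : D.G => y.comp (D.sh τ)) = Yw D K w ∧ (Yw D K w).ncard = Fintype.card D.G := by
  obtain ⟨h1, h2⟩ := yw_fin D (K := K) (w := w)
  have h3 : Set.range (fun τ : D.G => y.comp (D.sh τ)) ⊆ Yw D K w := by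
    rintro _ ⟨τ, rfl⟩
    exact yw_sh D hy τ
  have h4 : (Set.range (fun τ : D.G => y.comp (D.sh τ))).ncard = Fintype.card D.G := by
    rw [← Set.image_univ, Set.ncard_image_of_injective _ (yw_inj D hy hw), Set.ncard_univ,
      Nat.card_eq_fintype_card]
  have h5 := Set.eq_of_subset_of_ncard_le h3 (by rw [h4]; exact h2) h1
  exact ⟨h5, by rw [← h5]; exact h4⟩

theorem yw_card [IsAlgClosed K] (hw : (g.map (evK k w)).Separable) :
    (Yw D K w).ncard = Fintype.card D.G := by
  obtain ⟨y, hy⟩ := yw_ne D (K := K) (w := w)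
  exact (yw_range D hy hw).2

theorem yw_trans [IsAlgClosed K] (hw : (g.map (evK k w)).Separable) {y y' : D.B →+* K}
    (hy : y ∈ Yw D K w) (hy' : y' ∈ Yw D K w) : ∃! τ : D.G, y' = y.comp (D.sh τ) := by
  rw [← (yw_range D hy hw).1] at hy'
  obtain ⟨τ, hτ⟩ := hy'
  refine ⟨τ, hτ.symm, fun τ' h => ?_⟩
  exact yw_inj D hy hw (h.symm.trans hτ.symm)

end H13.PC
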