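import Pool.Agent.H13.PC.Hn
import Pool.Agent.H13.PC.Yw
import Pool.Agent.H13.TA.Bas

/-!
# PC-TR: change of the coordinate

`N = f.natDegree`. `tr t₀ h f = w ^ (h N) f(t₀ + 1/w, x / w ^ h)`: the coefficient of `x ^ j` is
`w ^ (h (N - j)) f_j(t₀ + 1/w)` = `reflect (h (N - j)) (f_j(t₀ + X))`, a polynomial in `w` as `deg f_j ≤ h (N - j)` (`hh`).

* `tr_monic`: the coefficient of `x ^ N` is `1`.
* `tr_irr`: `g = tr t₀ h f`. Suppose `g = g₁ g₂` with monic `g_i` of degrees `N_i ≥ 1` (`Polynomial.Monic.irreducible_iff_natDegree'`). Weight of a monomial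
  `w ^ j x ^ i`: `j + h i`; the weight of a polynomial (the largest weight of a monomial) is additive: it is the degree of the image
  under `Phi 1 h 0 1` in `F[y][z]` (`phi_deg`, `1 * 1 = h * 0 + 1`). The weight of `g` is at most `h N`, that of `g_i` at least `h N_i`, so equality holds and
  the coefficient of `x ^ j` in `g_i` has degree at most `h (N_i - j)`. For `u` of degree `n` in `x` with this property put
  `T u = ∑_j (reflect (h (n - j)) u_j)(X - t₀) x ^ j`; over the field of fractions of `k[X]` (`s = X - t₀`) `T u = s ^ (h n) u(1/s, x / s ^ h)`, so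
  `T (g₁ g₂) = T g₁ T g₂`, `T g = f`, `T g_i` is monic of degree `N_i`: against `hirr`.
* `tr_lau`: `f(t₀ + z, x) ∈ k[[z]][x]` is modulo `z` the product of the different `x - ξ i`, so by `hensel` there are zeros `y_i ∈ k[[z]]` with constant
  coefficients `ξ i`, different; `f(t₀ + z, x) = ∏ (x - y_i)` (monic of degree `N`, `N` different zeros). With `w = z⁻¹`:
  `g(z⁻¹, x) = z ^ (-h N) f(t₀ + z, z ^ h x) = ∏ (x - z ^ (-h) y_i)`; `η i = z ^ (-h) y_i`.
* `tr_npt`: over `F_Q` the map `(t, x) ↦ (1 / (t - t₀), x / (t - t₀) ^ h)` is a bijection from the points of `f = 0` with `t ≠ t₀` to those of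
  `g = 0` with `w ≠ 0`, and there are at most `N` points of `f = 0` with `t = t₀` and of `g = 0` with `w = 0`.
* `sep_d`: `g` monic with different zeros `η i` in `k((z))`, so `g` is separable over the field of fractions of `k[X]`, `A g + B g' = 1` there;
  multiply by a common denominator `d`.
-/

set_option autoImplicit false

open Polynomial
open Pool.Agent.H3.FS

noncomputable section

namespace H13.PC

/-- `w ^ (h N) f(t₀ + 1/w, x / w ^ h)` -/
def tr {k : Type} [Field k] (t₀ : k) (h : ℕ) (f : k[X][X]) : k[X][X] :=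
  ∑ j ∈ Finset.range (f.natDegree + 1),
    monomial j (Polynomial.reflect (h * (f.natDegree - j)) ((f.coeff j).comp (X + C t₀)))

variable {k : Type} [Field k] {t₀ : k} {h : ℕ} {f : k[X][X]}

private theorem tr_coeff (j : ℕ) : (tr t₀ h f).coeff j = if j ≤ f.natDegree then
    Polynomial.reflect (h * (f.natDegree - j)) ((f.coeff j).comp (X + C t₀)) else 0 := by
  unfold tr
  rw [finset_sum_coeff]
  simp only [coeff_monomial]
  rw [Finset.sum_ite_eq' (Finset.range (f.natDegree + 1)) j]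
  simp only [Finset.mem_range, Nat.lt_succ_iff]

theorem tr_monic (hf : f.Monic) : (tr t₀ h f).Monic ∧ (tr t₀ h f).natDegree = f.natDegree := by
  have h1 : (tr t₀ h f).coeff f.natDegree = 1 := by
    rw [tr_coeff, if_pos le_rfl, Nat.sub_self, mul_zero, hf.coeff_natDegree, one_comp, ← C_1,
      reflect_C, pow_zero, mul_one]
  have h2 : (tr t₀ h f).natDegree ≤ f.natDegree := by
    rw [natDegree_le_iff_coeff_eq_zero]
    intro n hn
    rw [tr_coeff, if_neg (by omega)]
  exact ⟨monic_of_natDegree_le_of_coeff_eq_one _ h2 h1,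
    natDegree_eq_of_le_of_coeff_ne_zero h2 (by rw [h1]; exact one_ne_zero)⟩

/-- the reflected polynomial at the inverse -/
private theorem tr_refl {L : Type} [CommRing L] (c : k →+* L) {v v' : L} (hv : v' * v = 1) (p : k[X])
    {M : ℕ} (hp : p.natDegree ≤ M) : eval₂ c v' (reflect M p) * v ^ M = eval₂ c v p := by
  letI : Invertible v := ⟨v', hv, by rw [mul_comm]; exact hv⟩
  exact eval₂_reflect_mul_pow c v M p hp

private theorem tr_comp (hh : ∀ j, (f.coeff j).natDegree ≤ h * (f.natDegree - j)) (j : ℕ) :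
    ((f.coeff j).comp (X + C t₀)).natDegree ≤ h * (f.natDegree - j) := by
  rw [natDegree_comp, natDegree_X_add_C, mul_one]
  exact hh j

private theorem tr_eval {L : Type} [CommRing L] (c : k →+* L) {v v' : L} (hv : v' * v = 1) (x : L)
    (hh : ∀ j, (f.coeff j).natDegree ≤ h * (f.natDegree - j)) :
    eval₂ (eval₂RingHom c v') (x * v' ^ h) (tr t₀ h f) * v ^ (h * f.natDegree) =
      eval₂ (eval₂RingHom c (v + c t₀)) x f := by
  unfold tr
  rw [eval₂_finset_sum, eval₂_eq_sum_range, Finset.sum_mul]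
  refine Finset.sum_congr rfl fun j hj => ?_
  have hj' : j ≤ f.natDegree := Nat.lt_succ_iff.1 (Finset.mem_range.1 hj)
  rw [eval₂_monomial, coe_eval₂RingHom, coe_eval₂RingHom]
  have h1 := tr_refl c hv _ (tr_comp (t₀ := t₀) hh j)
  rw [eval₂_comp, eval₂_add, eval₂_X, eval₂_C] at h1
  have h2 : h * f.natDegree = h * (f.natDegree - j) + h * j := by
    rw [← mul_add, Nat.sub_add_cancel hj']
  have h3 : (v' ^ h) ^ j * v ^ (h * j) = 1 := by
    rw [← pow_mul, ← mul_pow, hv, one_pow]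
  rw [← h1, h2, pow_add, mul_pow]
  linear_combination (eval₂ c v' (reflect (h * (f.natDegree - j)) ((f.coeff j).comp (X + C t₀))) *
    v ^ (h * (f.natDegree - j)) * x ^ j) * h3

/-- the inverse transformation -/
private def rt (t₀ : k) (h n : ℕ) (u : k[X][X]) : k[X][X] :=
  ∑ j ∈ Finset.range (n + 1), monomial j ((reflect (h * (n - j)) (u.coeff j)).comp (X - C t₀))

private theorem rt_coeff (n : ℕ) (u : k[X][X]) (j : ℕ) : (rt t₀ h n u).coeff j = if j ≤ n then
    (reflect (h * (n - j)) (u.coeff j)).comp (X - C t₀) else 0 := by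
  unfold rt
  rw [finset_sum_coeff]
  simp only [coeff_monomial]
  rw [Finset.sum_ite_eq' (Finset.range (n + 1)) j]
  simp only [Finset.mem_range, Nat.lt_succ_iff]

private theorem rt_monic {n : ℕ} {u : k[X][X]} (hu : u.Monic) (hn : u.natDegree = n) :
    (rt t₀ h n u).Monic ∧ (rt t₀ h n u).natDegree = n := by
  have h1 : (rt t₀ h n u).coeff n = 1 := by
    rw [rt_coeff, if_pos le_rfl, Nat.sub_self, mul_zero, ← hn, hu.coeff_natDegree, ← C_1,
      reflect_C, pow_zero, mul_one, C_comp]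
  have h2 : (rt t₀ h n u).natDegree ≤ n := by
    rw [natDegree_le_iff_coeff_eq_zero]
    intro j hj
    rw [rt_coeff, if_neg (by omega)]
  exact ⟨monic_of_natDegree_le_of_coeff_eq_one _ h2 h1,
    natDegree_eq_of_le_of_coeff_ne_zero h2 (by rw [h1]; exact one_ne_zero)⟩

private theorem rt_eval {L : Type} [CommRing L] (c : k →+* L) {v v' : L} (hv : v' * v = 1) (x : L)
    {n : ℕ} {u : k[X][X]} (hn : u.natDegree = n) (hd : ∀ j, (u.coeff j).natDegree ≤ h * (n - j)) :
    eval₂ (eval₂RingHom c (v + c t₀)) x (rt t₀ h n u) =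
      eval₂ (eval₂RingHom c v') (x * v' ^ h) u * v ^ (h * n) := by
  unfold rt
  rw [eval₂_finset_sum, eval₂_eq_sum_range, Finset.sum_mul, hn]
  refine Finset.sum_congr rfl fun j hj => ?_
  have hj' : j ≤ n := Nat.lt_succ_iff.1 (Finset.mem_range.1 hj)
  rw [eval₂_monomial, coe_eval₂RingHom, coe_eval₂RingHom, eval₂_comp, eval₂_sub, eval₂_X, eval₂_C,
    add_sub_cancel_right]
  have h1 := tr_refl c (v := v') (v' := v) (by rw [mul_comm]; exact hv) (u.coeff j) (hd j)
  have h2 : h * n = h * (n - j) + h * j := by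
    rw [← mul_add, Nat.sub_add_cancel hj']
  have h3 : (v' ^ h) ^ j * v ^ (h * j) = 1 := by
    rw [← pow_mul, ← mul_pow, hv, one_pow]
  have h4 : v' ^ (h * (n - j)) * v ^ (h * (n - j)) = 1 := by
    rw [← mul_pow, hv, one_pow]
  rw [← h1, h2, pow_add, mul_pow]
  linear_combination -(eval₂ c v (reflect (h * (n - j)) (u.coeff j)) * x ^ j) *
    (h4 + h3 * (v' ^ (h * (n - j)) * v ^ (h * (n - j))))


private theorem tr_wt (hh : ∀ j, (f.coeff j).natDegree ≤ h * (f.natDegree - j)) (i j : ℕ)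
    (hc : ((tr t₀ h f).coeff i).coeff j ≠ 0) : 1 * j + h * i ≤ h * f.natDegree := by
  rw [tr_coeff] at hc
  by_cases hi : i ≤ f.natDegree
  · rw [if_pos hi, coeff_reflect] at hc
    have h1 : j ≤ h * (f.natDegree - i) := by
      by_contra hj
      rw [revAt_eq_self_of_lt (by omega)] at hc
      exact hc (coeff_eq_zero_of_natDegree_lt (lt_of_le_of_lt (tr_comp hh i) (by omega)))
    rw [Nat.mul_sub] at h1
    have h2 : h * i ≤ h * f.natDegree := Nat.mul_le_mul_left h hi
    omega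
  · rw [if_neg hi, coeff_zero] at hc
    exact absurd rfl hc

private theorem tr_phd {u : k[X][X]} (hu : u.Monic) : Phi 1 h 0 1 u ≠ 0 ∧
    h * u.natDegree ≤ (Phi 1 h 0 1 u).natDegree := by
  have e : 1 * 1 = h * 0 + 1 := by omega
  have h1 := (phi_deg e u _).1 le_rfl u.natDegree 0 (by
    rw [hu.coeff_natDegree, coeff_one_zero]
    exact one_ne_zero)
  refine ⟨fun h0 => ?_, by omega⟩
  have h2 := phi_coeff e u u.natDegree 0
  rw [h0, coeff_zero, coeff_zero, hu.coeff_natDegree, coeff_one_zero] at h2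
  exact zero_ne_one h2

private theorem tr_wd {u : k[X][X]} (h1 : (Phi 1 h 0 1 u).natDegree ≤ h * u.natDegree) (j : ℕ) :
    (u.coeff j).natDegree ≤ h * (u.natDegree - j) := by
  have e : 1 * 1 = h * 0 + 1 := by omega
  rw [natDegree_le_iff_coeff_eq_zero]
  intro i hi
  by_contra hc
  have h2 := (phi_deg e u _).1 h1 j i hc
  by_cases hj : j ≤ u.natDegree
  · rw [Nat.mul_sub] at hi
    omega
  · have h3 : u.coeff j = 0 := coeff_eq_zero_of_natDegree_lt (by omega)
    rw [h3, coeff_zero] at hc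
    exact hc rfl

private theorem tr_map (u : k[X][X]) :
    eval₂ (eval₂RingHom (((C : FractionRing k[X] →+* (FractionRing k[X])[X]).comp
      (algebraMap k[X] (FractionRing k[X]))).comp C)
      (C (algebraMap k[X] (FractionRing k[X]) (X - C t₀)) +
        (((C : FractionRing k[X] →+* (FractionRing k[X])[X]).comp
          (algebraMap k[X] (FractionRing k[X]))).comp C) t₀)) X u =
      u.map (algebraMap k[X] (FractionRing k[X])) := by
  have h1 : eval₂RingHom (((C : FractionRing k[X] →+* (FractionRing k[X])[X]).comp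
      (algebraMap k[X] (FractionRing k[X]))).comp C)
      (C (algebraMap k[X] (FractionRing k[X]) (X - C t₀)) +
        (((C : FractionRing k[X] →+* (FractionRing k[X])[X]).comp
          (algebraMap k[X] (FractionRing k[X]))).comp C) t₀) =
      (C : FractionRing k[X] →+* (FractionRing k[X])[X]).comp (algebraMap k[X] (FractionRing k[X])) := by
    apply Polynomial.ringHom_ext
    · intro a
      rw [coe_eval₂RingHom, eval₂_C]
      rfl
    · rw [coe_eval₂RingHom, eval₂_X]
      simp only [RingHom.comp_apply]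
      rw [← C_add, ← map_add, sub_add_cancel]
  rw [h1]
  rfl

theorem tr_irr (hf : f.Monic) (hh : ∀ j, (f.coeff j).natDegree ≤ h * (f.natDegree - j))
    (hirr : Irreducible f) : Irreducible (tr t₀ h f) := by
  obtain ⟨hgm, hgd⟩ := tr_monic (t₀ := t₀) (h := h) hf
  rw [hgm.irreducible_iff_natDegree']
  obtain ⟨hf1, hf2⟩ := (hf.irreducible_iff_natDegree').1 hirr
  refine ⟨fun h1 => hf1 ?_, ?_⟩
  · rw [← hf.natDegree_eq_zero, ← hgd, h1, natDegree_one]
  · intro g₁ g₂ m1 m2 hg
    have hN : g₁.natDegree + g₂.natDegree = f.natDegree := by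
      rw [← m1.natDegree_mul m2, hg, hgd]
    obtain ⟨p1, d1⟩ := tr_phd (h := h) m1
    obtain ⟨p2, d2⟩ := tr_phd (h := h) m2
    have e : 1 * 1 = h * 0 + 1 := by omega
    have h3 : (Phi 1 h 0 1 g₁).natDegree + (Phi 1 h 0 1 g₂).natDegree ≤ h * f.natDegree := by
      rw [← natDegree_mul p1 p2, ← map_mul, hg]
      exact (phi_deg e _ _).2 (tr_wt hh)
    have h4 : h * g₁.natDegree + h * g₂.natDegree = h * f.natDegree := by rw [← mul_add, hN]
    have w1 := tr_wd (u := g₁) (h := h) (by omega)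
    have w2 := tr_wd (u := g₂) (h := h) (by omega)
    obtain ⟨r1, s1⟩ := rt_monic (t₀ := t₀) (h := h) m1 rfl
    obtain ⟨r2, s2⟩ := rt_monic (t₀ := t₀) (h := h) m2 rfl
    obtain ⟨K, hK⟩ : ∃ K, K = FractionRing k[X] := ⟨_, rfl⟩
    have hs : algebraMap k[X] (FractionRing k[X]) (X - C t₀) ≠ 0 := by
      rw [Ne, FaithfulSMul.algebraMap_eq_zero_iff]
      exact X_sub_C_ne_zero t₀
    have hv : (C (algebraMap k[X] (FractionRing k[X]) (X - C t₀))⁻¹ : (FractionRing k[X])[X]) *
        C (algebraMap k[X] (FractionRing k[X]) (X - C t₀)) = 1 := by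
      rw [← C_mul, inv_mul_cancel₀ hs, C_1]
    have e0 := tr_eval (((C : FractionRing k[X] →+* (FractionRing k[X])[X]).comp
      (algebraMap k[X] (FractionRing k[X]))).comp C) hv X hh (t₀ := t₀)
    have e1 := rt_eval (((C : FractionRing k[X] →+* (FractionRing k[X])[X]).comp
      (algebraMap k[X] (FractionRing k[X]))).comp C) hv X (u := g₁) rfl w1 (t₀ := t₀)
    have e2 := rt_eval (((C : FractionRing k[X] →+* (FractionRing k[X])[X]).comp
      (algebraMap k[X] (FractionRing k[X]))).comp C) hv X (u := g₂) rfl w2 (t₀ := t₀)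
    rw [tr_map] at e0 e1 e2
    have key : rt t₀ h g₁.natDegree g₁ * rt t₀ h g₂.natDegree g₂ = f := by
      apply map_injective _ (FaithfulSMul.algebraMap_injective k[X] (FractionRing k[X]))
      rw [Polynomial.map_mul, e1, e2, ← e0, ← hN, mul_add, pow_add, ← hg, eval₂_mul]
      ring
    have h5 := hf2 _ _ r1 r2 key
    rw [s2] at h5
    rw [hgd]
    exact h5


private theorem tr_prod {L : Type} [Field L] {P : L[X]} {N : ℕ} (hP : P.Monic)
    (hN : P.natDegree = N) (η : Fin N → L) (hη : Function.Injective η) (h0 : ∀ i, P.eval (η i) = 0) :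
    P = ∏ i, (X - C (η i)) := by
  refine eq_of_monic_of_dvd_of_natDegree_le (monic_prod_of_monic _ _ fun i _ => monic_X_sub_C _) hP
    ?_ ?_
  · exact Finset.prod_dvd_of_coprime (fun i _ j _ hij => pairwise_coprime_X_sub_C hη hij)
      (fun i _ => dvd_iff_isRoot.2 (h0 i))
  · rw [hN, natDegree_prod_of_monic _ _ fun i _ => monic_X_sub_C _]
    simp

theorem tr_lau (hf : f.Monic) (hh : ∀ j, (f.coeff j).natDegree ≤ h * (f.natDegree - j)) {N : ℕ}
    (ξ : Fin N → k) (hξ : Function.Injective ξ)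
    (hs : f.map (evalRingHom t₀) = ∏ i, (X - C (ξ i))) :
    ∃ η : Fin N → LaurentSeries k, Function.Injective η ∧
      (tr t₀ h f).map (lau k) = ∏ i, (X - C (η i)) := by
  have hN : f.natDegree = N := by
    rw [← hf.natDegree_map (evalRingHom t₀), hs, natDegree_prod_of_monic _ _ fun i _ => monic_X_sub_C _]
    simp
  obtain ⟨φ, hφ⟩ : ∃ φ : k[X] →+* PowerSeries k,
      φ = eval₂RingHom (PowerSeries.C) (PowerSeries.X + PowerSeries.C t₀) := ⟨_, rfl⟩
  have hφ0 : (PowerSeries.constantCoeff (R := k)).comp φ = evalRingHom t₀ := by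
    apply Polynomial.ringHom_ext
    · intro a
      simp [hφ]
    · simp [hφ]
  have hsep : (∏ i, (X - C (ξ i)) : k[X]).Separable := separable_prod_X_sub_C_iff.2 hξ
  have hG : (f.map φ).map (PowerSeries.constantCoeff (R := k)) = ∏ i, (X - C (ξ i)) := by
    rw [Polynomial.map_map, hφ0, hs]
  have hroot : ∀ i, (∏ i, (X - C (ξ i)) : k[X]).eval (ξ i) = 0 := fun i => by
    rw [eval_prod]
    exact Finset.prod_eq_zero (Finset.mem_univ i) (by simp)
  have hcc : ∀ (P : (PowerSeries k)[X]) (c : k), PowerSeries.constantCoeff (P.eval (PowerSeries.C c)) =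
      (P.map (PowerSeries.constantCoeff (R := k))).eval c := by
    intro P c
    rw [eval_map, ← eval₂_hom, PowerSeries.constantCoeff_C]
  have hy : ∀ i, ∃ y : PowerSeries k, PowerSeries.constantCoeff y = ξ i ∧ (f.map φ).eval y = 0 := by
    intro i
    refine hensel _ (ξ i) ?_ ?_
    · rw [hcc, hG, hroot i]
    · rw [hcc, ← derivative_map, hG]
      have h1 := hsep.aeval_derivative_ne_zero (x := ξ i) (by
        rw [coe_aeval_eq_eval, hroot i])
      rwa [coe_aeval_eq_eval] at h1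
  choose y hy0 hy1 using hy
  have hv : (HahnSeries.single (-1 : ℤ) (1 : k)) * HahnSeries.single (1 : ℤ) (1 : k) = 1 := by
    rw [HahnSeries.single_mul_single]
    norm_num
  have hv0 : HahnSeries.single (1 : ℤ) (1 : k) ≠ 0 := HahnSeries.single_ne_zero one_ne_zero
  have hv1 : HahnSeries.single (-1 : ℤ) (1 : k) ≠ 0 := HahnSeries.single_ne_zero one_ne_zero
  refine ⟨fun i => HahnSeries.ofPowerSeries ℤ k (y i) * HahnSeries.single (-1 : ℤ) (1 : k) ^ h,
    ?_, ?_⟩
  · intro i j hij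
    have h1 := mul_right_cancel₀ (pow_ne_zero h hv1) hij
    have h2 := HahnSeries.ofPowerSeries_injective h1
    apply hξ
    rw [← hy0 i, ← hy0 j, h2]
  · obtain ⟨hgm, hgd⟩ := tr_monic (t₀ := t₀) (h := h) hf
    refine tr_prod (hgm.map _) (by rw [hgm.natDegree_map, hgd, hN]) _ ?_ ?_
    · intro i j hij
      have h1 := mul_right_cancel₀ (pow_ne_zero h hv1) hij
      have h2 := HahnSeries.ofPowerSeries_injective h1
      apply hξ
      rw [← hy0 i, ← hy0 j, h2]
    · intro i
      have h1 := tr_eval (t₀ := t₀) (HahnSeries.C : k →+* LaurentSeries k) hv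
        (HahnSeries.ofPowerSeries ℤ k (y i)) hh
      have h2 : eval₂RingHom (HahnSeries.C : k →+* LaurentSeries k)
          (HahnSeries.single (1 : ℤ) (1 : k) + HahnSeries.C t₀) =
          (HahnSeries.ofPowerSeries ℤ k).comp φ := by
        apply Polynomial.ringHom_ext
        · intro a
          rw [coe_eval₂RingHom, eval₂_C, RingHom.comp_apply, hφ, coe_eval₂RingHom, eval₂_C,
            HahnSeries.ofPowerSeries_C]
        · rw [coe_eval₂RingHom, eval₂_X, RingHom.comp_apply, hφ, coe_eval₂RingHom, eval₂_X, map_add,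
            HahnSeries.ofPowerSeries_C, HahnSeries.ofPowerSeries_X]
      have h4 : eval₂ φ (y i) f = 0 := by
        rw [← eval_map]
        exact hy1 i
      rw [h2, ← hom_eval₂, h4, map_zero] at h1
      rcases mul_eq_zero.1 h1 with h3 | h3
      · rw [eval_map]
        exact h3
      · exact absurd h3 (pow_ne_zero _ hv0)


private theorem tr_fib {E : Type} [Field E] [Algebra k E] {g : k[X][X]} (hg : g.Monic) (w : E) :
    {p : E × E | H13.TA.ev g p = 0 ∧ p.1 = w}.ncard ≤ g.natDegree := by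
  classical
  obtain ⟨P, hP⟩ : ∃ P : E[X], P = g.map ((aeval w : k[X] →ₐ[k] E) : k[X] →+* E) := ⟨_, rfl⟩
  have hP0 : P ≠ 0 := by
    rw [hP]
    exact (hg.map _).ne_zero
  have h1 : {p : E × E | H13.TA.ev g p = 0 ∧ p.1 = w} ⊆
      (fun x => (w, x)) '' (P.roots.toFinset : Set E) := by
    rintro ⟨t, x⟩ ⟨h2, h3⟩
    change t = w at h3
    subst h3
    refine ⟨x, ?_, rfl⟩
    rw [Finset.mem_coe, Multiset.mem_toFinset, mem_roots hP0, IsRoot.def, hP, eval_map]
    exact h2
  calc {p : E × E | H13.TA.ev g p = 0 ∧ p.1 = w}.ncard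
      ≤ ((fun x => (w, x)) '' (P.roots.toFinset : Set E)).ncard :=
        Set.ncard_le_ncard h1 ((Finset.finite_toSet _).image _)
    _ ≤ (P.roots.toFinset : Set E).ncard := Set.ncard_image_le (Finset.finite_toSet _)
    _ = P.roots.toFinset.card := Set.ncard_coe_finset _
    _ ≤ Multiset.card P.roots := Multiset.toFinset_card_le _
    _ ≤ P.natDegree := card_roots' P
    _ = g.natDegree := by rw [hP, hg.natDegree_map]

private theorem tr_frob (k : Type) [Field k] [Finite k] (E : Type) [Field E] [Algebra k E] (r : ℕ) :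
    ∃ σ : E →ₐ[k] E, ∀ x, σ x = x ^ Nat.card k ^ r := by
  classical
  letI := Fintype.ofFinite k
  induction r with
  | zero => exact ⟨AlgHom.id k E, fun x => by simp⟩
  | succ r ih =>
    obtain ⟨σ, hσ⟩ := ih
    refine ⟨(FiniteField.frobeniusAlgHom k E).comp σ, fun x => ?_⟩
    rw [AlgHom.comp_apply, hσ, FiniteField.coe_frobeniusAlgHom, pow_succ, pow_mul,
      Nat.card_eq_fintype_card]

private theorem tr_fin {E : Type} [Field E] {Q : ℕ} (hQ : 1 < Q) : {x : E | x ^ Q = x}.Finite := by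
  have h1 : (X ^ Q - X : E[X]) ≠ 0 := FiniteField.X_pow_card_sub_X_ne_zero E hQ
  refine (finite_setOfPred_isRoot h1).subset fun x hx => ?_
  change IsRoot _ x
  rw [IsRoot.def, eval_sub, eval_pow, eval_X, sub_eq_zero]
  exact hx

theorem tr_npt [Finite k] (hf : f.Monic)
    (hh : ∀ j, (f.coeff j).natDegree ≤ h * (f.natDegree - j)) (r : ℕ) (hr : r ≠ 0) :
    |(H13.TA.npt f r : ℝ) - H13.TA.npt (tr t₀ h f) r| ≤ f.natDegree := by
  classical
  obtain ⟨hgm, hgd⟩ := tr_monic (t₀ := t₀) (h := h) hf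
  obtain ⟨E, hE⟩ : ∃ E, E = AlgebraicClosure k := ⟨_, rfl⟩
  have hq : 1 < Nat.card k := Finite.one_lt_card
  obtain ⟨Q, hQ⟩ : ∃ Q, Q = Nat.card k ^ r := ⟨_, rfl⟩
  have hQ1 : 1 < Q := by
    rw [hQ]
    exact Nat.one_lt_pow hr hq
  obtain ⟨σ, hσ⟩ := tr_frob k (AlgebraicClosure k) r
  rw [← hQ] at hσ
  obtain ⟨τ, hτ⟩ : ∃ τ : AlgebraicClosure k, τ = algebraMap k (AlgebraicClosure k) t₀ := ⟨_, rfl⟩
  obtain ⟨A, hA⟩ : ∃ A : k[X][X] → Set (AlgebraicClosure k × AlgebraicClosure k),
      A = fun g => {p | H13.TA.ev g p = 0 ∧ p.1 ^ Q = p.1 ∧ p.2 ^ Q = p.2} := ⟨_, rfl⟩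
  have hn : ∀ g, H13.TA.npt g r = (A g).ncard := by
    intro g
    rw [hA]
    unfold H13.TA.npt
    rw [← hQ]
    rfl
  have hAf : ∀ g, (A g).Finite := by
    intro g
    refine ((tr_fin (E := AlgebraicClosure k) hQ1).prod (tr_fin (E := AlgebraicClosure k) hQ1)).subset ?_
    rw [hA]
    rintro p ⟨-, h1, h2⟩
    exact ⟨h1, h2⟩
  have hsplit : ∀ g w, (A g).ncard = (A g ∩ {p | p.1 = w}).ncard + (A g \ {p | p.1 = w}).ncard :=
    fun g w => (Set.ncard_inter_add_ncard_diff_eq_ncard _ _ (hAf g)).symm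
  have hsm : ∀ g : k[X][X], g.Monic → ∀ w, (A g ∩ {p | p.1 = w}).ncard ≤ g.natDegree := by
    intro g hg w
    refine le_trans (Set.ncard_le_ncard ?_ ?_) (tr_fib (E := AlgebraicClosure k) hg w)
    · rw [hA]
      rintro p ⟨h1, h2⟩
      exact ⟨h1.1, h2⟩
    · by_contra hinf
      have : {p : AlgebraicClosure k × AlgebraicClosure k | H13.TA.ev g p = 0 ∧ p.1 = w}.Finite := by
        obtain ⟨P, hP⟩ : ∃ P : (AlgebraicClosure k)[X], P = g.map
          ((aeval w : k[X] →ₐ[k] AlgebraicClosure k) : k[X] →+* AlgebraicClosure k) := ⟨_, rfl⟩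
        have hP0 : P ≠ 0 := by
          rw [hP]
          exact (hg.map _).ne_zero
        refine ((P.roots.toFinset.finite_toSet).image (fun x => (w, x))).subset ?_
        rintro ⟨t, x⟩ ⟨h2, h3⟩
        change t = w at h3
        subst h3
        refine ⟨x, ?_, rfl⟩
        rw [Finset.mem_coe, Multiset.mem_toFinset, mem_roots hP0, IsRoot.def, hP, eval_map]
        exact h2
      exact hinf this
  have hbij : (A f \ {p | p.1 = τ}).ncard = (A (tr t₀ h f) \ {p | p.1 = 0}).ncard := by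
    have hev : ∀ t x : AlgebraicClosure k, t - τ ≠ 0 →
        (H13.TA.ev (tr t₀ h f) ((t - τ)⁻¹, x * ((t - τ)⁻¹) ^ h) = 0 ↔ H13.TA.ev f (t, x) = 0) := by
      intro t x ht
      have h1 := tr_eval (t₀ := t₀) (algebraMap k (AlgebraicClosure k)) (inv_mul_cancel₀ ht) x hh
      rw [← hτ, sub_add_cancel] at h1
      have h2 : ∀ (g : k[X][X]) (s y : AlgebraicClosure k), H13.TA.ev g (s, y) =
          eval₂ (eval₂RingHom (algebraMap k (AlgebraicClosure k)) s) y g := fun g s y => rfl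
      rw [h2, h2, ← h1]
      constructor
      · intro h3
        rw [h3, zero_mul]
      · intro h3
        exact (mul_eq_zero.1 h3).resolve_right (pow_ne_zero _ ht)
    have himg : A (tr t₀ h f) \ {p | p.1 = 0} = (fun p : AlgebraicClosure k × AlgebraicClosure k =>
        ((p.1 - τ)⁻¹, p.2 * ((p.1 - τ)⁻¹) ^ h)) '' (A f \ {p | p.1 = τ}) := by
      rw [hA]
      ext ⟨w, y⟩
      constructor
      · rintro ⟨⟨h1, h2, h3⟩, h4⟩
        change w ≠ 0 at h4
        change w ^ Q = w at h2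
        change y ^ Q = y at h3
        rw [← hσ] at h2 h3
        have e1 : (τ + w⁻¹) - τ = w⁻¹ := add_sub_cancel_left _ _
        refine ⟨(τ + w⁻¹, y * w⁻¹ ^ h), ⟨⟨?_, ?_, ?_⟩, ?_⟩, ?_⟩
        · rw [← hev (τ + w⁻¹) (y * w⁻¹ ^ h) (by rw [e1]; exact inv_ne_zero h4), e1, inv_inv]
          rw [mul_assoc, ← mul_pow, inv_mul_cancel₀ h4, one_pow, mul_one]
          exact h1
        · change (τ + w⁻¹) ^ Q = τ + w⁻¹
          rw [← hσ, map_add, map_inv₀, h2, hτ, AlgHom.commutes]
        · change (y * w⁻¹ ^ h) ^ Q = y * w⁻¹ ^ h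
          rw [← hσ, map_mul, map_pow, map_inv₀, h2, h3]
        · change τ + w⁻¹ ≠ τ
          intro h5
          exact inv_ne_zero h4 (by rw [← e1, h5, sub_self])
        · change ((τ + w⁻¹ - τ)⁻¹, y * w⁻¹ ^ h * ((τ + w⁻¹ - τ)⁻¹) ^ h) = (w, y)
          rw [e1, inv_inv, mul_assoc, ← mul_pow, inv_mul_cancel₀ h4, one_pow, mul_one]
      · rintro ⟨⟨t, x⟩, ⟨⟨h1, h2, h3⟩, h4⟩, h5⟩
        change t ≠ τ at h4
        change t ^ Q = t at h2
        change x ^ Q = x at h3
        rw [← hσ] at h2 h3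
        have ht : t - τ ≠ 0 := sub_ne_zero.2 h4
        have e5 : w = (t - τ)⁻¹ ∧ y = x * ((t - τ)⁻¹) ^ h :=
          ⟨(congrArg Prod.fst h5).symm, (congrArg Prod.snd h5).symm⟩
        obtain ⟨rfl, rfl⟩ := e5
        have e6 : σ (t - τ) = t - τ := by rw [map_sub, h2, hτ, AlgHom.commutes]
        refine ⟨⟨(hev t x ht).2 h1, ?_, ?_⟩, ?_⟩
        · change ((t - τ)⁻¹) ^ Q = (t - τ)⁻¹
          rw [← hσ, map_inv₀, e6]
        · change (x * ((t - τ)⁻¹) ^ h) ^ Q = x * ((t - τ)⁻¹) ^ h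
          rw [← hσ, map_mul, map_pow, map_inv₀, e6, h3]
        · exact inv_ne_zero ht
    rw [himg, Set.ncard_image_of_injOn]
    rintro ⟨t, x⟩ ⟨-, h1⟩ ⟨t', x'⟩ ⟨-, h1'⟩ h2
    change t ≠ τ at h1
    change t' ≠ τ at h1'
    have e1 : (t - τ)⁻¹ = (t' - τ)⁻¹ := congrArg Prod.fst h2
    have e2 : x * ((t - τ)⁻¹) ^ h = x' * ((t' - τ)⁻¹) ^ h := congrArg Prod.snd h2
    have e3 : t = t' := sub_left_injective (inv_injective e1)
    subst e3
    have e4 : x = x' := mul_right_cancel₀ (pow_ne_zero h (inv_ne_zero (sub_ne_zero.2 h1))) e2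
    rw [e4]
  have a1 := hsm f hf τ
  have a2 := hsm _ hgm 0
  rw [hgd] at a2
  rw [hn, hn, hsplit f τ, hsplit (tr t₀ h f) 0, hbij]
  push_cast
  rw [add_sub_add_right_eq_sub, abs_le]
  have a1' : ((A f ∩ {p | p.1 = τ}).ncard : ℝ) ≤ f.natDegree := by exact_mod_cast a1
  have a2' : ((A (tr t₀ h f) ∩ {p | p.1 = 0}).ncard : ℝ) ≤ f.natDegree := by exact_mod_cast a2
  have b1 : (0 : ℝ) ≤ ((A f ∩ {p | p.1 = τ}).ncard : ℝ) := Nat.cast_nonneg _
  have b2 : (0 : ℝ) ≤ ((A (tr t₀ h f) ∩ {p | p.1 = 0}).ncard : ℝ) := Nat.cast_nonneg _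
  constructor <;> linarith

theorem sep_d {g : k[X][X]} {N : ℕ} (η : Fin N → LaurentSeries k) (hη : Function.Injective η)
    (hs : g.map (lau k) = ∏ i, (X - C (η i))) :
    ∃ d : k[X], d ≠ 0 ∧ ∀ w : AlgebraicClosure k, aeval w d ≠ 0 → (g.map (evK k w)).Separable := by
  have hu : ∀ y : nonZeroDivisors k[X], IsUnit (lau k y) := fun y =>
    (lau_ne (nonZeroDivisors.coe_ne_zero y)).isUnit
  obtain ⟨ψ, hψ⟩ : ∃ ψ : FractionRing k[X] →+* LaurentSeries k,
      ψ.comp (algebraMap k[X] (FractionRing k[X])) = lau k :=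
    ⟨IsLocalization.lift hu, IsLocalization.lift_comp hu⟩
  have h1 : (g.map (algebraMap k[X] (FractionRing k[X]))).Separable := by
    rw [← separable_map ψ, Polynomial.map_map, hψ, hs]
    exact separable_prod_X_sub_C_iff.2 hη
  obtain ⟨a, b, hab⟩ := h1
  obtain ⟨d₁, hd₁, h2⟩ := IsLocalization.integerNormalization_spec (nonZeroDivisors k[X]) a
  obtain ⟨d₂, hd₂, h3⟩ := IsLocalization.integerNormalization_spec (nonZeroDivisors k[X]) b
  obtain ⟨a', ha'⟩ : ∃ a', a' = IsLocalization.integerNormalization (nonZeroDivisors k[X]) a := ⟨_, rfl⟩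
  obtain ⟨b', hb'⟩ : ∃ b', b' = IsLocalization.integerNormalization (nonZeroDivisors k[X]) b := ⟨_, rfl⟩
  rw [← ha'] at h2
  rw [← hb'] at h3
  have hinj := FaithfulSMul.algebraMap_injective k[X] (FractionRing k[X])
  have key : C d₂ * a' * g + C d₁ * b' * derivative g = C (d₁ * d₂) := by
    apply map_injective _ hinj
    rw [Polynomial.map_add, Polynomial.map_mul, Polynomial.map_mul, Polynomial.map_mul,
      Polynomial.map_mul, h2, h3, Polynomial.map_C, Polynomial.map_C, Polynomial.map_C,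
      ← derivative_map, map_mul, C_mul]
    have e1 : ∀ (d : k[X]) (p : (FractionRing k[X])[X]), d • p =
        C (algebraMap k[X] (FractionRing k[X]) d) * p := by
      intro d p
      rw [← smul_eq_C_mul, algebraMap_smul]
    rw [e1, e1]
    linear_combination (C (algebraMap k[X] (FractionRing k[X]) d₁) *
      C (algebraMap k[X] (FractionRing k[X]) d₂)) * hab
  obtain ⟨A, hA⟩ : ∃ A, A = C d₂ * a' := ⟨_, rfl⟩
  obtain ⟨B, hB⟩ : ∃ B, B = C d₁ * b' := ⟨_, rfl⟩
  rw [← hA, ← hB] at key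
  refine ⟨d₁ * d₂, mul_ne_zero (nonZeroDivisors.ne_zero hd₁) (nonZeroDivisors.ne_zero hd₂),
    fun w hw => ?_⟩
  have h4 := congrArg (Polynomial.map (evK k w)) key
  rw [Polynomial.map_add, Polynomial.map_mul, Polynomial.map_mul, Polynomial.map_C,
    ← derivative_map] at h4
  have h5 : evK k w (d₁ * d₂) ≠ 0 := hw
  refine ⟨C (evK k w (d₁ * d₂))⁻¹ * Polynomial.map (evK k w) A,
    C (evK k w (d₁ * d₂))⁻¹ * Polynomial.map (evK k w) B, ?_⟩
  rw [mul_assoc, mul_assoc, ← mul_add, h4, ← C_mul, inv_mul_cancel₀ h5, C_1]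

end H13.PC
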