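import Pool.Agent.H13.PC.Wg
import Pool.Agent.H13.PC.Tr

/-!
# PC-WF: the number of points of a curve with a totally split fibre
-/

set_option autoImplicit false

open Polynomial
open Pool.Agent.H3.FS

noncomputable section

namespace H13.PC

theorem wf {k : Type} [Field k] [Finite k] {f : k[X][X]} (hf : f.Monic) (hirr : Irreducible f)
    (t₀ : k) {N : ℕ} (hN : N ≠ 0) (ξ : Fin N → k) (hξ : Function.Injective ξ)
    (hs : f.map (evalRingHom t₀) = ∏ i, (X - C (ξ i))) :
    ∃ C : ℝ, ∀ r : ℕ, r ≠ 0 → |(H13.TA.npt f r : ℝ) - (Nat.card k : ℝ) ^ r| ≤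
      C * √((Nat.card k : ℝ) ^ r) := by
  obtain ⟨h, hh⟩ : ∃ h : ℕ, ∀ j, (f.coeff j).natDegree ≤ h * (f.natDegree - j) := by
    refine ⟨(Finset.range f.natDegree).sup fun j => (f.coeff j).natDegree, fun j => ?_⟩
    rcases lt_trichotomy j f.natDegree with h1 | h1 | h1
    · have h2 : (f.coeff j).natDegree ≤ (Finset.range f.natDegree).sup fun j => (f.coeff j).natDegree :=
        Finset.le_sup (f := fun j => (f.coeff j).natDegree) (Finset.mem_range.2 h1)
      have h3 : 1 ≤ f.natDegree - j := by omega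
      calc (f.coeff j).natDegree ≤ ((Finset.range f.natDegree).sup fun j => (f.coeff j).natDegree) * 1 := by
            rw [mul_one]
            exact h2
        _ ≤ _ := Nat.mul_le_mul_left _ h3
    · have h2 : f.coeff j = 1 := by
        rw [h1]
        exact hf
      rw [h2, natDegree_one]
      exact Nat.zero_le _
    · rw [coeff_eq_zero_of_natDegree_lt h1, natDegree_zero]
      exact Nat.zero_le _
  have hdeg : f.natDegree = N := by
    have h1 := hf.natDegree_map (evalRingHom t₀)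
    rw [hs, natDegree_prod_of_monic _ _ fun i _ => monic_X_sub_C _] at h1
    simpa using h1.symm
  obtain ⟨η, hη, hl⟩ := tr_lau hf hh ξ hξ hs
  obtain ⟨hm, hd⟩ := tr_monic (t₀ := t₀) (h := h) hf
  obtain ⟨D⟩ := gd_ex (tr t₀ h f) N hm (hd.trans hdeg) (tr_irr hf hh hirr) η hη hl
  obtain ⟨d, hd0, hsep⟩ := sep_d η hη hl
  obtain ⟨C, hC⟩ := wg D hm (hd.trans hdeg) hN d hd0 hsep
  refine ⟨C + f.natDegree, fun r hr => ?_⟩
  have h1 := hC r hr
  have h2 := tr_npt (t₀ := t₀) hf hh r hr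
  have h3 : (1 : ℝ) ≤ √((Nat.card k : ℝ) ^ r) := by
    rw [Real.one_le_sqrt]
    have h4 : (1 : ℝ) ≤ Nat.card k := by
      have : 1 ≤ Nat.card k := Nat.card_pos
      exact_mod_cast this
    exact one_le_pow₀ h4
  have h4 : (f.natDegree : ℝ) ≤ f.natDegree * √((Nat.card k : ℝ) ^ r) :=
    le_mul_of_one_le_right (Nat.cast_nonneg _) h3
  calc |(H13.TA.npt f r : ℝ) - (Nat.card k : ℝ) ^ r|
      ≤ |(H13.TA.npt f r : ℝ) - H13.TA.npt (tr t₀ h f) r| +
        |(H13.TA.npt (tr t₀ h f) r : ℝ) - (Nat.card k : ℝ) ^ r| := abs_sub_le _ _ _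
    _ ≤ f.natDegree + C * √((Nat.card k : ℝ) ^ r) := add_le_add h2 h1
    _ ≤ (C + f.natDegree) * √((Nat.card k : ℝ) ^ r) := by
      rw [add_mul]
      linarith

end H13.PC
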