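import Pool.Agent.H13.PC.Yw
import Pool.Agent.H13.PC.Bt
import Pool.Agent.H13.TA.Bas

/-!
# PC-WG: the number of points of a curve which is totally split at infinity

`q = #k`, `K = AlgebraicClosure k`, `Q = q ^ r = p ^ t`, `F_Q = {z ∈ K : z ^ Q = z}` (`Q` elements). `w ∈ F_Q` is good if `d(w) ≠ 0`; at most
`δ = deg d` elements are bad. For good `w ∈ F_Q` and `y ∈ Yw D K w` the homomorphism `y ^ Q : b ↦ y(b) ^ Q` (Frobenius; `c ^ Q = c` for
`c ∈ k`, `w ^ Q = w`) is in `Yw D K w`, so there is exactly one `τ ∈ G` with `y(b) ^ Q = y(act τ b)` for all `b` (`yw_trans`). Let `Y_τ` be the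
set of the `y ∈ Yw D K w`, `w ∈ F_Q` good, with this `τ`. `#Y_τ ≤ Q + C₁ √Q` (`bspT` with `D.c`, `τ = D.sh τ`, `D.conj`; `C₁ = 6 (#G) ^ 2 h p`), and
`∑_τ #Y_τ = #G #good ≥ #G (Q - δ)` (`yw_card`), so `|#Y_τ - Q| ≤ #G (δ + C₁ √Q)` for each `τ`.
For good `w` and `y ∈ Yw D K w` the roots of `g(w, X)` are the different elements `y (x i)` (`yw_root`), and
`y (x i) ∈ F_Q` iff `y (act τ (x i)) = y (x i)` iff `act τ (x i) = x i` (`perm`, `yw_root`). So with `P` = number of the
`(w, x) ∈ F_Q ^ 2`, `w` good, `g(w, x) = 0`: `#G P = ∑_τ fix(τ) #Y_τ`, `fix(τ)` = number of the `i` with `act τ (x i) = x i`. By Burnside's lemma and `trans`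
`∑_τ fix(τ) = #G` (`MulAction.sum_card_fixedBy_eq_card_orbits_mul_card_group` for the action of `G` on the set of the `x i`). So
`#G |P - Q| ≤ ∑_τ fix(τ) |#Y_τ - Q| ≤ #G #G (δ + C₁ √Q)`. `0 ≤ npt g r - P ≤ N δ` (`N` points at most over each bad `w`; `g(w, X)` is monic of degree `N`).
`npt g r` counts the pairs `p` with `ev g p = 0`, `ev g (w, x)` is the value of `g.map (evK k w)` at `x`.
-/

set_option autoImplicit false

open Polynomial
open Pool.Agent.H3.FS

noncomputable section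

namespace H13.PC

/-- a field with `Q` elements in the algebraic closure -/
private theorem wg_FQ {K : Type} [Field K] [IsAlgClosed K] {p : ℕ} [CharP K p] {t : ℕ} (ht : t ≠ 0)
    (hp : p.Prime) : ∃ S : Finset K, S.card = p ^ t ∧ ∀ x, x ∈ S ↔ x ^ p ^ t = x := by
  classical
  have hQ : 1 < p ^ t := Nat.one_lt_pow ht hp.one_lt
  have h1 : (X ^ p ^ t - X : K[X]) ≠ 0 := FiniteField.X_pow_card_sub_X_ne_zero K hQ
  have h2 : (X ^ p ^ t - X : K[X]).natDegree = p ^ t := FiniteField.X_pow_card_sub_X_natDegree_eq K hQ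
  have h3 : (X ^ p ^ t - X : K[X]).Separable := galois_poly_separable p _ (dvd_pow_self p ht)
  refine ⟨(X ^ p ^ t - X : K[X]).roots.toFinset, ?_, fun x => ?_⟩
  · rw [Multiset.toFinset_card_of_nodup (nodup_roots h3), ←
      (IsAlgClosed.splits (X ^ p ^ t - X : K[X])).natDegree_eq_card_roots, h2]
  · rw [Multiset.mem_toFinset, mem_roots h1, IsRoot.def, eval_sub, eval_pow, eval_X, sub_eq_zero]

/-- the number of roots -/
private theorem wg_fib {E : Type} [Field E] [DecidableEq E] {P : E[X]} (hP : P ≠ 0) (S : Finset E) :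
    (S.filter fun x => P.eval x = 0).card ≤ P.natDegree := by
  have h1 : (S.filter fun x => P.eval x = 0) ⊆ P.roots.toFinset := by
    intro x hx
    rw [Multiset.mem_toFinset, mem_roots hP]
    exact (Finset.mem_filter.1 hx).2
  exact (Finset.card_le_card h1).trans ((Multiset.toFinset_card_le _).trans (card_roots' P))

/-- Burnside's lemma for a transitive action -/
private theorem wg_burn {G ι : Type} [Group G] [Fintype G] [DecidableEq G] [Fintype ι] [DecidableEq ι]
    [Nonempty ι] (s : G → ι → ι) (hs : ∀ a b i, s (a * b) i = s a (s b i)) (h1 : ∀ i, s 1 i = i)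
    (ht : ∀ i j, ∃ a, s a i = j) :
    ∑ a, (Finset.univ.filter fun i => s a i = i).card = Fintype.card G := by
  have hst : ∀ i j, (Finset.univ.filter fun a => s a i = j).card =
      (Finset.univ.filter fun a => s a i = i).card := by
    intro i j
    obtain ⟨b, hb⟩ := ht i j
    have hbi : s b⁻¹ j = i := by
      rw [← hb, ← hs, inv_mul_cancel, h1]
    refine Finset.card_bij (fun a _ => b⁻¹ * a) ?_ ?_ ?_
    · intro a ha
      rw [Finset.mem_filter] at ha ⊢
      exact ⟨Finset.mem_univ _, by rw [hs, ha.2, hbi]⟩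
    · intro a _ a' _ haa
      exact mul_left_cancel haa
    · intro a ha
      rw [Finset.mem_filter] at ha
      exact ⟨b * a, Finset.mem_filter.2 ⟨Finset.mem_univ _, by rw [hs, ha.2, hb]⟩,
        inv_mul_cancel_left _ _⟩
  have hsum : ∀ i, ∑ j, (Finset.univ.filter fun a => s a i = j).card = Fintype.card G := by
    intro i
    rw [← Finset.card_univ, Finset.card_eq_sum_card_fiberwise (f := fun a => s a i)
      (t := Finset.univ) (fun _ _ => Finset.mem_univ _)]
  have hst2 : ∀ i, Fintype.card ι * (Finset.univ.filter fun a => s a i = i).card = Fintype.card G := by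
    intro i
    rw [← hsum i, Finset.sum_congr rfl fun j _ => hst i j, Finset.sum_const, Finset.card_univ,
      smul_eq_mul]
  have hpos : 0 < Fintype.card ι := Fintype.card_pos
  have hdc : ∑ a, (Finset.univ.filter fun i => s a i = i).card =
      ∑ i, (Finset.univ.filter fun a => s a i = i).card := by
    simp only [Finset.card_filter]
    rw [Finset.sum_comm]
  apply Nat.eq_of_mul_eq_mul_left hpos
  rw [hdc, Finset.mul_sum, Finset.sum_congr rfl fun i _ => hst2 i, Finset.sum_const, Finset.card_univ,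
    smul_eq_mul]

/-- the estimate -/
private theorem wg_real {G : Type} [Fintype G] [Nonempty G] (S f : G → ℝ) {Q δ c W : ℝ}
    (hδ : 0 ≤ δ) (hc : 0 ≤ c) (hf : ∀ τ, 0 ≤ f τ) (hfs : ∑ τ, f τ = Fintype.card G)
    (hS : ∀ τ, S τ ≤ Q + c) (hSs : ∑ τ, S τ = Fintype.card G * W) (hW : Q - δ ≤ W) (P : ℝ)
    (hP : (Fintype.card G : ℝ) * P = ∑ τ, f τ * S τ) :
    |P - Q| ≤ Fintype.card G * (δ + c) := by
  classical
  obtain ⟨n, hn⟩ : ∃ n : ℝ, n = Fintype.card G := ⟨_, rfl⟩
  rw [← hn] at hfs hSs hP ⊢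
  have hn1 : 1 ≤ n := by
    rw [hn]
    exact_mod_cast (Fintype.card_pos : 0 < Fintype.card G)
  have hB : ∀ τ, |S τ - Q| ≤ n * (δ + c) := by
    intro τ
    have h1 : S τ + ∑ σ ∈ Finset.univ.erase τ, S σ = n * W := by
      rw [Finset.add_sum_erase _ _ (Finset.mem_univ τ), hSs]
    have h2 : ∑ σ ∈ Finset.univ.erase τ, S σ ≤ (n - 1) * (Q + c) := by
      refine (Finset.sum_le_card_nsmul _ _ _ fun σ _ => hS σ).trans (le_of_eq ?_)
      rw [Finset.card_erase_of_mem (Finset.mem_univ τ), Finset.card_univ, nsmul_eq_mul, hn,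
        Nat.cast_sub Fintype.card_pos, Nat.cast_one]
    have h3 : n * (Q - δ) ≤ n * W := mul_le_mul_of_nonneg_left hW (by linarith)
    have h4 := hS τ
    rw [abs_le]
    constructor
    · nlinarith
    · have : c ≤ n * (δ + c) := by nlinarith
      linarith
  have h5 : n * (P - Q) = ∑ τ, f τ * (S τ - Q) := by
    simp only [mul_sub]
    rw [Finset.sum_sub_distrib, ← Finset.sum_mul, hfs, ← hP]
  have h6 : n * |P - Q| ≤ n * (n * (δ + c)) := by
    calc n * |P - Q| = |n * (P - Q)| := by rw [abs_mul, abs_of_nonneg (by linarith : (0 : ℝ) ≤ n)]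
      _ = |∑ τ, f τ * (S τ - Q)| := by rw [h5]
      _ ≤ ∑ τ, |f τ * (S τ - Q)| := Finset.abs_sum_le_sum_abs _ _
      _ ≤ ∑ τ, f τ * (n * (δ + c)) := by
        refine Finset.sum_le_sum fun τ _ => ?_
        rw [abs_mul, abs_of_nonneg (hf τ)]
        exact mul_le_mul_of_nonneg_left (hB τ) (hf τ)
      _ = n * (n * (δ + c)) := by rw [← Finset.sum_mul, hfs]
  exact le_of_mul_le_mul_left h6 (by linarith)

theorem wg {k : Type} [Field k] [Finite k] {g : k[X][X]} {N : ℕ} (D : GD k g N) (hg : g.Monic)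
    (hN : g.natDegree = N) (hN0 : N ≠ 0) (d : k[X]) (hd : d ≠ 0)
    (hsep : ∀ w : AlgebraicClosure k, aeval w d ≠ 0 → (g.map (evK k w)).Separable) :
    ∃ C : ℝ, ∀ r : ℕ, r ≠ 0 → |(H13.TA.npt g r : ℝ) - (Nat.card k : ℝ) ^ r| ≤
      C * √((Nat.card k : ℝ) ^ r) := by
  classical
  letI := Fintype.ofFinite k
  obtain ⟨p, hpC⟩ := CharP.exists k
  obtain ⟨n, hp, hpn⟩ := FiniteField.card k p
  haveI : Fact p.Prime := ⟨hp⟩
  haveI : CharP (AlgebraicClosure k) p := charP_of_injective_algebraMap'  k p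
  haveI : CharP D.B p := charP_of_injective_algebraMap D.inj p
  haveI : Nonempty D.G := ⟨1⟩
  haveI : NeZero N := ⟨hN0⟩
  haveI : Nonempty (Fin N) := ⟨0⟩
  have hq : Nat.card k = p ^ (n : ℕ) := by rw [Nat.card_eq_fintype_card, hpn]
  obtain ⟨C₁, hC₁⟩ : ∃ C₁ : ℝ, C₁ = 6 * (Fintype.card D.G : ℝ) ^ 2 * D.h * p := ⟨_, rfl⟩
  have hC0 : 0 ≤ C₁ := by
    rw [hC₁]
    positivity
  refine ⟨Fintype.card D.G * (d.natDegree + C₁) + N * d.natDegree, fun r hr => ?_⟩
  obtain ⟨t, ht⟩ : ∃ t, t = (n : ℕ) * r := ⟨_, rfl⟩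
  have ht0 : t ≠ 0 := by
    rw [ht]
    exact mul_ne_zero n.ne_zero hr
  have hQ : Nat.card k ^ r = p ^ t := by rw [hq, ← pow_mul, ht]
  obtain ⟨FQ, hFc, hFm⟩ := wg_FQ (K := AlgebraicClosure k) (p := p) ht0 hp
  obtain ⟨σ, hσ⟩ : ∃ σ : AlgebraicClosure k →ₐ[k] AlgebraicClosure k, ∀ x, σ x = x ^ p ^ t :=
    ⟨FiniteField.frobeniusAlgHom k (AlgebraicClosure k) ^ r, fun x => by
      rw [AlgHom.coe_pow, FiniteField.coe_frobeniusAlgHom, pow_iterate, ← Nat.card_eq_fintype_card,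
        hQ]⟩
  -- counting over `w`
  obtain ⟨Pw, hPw⟩ : ∃ Pw : AlgebraicClosure k → ℕ,
      Pw = fun w => (FQ.filter fun x => (g.map (evK k w)).eval x = 0).card := ⟨_, rfl⟩
  have hnpt : H13.TA.npt g r = ∑ w ∈ FQ, Pw w := by
    have h1 : H13.TA.npt g r =
        ((FQ ×ˢ FQ).filter fun p => (g.map (evK k p.1)).eval p.2 = 0).card := by
      unfold H13.TA.npt
      rw [hQ]
      refine Nat.subtype_card _ fun x => ?_
      rw [Finset.mem_filter, Finset.mem_product, hFm, hFm, eval_map]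
      constructor
      · rintro ⟨⟨h1, h2⟩, h3⟩
        exact ⟨h3, h1, h2⟩
      · rintro ⟨h3, h1, h2⟩
        exact ⟨⟨h1, h2⟩, h3⟩
    rw [h1, Finset.card_filter, Finset.sum_product, hPw]
    refine Finset.sum_congr rfl fun w _ => ?_
    exact (Finset.card_filter _ _).symm
  have hPN : ∀ w, Pw w ≤ N := by
    intro w
    rw [hPw, ← hN, ← hg.natDegree_map (evK k w)]
    exact wg_fib (hg.map _).ne_zero FQ
  obtain ⟨Fg, hFg⟩ : ∃ Fg : Finset (AlgebraicClosure k), Fg = FQ.filter fun w => ¬ aeval w d = 0 :=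
    ⟨_, rfl⟩
  obtain ⟨Fb, hFb⟩ : ∃ Fb : Finset (AlgebraicClosure k), Fb = FQ.filter fun w => aeval w d = 0 :=
    ⟨_, rfl⟩
  have hcard : Fb.card + Fg.card = p ^ t := by
    rw [hFb, hFg, ← hFc]
    exact Finset.card_filter_add_card_filter_not _
  have hFbc : Fb.card ≤ d.natDegree := by
    have h1 : (d.map (algebraMap k (AlgebraicClosure k))) ≠ 0 := Polynomial.map_ne_zero hd
    have h2 := wg_fib h1 FQ
    rw [natDegree_map] at h2
    simp only [eval_map_algebraMap] at h2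
    rw [hFb]
    exact h2
  have hsplit : H13.TA.npt g r = ∑ w ∈ Fb, Pw w + ∑ w ∈ Fg, Pw w := by
    rw [hnpt, hFb, hFg, Finset.sum_filter_add_sum_filter_not]
  -- the points of the Galois closure
  obtain ⟨YF, hYF⟩ : ∃ YF : AlgebraicClosure k → Finset (D.B →+* AlgebraicClosure k),
      ∀ w y, y ∈ YF w ↔ y ∈ Yw D (AlgebraicClosure k) w :=
    ⟨fun w => (yw_fin D (K := AlgebraicClosure k) (w := w)).1.toFinset, fun w y => Set.Finite.mem_toFinset _⟩
  have hYFc : ∀ w ∈ Fg, (YF w).card = Fintype.card D.G := by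
    intro w hw
    rw [hFg, Finset.mem_filter] at hw
    rw [← yw_card D (K := AlgebraicClosure k) (hsep w hw.2), ← Set.ncard_coe_finset]
    congr 1
    ext y
    exact hYF w y
  obtain ⟨R, hR⟩ : ∃ R : (D.B →+* AlgebraicClosure k) → D.G → Prop,
      ∀ y τ, R y τ ↔ ∀ b, y b ^ p ^ t = y (D.sh τ b) := ⟨fun y τ => ∀ b, y b ^ p ^ t = y (D.sh τ b),
        fun y τ => Iff.rfl⟩
  have hex : ∀ w ∈ Fg, ∀ y ∈ YF w, ∃! τ, R y τ := by
    intro w hw y hy
    rw [hFg, Finset.mem_filter] at hw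
    rw [hYF] at hy
    have hwQ : w ^ p ^ t = w := (hFm w).1 hw.1
    have hy' : (σ : AlgebraicClosure k →+* AlgebraicClosure k).comp y ∈ Yw D (AlgebraicClosure k) w := by
      refine ⟨fun c => ?_, ?_⟩
      · rw [RingHom.comp_apply, hy.1 c]
        exact σ.commutes c
      · rw [RingHom.comp_apply, hy.2]
        exact (hσ w).trans hwQ
    have h1 : ∀ τ, R y τ ↔ (σ : AlgebraicClosure k →+* AlgebraicClosure k).comp y = y.comp (D.sh τ) := by
      intro τ
      rw [hR, RingHom.ext_iff]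
      refine forall_congr' fun b => ?_
      rw [← hσ]
      rfl
    obtain ⟨τ, h2, h3⟩ := yw_trans D (hsep w hw.2) hy hy'
    exact ⟨τ, (h1 τ).2 h2, fun τ' h4 => h3 τ' ((h1 τ').1 h4)⟩
  have hone : ∀ w ∈ Fg, ∀ y ∈ YF w, ∀ c : ℕ, (∑ τ, if R y τ then c else 0) = c := by
    intro w hw y hy c
    obtain ⟨τ, h1, h2⟩ := hex w hw y hy
    rw [Finset.sum_eq_single τ]
    · rw [if_pos h1]
    · intro τ' _ h3
      rw [if_neg fun h4 => h3 (h2 τ' h4)]
    · intro h3
      exact absurd (Finset.mem_univ _) h3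
  obtain ⟨Yt, hYt⟩ : ∃ Yt : D.G → Finset (D.B →+* AlgebraicClosure k),
      ∀ τ, Yt τ = Fg.biUnion fun w => (YF w).filter fun y => R y τ := ⟨_, fun τ => rfl⟩
  have hYtc : ∀ τ, (Yt τ).card = ∑ w ∈ Fg, ((YF w).filter fun y => R y τ).card := by
    intro τ
    rw [hYt]
    refine Finset.card_biUnion fun w _ w' _ hww => ?_
    change Disjoint _ _
    rw [Finset.disjoint_left]
    intro y h1 h2
    rw [Finset.mem_filter, hYF] at h1 h2
    exact hww (h1.1.2.symm.trans h2.1.2)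
  -- the permutations of the roots
  choose s hs using D.perm
  have hsm : ∀ a b i, s (a * b) i = s a (s b i) := by
    intro a b i
    apply D.xinj
    rw [← hs, map_mul, AlgEquiv.mul_apply, hs, hs]
  have hs1 : ∀ i, s 1 i = i := by
    intro i
    apply D.xinj
    rw [← hs, map_one, AlgEquiv.one_apply]
  have hst : ∀ i j, ∃ a, s a i = j := by
    intro i j
    obtain ⟨a, ha⟩ := D.trans i j
    refine ⟨a, D.xinj ?_⟩
    rw [← hs, ha]
  obtain ⟨fx, hfx⟩ : ∃ fx : D.G → ℕ, ∀ τ, fx τ = (Finset.univ.filter fun i => s τ i = i).card :=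
    ⟨_, fun τ => rfl⟩
  have hburn : ∑ τ, fx τ = Fintype.card D.G := by
    simp only [hfx]
    exact wg_burn s hsm hs1 hst
  have hfix : ∀ w ∈ Fg, ∀ y ∈ YF w, ∀ τ, R y τ → fx τ = Pw w := by
    intro w hw y hy τ hτ
    rw [hFg, Finset.mem_filter] at hw
    rw [hYF] at hy
    obtain ⟨h1, h2⟩ := yw_root D hy (hsep w hw.2)
    have h3 : ∀ i, y (D.x i) ^ p ^ t = y (D.x (s τ i)) := by
      intro i
      rw [(hR y τ).1 hτ]
      change y (D.act τ (D.x i)) = _
      rw [hs]
    have h4 : (FQ.filter fun x => (g.map (evK k w)).eval x = 0) =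
        (Finset.univ.filter fun i => s τ i = i).image fun i => y (D.x i) := by
      ext x
      rw [Finset.mem_filter, Finset.mem_image, hFm, h1, eval_prod, Finset.prod_eq_zero_iff]
      constructor
      · rintro ⟨h5, i, -, h6⟩
        rw [eval_sub, eval_X, eval_C, sub_eq_zero] at h6
        refine ⟨i, ?_, h6.symm⟩
        rw [Finset.mem_filter]
        refine ⟨Finset.mem_univ _, h2 ?_⟩
        change y (D.x (s τ i)) = y (D.x i)
        rw [← h3, ← h6, h5]
      · rintro ⟨i, h5, rfl⟩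
        rw [Finset.mem_filter] at h5
        refine ⟨?_, i, Finset.mem_univ _, ?_⟩
        · rw [h3, h5.2]
        · rw [eval_sub, eval_X, eval_C, sub_self]
    rw [hPw]
    change _ = (FQ.filter fun x => (g.map (evK k w)).eval x = 0).card
    rw [h4, Finset.card_image_of_injective _ h2, hfx]
  -- the sums
  have hSs : ∑ τ, (Yt τ).card = Fintype.card D.G * Fg.card := by
    simp only [hYtc]
    rw [Finset.sum_comm]
    have h1 : ∀ w ∈ Fg, ∑ τ, ((YF w).filter fun y => R y τ).card = Fintype.card D.G := by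
      intro w hw
      simp only [Finset.card_filter]
      rw [Finset.sum_comm, Finset.sum_congr rfl fun y hy => hone w hw y hy 1, Finset.sum_const,
        smul_eq_mul, mul_one, hYFc w hw]
    rw [Finset.sum_congr rfl h1, Finset.sum_const, smul_eq_mul, mul_comm]
  have hPs : Fintype.card D.G * ∑ w ∈ Fg, Pw w = ∑ τ, fx τ * (Yt τ).card := by
    simp only [hYtc, Finset.mul_sum]
    rw [Finset.sum_comm]
    refine Finset.sum_congr rfl fun w hw => ?_
    have h1 : ∀ τ, fx τ * ((YF w).filter fun y => R y τ).card =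
        ∑ y ∈ YF w, if R y τ then Pw w else 0 := by
      intro τ
      rw [Finset.card_filter, Finset.mul_sum]
      refine Finset.sum_congr rfl fun y hy => ?_
      split_ifs with h2
      · rw [mul_one, hfix w hw y hy τ h2]
      · rw [mul_zero]
    rw [Finset.sum_congr rfl fun τ _ => h1 τ, Finset.sum_comm,
      Finset.sum_congr rfl fun y hy => hone w hw y hy (Pw w), Finset.sum_const, smul_eq_mul,
      hYFc w hw]
  have hub : ∀ τ, ((Yt τ).card : ℝ) ≤ (p : ℝ) ^ t + C₁ * √((p : ℝ) ^ t) := by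
    intro τ
    rw [hC₁]
    refine bspT (K := AlgebraicClosure k) D.hh D.c (D.sh τ) (fun i => D.conj τ i) ?_ ht0 (Yt τ) ?_ ?_
    · exact (D.act τ).commutes X
    · intro y hy c
      rw [hYt, Finset.mem_biUnion] at hy
      obtain ⟨w, -, hy⟩ := hy
      rw [Finset.mem_filter, hYF] at hy
      exact hy.1.1 c
    · intro y hy b
      rw [hYt, Finset.mem_biUnion] at hy
      obtain ⟨w, -, hy⟩ := hy
      rw [Finset.mem_filter, hYF] at hy
      exact (hR y τ).1 hy.2 b
  have hmain := wg_real (fun τ => ((Yt τ).card : ℝ)) (fun τ => (fx τ : ℝ)) (Q := (p : ℝ) ^ t)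
    (δ := (d.natDegree : ℝ)) (c := C₁ * √((p : ℝ) ^ t)) (W := (Fg.card : ℝ)) (Nat.cast_nonneg _)
    (by positivity) (fun τ => Nat.cast_nonneg _) (by exact_mod_cast hburn) hub
    (by exact_mod_cast hSs) (by
      have h1 : (Fb.card : ℝ) + Fg.card = (p : ℝ) ^ t := by exact_mod_cast hcard
      have h2 : (Fb.card : ℝ) ≤ d.natDegree := by exact_mod_cast hFbc
      linarith) (∑ w ∈ Fg, (Pw w : ℝ)) (by exact_mod_cast hPs)
  have hbad : (∑ w ∈ Fb, (Pw w : ℝ)) ≤ N * d.natDegree := by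
    have h1 : ∑ w ∈ Fb, Pw w ≤ N * d.natDegree := by
      refine (Finset.sum_le_card_nsmul _ _ _ fun w _ => hPN w).trans ?_
      rw [smul_eq_mul, mul_comm]
      exact Nat.mul_le_mul_left _ hFbc
    exact_mod_cast h1
  have hbad0 : 0 ≤ ∑ w ∈ Fb, (Pw w : ℝ) := Finset.sum_nonneg fun w _ => Nat.cast_nonneg _
  have hqr : (Nat.card k : ℝ) ^ r = (p : ℝ) ^ t := by exact_mod_cast hQ
  rw [hqr, hsplit]
  push_cast
  obtain ⟨A, hA⟩ : ∃ A, A = √((p : ℝ) ^ t) := ⟨_, rfl⟩
  rw [← hA] at hmain ⊢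
  have hA1 : 1 ≤ A := by
    rw [hA, Real.one_le_sqrt]
    exact one_le_pow₀ (by exact_mod_cast hp.one_le)
  have h1 : |∑ w ∈ Fb, (Pw w : ℝ) + ∑ w ∈ Fg, (Pw w : ℝ) - (p : ℝ) ^ t| ≤
      N * d.natDegree + Fintype.card D.G * (d.natDegree + C₁ * A) := by
    rw [abs_le] at hmain ⊢
    constructor <;> linarith [hmain.1, hmain.2]
  refine h1.trans ?_
  have hn0 : (0 : ℝ) ≤ (N : ℝ) * d.natDegree := by positivity
  have hd0 : (0 : ℝ) ≤ (Fintype.card D.G : ℝ) * d.natDegree := by positivity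
  have e1 : (N : ℝ) * d.natDegree ≤ (N : ℝ) * d.natDegree * A := le_mul_of_one_le_right hn0 hA1
  have e2 : (Fintype.card D.G : ℝ) * d.natDegree ≤ (Fintype.card D.G : ℝ) * d.natDegree * A :=
    le_mul_of_one_le_right hd0 hA1
  calc (N : ℝ) * d.natDegree + Fintype.card D.G * (d.natDegree + C₁ * A)
      = (N : ℝ) * d.natDegree + Fintype.card D.G * d.natDegree + Fintype.card D.G * C₁ * A := by ring
    _ ≤ (N : ℝ) * d.natDegree * A + Fintype.card D.G * d.natDegree * A +
        Fintype.card D.G * C₁ * A := by linarith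
    _ = _ := by ring

end H13.PC
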